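import Pool.Agent.OE.Defs
import Pool.Agent.OB.StI

/-!
# OE (helper79): `CaseG`, `SetG`: the hypotheses `CaseO`, `SetO` of `OB/Defs0.lean` without the conditions `absD ≠ 3`, `absD ≠ 4`

They follow from `CaseO` / `SetO` and (with `er = 1`) from `CaseOE` / `SetOE`. Statements of `OB` on `P`, `V` only (BAS, PRF, TEI, EPS): the same texts with `CaseG`, `SetG`; the proofs in `OB` do not use `ex3`, `ex4`
(copy the file, `CaseO` → `CaseG`, `SetO` → `SetG`).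
-/

set_option autoImplicit false

namespace Pool.Agent.OE

open _root_.MU3 Pool.Agent.MU3A Pool.Agent.MU3B Pool.Agent.RI Pool.Agent.MUX Pool.Agent.ME
  Pool.Agent.NS Pool.Agent.OB

noncomputable section

/-- the hypotheses on `p`, `k`, `P`, `V`; `er` is the ramification index -/
structure CaseG (p er : ℕ) (A B : ℤ) (P : Ideal (OO A B)) (V : ValuationSubring ℂ) : Prop where
  cq : CQ A B
  pp : p.Prime
  p5 : 5 ≤ p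
  prime : P.IsPrime
  mem : ((p : ℕ) : OO A B) ∈ P
  ram : (er = 1 ∧ ((p : ℕ) : OO A B) ∉ P ^ 2) ∨ (er = 2 ∧ ((p : ℕ) : OO A B) ∈ P ^ 2)
  hV : OverI V P

/-- the standing hypotheses -/
structure SetG (p er : ℕ) (A B : ℤ) (P : Ideal (OO A B)) (V : ValuationSubring ℂ) (f : ℕ) : Prop
    extends CaseG p er A B P V where
  f0 : f ≠ 0
  fp : ¬ p ∣ f
  f12 : 12 ∣ f
  fD : 2 * absD A B ∣ ((p * f : ℕ) : ℤ)

variable {p er : ℕ} {A B : ℤ} {P : Ideal (OO A B)} {V : ValuationSubring ℂ} {f : ℕ}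

lemma CaseO_toG (h : CaseO p er A B P V) : CaseG p er A B P V :=
  ⟨h.cq, h.pp, h.p5, h.prime, h.mem, h.ram, h.hV⟩

lemma CaseOE.toG (h : CaseOE p A B P V) : CaseG p 1 A B P V :=
  ⟨h.toCQ, h.pp, h.p5, h.prime, h.mem, Or.inl ⟨rfl, h.unr⟩, h.hV⟩

lemma SetO_toG (h : SetO p er A B P V f) : SetG p er A B P V f :=
  ⟨CaseO_toG h.toCaseO, h.f0, h.fp, h.f12, h.fD⟩

lemma SetOE.toG (h : SetOE p A B P V f) : SetG p 1 A B P V f :=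
  ⟨h.toCaseOE.toG, h.f0, h.fp, h.f12, h.fD⟩

lemma SetG.f6 (h : SetG p er A B P V f) : 6 ∣ f ∧ 12 ≤ f :=
  ⟨(by norm_num : 6 ∣ 12).trans h.f12, Nat.le_of_dvd (Nat.pos_of_ne_zero h.f0) h.f12⟩

lemma CaseG.not_le (h : CaseG p er A B P V) {m : Ideal (OO A B)} (hm : IsCoprime m P) :
    ¬ m ≤ P := by
  intro h1
  have h2 := Ideal.isCoprime_iff_sup_eq.1 hm
  rw [sup_eq_right.2 h1] at h2
  exact h.prime.ne_top h2

/-- (BAS) `So_BAS` for `CaseG` -/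
def S_BASG : Prop :=
  ∀ (p er : ℕ) (A B : ℤ) (P : Ideal (OO A B)) (V : ValuationSubring ℂ), CaseG p er A B P V →
    V.valuation (p : ℂ) < 1 ∧ V.valuation (2 : ℂ) = 1 ∧ P.IsMaximal ∧
    (∀ x : OO A B, V.valuation (emb x) ≤ 1) ∧ (∀ x : OO A B, V.valuation (emb x) < 1 ↔ x ∈ P) ∧
    (∀ n : ℕ, ¬ p ∣ n → V.valuation (n : ℂ) = 1) ∧
    (nI P = p ∨ nI P = p ^ 2) ∧ ¬ p ∣ nI P - 1 ∧ 4 ≤ nI P - 1 ∧
    (∃ y : OO A B, (∀ x ∈ P, ∃ z, x * y = (p : OO A B) * z) ∧ ∀ z, y ≠ (p : OO A B) * z) ∧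
    IsCoprime (Pc P) P ∧ idl (A := A) (B := B) p = Pc P * P ^ er

/-- (PRF) `Oi_PRF` for `CaseG` -/
def S_PRFG : Prop :=
  ∀ (p er : ℕ) (A B : ℤ) (P : Ideal (OO A B)) (V : ValuationSubring ℂ), CaseG p er A B P V →
    (∀ c : ℤ, (c : OO A B) ∈ P ↔ (p : ℤ) ∣ c) ∧
    (∀ x ∈ P, V.valuation (emb x) ^ er ≤ V.valuation (p : ℂ)) ∧
    (∀ x ∉ P, x ^ (nI P - 1) - 1 ∈ P) ∧
    (∃ g ∉ P, ∀ x ∉ P, ∃ k : ℕ, x - g ^ k ∈ P) ∧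
    ∃ m : ℕ, er * (nI P - 1) = m * (p - 1) ∧ m ∣ nI P - 1 ∧ 1 ≤ m ∧ 2 * m + 1 ≤ nI P ∧
      ∀ x : OO A B, x - 1 ∈ Pc P → x ∉ P → ((nm x : ℤ) : OO A B) - x ^ m ∈ P

/-- (TEI) `Oi_TEI` for `CaseG` -/
def S_TEIG : Prop :=
  ∀ (p er : ℕ) (A B : ℤ) (P : Ideal (OO A B)) (V : ValuationSubring ℂ), CaseG p er A B P V →
    ∃ w : OO A B → ℂ, IsTeiP p er P V w

/-- (EPS) `Oi_EPS` for `SetG`, with the formula for `e` -/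
def S_EPSG : Prop :=
  ∀ (p er : ℕ) (A B : ℤ) (P : Ideal (OO A B)) (V : ValuationSubring ℂ) (f : ℕ)
    (_ : SetG p er A B P V f) (w : OO A B → ℂ) (_ : IsTeiP p er P V w)
    (e0 : OO A B → ℂ) (r : ℕ) (_ : ¬ p ∣ r)
    (_ : e0 1 = 1) (_ : e0 (-1) = 1) (_ : ∀ x y, e0 (x * y) = e0 x * e0 y)
    (_ : ∀ x y, x - y ∈ idl (A := A) (B := B) (lvX p f 0) → e0 x = e0 y)
    (_ : ∀ x, e0 x ≠ 0 ↔ IsCoprime x ((lvX p f 0 : ℕ) : OO A B))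
    (_ : ∀ x, e0 x ≠ 0 → e0 x ^ r = 1),
    ∃ (e : OO A B → ℂ) (s : ℤ) (i : ℕ) (t : ℤ → ℂ),
      IsEI (idl (A := A) (B := B) (p * f)) e ∧ (s = 1 ∨ s = -1) ∧
      er * (nI P - 1) ≤ i * (p - 1) ∧ i ≤ nI P - 2 ∧
      (∀ x, x - 1 ∈ gO P f → x ∉ P → e x = w x ^ i) ∧
      (∀ x, e x ≠ 0 → e x ^ ((nI P - 1) * r) = 1) ∧
      (∀ a b : ℤ, t (a * b) = t a * t b) ∧ (∀ a b : ℤ, (p : ℤ) ∣ a - b → t a = t b) ∧
      t 1 = 1 ∧ t (-1) = s ∧ (∀ a : ℤ, ¬ (p : ℤ) ∣ a → t a ^ (nI P - 1) = 1) ∧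
      ∀ x, IsCoprime x ((lvX p f 0 : ℕ) : OO A B) → e0 x * w x = e x * t (nm x)

end

end Pool.Agent.OE
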