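import Pool.Agent.ME.DefsE2
import Pool.Agent.OT.StHB

/-!
# OE: the exceptional fields `ℚ(i)`, `ℚ(√-3)` for every prime `p ≥ 5` (Theorem T+ without the hypothesis on `k`): common definitions (helper59)

Pattern: `OB`/`OT` is to `NS` as `OE` is to `ME`. The frame (`CaseE`, `TorXE`, `RepsE`, `RFE`, `IsNE`, `XXE`, `cXE`, `muXE`, `TTNE`, `TTEE`, `STXE`, `PhiKE`, `IsEIE`, `rE`) is the one of `ME/DefsE.lean`, which does not
depend on `p`. `p ≥ 5` is unramified in both fields, so there is no `er` (`er = 1` everywhere): `P` is a prime of `O` with `p ∈ P`, `p ∉ P²` (split or inert), below the valuation ring `V` of `ℂ`.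
From `OB/Defs0.lean`, `OT/Defs.lean` we use `Pc P`, `gO P f`, `GoodL V L u e lam`, `IsTeiP p 1 P V w`, `IsZ0`, `IsTw`, `HypT`, `PV`, `Yh`, `coT`.
There is one ideal class; all sums are written over a finite type `ι` with `RepsE A B (p * f) ι` as in `ME`. All levels are even (`12 ∣ f`). `rE A B = |O^*|/2` is `2` or `3`, a unit at `V`:
the sums `SnXE`, `STXE` run over all `x` modulo `m`, the sets `XXE` over the `x ≡ 1` modulo `2` (`ME/X`, `ME/N`: `Sn_TH_E` has the factor `rE A B`).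

RULE: files in `Pool/Agent/OE` import the original files (`MU3`, `MUX`, `NS`, `ME`, `OB`, `OT`, ..), never `Pool.Agent.MVF`, `OBM`, `OTM`, `OUM`.
-/

set_option autoImplicit false

namespace Pool.Agent.OE

open _root_.MU3 _root_.Pool.Agent.MU3A _root_.Pool.Agent.MU3B _root_.Pool.Agent.RI
  _root_.Pool.Agent.MUX _root_.Pool.Agent.NS _root_.Pool.Agent.ME _root_.Pool.Agent.MuSym
  _root_.Pool.Agent.OB _root_.Pool.Agent.OBH _root_.Pool.Agent.OT OnePoint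
open _root_.Pool.Agent.TWR (Gen)

noncomputable section

/-- the hypotheses on `p`, `k`, `P`, `V` -/
structure CaseOE (p : ℕ) (A B : ℤ) (P : Ideal (OO A B)) (V : ValuationSubring ℂ) : Prop
    extends CaseE A B where
  pp : p.Prime
  p5 : 5 ≤ p
  prime : P.IsPrime
  mem : ((p : ℕ) : OO A B) ∈ P
  unr : ((p : ℕ) : OO A B) ∉ P ^ 2
  hV : OverI V P

/-- the standing hypotheses -/
structure SetOE (p : ℕ) (A B : ℤ) (P : Ideal (OO A B)) (V : ValuationSubring ℂ) (f : ℕ) : Prop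
    extends CaseOE p A B P V where
  f0 : f ≠ 0
  fp : ¬ p ∣ f
  f12 : 12 ∣ f
  fD : 2 * absD A B ∣ ((p * f : ℕ) : ℤ)

lemma SetOE.f6 {p : ℕ} {A B : ℤ} {P : Ideal (OO A B)} {V : ValuationSubring ℂ} {f : ℕ}
    (h : SetOE p A B P V f) : 6 ∣ f ∧ 12 ≤ f :=
  ⟨(by norm_num : 6 ∣ 12).trans h.f12, Nat.le_of_dvd (Nat.pos_of_ne_zero h.f0) h.f12⟩

lemma SetOE.f2 {p : ℕ} {A B : ℤ} {P : Ideal (OO A B)} {V : ValuationSubring ℂ} {f : ℕ}
    (h : SetOE p A B P V f) : 2 ∣ f := (by norm_num : 2 ∣ 12).trans h.f12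

lemma CaseOE.not_le {p : ℕ} {A B : ℤ} {P : Ideal (OO A B)} {V : ValuationSubring ℂ}
    (h : CaseOE p A B P V) {m : Ideal (OO A B)} (hm : IsCoprime m P) : ¬ m ≤ P := by
  intro h1
  have h2 := Ideal.isCoprime_iff_sup_eq.1 hm
  rw [sup_eq_right.2 h1] at h2
  exact h.prime.ne_top h2

/-- the field `D` is in `k(x(E[f p^(n+1)]))` -/
def InRFE {A B : ℤ} (p f n : ℕ) (D : IntermediateField ℚ ℂ) : Prop :=
  ∀ y ∈ D, y ∈ RFE (idl (A := A) (B := B) (lvX p f n))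

/-- the input from block E for one field `D` (twin of `EInpO`) -/
structure EInpOE {A B : ℤ} (p : ℕ) (P : Ideal (OO A B)) (V : ValuationSubring ℂ) (f : ℕ)
    {ι : Type} (R : RepsE A B (p * f) ι) (u : ℂ) (n : ℕ) {D : IntermediateField ℚ ℂ}
    (h : kk A B ≤ D) (C : (letI := algC h; D ≃ₐ[kk A B] D) → ℂ) : Prop where
  ne : C (letI := algC h; 1) ≠ 0
  conj : letI := algC h
    ∀ τ : D ≃ₐ[kk A B] D, ∃ y : D, (y : ℂ) = C 1 ∧ ((τ y : D) : ℂ) = C τ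
  ew : letI := algC h
    ∀ w : OO A B → ℂ, IsTeiP p 1 P V w → ∀ g : (D ≃ₐ[kk A B] D) → ℤ,
      (∃ y ∈ D, y ^ p = ∏ᶠ τ : D ≃ₐ[kk A B] D, C τ ^ g τ) → ∀ τ' : D ≃ₐ[kk A B] D,
        V.valuation ((∑ᶠ τ : D ≃ₐ[kk A B] D, (g τ : ℂ) *
          TTNE R w (lvX p f n) (aX p f) h (τ * τ')) / u) ≤ V.valuation (p : ℂ)

/-! ## Final statements of the blocks -/

/-- (RFINE, block R) good models of the normalised lattices (`D = -4`: `y² = x³ - x`, `u = 1`, `e = 0`, `lam = -1`; `D = -3`: `y² = x³ + 1`, `u²` = a difference of two cube roots of `-1`),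
with `u², e, lam` in `k`, so in `RFE (2)`; and: an automorphism which is in the inertia group of `RFE m` at `V`, `m` an EVEN ideal not contained in `P`, is trivial on `RFE m`. -/
def O_RFINE : Prop :=
  ∀ (p : ℕ) (A B : ℤ) (P : Ideal (OO A B)) (V : ValuationSubring ℂ), CaseOE p A B P V →
    TorXE A B →
    (∀ (b : Ideal (OO A B)) (L : PeriodPair) (om : ℂ), IsNE b L om →
      ∃ u e lam : ℂ, GoodL V L u e lam ∧ u ^ 2 ∈ RFE (idl (A := A) (B := B) 2) ∧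
        e ∈ RFE (idl (A := A) (B := B) 2) ∧ lam ∈ RFE (idl (A := A) (B := B) 2)) ∧
    ∀ m : Ideal (OO A B), m ≠ ⊥ → m ≤ idl 2 → ¬ m ≤ P → ∀ σ : ℂ ≃+* ℂ, FixK A B σ →
      (∀ y ∈ RFE m, y ∈ V → σ y - y ∈ V.nonunits) → ∀ y ∈ RFE m, σ y = y

/-- (EFINE, block E) `p`-th powers have a logarithmic derivative divisible by `p`. -/
def O_EFINE : Prop :=
  ∀ (p : ℕ) (A B : ℤ) (P : Ideal (OO A B)) (V : ValuationSubring ℂ) (f : ℕ),
    SetOE p A B P V f → TorXE A B →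
    ∀ (ι : Type) [Fintype ι] (R : RepsE A B (p * f) ι) (u e lam : ℂ),
    GoodL V (R.L R.i0) u e lam → ∀ w : OO A B → ℂ, IsTeiP p 1 P V w →
    ∀ n : ℕ, 1 ≤ n →
    ∀ (H : ι → Finset ℂ), (∀ i, IsHalf (R.L i) (aX p f : ℂ) (H i)) →
    ∀ (D : IntermediateField ℚ ℂ) (h : kk A B ≤ D), InRFE (A := A) (B := B) p f n D →
    letI := algC h
    (∀ τ : D ≃ₐ[kk A B] D, ∃ y : D, (y : ℂ) = cXE R (lvX p f n) H h 1 ∧
      ((τ y : D) : ℂ) = cXE R (lvX p f n) H h τ) →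
    ∀ g : (D ≃ₐ[kk A B] D) → ℤ,
      (∃ y ∈ D, y ^ p = ∏ᶠ τ : D ≃ₐ[kk A B] D, cXE R (lvX p f n) H h τ ^ g τ) →
      ∀ τ' : D ≃ₐ[kk A B] D,
        V.valuation ((∑ᶠ τ : D ≃ₐ[kk A B] D, (g τ : ℂ) *
          TTNE R w (lvX p f n) (aX p f) h (τ * τ')) / u) ≤ V.valuation (p : ℂ)

/-- (TYFE, block T) TYPE, one family of weights. -/
def O_TYFE : Prop :=
  ∀ (p : ℕ) (A B : ℤ) (P : Ideal (OO A B)) (V : ValuationSubring ℂ) (f : ℕ),
    SetOE p A B P V f → TorXE A B →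
    ∀ (ι : Type) [Fintype ι] (R : RepsE A B (p * f) ι) (u el lam : ℂ),
    GoodL V (R.L R.i0) u el lam → ∀ w : OO A B → ℂ, IsTeiP p 1 P V w →
    ∀ e : OO A B → ℂ, IsEIE (idl (A := A) (B := B) (p * f)) e → ∀ r : ℕ, ¬ p ∣ r →
    (∀ x, e x ≠ 0 → e x ^ r = 1) → ∀ i : ℕ,
    (∀ x, x - 1 ∈ gO P f → x ∉ P → e x = w x ^ i) →
    ∀ kk : ι → ℂ, (∀ i, kk i ^ r = 1) →
    ∃ (pi : ℂ) (KI : Subfield ℂ),
      (∀ x y : OnePoint ℚ, ∃ w' ∈ KI, PhiKE R e kk x y / (u * R.om R.i0) = pi * w') ∧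
      (∀ w' ∈ KI, V.valuation w' < 1 → V.valuation w' ≤ V.valuation (p : ℂ)) ∧
      V.valuation pi ^ (nI P - 1) * V.valuation (p : ℂ) ^ i = 1

/-- (GPTE, block G) Theorem G for `PT p (PhiKE R e kk / (u om_0))`, `t = 1/p³`. -/
def O_GPTE : Prop :=
  ∀ (p : ℕ) (A B : ℤ) (P : Ideal (OO A B)) (V : ValuationSubring ℂ) (f : ℕ),
    SetOE p A B P V f → TorXE A B →
    ∀ (ι : Type) [Fintype ι] (R : RepsE A B (p * f) ι) (u el lam : ℂ),
    GoodL V (R.L R.i0) u el lam → ∀ e : OO A B → ℂ, IsEIE (idl (A := A) (B := B) (p * f)) e →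
    ∀ r : ℕ, r ≠ 0 → (∀ x, e x ≠ 0 → e x ^ r = 1) → ∀ kk : ι → ℂ, V.valuation (kk R.i0) = 1 →
    ∀ N' : ℕ, N' ≠ 0 → absD A B * ((p * f : ℕ) : ℤ) ^ 2 ∣ (N' : ℤ) →
    ∃ a b c d : ℤ, a * d - b * c = 1 ∧ (N' : ℤ) ∣ c ∧ (N' : ℤ) ∣ d - 1 ∧
      V.valuation (p : ℂ) ≤
        V.valuation (Pool.Agent.OBH.PT p (fun x y => PhiKE R e kk x y / (u * R.om R.i0)) ∞
          (mob a b c d ∞)) ^ ((p - 1) * p ^ 2)

/-! ## Theta series (twins of `OT/Defs.lean`) -/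

/-- the representatives for the level `f l^r`, `l ∣ f` -/
def RLE {A B : ℤ} {p f : ℕ} {ι : Type} (R : RepsE A B (p * f) ι) (l r : ℕ) (hl : l ∣ f) :
    RepsE A B (p * (f * l ^ r)) ι :=
  { R with
    cop := fun i => by
      have h := R.cop i
      have h1 : (nI (R.b i)).Coprime f := Nat.Coprime.coprime_mul_left_right h
      have h2 : (nI (R.b i)).Coprime p := Nat.Coprime.coprime_mul_right_right h
      have h3 : (nI (R.b i)).Coprime l := Nat.Coprime.coprime_dvd_right hl h1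
      exact h2.mul_right (h1.mul_right (h3.pow_right r)) }

/-- the symbol `Φ + s ι^* Φ`, divided by the period `u om_0` (the `Q k` of `HypT`, for every `k`) -/
def QTE {A B : ℤ} {n : ℕ} {ι : Type} [Fintype ι] (R : RepsE A B n ι) (e : OO A B → ℂ)
    (kk : ι → ℂ) (s u : ℂ) (x y : OnePoint ℚ) : ℂ :=
  (PhiKE R e kk x y + s * PhiKE R e kk (mob (-1) 0 0 1 x) (mob (-1) 0 0 1 y)) /
    (u * R.om R.i0)

/-- `Σ_k t(z₀^k) STXE (z₀^k c)` (twin of `OT.SG`) -/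
def SGX {A B : ℤ} {n : ℕ} {ι : Type} [Fintype ι] (p : ℕ) (R : RepsE A B n ι) (m M a : ℕ)
    (e : OO A B → ℂ) (kk : ι → ℂ) (t : ℤ → ℂ) (z₀ c : ℤ) : ℂ :=
  ∑ k ∈ Finset.range (p - 1), t (z₀ ^ k) * STXE R m M a e kk (z₀ ^ k * c)

/-- (HETAE) THE RESULT of the blocks H, HB (twin of `OT.O_HETA`); the sums are over ALL `x` modulo `m`. -/
def O_HETAE : Prop :=
  ∀ (p : ℕ) (A B : ℤ) (P : Ideal (OO A B)) (V : ValuationSubring ℂ) (f : ℕ),
    SetOE p A B P V f → TorXE A B →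
    ∀ (ι : Type) [Fintype ι] (R : RepsE A B (p * f) ι) (u el lam : ℂ),
    GoodL V (R.L R.i0) u el lam → ∀ w : OO A B → ℂ, IsTeiP p 1 P V w →
    ∀ e : OO A B → ℂ, IsEIE (idl (A := A) (B := B) (p * f)) e → ∀ r₁ : ℕ, ¬ p ∣ r₁ →
    (∀ x, e x ≠ 0 → e x ^ r₁ = 1) → ∀ i : ℕ, nI P - 1 ≤ i * (p - 1) → i ≤ nI P - 2 →
    (∀ x, x - 1 ∈ gO P f → x ∉ P → e x = w x ^ i) →
    ∀ t : ℤ → ℂ, IsTw p (nI P - 1) t → ∀ kk : ι → ℂ, (∀ i, kk i ^ r₁ = 1) →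
    ∀ (l g h : ℕ), Gen l g h → ∀ (hl : l ∣ f) (n : ℕ), 5 ≤ n → ∀ z₀ : ℤ, IsZ0 p n z₀ →
    ∃ r₀ : ℕ, ∀ r, r₀ ≤ r → ∀ ψ : DirichletCharacter ℂ (l ^ r), ψ (-1) = 1 →
      ψ (1 + (l : ZMod (l ^ r)) ^ (r - 1)) ≠ 1 → ∃ k' : ℕ,
        V.valuation (p : ℂ) < V.valuation ((∑ j ∈ Finset.range 2, (-1) ^ (1 - j) *
          SGX p (RLE R l r hl) (lvX p (f * l ^ r) n) (p ^ (n + 1)) (aX p (f * l ^ r))
            (fun x => e x * ψ (nm x)) (fun i => kk i * ψ ((nI (R.b i) : ℕ))) t z₀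
            ((1 + (p : ℤ)) ^ (k' + j))) / u)

end

end Pool.Agent.OE
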