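import Pool.Agent.OE.StE
import Pool.Agent.ME.X_TRA
import Pool.Agent.ME.X_TRB
import Pool.Agent.ME.X_FAC
import Pool.Agent.ME.X_GTH
import Pool.Agent.ME.X_PT
import Pool.Agent.ME.X_GAL
import Pool.Agent.OE.E_BAS

/-!
# OE, block E (port of `OB/E_CFA.lean`): CFA, the ideals `P` and `Pc P` (helper96)
-/

set_option autoImplicit false

namespace Pool.Agent.OEE

open _root_.MU3 _root_.Pool.Agent.MU3A _root_.Pool.Agent.MU3B _root_.Pool.Agent.MUX
open _root_.Pool.Agent.RI _root_.Pool.Agent.NS _root_.Pool.Agent.OB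
open _root_.Pool.Agent.ME hiding ActE
open _root_.Pool.Agent.MEE
open _root_.Pool.Agent.OBE (SP Ann Ker0 PtsO RepO Cp lv0 Sb_ALG Sb_PRO Sb_PUL Sb_COE Sb_GRN Sb_LEG Sb_TNC Sb_GEN Sb_UNT Sb_RAT Sb_KIS Sb_NE1 Sb_DSM)

theorem tb_CFAE : Sb_CFAE := by
  intro p er A B P V h
  obtain ⟨-, -, hmax, -, -, -, hnP, -, h4, -, hcop, hidl⟩ :=
    tb_BASE p er A B P V h
  have hq := h.cq
  have hded : IsDedekindDomain (OO A B) := (Pool.Agent.MUXE.te_RNG A B hq).ded
  have hp0 : ((p : ℕ) : OO A B) ≠ 0 := natCast_ne_zero' hq h.pp.ne_zero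
  have hPb : P ≠ ⊥ := fun e => hp0 (by simpa [e] using h.mem)
  have hib : idl (A := A) (B := B) p ≠ ⊥ := fun e => hp0 (Ideal.span_singleton_eq_bot.1 e)
  have hPc : Pc P ≠ ⊥ := fun e => hib (by rw [hidl, e, Ideal.bot_mul])
  have hPe : P ^ er ≠ ⊥ := fun e => hib (by rw [hidl, e, Ideal.mul_bot])
  have hnp : nI (idl (A := A) (B := B) p) = p ^ 2 := by
    have h1 := nI_sp hq hp0
    rw [show idl (A := A) (B := B) p = sp ((p : ℕ) : OO A B) from rfl, h1]
    have h2 : nm ((p : ℕ) : OO A B) = (p : ℤ) ^ 2 := by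
      have := nm_intCast (A := A) (B := B) (p : ℤ)
      simpa using this
    rw [h2, Int.natAbs_pow, Int.natAbs_natCast]
  have hmul : nI (Pc P) * nI (P ^ er) = p ^ 2 := by rw [← nI_mul hq hPc hPe, ← hidl, hnp]
  have hp1 : 1 < p := h.pp.one_lt
  refine ⟨hPb, hmax, by rw [hidl, mul_comm], hPc, h.not_le hcop, ?_, by omega, ?_⟩
  · intro he
    subst he
    have h2 : nI (P ^ 2) = nI P * nI P := by rw [pow_two, nI_mul hq hPb hPb]
    rw [h2] at hmul
    rcases hnP with e | e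
    · refine ⟨e, Pool.Agent.OBT.BAS.eq_top_of_nI ?_⟩
      rw [e, ← pow_two] at hmul
      have h3 : 0 < p ^ 2 := by positivity
      exact Nat.eq_of_mul_eq_mul_right h3 (by rw [hmul, one_mul])
    · exfalso
      rw [e] at hmul
      have h3 : p ^ 2 * p ^ 2 ∣ p ^ 2 := Dvd.intro_left _ hmul
      have h5 : 0 < p ^ 2 := by positivity
      have h6 := Nat.le_of_dvd h5 h3
      have h7 : 1 < p ^ 2 := Nat.one_lt_pow two_ne_zero hp1
      have h8 : p ^ 2 * 1 < p ^ 2 * p ^ 2 := Nat.mul_lt_mul_of_pos_left h7 h5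
      omega
  · intro Q hQ hpQ
    have h1 : Pc P * P ^ er ≤ Q := by
      rw [← hidl]
      exact (Ideal.span_singleton_le_iff_mem Q).2 hpQ
    rcases (Ideal.IsPrime.mul_le hQ).1 h1 with h2 | h2
    · right
      by_cases hc : cjI P = P
      · exfalso
        rw [Pc, if_pos hc] at h2
        exact hQ.ne_top (top_le_iff.1 h2)
      · have e1 : Pc P = cjI P := by rw [Pc, if_neg hc]
        have e2 : nI (Pc P) = nI P := by rw [e1, nI_cjI hq hPb]
        have hQb : Q ≠ ⊥ := fun e => hPc (le_bot_iff.1 (e ▸ h2))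
        obtain ⟨J, hJ⟩ : Q ∣ Pc P := Ideal.dvd_iff_le.2 h2
        have hJb : J ≠ ⊥ := fun e => hPc (by rw [hJ, e, Ideal.mul_bot])
        have hr : 1 ≤ er := by
          rcases h.ram with ⟨e, -⟩ | ⟨e, -⟩ <;> omega
        have hnPp : nI P = p := by
          rcases hnP with e | e
          · exact e
          · exfalso
            rw [e2, e] at hmul
            obtain ⟨r, rfl⟩ := Nat.exists_eq_add_of_le hr
            have h5 : P ^ (1 + r) = P * P ^ r := by rw [pow_add, pow_one]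
            have h6 : P ^ r ≠ ⊥ := fun e' => hPe (by rw [h5, e', Ideal.mul_bot])
            rw [h5, nI_mul hq hPb h6, e] at hmul
            have h3 : p ^ 2 * p ^ 2 ∣ p ^ 2 := ⟨nI (P ^ r), by rw [mul_assoc]; exact hmul.symm⟩
            have h5 : 0 < p ^ 2 := by positivity
            have h6 := Nat.le_of_dvd h5 h3
            have h7 : 1 < p ^ 2 := Nat.one_lt_pow two_ne_zero hp1
            have h8 : p ^ 2 * 1 < p ^ 2 * p ^ 2 := Nat.mul_lt_mul_of_pos_left h7 h5
            omega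
        have h3 : nI Q * nI J = p := by rw [← nI_mul hq hQb hJb, ← hJ, e2, hnPp]
        have hQ1 : nI Q ≠ 1 := fun e => hQ.ne_top (Pool.Agent.OBT.BAS.eq_top_of_nI e)
        have hJ1 : nI J = 1 := by
          rcases (Nat.dvd_prime h.pp).1 (Dvd.intro _ h3) with e | e
          · exact absurd e hQ1
          · rw [e] at h3
            exact Nat.eq_of_mul_eq_mul_left h.pp.pos (by rw [h3, mul_one])
        have hJt := Pool.Agent.OBT.BAS.eq_top_of_nI hJ1
        rw [hJt, Ideal.mul_top] at hJ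
        exact hJ.symm
    · left
      have hr : er ≠ 0 := by
        rcases h.ram with ⟨e, -⟩ | ⟨e, -⟩ <;> omega
      have h3 : P ≤ Q := by
        exact (Ideal.IsPrime.pow_le_iff hr).1 h2
      exact (hmax.eq_of_le hQ.ne_top h3).symm

end Pool.Agent.OEE
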