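import Pool.Agent.OE.StE
import Pool.Agent.ME.X_TRA
import Pool.Agent.ME.X_TRB
import Pool.Agent.ME.X_FAC
import Pool.Agent.ME.X_GTH
import Pool.Agent.ME.X_PT
import Pool.Agent.ME.X_GAL
import Pool.Agent.MUX.E_RNG

/-!
# OE, block E (port of `OB/E_CTX.lean`), module CTX (helper98): from the hypotheses to `CtxX`

Models: `NS/F_CTX.lean`, `NS/E_CTX.lean`.
-/

set_option autoImplicit false

namespace Pool.Agent.OEE

open _root_.MU3 _root_.Pool.Agent.MU3A _root_.Pool.Agent.MU3B _root_.Pool.Agent.MUX _root_.Pool.Agent.MUXU _root_.Pool.Agent.MUXE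
open _root_.Pool.Agent.RI _root_.Pool.Agent.NS _root_.Pool.Agent.OB
open _root_.Pool.Agent.ME hiding ActE
open _root_.Pool.Agent.MEE
open _root_.Pool.Agent.OBE (SP Ann Ker0 PtsO RepO Cp lv0 Sb_ALG Sb_PRO Sb_PUL Sb_COE Sb_GRN Sb_LEG Sb_TNC Sb_GEN Sb_UNT Sb_RAT Sb_KIS Sb_NE1 Sb_DSM)

noncomputable section

namespace CTX

variable {A B : ℤ}

lemma emb_nat (h : CQ A B) (n : ℕ) : emb ((n : ℕ) : OO A B) = (n : ℂ) := by
  rw [← RNGaux.eH_apply h, map_natCast]

lemma emb_mul (h : CQ A B) (x y : OO A B) : emb (x * y) = emb x * emb y := by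
  rw [← RNGaux.eH_apply h, map_mul, RNGaux.eH_apply h, RNGaux.eH_apply h]

lemma emb_add (h : CQ A B) (x y : OO A B) : emb (x + y) = emb x + emb y := by
  rw [← RNGaux.eH_apply h, map_add, RNGaux.eH_apply h, RNGaux.eH_apply h]

lemma emb_one (h : CQ A B) : emb (1 : OO A B) = 1 := by
  rw [← RNGaux.eH_apply h, map_one]

lemma emb_zero (h : CQ A B) : emb (0 : OO A B) = 0 := by
  rw [← RNGaux.eH_apply h, map_zero]

lemma val_le (h : CQ A B) (V : ValuationSubring ℂ) (x : OO A B) : V.valuation (emb x) ≤ 1 := by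
  rw [ValuationSubring.valuation_le_one_iff]
  have h1 : IsIntegral V (emb x) := (RNGaux.emb_int h x).tower_top
  obtain ⟨y, hy⟩ := IsIntegrallyClosed.isIntegral_iff.1 h1
  rw [← hy]
  exact y.2

lemma val_unit (h : CQ A B) {P : Ideal (OO A B)} {V : ValuationSubring ℂ} (hV : OverI V P)
    {x : OO A B} (hx : x ∉ P) : V.valuation (emb x) = 1 := by
  refine le_antisymm (val_le h V x) (not_lt.1 fun h1 => hx ((hV x).1 ?_))
  exact (ValuationSubring.mem_nonunits_iff V).2 h1

/-- elements of `P^n` -/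
lemma val_pow (h : CQ A B) {P : Ideal (OO A B)} {V : ValuationSubring ℂ} {al : OO A B}
    (hP : ∀ x ∈ P, V.valuation (emb x) ≤ V.valuation (emb al)) :
    ∀ (n : ℕ) (x : OO A B), x ∈ P ^ n → V.valuation (emb x) ≤ V.valuation (emb al) ^ n := by
  intro n
  induction n with
  | zero =>
    intro x _
    rw [pow_zero]
    exact val_le h V x
  | succ n ih =>
    intro x hx
    rw [pow_succ] at hx
    refine Submodule.mul_induction_on hx ?_ ?_
    · intro a ha b hb
      rw [emb_mul h, map_mul, pow_succ]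
      exact mul_le_mul' (ih a ha) (hP b hb)
    · intro a b ha hb
      rw [emb_add h]
      exact (V.valuation.map_add _ _).trans (max_le ha hb)

end CTX

open CTX in
/-- (CTX) from the hypotheses to `CtxX` -/
theorem tb_CTXE (hCFA : Sb_CFAE) (hCAL : Sb_CALE) : Sb_CTXE := by
  intro p er A B P V hC hT hF
  obtain ⟨hF1, hF2⟩ := hF
  obtain ⟨hne, hmax, hfac, hcne, hcnl, hnP, hn3, -⟩ := hCFA p er A B P V hC
  obtain ⟨al, halP, hal2, N, hN, hNx⟩ := hCAL p er A B P V hC
  have h := hC.cq
  have hp := hC.pp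
  have hp5 := hC.p5
  have hV := hC.hV
  have h1P : (1 : OO A B) ∉ P := fun h1 => hC.prime.ne_top ((Ideal.eq_top_iff_one P).2 h1)
  have hvp : V.valuation (p : ℂ) < 1 := by
    have h1 := (hV ((p : ℕ) : OO A B)).2 hC.mem
    rw [ValuationSubring.mem_nonunits_iff, emb_nat h] at h1
    exact h1
  have hnP' : ∀ n : ℕ, ¬ p ∣ n → ((n : ℕ) : OO A B) ∉ P := by
    intro n hn hmem
    have h2 : IsCoprime (n : ℤ) (p : ℤ) := by
      rw [Nat.isCoprime_iff_coprime]
      exact ((Nat.Prime.coprime_iff_not_dvd hp).2 hn).symm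
    obtain ⟨a, b, hab⟩ := h2
    have h4 := congrArg (Int.cast : ℤ → OO A B) hab
    push_cast at h4
    apply h1P
    rw [← h4]
    exact P.add_mem (P.mul_mem_left _ hmem) (P.mul_mem_left _ hC.mem)
  have hnat : ∀ n : ℕ, ¬ p ∣ n → V.valuation (n : ℂ) = 1 ∧ ((n : ℕ) : OO A B) ∉ P := by
    intro n hn
    refine ⟨?_, hnP' n hn⟩
    rw [← emb_nat h]
    exact val_unit h hV (hnP' n hn)
  have hvP : ∀ x ∈ P, V.valuation (emb x) ≤ V.valuation (emb al) := by
    intro x hx
    obtain ⟨y, hy⟩ := hNx x hx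
    have h2 := congrArg (fun z => V.valuation (emb z)) hy
    simp only [emb_mul h, map_mul, emb_nat h] at h2
    rw [(hnat N hN).1, one_mul] at h2
    rw [h2]
    exact mul_le_of_le_one_right' (val_le h V y)
  have her : 1 ≤ er := by
    rcases hC.ram with ⟨h1, -⟩ | ⟨h1, -⟩ <;> omega
  have hmem : ((p : ℕ) : OO A B) ∈ P ^ er := by
    rcases hC.ram with ⟨h1, -⟩ | ⟨h1, h2⟩
    · rw [h1, pow_one]
      exact hC.mem
    · rw [h1]
      exact h2
  have halv : V.valuation (emb al) ^ er = V.valuation (p : ℂ) := by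
    refine le_antisymm ?_ ?_
    · obtain ⟨c, hc, hcP⟩ := Set.not_subset.1 hcnl
      have h2 : al ^ er * c ∈ idl (A := A) (B := B) p := by
        rw [hfac]
        exact Ideal.mul_mem_mul (Ideal.pow_mem_pow halP er) hc
      obtain ⟨y, hy⟩ := Ideal.mem_span_singleton.1 h2
      have h3 := congrArg (fun z => V.valuation (emb z)) hy
      simp only [emb_mul h, map_mul, emb_nat h] at h3
      rw [val_unit h hV hcP, mul_one] at h3
      have h4 : V.valuation (emb (al ^ er)) = V.valuation (emb al) ^ er := by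
        rw [← RNGaux.eH_apply h, map_pow, RNGaux.eH_apply h, map_pow]
      rw [← h4, h3]
      exact mul_le_of_le_one_right' (val_le h V y)
    · have h2 := val_pow h hvP er _ hmem
      rw [emb_nat h] at h2
      exact h2
  refine ⟨al, ?_⟩
  exact
    { hC with
      p2 := by omega
      vp := hvp
      ring := te_RNG A B h
      ne := hne
      max := hmax
      er1 := her
      fac := hfac
      cne := hcne
      cnl := hcnl
      int := val_le h V
      unit := fun x hx => val_unit h hV hx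
      nat := hnat
      alP := halP
      al2 := hal2
      alv := halv
      vP := hvP
      alN := ⟨N, hN, hNx⟩
      nP := hnP
      n3 := hn3
      good := by
        rintro L ⟨b, om, hL⟩
        exact hF1 b L om hL
      iner := hF2
      exq := by
        rintro L ⟨b, om, hL⟩
        have htop : (⊤ : Ideal (OO A B)) ≠ ⊥ := fun h0 => hne (eq_bot_iff.2 (h0 ▸ le_top))
        obtain ⟨σ, -, hσ⟩ := hT.surj ⊤ htop P hne (Ideal.isCoprime_iff_sup_eq.2 (sup_top_eq _))
        obtain ⟨b', L', om', mu, hL', hact⟩ := hσ b L om hL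
        exact ⟨L', mu, ⟨b', om', hL'⟩, hact.isq⟩ }

end

end Pool.Agent.OEE
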