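import Pool.Agent.OE.StE
import Pool.Agent.OE.Defs
import Pool.Agent.ME.X_GAL
import Pool.Agent.ME.X_TRA

/-!
# OE, block E, module FIN: the final form (helper96; port of `OB/E_FIN.lean` of helper23)
-/

set_option autoImplicit false

namespace Pool.Agent.OEE

open _root_.MU3 Pool.Agent.MU3A Pool.Agent.MU3B Pool.Agent.MUX Pool.Agent.MUXU
open Pool.Agent.RI Pool.Agent.NS Pool.Agent.OB Pool.Agent.OE
open Pool.Agent.ME hiding ActE
open Pool.Agent.MEE

lemma toX {p : ℕ} {A B : ℤ} {P : Ideal (OO A B)} {V : ValuationSubring ℂ}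
    (h : CaseOE p A B P V) : CaseX p 1 A B P V :=
  { cq := h.toCQ
    exc := h.toCaseE
    pp := h.pp
    p5 := h.p5
    prime := h.prime
    mem := h.mem
    ram := Or.inl ⟨rfl, h.unr⟩
    hV := h.hV }

lemma toRFX (hR : O_RFINE) {p : ℕ} {A B : ℤ} {P : Ideal (OO A B)} {V : ValuationSubring ℂ}
    (h : CaseOE p A B P V) (hT : TorXE A B) : RFX P V := by
  obtain ⟨h1, h2⟩ := hR p A B P V h hT
  refine ⟨fun b L om hL => ?_, h2⟩
  obtain ⟨u, e, lam, h3, -⟩ := h1 b L om hL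
  exact ⟨u, e, lam, h3⟩

theorem tb_FINE (h1 : Sb_CTXE) (h2 : Sb_FN1E) : O_RFINE → O_EFINE := by
  intro hR p A B P V f hS hT ι _ R u e lam hG w hw n hn H hH D h hD hb
  obtain ⟨al, hC⟩ := h1 p 1 A B P V (toX hS.toCaseOE) hT (toRFX hR hS.toCaseOE hT)
  have hE := Pool.Agent.MEE.tm_GAL A B hS.toCaseE hC.ring hT
  obtain ⟨hf6, hf12⟩ := hS.f6
  have hf3 : 3 ≤ f := by omega
  exact h2 p A B P V al hC hT hE n f hn hf3 hS.f2 hS.fp ι R u e lam hG w hw H hH D h hD hb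

end Pool.Agent.OEE
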