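import Pool.Agent.OE.StE
import Pool.Agent.ME.X_TRA
import Pool.Agent.ME.X_TRB
import Pool.Agent.ME.X_FAC
import Pool.Agent.ME.X_GTH
import Pool.Agent.ME.X_PT
import Pool.Agent.ME.X_GAL

/-!
# OE, block E (port of `OB/E_INN.lean`), module INN: integrality of the logarithmic derivatives, and the sums over `E[P]` (helper93)
-/

set_option autoImplicit false

open Polynomial

namespace Pool.Agent.OEE

open _root_.MU3 _root_.Pool.Agent.MU3A _root_.Pool.Agent.MU3B _root_.Pool.Agent.MUX _root_.Pool.Agent.MUXU _root_.Pool.Agent.MUXE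
open _root_.Pool.Agent.RI _root_.Pool.Agent.NS _root_.Pool.Agent.OB
open _root_.Pool.Agent.MUXV (GR InK tX)
open _root_.Pool.Agent.NSE (su ru WL IntP)
open _root_.Pool.Agent.ME hiding ActE
open _root_.Pool.Agent.MEE
open _root_.Pool.Agent.OBE (SP Ann Ker0 PtsO RepO Cp lv0 Sb_ALG Sb_PRO Sb_PUL Sb_COE Sb_GRN Sb_LEG Sb_TNC Sb_GEN Sb_UNT Sb_RAT Sb_KIS Sb_NE1 Sb_DSM)

noncomputable section

namespace INN

/-- half systems for odd `a` -/
lemma half (L : PeriodPair) {a : ℕ} (ha0 : a ≠ 0) (hao : Odd a) :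
    ∃ H : Finset ℂ, IsHalf L (a : ℂ) H :=
  b_HAL L (a : ℂ) (by exact_mod_cast ha0) (fun w hw => by
    have := nsmul_mem hw a
    rwa [nsmul_eq_mul] at this) (fun z h1 h2 => by
      obtain ⟨k, hk⟩ := hao
      have h3 := nsmul_mem h2 k
      rw [nsmul_eq_mul] at h3
      have h4 : z = (a : ℂ) * z - (k : ℂ) * (2 * z) := by
        rw [hk]
        push_cast
        ring
      rw [h4]
      exact sub_mem h1 h3)

/-- the theta product and the logarithmic derivative at one point -/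
lemma core (hTHN : Sb_THNE) (hNE1 : Sb_NE1) {p er : ℕ} {A B : ℤ} {P : Ideal (OO A B)}
    {V : ValuationSubring ℂ} {al : OO A B} (hC : CtxX p er A B P V al) {L M : PeriodPair}
    {u e lam u' e' lam' mu : ℂ} (hL : NLE A B L) (hM : NLE A B M) (hg : GoodL V L u e lam)
    (hg' : GoodL V M u' e' lam') (hmu : mu ≠ 0) (hI : Isg L M mu) (hk : Ker0 V L M u e mu)
    {j f a : ℕ} (hf2 : 2 ≤ f) (hf : ¬ p ∣ f) (ha0 : a ≠ 0) (ha : ¬ p ∣ a)
    (hco : a.Coprime f) {H : Finset ℂ} (hH : IsHalf M (a : ℂ) H) {z : ℂ}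
    (hm : ((p ^ j * f : ℕ) : ℂ) * z ∈ M.lattice)
    (ho : ∀ c : ℕ, (c : ℂ) * z ∈ M.lattice → f ∣ c) :
    V.valuation (ThetaH M H z) = V.valuation (u' ^ 2) ^ H.card ∧
      V.valuation (mu * dlX M a z / u) ≤ 1 := by
  obtain ⟨hzK, hza, hzq⟩ := hNE1 p V M u' e' lam' hC.toCp hg' j f a hf2 hf ha hco z hm ho
  obtain ⟨k1, k2, -⟩ := hTHN p er A B P V al hC L M u e lam u' e' lam' mu hL hM hg hg' hmu hI hk
    a H ha0 hH z hzK hza (fun q hq => hzq q (hH.mem q hq) (fun hqL => hH.ne q hq (by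
      rw [two_mul]; exact add_mem hqL hqL)))
  exact ⟨k1, k2⟩

/-- an integer prime to `p` does not kill a point of order `p` -/
lemma not_mem {p : ℕ} (hp : p.Prime) {L : PeriodPair} {q : ℂ} (hpq : (p : ℂ) * q ∈ L.lattice)
    (hq : q ∉ L.lattice) {d : ℤ} (hd : ¬ (p : ℤ) ∣ d) : (d : ℂ) * q ∉ L.lattice := by
  intro h
  apply hq
  have hc : IsCoprime (p : ℤ) d := (Nat.prime_iff_prime_int.1 hp).coprime_iff_not_dvd.2 hd
  obtain ⟨r, s, hrs⟩ := hc
  have h1 := zsmul_mem hpq r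
  have h2 := zsmul_mem h s
  rw [zsmul_eq_mul] at h1 h2
  have h3 : q = (r : ℂ) * ((p : ℂ) * q) + (s : ℂ) * ((d : ℂ) * q) := by
    have h4 : ((r * p + s * d : ℤ) : ℂ) = 1 := by rw [hrs]; simp
    calc q = ((r * p + s * d : ℤ) : ℂ) * q := by rw [h4, one_mul]
      _ = _ := by push_cast; ring
  rw [h3]
  exact add_mem h1 h2

/-- the multiples of a point of order `p` represent the nonzero classes of a kernel of order `p` -/
lemma reps {p : ℕ} (hp : p.Prime) {L M : PeriodPair} {nu : ℂ} {R : Finset ℂ}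
    (hR : IsRpM L M nu R) (hc : R.card + 1 = p) {q : ℂ} (hpq : (p : ℂ) * q ∈ L.lattice)
    (hq : q ∉ L.lattice) (hnu : nu * q ∈ M.lattice) :
    ∃ R' : Finset ℂ, IsRpM L M nu R' ∧
      R' = ((Finset.range p).erase 0).image (fun t : ℕ => (t : ℂ) * q) ∧
      Set.InjOn (fun t : ℕ => (t : ℂ) * q) ((Finset.range p).erase 0 : Finset ℕ) := by
  classical
  have hdiff : ∀ t ∈ Finset.range p, ∀ t' ∈ Finset.range p,
      (t : ℂ) * q - (t' : ℂ) * q ∈ L.lattice → t = t' := by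
    intro t ht t' ht' h
    by_contra hne
    rw [Finset.mem_range] at ht ht'
    refine not_mem hp hpq hq (d := (t : ℤ) - t') ?_ ?_
    · intro hd
      have h1 : |(t : ℤ) - t'| < p := by rw [abs_lt]; constructor <;> omega
      have h2 := Int.eq_zero_of_abs_lt_dvd hd h1
      omega
    · push_cast
      rw [sub_mul]
      exact h
  have hinj : Set.InjOn (fun t : ℕ => (t : ℂ) * q) ((Finset.range p).erase 0 : Finset ℕ) := by
    intro t ht t' ht' h
    have ht1 : t ∈ Finset.range p := Finset.mem_of_mem_erase (Finset.mem_coe.1 ht)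
    have ht2 : t' ∈ Finset.range p := Finset.mem_of_mem_erase (Finset.mem_coe.1 ht')
    refine hdiff t ht1 t' ht2 ?_
    have h1 : (t : ℂ) * q = (t' : ℂ) * q := h
    rw [h1, sub_self]
    exact zero_mem _
  set T : Finset ℂ := ((Finset.range p).erase 0).image (fun t : ℕ => (t : ℂ) * q) with hT
  have hTc : T.card + 1 = p := by
    rw [hT, Finset.card_image_of_injOn hinj, Finset.card_erase_of_mem
      (Finset.mem_range.2 hp.pos), Finset.card_range]
    have := hp.pos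
    omega
  have hmem : ∀ y ∈ T, ∃ t : ℕ, t ∈ Finset.range p ∧ t ≠ 0 ∧ (t : ℂ) * q = y := by
    intro y hy
    rw [hT, Finset.mem_image] at hy
    obtain ⟨t, ht, rfl⟩ := hy
    exact ⟨t, Finset.mem_of_mem_erase ht, Finset.ne_of_mem_erase ht, rfl⟩
  have hTmem : ∀ y ∈ T, nu * y ∈ M.lattice := by
    intro y hy
    obtain ⟨t, -, -, rfl⟩ := hmem y hy
    have := nsmul_mem hnu t
    rw [nsmul_eq_mul] at this
    have e : nu * ((t : ℂ) * q) = (t : ℂ) * (nu * q) := by ring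
    rwa [e]
  have hTne : ∀ y ∈ T, y ∉ L.lattice := by
    intro y hy
    obtain ⟨t, ht, ht0, rfl⟩ := hmem y hy
    intro h
    refine ht0 (hdiff t ht 0 (Finset.mem_range.2 hp.pos) ?_)
    simpa using h
  have hTinj : ∀ y ∈ T, ∀ y' ∈ T, y - y' ∈ L.lattice → y = y' := by
    intro y hy y' hy' h
    obtain ⟨t, ht, -, rfl⟩ := hmem y hy
    obtain ⟨t', ht', -, rfl⟩ := hmem y' hy'
    rw [hdiff t ht t' ht' h]
  refine ⟨T, ⟨hTmem, hTne, hTinj, ?_⟩, rfl, hinj⟩
  -- the map `T → R` is injective, so surjective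
  have hex : ∀ y ∈ T, ∃ r ∈ R, y - r ∈ L.lattice := fun y hy =>
    hR.surj y (hTmem y hy) (hTne y hy)
  choose! g hgR hgL using hex
  have hginj : Set.InjOn g (T : Set ℂ) := by
    intro y hy y' hy' h
    refine hTinj y hy y' hy' ?_
    have h1 := hgL y hy
    have h2 := hgL y' hy'
    rw [← h] at h2
    have h3 := sub_mem h1 h2
    have e : y - g y - (y' - g y) = y - y' := by ring
    rwa [e] at h3
  have himg : T.image g = R := by
    refine Finset.eq_of_subset_of_card_le ?_ ?_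
    · intro r hr
      rw [Finset.mem_image] at hr
      obtain ⟨y, hy, rfl⟩ := hr
      exact hgR y hy
    · rw [Finset.card_image_of_injOn hginj]
      omega
  intro z hz hzL
  obtain ⟨r, hr, hzr⟩ := hR.surj z hz hzL
  rw [← himg, Finset.mem_image] at hr
  obtain ⟨y, hy, rfl⟩ := hr
  refine ⟨y, hy, ?_⟩
  have h3 := sub_mem hzr (hgL y hy)
  have e : z - g y - (y - g y) = z - y := by ring
  rwa [e] at h3

/-- the distribution relation over the multiples of a point of order `p` -/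
lemma dist (hDSM : Sb_DSM) {p : ℕ} (hp : p.Prime) {L M : PeriodPair} {nu : ℂ} {R : Finset ℂ}
    (hnu0 : nu ≠ 0) (hI : Isg L M nu) (hR : IsRpM L M nu R) (hc : R.card + 1 = p) {q : ℂ}
    (hpq : (p : ℂ) * q ∈ L.lattice) (hq : q ∉ L.lattice) (hnu : nu * q ∈ M.lattice) (z : ℂ) :
    ∑ t ∈ Finset.range p, ee L (z + t * q) = nu * ee M (nu * z) := by
  classical
  obtain ⟨R', hR', hR'e, hinj⟩ := reps hp hR hc hpq hq hnu
  have h := hDSM L M nu R' hnu0 hI hR' z
  rw [← h, hR'e, Finset.sum_image hinj, ← Finset.add_sum_erase (Finset.range p)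
    (fun t : ℕ => ee L (z + t * q)) (Finset.mem_range.2 hp.pos)]
  congr 2
  push_cast
  ring

end INN

open INN in
theorem tb_INNE (hTHN : Sb_THNE) (hNE1 : Sb_NE1) (hEXO : Sb_EXOE) (hMUL : Sb_MULE) (hUNT : Sb_UNT)
    (hPIS : Sb_PISE) (hDSM : Sb_DSM) : Sb_INNE := by
  intro p er A B P V al hC n f a hf2 hf ha3 hao hpa hco ι R u e lam hgood i x hx
  have ha0 : a ≠ 0 := by omega
  have hf0 : f ≠ 0 := by omega
  have hpp : p.Prime := hC.pp
  have hp0 : p ≠ 0 := hpp.ne_zero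
  have hring := hC.ring
  have hCp : Cp p V := hC.toCp
  obtain ⟨φ, hφ⟩ := hring.hom
  have emul : ∀ x y : OO A B, emb (x * y) = emb x * emb y := fun x y => by
    rw [← hφ, map_mul, hφ, hφ]
  have enat : ∀ n : ℕ, emb ((n : ℕ) : OO A B) = n := fun n => by rw [← hφ, map_natCast]
  have eone : emb (1 : OO A B) = 1 := by rw [← hφ, map_one]
  have hxP : x ∉ P := by
    intro h
    apply hC.max.ne_top
    rw [Ideal.eq_top_iff_one]
    obtain ⟨b1, b2, hb⟩ := hx
    rw [← hb]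
    refine add_mem (Ideal.mul_mem_left _ _ h) (Ideal.mul_mem_left _ _ ?_)
    have h2 : ((p ^ (n + 1) * f : ℕ) : OO A B) = ((p ^ n * f : ℕ) : OO A B) * ((p : ℕ) : OO A B) := by
      push_cast
      ring
    rw [h2]
    exact Ideal.mul_mem_left _ _ hC.mem
  have vx : V.valuation (emb x) = 1 := hC.unit x hxP
  have hxc : IsCoprime x ((p * f : ℕ) : OO A B) := by
    refine IsCoprime.of_isCoprime_of_dvd_right hx ?_
    refine ⟨((p ^ n : ℕ) : OO A B), ?_⟩
    push_cast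
    ring
  have hpf0 : p * f ≠ 0 := Nat.mul_ne_zero hp0 hf0
  obtain ⟨hmu, hisg, N, hNp, hN⟩ := hMUL p A B hpp hring (p * f) ι R hpf0 (dvd_mul_right _ _) i x
    hxc
  obtain ⟨hmu1, hisg1, N1, hN1p, hN1⟩ := hMUL p A B hpp hring (p * f) ι R hpf0
    (dvd_mul_right _ _) i 1 isCoprime_one_left
  obtain ⟨hEx0, -⟩ := hEXO p er A B P V al hC n f ι R hf0 hf
  obtain ⟨hAnn, -, hzl⟩ := hEx0 i x hx
  have hLi : NLE A B (R.L i) := ⟨_, _, R.nl i⟩
  have hL0 : NLE A B (R.L R.i0) := ⟨_, _, R.nl R.i0⟩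
  obtain ⟨hm0, ho0⟩ := hzl 0 (by rw [mul_zero]; exact zero_mem _)
  rw [add_zero] at hm0
  simp only [add_zero] at ho0
  -- the first two claims
  have main : ∀ H : Finset ℂ, IsHalf (R.L i) (a : ℂ) H → ∀ ui ei lami : ℂ,
      GoodL V (R.L i) ui ei lami → V.valuation (ThetaH (R.L i) H
        (ptE R (p ^ (n + 1) * f) i x)) = V.valuation (ui ^ 2) ^ H.card ∧
      V.valuation (muXE R i * dlX (R.L i) a (ptE R (p ^ (n + 1) * f) i x) / u) ≤ 1 := by
    intro H hH ui ei lami hgi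
    have hk : Ker0 V (R.L R.i0) (R.L i) u e (muXE R i * emb x) :=
      (hUNT p V (R.L R.i0) (R.L i) u e lam ui ei lami (muXE R i * emb x) hCp hgood hgi hmu
        hisg).2 N hNp hN
    obtain ⟨k1, k2⟩ := core hTHN hNE1 hC hL0 hLi hgood hgi hmu hisg hk hf2 hf ha0 hpa hco hH
      hm0 ho0
    refine ⟨k1, ?_⟩
    have e1 : muXE R i * emb x * dlX (R.L i) a (ptE R (p ^ (n + 1) * f) i x) / u =
        emb x * (muXE R i * dlX (R.L i) a (ptE R (p ^ (n + 1) * f) i x) / u) := by ring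
    rwa [e1, map_mul, vx, one_mul] at k2
  obtain ⟨H0, hH0⟩ := half (R.L i) ha0 hao
  obtain ⟨ui, ei, lami, hgi⟩ := hC.good (R.L i) hLi
  refine ⟨fun H hH ui ei lami hgi => (main H hH ui ei lami hgi).1, (main H0 hH0 ui ei lami hgi).2,
    fun her q hqT hqL => ?_⟩
  -- the sums over `E[P]`
  obtain ⟨M, nu, hM, hQ⟩ := hC.exq (R.L i) hLi
  obtain ⟨uM, eM, lamM, hgM⟩ := hC.good M hM
  obtain ⟨hpis, ⟨RR, hRR, hRRc⟩, -⟩ := hPIS p er A B P V al hC (R.L i) M nu ui ei lami uM eM lamM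
    hLi hM hQ hgi hgM
  rw [(hC.nP her).1] at hRRc
  have hnu0 : nu ≠ 0 := hQ.1
  have hIsg : Isg (R.L i) M nu := by
    intro w hw
    rw [hQ.2]
    intro y _
    obtain ⟨b, om, hb⟩ := hLi
    obtain ⟨c, hc, rfl⟩ := (hb.mem w).1 hw
    exact (hb.mem _).2 ⟨y * c, b.mul_mem_left y hc, by rw [emul]; ring⟩
  have hpz : ∀ z : ℂ, Tor P (R.L i) z → (p : ℂ) * z ∈ (R.L i).lattice := by
    intro z hz
    have := hz ((p : ℕ) : OO A B) hC.mem
    rwa [enat] at this
  have hnuz : ∀ z : ℂ, Tor P (R.L i) z → nu * z ∈ M.lattice := fun z hz => (hQ.2 z).2 hz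
  have haqT : Tor P (R.L i) ((a : ℂ) * q) := by
    intro y hy
    have h1 := nsmul_mem (hqT y hy) a
    rw [nsmul_eq_mul] at h1
    have e : emb y * ((a : ℂ) * q) = (a : ℂ) * (emb y * q) := by ring
    rwa [e]
  have haqL : (a : ℂ) * q ∉ (R.L i).lattice := by
    have h := not_mem hpp (hpz q hqT) hqL (d := (a : ℤ)) (by exact_mod_cast hpa)
    simpa using h
  set z := ptE R (p ^ (n + 1) * f) i x with hz
  have hs1 := dist hDSM hpp hnu0 hIsg hRR hRRc (hpz q hqT) hqL (hnuz q hqT) z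
  have hs2 := dist hDSM hpp hnu0 hIsg hRR hRRc (hpz _ haqT) haqL (hnuz _ haqT) ((a : ℂ) * z)
  have hsum : ∑ t ∈ Finset.range p, dlX (R.L i) a (z + t * q) = nu * dlX M a (nu * z) := by
    unfold dlX
    rw [Finset.sum_sub_distrib, ← Finset.mul_sum, ← Finset.mul_sum, hs1]
    have e2 : ∑ t ∈ Finset.range p, ee (R.L i) ((a : ℂ) * (z + t * q)) =
        ∑ t ∈ Finset.range p, ee (R.L i) ((a : ℂ) * z + t * ((a : ℂ) * q)) := by
      refine Finset.sum_congr rfl fun t _ => ?_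
      congr 1
      ring
    rw [e2, hs2]
    have e3 : nu * ((a : ℂ) * z) = (a : ℂ) * (nu * z) := by ring
    rw [e3]
    ring
  obtain ⟨HM, hHM⟩ := half M ha0 hao
  have hm1 : ((p ^ (n + 1) * f : ℕ) : ℂ) * (nu * z) ∈ M.lattice := by
    have e2 : ((p ^ (n + 1) * f : ℕ) : ℂ) * (nu * z) = nu * (((p ^ (n + 1) * f : ℕ) : ℂ) * z) := by
      ring
    rw [e2]
    exact hIsg _ hm0
  have ho1 : ∀ c : ℕ, (c : ℂ) * (nu * z) ∈ M.lattice → f ∣ c := by
    intro c hc
    have e2 : (c : ℂ) * (nu * z) = nu * ((c : ℂ) * z) := by ring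
    rw [e2, hQ.2] at hc
    have h1 := hc ((p : ℕ) : OO A B) hC.mem
    rw [enat] at h1
    have h2 : f ∣ p * c := ho0 (p * c) (by push_cast; rw [mul_assoc]; exact h1)
    have h3 : Nat.Coprime f p := ((Nat.Prime.coprime_iff_not_dvd hpp).2 hf).symm
    exact h3.dvd_of_dvd_mul_left h2
  have hone : Isg M M 1 := fun w hw => by rwa [one_mul]
  obtain ⟨-, k2⟩ := core hTHN hNE1 hC hM hM hgM hgM one_ne_zero hone
    (fun w hw _ => by rwa [one_mul] at hw) hf2 hf ha0 hpa hco hHM hm1 ho1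
  rw [one_mul] at k2
  have hu1 : V.valuation (muXE R i * ui / u) = 1 := by
    have hU := hUNT p V (R.L R.i0) (R.L i) u e lam ui ei lami (muXE R i * emb 1) hCp hgood hgi
      hmu1 hisg1
    have h1 := hU.1.1 (hU.2 N1 hN1p hN1)
    rwa [eone, mul_one] at h1
  have hui0 := hgi.u0
  have huM0 := hgM.u0
  have hu0 := hgood.u0
  have e4 : muXE R i * (∑ t ∈ Finset.range p, dlX (R.L i) a (z + t * q)) / u =
      (muXE R i * ui / u) * ((nu * uM / ui) * (dlX M a (nu * z) / uM)) := by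
    rw [hsum]
    field_simp
  rw [e4, map_mul, hu1, one_mul, map_mul, hpis]
  exact mul_le_of_le_one_right' k2

end

end Pool.Agent.OEE
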