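import Pool.Agent.OE.StE
import Pool.Agent.ME.X_TRA
import Pool.Agent.ME.X_TRB
import Pool.Agent.ME.X_FAC
import Pool.Agent.ME.X_GTH
import Pool.Agent.ME.X_PT
import Pool.Agent.ME.X_GAL
import Pool.Agent.MUX.E_MAIN0
import Pool.Agent.ME.X_COM

/-!
# OE, block E (port of `OB/E_MAIN.lean`), module MAIN: Lemma E for a conjugate family (helper81, after `NS/E_MAIN.lean` and `NS/F_MAIN.lean`)

Apply `τ'` to `w^p = ∏ C τ ^ g τ`: `(τ' w)^p = ∏ C(τ τ') ^ g τ`, because the Galois group of `D / k` is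
commutative; then (ONE) with `J = Gal(D/k)` and `X τ` the image of `S (τ τ')`.
-/

set_option autoImplicit false

namespace Pool.Agent.OEE

open _root_.MU3 _root_.Pool.Agent.MU3A _root_.Pool.Agent.MU3B _root_.Pool.Agent.MUX _root_.Pool.Agent.MUXU _root_.Pool.Agent.MUXE
open _root_.Pool.Agent.RI _root_.Pool.Agent.NS _root_.Pool.Agent.OB
open _root_.Pool.Agent.ME hiding ActE
open _root_.Pool.Agent.MEE
open _root_.Pool.Agent.OBE (SP Ann Ker0 PtsO RepO Cp lv0 Sb_ALG Sb_PRO Sb_PUL Sb_COE Sb_GRN Sb_LEG Sb_TNC Sb_GEN Sb_UNT Sb_RAT Sb_KIS Sb_NE1 Sb_DSM)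

noncomputable section

/-- (MAIN) Lemma E for a conjugate family, weights `emb x`. -/
theorem tb_MAINE (h1 : Sb_ONEE) : Sb_MAINE := by
  classical
  intro p er A B P V al hctx hT hgal n f hn hf3 hf2 hfp ι R u e lam hG H hH D hD hDF
  intro C S hC hcop hprod g hcube τ'
  letI := algC hD
  have hr := hctx.ring
  have hpp : p.Prime := hctx.pp
  have hp2 : p ≠ 2 := hctx.p2
  have hf0 : f ≠ 0 := by omega
  have hlv : lvX p f n = p ^ (n + 1) * f := by
    simp [lvX, q0, hp2]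
    ring
  have haX : aX p f = 1 + 2 * p * f := by
    simp [aX, q0, hp2]
  have hpf : 1 ≤ p * f := Nat.one_le_iff_ne_zero.2 (mul_ne_zero hpp.ne_zero hf0)
  have ha3 : 3 ≤ aX p f := by
    rw [haX, mul_assoc]
    omega
  have hodd : Odd (aX p f) := ⟨p * f, by rw [haX]; ring⟩
  have hap : p ∣ aX p f - 1 := ⟨2 * f, by rw [haX, Nat.add_sub_cancel_left]; ring⟩
  have haf : (aX p f).Coprime f := by
    rw [haX, Nat.Coprime, Nat.gcd_comm, show 1 + 2 * p * f = 1 + f * (2 * p) by ring,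
      Nat.gcd_add_mul_left_right]
    exact Nat.gcd_one_right f
  have hm0 : lvX p f n ≠ 0 := by
    rw [hlv]
    exact mul_ne_zero (pow_ne_zero _ hpp.ne_zero) hf0
  have hmb := m0_ne A B hr hm0
  have := hT.fin _ hmb
  -- D is finite over k
  let φ : D →ₗ[kk A B] RFE (idl (A := A) (B := B) (lvX p f n)) :=
    { toFun := fun y => ⟨y, hDF y y.2⟩
      map_add' := fun x y => rfl
      map_smul' := fun c x => by
        apply Subtype.ext
        show ((c • x : D) : ℂ) =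
          ((c • (⟨x, hDF x x.2⟩ : RFE (idl (A := A) (B := B) (lvX p f n))) :
            RFE (idl (A := A) (B := B) (lvX p f n))) : ℂ)
        rw [Algebra.smul_def, Algebra.smul_def]
        rfl }
  have hφ : Function.Injective φ := by
    intro x y hxy
    apply Subtype.ext
    exact congrArg (fun z : RFE (idl (A := A) (B := B) (lvX p f n)) => (z : ℂ)) hxy
  have : FiniteDimensional (kk A B) D := FiniteDimensional.of_injective φ hφ
  have : Finite (D ≃ₐ[kk A B] D) := inferInstance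
  letI : Fintype (D ≃ₐ[kk A B] D) := Fintype.ofFinite _
  have hcom := mx_comm hT _ hmb D hD hDF
  have hout : Function.Injective
      (fun q : ι × (OO A B ⧸ idl (A := A) (B := B) (lvX p f n)) =>
        ((q.1, Quotient.out q.2) : ι × OO A B)) := by
    intro q q' hq
    have hq0 : ((q.1, Quotient.out q.2) : ι × OO A B) = (q'.1, Quotient.out q'.2) := hq
    have h4 : q.1 = q'.1 := (Prod.mk.inj hq0).1
    have h5 : (Quotient.out q.2 : OO A B) = Quotient.out q'.2 := (Prod.mk.inj hq0).2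
    have h6 : Ideal.Quotient.mk (idl (A := A) (B := B) (lvX p f n)) (Quotient.out q.2) =
        Ideal.Quotient.mk (idl (A := A) (B := B) (lvX p f n)) (Quotient.out q'.2) :=
      congrArg _ h5
    rw [Ideal.Quotient.mk_out, Ideal.Quotient.mk_out] at h6
    exact Prod.ext h4 h6
  set X : (D ≃ₐ[kk A B] D) → Finset (ι × OO A B) := fun τ =>
    (S (τ * τ')).image (fun q => (q.1, Quotient.out q.2)) with hX
  have hcopX : ∀ τ : D ≃ₐ[kk A B] D, ∀ y ∈ X τ,
      IsCoprime y.2 ((p ^ (n + 1) * f : ℕ) : OO A B) := by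
    intro τ y hy
    rw [hX] at hy
    obtain ⟨q, hq, rfl⟩ := Finset.mem_image.1 hy
    have := hcop (τ * τ') q hq
    rw [← hlv]
    exact this
  have key := h1 p er A B P V al hctx hT hgal n f (aX p f) hn hf3 hf2 hfp ha3 hodd hap haf ι R
    u e lam hG H hH (D ≃ₐ[kk A B] D) X g hcopX
  rw [← hlv] at key
  have hprodX : ∀ τ : D ≃ₐ[kk A B] D,
      ∏ y ∈ X τ, ThetaH (R.L y.1) (H y.1) (ptE R (lvX p f n) y.1 y.2) = C (τ * τ') := by
    intro τ
    rw [hX, Finset.prod_image (fun x _ y _ hxy => hout hxy), hprod (τ * τ')]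
  have hsumX : ∀ τ : D ≃ₐ[kk A B] D,
      ∑ y ∈ X τ, emb y.2 * muXE R y.1 * dlX (R.L y.1) (aX p f) (ptE R (lvX p f n) y.1 y.2) =
      ∑ q ∈ S (τ * τ'), emb (Quotient.out q.2) * muXE R q.1 *
        dlX (R.L q.1) (aX p f) (ptE R (lvX p f n) q.1 (Quotient.out q.2)) := by
    intro τ
    rw [hX, Finset.sum_image (fun x _ y _ hxy => hout hxy)]
  rw [finsum_eq_sum_of_fintype]
  have e1 : (∑ τ : D ≃ₐ[kk A B] D, (g τ : ℂ) * ∑ q ∈ S (τ * τ'),
      emb (Quotient.out q.2) * muXE R q.1 *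
        dlX (R.L q.1) (aX p f) (ptE R (lvX p f n) q.1 (Quotient.out q.2))) =
      ∑ j : D ≃ₐ[kk A B] D, (g j : ℂ) * ∑ y ∈ X j, emb y.2 * muXE R y.1 *
      dlX (R.L y.1) (aX p f) (ptE R (lvX p f n) y.1 y.2) :=
    Finset.sum_congr rfl (fun τ _ => by rw [hsumX])
  rw [e1]
  apply key
  obtain ⟨v, hv, hvp⟩ := hcube
  rw [finprod_eq_prod_of_fintype] at hvp
  obtain ⟨y, hy1, -⟩ := hC 1
  have hyτ : ∀ τ : D ≃ₐ[kk A B] D, ((τ y : D) : ℂ) = C τ := by
    intro τ
    obtain ⟨y', hy', hy''⟩ := hC τ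
    have : y' = y := Subtype.ext (hy'.trans hy1.symm)
    rw [← hy'', this]
  have hw4 : (⟨v, hv⟩ : D) ^ p = ∏ τ : D ≃ₐ[kk A B] D, (τ y) ^ g τ := by
    apply Subtype.ext
    rw [IntermediateField.coe_prod]
    rw [show (((⟨v, hv⟩ : D) ^ p : D) : ℂ) = v ^ p from rfl, hvp]
    refine Finset.prod_congr rfl (fun τ _ => ?_)
    rw [← hyτ τ, ← m0_zpc (D := D)]
  refine ⟨(τ' ⟨v, hv⟩ : D), hDF _ (τ' ⟨v, hv⟩).2, ?_⟩
  have hw5 := congrArg τ' hw4
  rw [map_pow, map_prod] at hw5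
  have hw6 := congrArg (fun y : D => (y : ℂ)) hw5
  push_cast at hw6
  rw [hw6]
  refine Finset.prod_congr rfl (fun τ _ => ?_)
  rw [hprodX, hcom τ τ', map_zpow₀, ← hyτ (τ' * τ), m0_zpc]
  rfl

end

end Pool.Agent.OEE
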