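import Pool.Agent.OE.StE
import Pool.Agent.ME.X_TRA
import Pool.Agent.ME.X_TRB
import Pool.Agent.ME.X_FAC
import Pool.Agent.ME.X_GTH
import Pool.Agent.ME.X_PT
import Pool.Agent.ME.X_GAL

/-!
# OE, block E (port of `OB/E_PTS.lean`), module PTS: the points of `E[P^er]` satisfy `PtsO` (helper5)
-/

set_option autoImplicit false

open Polynomial

namespace Pool.Agent.OEE

open _root_.MU3 _root_.Pool.Agent.MU3A _root_.Pool.Agent.MU3B _root_.Pool.Agent.MUX _root_.Pool.Agent.MUXU _root_.Pool.Agent.MUXE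
open _root_.Pool.Agent.RI _root_.Pool.Agent.NS _root_.Pool.Agent.OB
open _root_.Pool.Agent.MUXV (GR InK tX)
open _root_.Pool.Agent.NSE (su ru WL IntP)
open _root_.Pool.Agent.ME hiding ActE
open _root_.Pool.Agent.MEE
open _root_.Pool.Agent.OBE (SP Ann Ker0 PtsO RepO Cp lv0 Sb_ALG Sb_PRO Sb_PUL Sb_COE Sb_GRN Sb_LEG Sb_TNC Sb_GEN Sb_UNT Sb_RAT Sb_KIS Sb_NE1 Sb_DSM)

noncomputable section

namespace PTS

/-- the lattice is closed under `O` -/
lemma lat {A B : ℤ} (hr : RingE A B) {L : PeriodPair} (hN : NLE A B L) (x : OO A B) {z : ℂ}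
    (hz : z ∈ L.lattice) : emb x * z ∈ L.lattice := by
  obtain ⟨b, om, hL⟩ := hN
  obtain ⟨φ, hφ⟩ := hr.hom
  obtain ⟨y, hy, rfl⟩ := (hL.mem z).1 hz
  refine (hL.mem _).2 ⟨x * y, b.mul_mem_left x hy, ?_⟩
  rw [← hφ (x * y), map_mul, hφ, hφ]
  ring

/-- `1 ∈ P ^ 0` -/
lemma one_mem {A B : ℤ} (P : Ideal (OO A B)) : (1 : OO A B) ∈ P ^ 0 := by
  rw [pow_zero, Ideal.one_eq_top]
  exact Submodule.mem_top (R := OO A B) (M := OO A B)

/-- `I J ≤ I` -/
lemma le_r {A B : ℤ} (I J : Ideal (OO A B)) {x : OO A B} (h : x ∈ I * J) : x ∈ I :=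
  (Submodule.mem_inf.1 (Ideal.mul_le_inf h)).1

/-- natural multiples of lattice points -/
lemma nat_lat {L : PeriodPair} (n : ℕ) {w : ℂ} (hw : w ∈ L.lattice) :
    (n : ℂ) * w ∈ L.lattice := by
  have h := L.lattice.nsmul_mem hw n
  rwa [nsmul_eq_mul] at h

/-- the points of `SP` are in the kernel of reduction -/
lemma ker (hTPR : Sb_TPRE) {p er : ℕ} {A B : ℤ} {P : Ideal (OO A B)} {V : ValuationSubring ℂ}
    {al : OO A B} (hC : CtxX p er A B P V al) {L : PeriodPair} {u e lam : ℂ} (hN : NLE A B L)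
    (hG : GoodL V L u e lam) {Y : ℂ} (hY : Y ∈ SP P er L) :
    InK V L (xu L u e) Y ∧ xu L u e Y ≠ 0 := by
  obtain ⟨φ, hφ⟩ := hC.ring.hom
  obtain ⟨hT, hn⟩ := hY
  by_cases h1 : Tor P L Y
  · have h0 : ¬ Tor (P ^ 0) L Y := by
      intro h0
      apply hn
      have h2 := h0 (1 : OO A B) (one_mem P)
      rwa [← hφ, map_one, one_mul] at h2
    obtain ⟨h3, h4, -⟩ := hTPR p er A B P V al hC 0 L u e lam hN hG Y
      (by rw [zero_add, pow_one]; exact h1) h0
    exact ⟨h3, h4⟩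
  · rcases hC.ram with ⟨he, -⟩ | ⟨he, -⟩
    · exfalso
      apply h1
      rw [he, pow_one] at hT
      exact hT
    · obtain ⟨h3, h4, -⟩ := hTPR p er A B P V al hC 1 L u e lam hN hG Y
        (by rw [he] at hT; exact hT) (by rw [pow_one]; exact h1)
      exact ⟨h3, h4⟩

/-- a point outside the lattice in the kernel of reduction has `v x > 1` -/
lemma gt_one {V : ValuationSubring ℂ} {L : PeriodPair} {u e Y : ℂ} (hn : Y ∉ L.lattice)
    (h : InK V L (xu L u e) Y) : 1 < V.valuation (xu L u e Y) := by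
  rcases h with h | h
  · exact absurd h hn
  · by_contra h1
    rw [not_lt] at h1
    exact h ((V.valuation_le_one_iff _).1 h1)

end PTS

open PTS

/-- PTS. -/
theorem tb_PTSE (hCOE : Sb_COE) (hGEN : Sb_GEN) (hPVL : Sb_PVLE) (hTPR : Sb_TPRE) : Sb_PTSE := by
  classical
  intro p er A B P V al hC L u e lam hN hG
  have hCp : Cp p V := hC.toCp
  obtain ⟨φ, hφ⟩ := hC.ring.hom
  obtain ⟨-, -, -, -, hl1, heq, -, hper⟩ := hCOE p V L u e lam hCp hG
  have hp0 : (p : ℂ) ≠ 0 := Nat.cast_ne_zero.2 hC.pp.ne_zero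
  have hE : ∀ Y ∈ SP P er L, ∀ w ∈ L.lattice, Y + w ∈ SP P er L := by
    intro Y hY w hw
    constructor
    · intro x hx
      rw [mul_add]
      exact add_mem (hY.1 x hx) (lat hC.ring hN x hw)
    · intro h
      apply hY.2
      have h1 := sub_mem h hw
      rwa [add_sub_cancel_right] at h1
  have hP : ∀ (z w : ℂ), w ∈ L.lattice → su L u e (z + w) = su L u e z ∧
      ru L u e (z + w) = ru L u e z := by
    intro z w hw
    obtain ⟨h1, h2⟩ := (hper z).1 w hw
    unfold su ru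
    rw [h1, h2]
    exact ⟨rfl, rfl⟩
  have hpP : ((p : ℕ) : OO A B) ∈ P ^ er := by
    have h1 : ((p : ℕ) : OO A B) ∈ idl (A := A) (B := B) p := Ideal.mem_span_singleton_self _
    rw [hC.fac] at h1
    exact le_r _ _ h1
  have hpE : emb ((p : ℕ) : OO A B) = (p : ℂ) := by rw [← hφ, map_natCast]
  have hK := fun (Y : ℂ) (hY : Y ∈ SP P er L) => ker hTPR hC hN hG hY
  refine ⟨⟨hC.vp, ?_, hG.vl.le, ?_, ?_, ?_, ?_, ?_⟩, hK, ?_⟩
  · rw [Valuation.map_neg]
    exact hl1
  · intro Y hY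
    obtain ⟨h1, h2⟩ := hK Y hY
    have h3 := gt_one hY.2 h1
    unfold su
    refine ⟨inv_ne_zero h2, ?_⟩
    rw [map_inv₀]
    exact inv_lt_one_of_one_lt₀ h3
  · intro Y hY
    have hx : xu L u e Y ≠ 0 := (hK Y hY).2
    have h1 := heq Y hY.2
    unfold ru su
    rw [div_pow, neg_sq, h1]
    field_simp
    ring
  · intro Y hY
    refine ⟨-Y, ⟨?_, ?_⟩, ?_, ?_⟩
    · intro x hx
      rw [mul_neg]
      exact neg_mem (hY.1 x hx)
    · intro h
      apply hY.2
      have h1 := neg_mem h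
      rwa [neg_neg] at h1
    · unfold su
      rw [(hper Y).2.1]
    · unfold ru
      rw [(hper Y).2.1, (hper Y).2.2, neg_div, neg_div, neg_neg]
  · have hcl : ∀ w ∈ L.lattice, (p : ℂ) * w ∈ L.lattice := fun w hw => nat_lat p hw
    have hodd : ∀ z, (p : ℂ) * z ∈ L.lattice → 2 * z ∈ L.lattice → z ∈ L.lattice := by
      intro z h1 h2
      obtain ⟨k, hk⟩ := hC.pp.odd_of_ne_two hC.p2
      have h3 := sub_mem h1 (nat_lat k h2)
      have e1 : (p : ℂ) * z - (k : ℂ) * (2 * z) = z := by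
        rw [hk]
        push_cast
        ring
      rwa [e1] at h3
    obtain ⟨H, hH⟩ := b_HAL L (p : ℂ) hp0 hcl hodd
    obtain ⟨hR, hdis, -⟩ := b_HRE L (p : ℂ) H hp0 hcl hH
    have hRM : IsRpM L L (p : ℂ) (H ∪ H.image (fun q => -q)) := ⟨hR.mem, hR.ne, hR.inj, hR.surj⟩
    have hgen := hGEN p V L L u e lam u e lam (p : ℂ) hCp hG hG hp0 hcl _ hRM
    rw [Finset.prod_union hdis, Finset.prod_image (fun a _ b _ h => neg_injective h)] at hgen
    have e2 : ∏ q ∈ H, max 1 (V.valuation (xu L u e (-q))) =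
        ∏ q ∈ H, max 1 (V.valuation (xu L u e q)) :=
      Finset.prod_congr rfl fun q _ => by rw [(hper q).2.1]
    rw [e2, mul_div_assoc, div_self hG.u0, mul_one, ← sq, ← mul_pow] at hgen
    have h1 : V.valuation (p : ℂ) * ∏ q ∈ H, max 1 (V.valuation (xu L u e q)) = 1 := by
      rcases lt_trichotomy (V.valuation (p : ℂ) * ∏ q ∈ H, max 1 (V.valuation (xu L u e q))) 1
        with h | h | h
      · exact absurd hgen (ne_of_lt (pow_lt_one₀ zero_le h two_ne_zero))
      · exact h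
      · exact absurd hgen (ne_of_gt (one_lt_pow₀ h two_ne_zero))
    have hHn : ∀ q ∈ H, q ∉ L.lattice := by
      intro q hq h
      apply hH.ne q hq
      rw [two_mul]
      exact add_mem h h
    set T : Finset ℂ := H.filter (fun q => ¬ (xu L u e q ∈ V)) with hT
    have hTH : ∀ q ∈ T, q ∈ H ∧ xu L u e q ∉ V := by
      intro q hq
      rw [hT, Finset.mem_filter] at hq
      exact hq
    have h2 : ∏ q ∈ H, max 1 (V.valuation (xu L u e q)) = ∏ q ∈ T, V.valuation (xu L u e q) := by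
      rw [hT, Finset.prod_filter]
      refine Finset.prod_congr rfl fun q _ => ?_
      by_cases h : xu L u e q ∈ V
      · rw [if_neg (not_not.2 h)]
        exact max_eq_left ((V.valuation_le_one_iff _).2 h)
      · rw [if_pos h]
        apply max_eq_right
        by_contra h3
        rw [not_le] at h3
        exact h ((V.valuation_le_one_iff _).1 h3.le)
    rw [h2] at h1
    have hxT : ∀ q ∈ T, xu L u e q ≠ 0 := by
      intro q hq h
      apply (hTH q hq).2
      rw [h]
      exact V.zero_mem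
    have hTS : ∀ q ∈ T, q ∈ SP P er L := by
      intro q hq
      obtain ⟨hqH, hqV⟩ := hTH q hq
      have hK1 : InK V L (xu L u e) q := Or.inr hqV
      refine ⟨?_, hHn q hqH⟩
      intro x hx
      obtain ⟨-, hp2, hp3⟩ := hPVL p er A B P V al hC L u e lam hN hG
      refine hp3 (Pc P) hC.cnl _ ?_ (hp2 x q hK1)
      intro c hc
      have h3 : x * c ∈ idl (A := A) (B := B) p := by
        rw [hC.fac]
        exact Ideal.mul_mem_mul hx hc
      obtain ⟨d, hd⟩ := Ideal.mem_span_singleton'.1 h3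
      have h4 : emb c * (emb x * q) = emb d * ((p : ℂ) * q) := by
        have h5 := congrArg φ hd
        rw [map_mul, map_mul, map_natCast, hφ, hφ, hφ] at h5
        linear_combination -q * h5
      rw [h4]
      exact lat hC.ring hN d (hH.mem q hqH)
    refine ⟨T.card, fun i => ((T.equivFin.symm i : T) : ℂ), ?_, ?_, ?_⟩
    · intro i
      exact hTS _ (T.equivFin.symm i).2
    · intro i j hij
      simp only [su] at hij
      have h3 : xu L u e (T.equivFin.symm i : T) = xu L u e (T.equivFin.symm j : T) :=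
        inv_injective hij
      have h4 : L.weierstrassP (T.equivFin.symm i : T) = L.weierstrassP (T.equivFin.symm j : T) := by
        unfold xu at h3
        have hu : u ^ 2 ≠ 0 := pow_ne_zero 2 hG.u0
        have h5 := (div_left_inj' hu).1 h3
        exact sub_left_injective h5
      have hi := hTH _ (T.equivFin.symm i).2
      have hj := hTH _ (T.equivFin.symm j).2
      have h6 : ((T.equivFin.symm i : T) : ℂ) = ((T.equivFin.symm j : T) : ℂ) := by
        rcases b_NEQ L _ _ (hHn _ hj.1) (hHn _ hi.1) h4 with h | h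
        · exact hH.inj _ hi.1 _ hj.1 h
        · exact absurd h (hH.neg _ hi.1 _ hj.1)
      exact T.equivFin.symm.injective (Subtype.ext h6)
    · have h3 : ∏ i : Fin T.card, su L u e ((T.equivFin.symm i : T) : ℂ) =
          ∏ q ∈ T, su L u e q := by
        rw [Equiv.prod_comp T.equivFin.symm (fun q : T => su L u e (q : ℂ))]
        exact Finset.prod_coe_sort T (fun q => su L u e q)
      have h4 : V.valuation (∏ q ∈ T, su L u e q) = (∏ q ∈ T, V.valuation (xu L u e q))⁻¹ := by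
        rw [map_prod, ← Finset.prod_inv_distrib]
        refine Finset.prod_congr rfl fun q _ => ?_
        unfold su
        rw [map_inv₀]
      show V.valuation (∏ i : Fin T.card, su L u e ((T.equivFin.symm i : T) : ℂ)) ≤ _
      rw [h3, h4]
      exact (eq_inv_of_mul_eq_one_left h1).symm.le
  · refine (Set.finite_range (fun q : Fin p × Fin p =>
      (su L u e (((q.1 : ℕ) * L.ω₁ + (q.2 : ℕ) * L.ω₂) / p),
        ru L u e (((q.1 : ℕ) * L.ω₁ + (q.2 : ℕ) * L.ω₂) / p)))).subset ?_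
    rintro _ ⟨Y, hY, rfl⟩
    have hpY := hY.1 _ hpP
    rw [hpE] at hpY
    obtain ⟨i, j, hij⟩ := PeriodPair.mem_lattice.1 hpY
    have hpz : (0 : ℤ) < p := by exact_mod_cast hC.pp.pos
    have hi0 : 0 ≤ i % p := Int.emod_nonneg i hpz.ne'
    have hi1 : i % p < p := Int.emod_lt_of_pos i hpz
    have hj0 : 0 ≤ j % p := Int.emod_nonneg j hpz.ne'
    have hj1 : j % p < p := Int.emod_lt_of_pos j hpz
    have hi : i = p * (i / p) + i % p := (Int.mul_ediv_add_emod i p).symm
    have hj : j = p * (j / p) + j % p := (Int.mul_ediv_add_emod j p).symm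
    refine ⟨(⟨(i % p).toNat, by omega⟩, ⟨(j % p).toNat, by omega⟩), ?_⟩
    have c1 : (((i % p).toNat : ℕ) : ℂ) = ((i % p : ℤ) : ℂ) := by
      have := Int.toNat_of_nonneg hi0
      exact_mod_cast congrArg (fun n : ℤ => (n : ℂ)) this
    have c2 : (((j % p).toNat : ℕ) : ℂ) = ((j % p : ℤ) : ℂ) := by
      have := Int.toNat_of_nonneg hj0
      exact_mod_cast congrArg (fun n : ℤ => (n : ℂ)) this
    have hiC : (i : ℂ) = p * ((i / p : ℤ) : ℂ) + ((i % p : ℤ) : ℂ) := by
      exact_mod_cast congrArg (fun n : ℤ => (n : ℂ)) hi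
    have hjC : (j : ℂ) = p * ((j / p : ℤ) : ℂ) + ((j % p : ℤ) : ℂ) := by
      exact_mod_cast congrArg (fun n : ℤ => (n : ℂ)) hj
    have e1 : Y = (((i % p).toNat : ℕ) * L.ω₁ + ((j % p).toNat : ℕ) * L.ω₂) / p +
        (((i / p : ℤ) : ℂ) * L.ω₁ + ((j / p : ℤ) : ℂ) * L.ω₂) := by
      rw [c1, c2]
      apply mul_left_cancel₀ hp0
      rw [← hij, hiC, hjC]
      field_simp
      ring
    have h5 := hP ((((i % p).toNat : ℕ) * L.ω₁ + ((j % p).toNat : ℕ) * L.ω₂) / p) _
      (PeriodPair.mem_lattice.2 ⟨i / p, j / p, rfl⟩)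
    rw [← e1] at h5
    simp only [h5.1, h5.2]
  · intro Y hY w hw
    exact ⟨hE Y hY w hw, hP Y w hw⟩

end

end Pool.Agent.OEE
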