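import Pool.Agent.OE.StE
import Pool.Agent.ME.X_TRA
import Pool.Agent.ME.X_TRB
import Pool.Agent.ME.X_FAC
import Pool.Agent.ME.X_GTH
import Pool.Agent.ME.X_PT
import Pool.Agent.ME.X_GAL

/-!
# OE, block E (port of `OB/E_PVL.lean`), module PVL (helper95): the kernel of reduction as a module over the integers
-/

set_option autoImplicit false

open Polynomial

namespace Pool.Agent.OEE

open _root_.MU3 _root_.Pool.Agent.MU3A _root_.Pool.Agent.MU3B _root_.Pool.Agent.MUX _root_.Pool.Agent.MUXU _root_.Pool.Agent.MUXE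
open _root_.Pool.Agent.RI _root_.Pool.Agent.NS _root_.Pool.Agent.OB
open _root_.Pool.Agent.MUXV (GR InK tX)
open _root_.Pool.Agent.NSE (su ru WL IntP)
open _root_.Pool.Agent.ME hiding ActE
open _root_.Pool.Agent.MEE
open _root_.Pool.Agent.OBE (SP Ann Ker0 PtsO RepO Cp lv0 Sb_ALG Sb_PRO Sb_PUL Sb_COE Sb_GRN Sb_LEG Sb_TNC Sb_GEN Sb_UNT Sb_RAT Sb_KIS Sb_NE1 Sb_DSM)

noncomputable section

theorem tb_PVLE (hUNT : Sb_UNT) (hKIS : Sb_KIS) (hGRN : Sb_GRN) : Sb_PVLE := by
  intro p er A B P V al c L u e lam hL hG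
  have hCp : Cp p V := c.toCp
  obtain ⟨φ, hφ⟩ := c.ring.hom
  have tra := tm_TRA A B c.ring L hL
  obtain ⟨ξ, G⟩ := hGRN p V L u e lam hCp hG
  have hu := hG.u0
  have key : ∀ x : OO A B, x ∉ P → Ker0 V L L u e (emb x) ∧
      ∀ z, InK V L (xu L u e) z → z ∉ L.lattice →
        emb x * z ∉ L.lattice ∧ InK V L (xu L u e) (emb x * z) ∧
        V.valuation (xu L u e (emb x * z)) = V.valuation (xu L u e z) := by
    intro x hx
    have hx0 : x ≠ 0 := fun h => hx (h ▸ P.zero_mem)
    have he0 : emb x ≠ 0 := fun h => hx0 (c.ring.inj0 x h)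
    have hI : Isg L L (emb x) := fun w hw => tra.1 x w hw
    have hv : V.valuation (emb x * u / u) = 1 := by
      rw [mul_div_assoc, div_self hu, mul_one]
      exact c.unit x hx
    have hK : Ker0 V L L u e (emb x) :=
      ((hUNT p V L L u e lam u e lam (emb x) hCp hG hG he0 hI).1).2 hv
    exact ⟨hK, fun z hz hzL =>
      hKIS p V L L u e lam u e lam (emb x) hCp hG hG he0 hI hK z hz hzL⟩
  have k2 : ∀ (x : OO A B) (z : ℂ), InK V L (xu L u e) z →
      InK V L (xu L u e) (emb x * z) := by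
    intro x z hz
    have main : ∀ x : OO A B, x ∉ P → InK V L (xu L u e) (emb x * z) := by
      intro x hx
      by_cases hzL : z ∈ L.lattice
      · exact Or.inl (tra.1 x z hzL)
      · exact ((key x hx).2 z hz hzL).2.1
    by_cases hx : x ∈ P
    · have h1 : x + 1 ∉ P := by
        intro h
        have h4 : (1 : OO A B) ∈ P := by
          have h5 := P.sub_mem h hx
          rwa [add_sub_cancel_left] at h5
        exact c.max.ne_top ((Ideal.eq_top_iff_one P).2 h4)
      have h2 := main (x + 1) h1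
      have h3 := Pool.Agent.MUXV.inK_sub G h2 hz
      have h6 : emb (x + 1) * z - z = emb x * z := by
        rw [← hφ, map_add, map_one, hφ]
        ring
      rwa [h6] at h3
    · exact main x hx
  refine ⟨key, k2, ?_⟩
  intro m hm z hT hz
  obtain ⟨x, hxm, hxP⟩ := SetLike.not_le_iff_exists.1 hm
  by_contra hzL
  exact ((key x hxP).2 z hz hzL).1 (hT x hxm)

end

end Pool.Agent.OEE
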