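import Pool.Agent.OE.StE
import Pool.Agent.ME.X_TRA
import Pool.Agent.ME.X_TRB
import Pool.Agent.ME.X_FAC
import Pool.Agent.ME.X_GTH
import Pool.Agent.ME.X_PT
import Pool.Agent.ME.X_GAL
import Pool.Agent.NS.E_BAS
import Pool.Agent.MUX.Q_YUN

/-!
# OE, block E (port of `OB/E_UNI.lean`), module UNI: a uniformiser of `RFE (P^(J+1) m')` over `RFE m'` (helper94; model `NS/F_UNI.lean`)
-/

set_option autoImplicit false

open Polynomial

namespace Pool.Agent.OEE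

open _root_.MU3 _root_.Pool.Agent.MU3A _root_.Pool.Agent.MU3B _root_.Pool.Agent.MUX _root_.Pool.Agent.MUXU _root_.Pool.Agent.MUXE
open _root_.Pool.Agent.RI _root_.Pool.Agent.NS _root_.Pool.Agent.OB
open _root_.Pool.Agent.MUXV (GR InK tX)
open _root_.Pool.Agent.NSE (su ru WL IntP)
open _root_.Pool.Agent.ME hiding ActE
open _root_.Pool.Agent.MEE
open _root_.Pool.Agent.OBE (SP Ann Ker0 PtsO RepO Cp lv0 Sb_ALG Sb_PRO Sb_PUL Sb_COE Sb_GRN Sb_LEG Sb_TNC Sb_GEN Sb_UNT Sb_RAT Sb_KIS Sb_NE1 Sb_DSM)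

noncomputable section

namespace UNI

theorem dvd_two {A B : ℤ} {f : ℕ} (h : (2 : OO A B) ∈ idl (A := A) (B := B) f) : f ∣ 2 := by
  rw [Ideal.mem_span_singleton] at h
  obtain ⟨y, hy⟩ := h
  have h1 := congrArg QuadraticAlgebra.re hy
  simp at h1
  have h2 : (f : ℤ) ∣ 2 := ⟨y.re, h1⟩
  exact_mod_cast h2

end UNI

theorem tb_UNIE (hGRN : Sb_GRN) (hLEG : Sb_LEG) (hPVL : Sb_PVLE) (hTPR : Sb_TPRE) (hUNR : Sb_UNRE)
    (hDEG : Sb_DEGE) : Sb_UNIE := by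
  intro p er A B P V al hC hT hG L u e lam hL hgood J f m₁ m' hf h2f hm'm hmf hm' hm'P z₁ hz₁
  have hR := hC.ring
  have := hR.ded
  obtain ⟨φ, hφ⟩ := hR.hom
  have hmul : ∀ x y : OO A B, emb (x * y) = emb x * emb y := fun x y => by
    rw [← hφ, map_mul, hφ, hφ]
  have hadd : ∀ x y : OO A B, emb (x + y) = emb x + emb y := fun x y => by
    rw [← hφ, map_add, hφ, hφ]
  have hone : emb (1 : OO A B) = 1 := by rw [← hφ, map_one]
  have hnat : ∀ k : ℕ, emb ((k : ℕ) : OO A B) = k := fun k => by rw [← hφ, map_natCast]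
  have hcp : Cp p V := ⟨hC.pp, hC.p2, hC.vp⟩
  have hq3 := hC.n3
  obtain ⟨c1, c2, c3, c4, c5⟩ := Pool.Agent.MEE.tm_FAC Pool.Agent.MEE.tm_TRA A B hR
  obtain ⟨r1, r2, r3, r4, r5, -⟩ := Pool.Agent.MEE.tm_TRA A B hR L hL
  obtain ⟨ξ, G⟩ := hGRN p V L u e lam hcp hgood
  obtain ⟨-, -, pv3⟩ := hPVL p er A B P V al hC L u e lam hL hgood
  have hm₁P : ¬ m₁ ≤ P := fun h => hm'P (hm'm.trans h)
  -- `1 = s + t`
  have hcop : IsCoprime (P ^ (J + 1)) m₁ := by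
    apply IsCoprime.pow_left
    rw [Ideal.isCoprime_iff_sup_eq]
    rcases hC.max.eq_of_le (J := P ⊔ m₁) with h1
    by_contra h2
    have h3 := h1 h2 le_sup_left
    apply hm₁P
    rw [h3]
    exact le_sup_right
  obtain ⟨s, hs, t, ht, hst⟩ := Ideal.isCoprime_iff_exists.1 hcop
  obtain ⟨P₀, hP₀⟩ : ∃ z, z = emb s * z₁ := ⟨_, rfl⟩
  obtain ⟨P₁, hP₁⟩ : ∃ z, z = emb t * z₁ := ⟨_, rfl⟩
  have hsum : P₀ + P₁ = z₁ := by
    rw [hP₀, hP₁, ← add_mul, ← hadd, hst, hone, one_mul]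
  have hTP₀ : Tor m₁ L P₀ := by
    intro x hx
    rw [hP₀, ← mul_assoc, ← hmul, hz₁, mul_comm x s]
    exact Ideal.mul_mem_mul hs hx
  have hTP₁ : Tor (P ^ (J + 1)) L P₁ := by
    intro x hx
    rw [hP₁, ← mul_assoc, ← hmul, hz₁]
    exact Ideal.mul_mem_mul hx ht
  have hTP₁' : ¬ Tor (P ^ J) L P₁ := by
    intro h
    have hlt : P ^ (J + 1) < P ^ J := Ideal.pow_right_strictAnti P hC.ne hC.max.ne_top (Nat.lt_succ_self J)
    obtain ⟨x, hx, hx'⟩ := SetLike.exists_of_lt hlt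
    have h1 := h x hx
    rw [hP₁, ← mul_assoc, ← hmul, hz₁] at h1
    apply hx'
    have h2 : x * t ∈ P ^ (J + 1) := (Ideal.mul_le_left : P ^ (J + 1) * m₁ ≤ P ^ (J + 1)) h1
    have h3 : x = x * s + x * t := by rw [← mul_add, hst, mul_one]
    rw [h3]
    exact add_mem (Ideal.mul_mem_left _ _ hs) h2
  have h2P₀ : 2 * P₀ ∉ L.lattice := by
    intro h
    have h1 : emb (((2 : ℕ) : OO A B) * s) * z₁ ∈ L.lattice := by
      rw [hmul, hnat, mul_assoc, ← hP₀]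
      exact_mod_cast h
    rw [hz₁] at h1
    have h2 : ((2 : ℕ) : OO A B) * s ∈ m₁ := (Ideal.mul_le_right : P ^ (J + 1) * m₁ ≤ m₁) h1
    have h3 : (2 : OO A B) ∈ m₁ := by
      have h4 : (2 : OO A B) = ((2 : ℕ) : OO A B) * s + 2 * t := by
        push_cast
        rw [← mul_add, hst, mul_one]
      rw [h4]
      exact add_mem h2 (Ideal.mul_mem_left _ _ ht)
    have h5 := Nat.le_of_dvd (by norm_num) (UNI.dvd_two (hmf h3))
    omega
  have hP₀L : P₀ ∉ L.lattice := fun h => h2P₀ (by rw [two_mul]; exact add_mem h h)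
  have hP₀E : ¬ InK V L (xu L u e) P₀ := fun h => hP₀L (pv3 m₁ hm₁P P₀ hTP₀ h)
  have hT2P₀ : Tor m₁ L (2 * P₀) := by
    rw [two_mul]
    exact r2 m₁ _ _ hTP₀ hTP₀
  have h2P₀E : ¬ InK V L (xu L u e) (2 * P₀) := fun h => h2P₀ (pv3 m₁ hm₁P _ hT2P₀ h)
  obtain ⟨hP₁E, hxP₁, hP₁v⟩ := hTPR p er A B P V al hC J L u e lam hL hgood P₁ hTP₁ hTP₁'
  have hP₁L : P₁ ∉ L.lattice := fun h => hTP₁' (fun x _ => r1 x _ h)
  obtain ⟨hPE, -⟩ := Pool.Agent.MUXV.near G hP₀E hP₁E hP₁L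
  rw [hsum] at hPE
  have hPL : z₁ ∉ L.lattice := fun h => hPE (Or.inl h)
  -- the fields
  obtain ⟨w₁, w₂, hw₁, hw₁L, hw₂, hw₂L, he1, hu1, -⟩ := hLEG p V L u e lam hcp hgood
  have hle2 : m' ≤ idl (A := A) (B := B) 2 := by
    refine (hm'm.trans hmf).trans ?_
    rw [Ideal.span_singleton_le_span_singleton]
    obtain ⟨f', hf'⟩ := h2f
    refine ⟨((f' : ℕ) : OO A B), ?_⟩
    rw [hf']; push_cast; ring
  have hle20 := c1 _ _ hle2
  have hw : ∀ w : ℂ, 2 * w ∈ L.lattice → w ∉ L.lattice → L.weierstrassP w ∈ RFE m' := by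
    intro w hw hwL
    have h1 : xnE L w ∈ RFE (idl (A := A) (B := B) 2) := by
      refine (c2 _ L hL).2 _ ((r5 ((2 : ℕ) : OO A B) w).2 ?_) hwL
      rw [hnat]
      exact_mod_cast hw
    have h2 : L.weierstrassP w = xnE L w + ((0 : ℚ) : ℂ) := by
      unfold xnE; push_cast; ring
    rw [h2]
    exact add_mem (hle20 h1) (SubfieldClass.ratCast_mem _ _)
  have heM : e ∈ RFE m' := by
    rw [← he1]; exact hw w₁ hw₁ hw₁L
  have huM : u ^ 2 ∈ RFE m' := by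
    rw [← hu1]; exact sub_mem (hw w₂ hw₂ hw₂L) (hw w₁ hw₁ hw₁L)
  have hlv : P ^ (J + 1) * m' ≤ m' := Ideal.mul_le_right
  have hle := c1 _ _ hlv
  have hlvf : P ^ (J + 1) * m' ≤ P ^ (J + 1) * m₁ := Ideal.mul_mono_right hm'm
  have hP₀M : xnE L P₀ ∈ RFE m' := (c2 _ L hL).2 _ (fun x hx => hTP₀ x (hm'm hx)) hP₀L
  have hPM : xnE L z₁ ∈ RFE (P ^ (J + 1) * m') :=
    (c2 _ L hL).2 _ (fun x hx => (hz₁ x).2 (hlvf hx)) hPL
  have hxx : ∀ z : ℂ, xu L u e z = (xnE L z + ((0 : ℚ) : ℂ) - e) / u ^ 2 := by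
    intro z; unfold xu xnE; push_cast; ring
  have hx0M : xu L u e P₀ ∈ RFE m' := by
    rw [hxx]
    exact div_mem (sub_mem (add_mem hP₀M (SubfieldClass.ratCast_mem _ _)) heM) huM
  have hxPM : xu L u e z₁ ∈ RFE (P ^ (J + 1) * m') := by
    rw [hxx]
    exact div_mem (sub_mem (add_mem hPM (SubfieldClass.ratCast_mem _ _)) (hle heM)) (hle huM)
  obtain ⟨π, hπ⟩ : ∃ z, z = xu L u e z₁ - xu L u e P₀ := ⟨_, rfl⟩
  have hπM : π ∈ RFE (P ^ (J + 1) * m') := by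
    rw [hπ]; exact sub_mem hxPM (hle hx0M)
  have hvπ : V.valuation π ^ ((nI P - 1) * nI P ^ J) = V.valuation (emb al) := by
    have h11 := (Pool.Agent.MUXV.tq_YUN V (WL lam) L (xu L u e) (yu L u) ξ G P₀ hP₀E h2P₀E).2 P₁
      hP₁E hP₁L
    rw [hsum, ← hπ] at h11
    obtain ⟨-, h12, h13⟩ := Pool.Agent.MUXV.v_tX_lt G hP₁E hP₁L
    have h14 : V.valuation (su L u e P₁) = V.valuation (tX (xu L u e) (yu L u) P₁) ^ 2 := by
      unfold su
      rw [map_inv₀]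
      exact inv_eq_of_mul_eq_one_right h13
    rw [h14, ← pow_mul] at hP₁v
    have h15 : (V.valuation π ^ ((nI P - 1) * nI P ^ J)) ^ 2 = V.valuation (emb al) ^ 2 := by
      rw [← hP₁v, h11, ← pow_mul]
      congr 1
      ring
    exact (pow_left_inj₀ zero_le zero_le (by norm_num)).1 h15
  have hp0' : (p : ℂ) ≠ 0 := by
    have := hC.pp.ne_zero
    exact_mod_cast this
  have hvp : V.valuation (emb al) < 1 := by
    by_contra h
    have h11 : (1 : V.ValueGroup) ≤ V.valuation (emb al) ^ er := one_le_pow₀ (not_lt.1 h)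
    rw [hC.alv] at h11
    exact absurd hC.vp (not_lt.2 h11)
  have hp0 : emb al ≠ 0 := by
    intro h
    have h11 := hC.alv
    rw [h, map_zero, zero_pow (by have := hC.er1; omega)] at h11
    exact (Valuation.ne_zero_iff _).2 hp0' h11.symm
  have hbot : P ^ (J + 1) * m' ≠ ⊥ := by
    rw [← Ideal.zero_eq_bot] at hm' ⊢
    exact mul_ne_zero (pow_ne_zero _ (by rw [Ideal.zero_eq_bot]; exact hC.ne)) hm'
  have := hG.fin _ hm'
  have := hG.fin _ hbot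
  refine ⟨P₀, hTP₀, hP₀L, hP₀E, hPE, huM, heM, hx0M, hπ ▸ hπM, ?_⟩
  intro w hw hvw
  rw [← hπ]
  exact Pool.Agent.NSE.te_BAS (kk A B) ℂ V.ValueGroup V.valuation
    (RFE m') (RFE (P ^ (J + 1) * m'))
    ((nI P - 1) * nI P ^ J) (emb al) π hle
    (Nat.mul_pos (by omega) (pow_pos (by omega) _)) (hDEG p er A B P V al hC hG J m' hm' hle2 hm'P) hp0
    hvp (hUNR p er A B P V al hC hT m' hm' hle2 hm'P) hπM hvπ w hw hvw

end

end Pool.Agent.OEE
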