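import Pool.Agent.OB.EAll
import Pool.Agent.OE.E_ADD
import Pool.Agent.OE.E_BAS
import Pool.Agent.OE.E_CAL
import Pool.Agent.OE.E_CFA
import Pool.Agent.OE.E_CTX
import Pool.Agent.OE.E_DEG
import Pool.Agent.OE.E_EXO
import Pool.Agent.OE.E_FIN
import Pool.Agent.OE.E_FN1
import Pool.Agent.OE.E_IDL
import Pool.Agent.OE.E_INN
import Pool.Agent.OE.E_ISO
import Pool.Agent.OE.E_MAIN
import Pool.Agent.OE.E_MUL
import Pool.Agent.OE.E_ONE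
import Pool.Agent.OE.E_PIS
import Pool.Agent.OE.E_PTS
import Pool.Agent.OE.E_PVL
import Pool.Agent.OE.E_SIG
import Pool.Agent.OE.E_THN
import Pool.Agent.OE.E_TPR
import Pool.Agent.OE.E_UNI
import Pool.Agent.OE.E_UNR

/-!
# OE, block E: assembly (helper96)
-/

set_option autoImplicit false

namespace Pool.Agent.OEE

open Pool.Agent.OE
open Pool.Agent.OBE (e_ALG e_COE e_LEG e_DSM e_PRO e_PUL e_GRN e_TNC e_GEN e_UNT e_NE1 e_RAT e_KIS)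

theorem ee_DEG : Sb_DEGE := tb_DEGE
theorem ee_EXO : Sb_EXOE := tb_EXOE
theorem ee_IDL : Sb_IDLE := tb_IDLE
theorem ee_MUL : Sb_MULE := tb_MULE
theorem ee_UNR : Sb_UNRE := tb_UNRE
theorem ee_PVL : Sb_PVLE := tb_PVLE e_UNT e_KIS e_GRN
theorem ee_PIS : Sb_PISE := tb_PISE e_GEN e_UNT ee_PVL Pool.Agent.MUXU.u_BAC
theorem ee_TPR : Sb_TPRE := tb_TPRE e_GRN e_TNC ee_PIS Pool.Agent.MUXU.u_PFI
theorem ee_PTS : Sb_PTSE := tb_PTSE e_COE e_GEN ee_PVL ee_TPR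
theorem ee_ADD : Sb_ADDE := tb_ADDE e_ALG e_COE e_GRN ee_PTS
theorem ee_ISO : Sb_ISOE := tb_ISOE e_ALG e_PRO ee_PTS e_UNT e_RAT
theorem ee_THN : Sb_THNE := tb_THNE e_ALG e_PRO e_PUL e_GRN ee_ISO ee_ADD ee_PTS
theorem ee_UNI : Sb_UNIE := tb_UNIE e_GRN e_LEG ee_PVL ee_TPR ee_UNR ee_DEG
theorem ee_SIG : Sb_SIGE := tb_SIGE e_ALG e_PRO ee_PTS ee_ADD ee_UNI
theorem ee_ONE : Sb_ONEE :=
  tb_ONEE e_ALG e_PRO e_LEG ee_PTS ee_THN ee_IDL ee_UNR ee_SIG e_NE1 ee_EXO ee_MUL e_UNT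
theorem ee_MAIN : Sb_MAINE := tb_MAINE ee_ONE
theorem ee_INN : Sb_INNE := tb_INNE ee_THN e_NE1 ee_EXO ee_MUL e_UNT ee_PIS e_DSM
theorem ee_FN1 : Sb_FN1E := tb_FN1E ee_MAIN ee_INN
theorem ee_BAS : Sb_BASE := tb_BASE
theorem ee_CFA : Sb_CFAE := tb_CFAE
theorem ee_CAL : Sb_CALE := tb_CALE ee_CFA
theorem ee_CTX : Sb_CTXE := tb_CTXE ee_CFA ee_CAL

/-- block E -/
theorem oe_EFIN : O_RFINE → O_EFINE := tb_FINE ee_CTX ee_FN1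

end Pool.Agent.OEE
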