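import Pool.Agent.OE.StE
import Pool.Agent.ME.X_TRA
import Pool.Agent.ME.X_TRB
import Pool.Agent.ME.X_FAC
import Pool.Agent.ME.X_GTH
import Pool.Agent.ME.X_PT
import Pool.Agent.ME.X_GAL

/-!
# OE, block E (port of `OB/E_ONE.lean`), module ONE: Lemma E for products over finite families of points (helper96; model helper76, helper86)
-/

set_option autoImplicit false

open Polynomial

namespace Pool.Agent.OEE

open _root_.MU3 _root_.Pool.Agent.MU3A _root_.Pool.Agent.MU3B _root_.Pool.Agent.MUX _root_.Pool.Agent.MUXU _root_.Pool.Agent.MUXE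
open _root_.Pool.Agent.RI _root_.Pool.Agent.NS _root_.Pool.Agent.OB
open _root_.Pool.Agent.MUXV (GR InK tX)
open _root_.Pool.Agent.NSE (su ru WL IntP)
open _root_.Pool.Agent.ME hiding ActE
open _root_.Pool.Agent.MEE
open _root_.Pool.Agent.OBE (SP Ann Ker0 PtsO RepO Cp lv0 Sb_ALG Sb_PRO Sb_PUL Sb_COE Sb_GRN Sb_LEG Sb_TNC Sb_GEN Sb_UNT Sb_RAT Sb_KIS Sb_NE1 Sb_DSM)

noncomputable section

namespace ONE

/-- `|H|` is divisible by `p` -/
lemma cardp {L : PeriodPair} {p a : ℕ} {H : Finset ℂ} (hp : p.Prime) (hp2 : p ≠ 2) (ha : 1 ≤ a)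
    (hpa : p ∣ a - 1) (hH : IsHalf L (a : ℂ) H) : p ∣ H.card := by
  obtain ⟨-, -, h⟩ := b_HRE L a H (by exact_mod_cast (by omega : a ≠ 0)) (fun w hw => by
    have := nsmul_mem hw a
    rwa [nsmul_eq_mul] at this) hH
  have h1 : 2 * H.card + 1 = a ^ 2 := by
    rw [Complex.norm_natCast] at h
    exact_mod_cast h
  obtain ⟨t, ht⟩ := hpa
  have h2 : a = p * t + 1 := by omega
  have h3 : 2 * H.card = p * (t * (p * t + 2)) := by
    have h4 : a ^ 2 = p * (t * (p * t + 2)) + 1 := by rw [h2]; ring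
    omega
  have h5 : p ∣ 2 * H.card := ⟨_, h3⟩
  rcases (Nat.Prime.dvd_mul hp).1 h5 with h6 | h6
  · exact absurd ((Nat.prime_dvd_prime_iff_eq hp Nat.prime_two).1 h6) hp2
  · exact h6

lemma usq (h5 : Sb_LEG) (h7 : Sb_UNRE) {p er : ℕ} {A B : ℤ} {P : Ideal (OO A B)}
    {V : ValuationSubring ℂ} {al : OO A B} (hC : CtxX p er A B P V al)
    (hT : TorXE A B) {L : PeriodPair} {u e lam : ℂ} (hL : NLE A B L) (hg : GoodL V L u e lam) :
    ∃ k : ℤ, V.valuation (u ^ 2) = V.valuation (emb al) ^ k := by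
  obtain ⟨w₁, w₂, h1, h1', h2, h2', he, hu, -⟩ := h5 p V L u e lam hC.toCp hg
  have hring := hC.ring
  obtain ⟨φ, hφ⟩ := hring.hom
  have e2 : emb ((2 : ℕ) : OO A B) = 2 := by rw [← hφ, map_natCast]; norm_num
  obtain ⟨-, hx, -⟩ := tm_FAC tm_TRA A B hring
  have hsp := (tm_TRA A B hring L hL).2.2.2.2.1
  have m1 : xnE L w₁ ∈ RFE (idl (A := A) (B := B) 2) :=
    (hx _ L hL).2 w₁ ((hsp _ _).2 (by rw [e2]; exact h1)) h1'
  have m2 : xnE L w₂ ∈ RFE (idl (A := A) (B := B) 2) :=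
    (hx _ L hL).2 w₂ ((hsp _ _).2 (by rw [e2]; exact h2)) h2'
  have e3 : u ^ 2 = xnE L w₂ - xnE L w₁ := by
    rw [← hu, xnE, xnE]
  have hp2 : ¬ p ∣ 2 := fun h => hC.p2 ((Nat.prime_dvd_prime_iff_eq hC.pp Nat.prime_two).1 h)
  refine h7 p er A B P V al hC hT (idl (A := A) (B := B) 2) ?_ le_rfl ?_ _ ?_
    (pow_ne_zero 2 hg.u0)
  · intro h
    rw [Ideal.span_singleton_eq_bot] at h
    have h3 := congrArg emb h
    rw [e2, ← hφ 0, map_zero] at h3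
    norm_num at h3
  · intro h
    exact (hC.nat 2 hp2).2 (h (Ideal.mem_span_singleton_self _))
  · rw [e3]
    exact sub_mem m2 m1

lemma theta_per (L : PeriodPair) (H : Finset ℂ) (z v : ℂ) (hv : v ∈ L.lattice) :
    ThetaH L H (z + v) = ThetaH L H z := by
  have h2 : L.weierstrassP (z + v) = L.weierstrassP z := L.weierstrassP_add_coe z ⟨v, hv⟩
  simp only [ThetaH, h2]

/-- everything about one point `(i, x)` -/
lemma point (hLEG : Sb_LEG) (hTHN : Sb_THNE) (hUNT : Sb_UNT) (hUNR : Sb_UNRE) (hNE1 : Sb_NE1)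
    (hMUL : Sb_MULE) {p er : ℕ} {A B : ℤ} {P : Ideal (OO A B)} {V : ValuationSubring ℂ}
    {al : OO A B} (hC : CtxX p er A B P V al) (hT : TorXE A B) {n f a : ℕ}
    (hf3 : 3 ≤ f) (hf : ¬ p ∣ f) (ha : 3 ≤ a) (hpa : p ∣ a - 1) (hco : a.Coprime f) {ι : Type}
    (R : RepsE A B (p * f) ι) {u e lam : ℂ} (hgood : GoodL V (R.L R.i0) u e lam)
    {H : ι → Finset ℂ} (hH : ∀ i, IsHalf (R.L i) (a : ℂ) (H i)) (i : ι) (x : OO A B)
    (hx : IsCoprime x ((p ^ (n + 1) * f : ℕ) : OO A B)) :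
    Isg (R.L R.i0) (R.L i) (muXE R i * emb x) ∧
    ptE R (p ^ (n + 1) * f) i x = muXE R i * (emb x * (R.om R.i0 / (p ^ (n + 1) * f : ℕ))) ∧
    ((p ^ (n + 1) * f : ℕ) : ℂ) * ptE R (p ^ (n + 1) * f) i x ∈ (R.L i).lattice ∧
    ptE R (p ^ (n + 1) * f) i x ∉ (R.L i).lattice ∧
    (∃ k : ℤ, V.valuation (ThetaH (R.L i) (H i) (ptE R (p ^ (n + 1) * f) i x)) =
      V.valuation (emb al) ^ (p * k)) ∧
    RepO p V (SP P er (R.L R.i0)) (su (R.L R.i0) u e) (ru (R.L R.i0) u e)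
      (fun Y => ThetaH (R.L i) (H i) (ptE R (p ^ (n + 1) * f) i x + muXE R i * emb x * Y) /
        ThetaH (R.L i) (H i) (ptE R (p ^ (n + 1) * f) i x)) 1
      (muXE R i * emb x * dlX (R.L i) a (ptE R (p ^ (n + 1) * f) i x) / u) := by
  have hring := hC.ring
  have hp0 := hC.pp.pos
  have hpa' : ¬ p ∣ a := by
    intro h
    have h1 : p ∣ a - (a - 1) := Nat.dvd_sub h hpa
    rw [show a - (a - 1) = 1 by omega, Nat.dvd_one] at h1
    exact hC.pp.one_lt.ne' h1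
  have hxn : IsCoprime x ((p * f : ℕ) : OO A B) := by
    refine hx.of_isCoprime_of_dvd_right ⟨((p ^ n : ℕ) : OO A B), ?_⟩
    push_cast
    ring
  have hpf0 : p * f ≠ 0 := mul_ne_zero (by omega) (by omega)
  obtain ⟨hmu, hisg, N, hN3, hN⟩ := hMUL p A B hC.pp hring (p * f) ι R hpf0 (dvd_mul_right _ _) i x
    hxn
  have hm0 : p ^ (n + 1) * f ≠ 0 := mul_ne_zero (pow_ne_zero _ (by omega)) (by omega)
  have hmf : (p ^ (n + 1) * f).primeFactors ⊆ (p * f).primeFactors := by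
    rw [Nat.primeFactors_mul (pow_ne_zero _ (by omega)) (by omega),
      Nat.primeFactors_pow _ (by omega), Nat.primeFactors_mul (by omega) (by omega)]
  obtain ⟨-, -, -, hpt⟩ := tm_PT tm_TRA A B hring (p * f) ι R hpf0 i
  obtain ⟨hz, hzm, hzo, -⟩ := hpt (p ^ (n + 1) * f) hm0 hmf x
  obtain ⟨u', e', lam', hg'⟩ := hC.good (R.L i) ⟨_, _, R.nl i⟩
  obtain ⟨hzK, hza, hzq⟩ := hNE1 p V (R.L i) u' e' lam' hC.toCp hg' (n + 1) f a (by omega) hf hpa'
    hco _ hzm (fun c hc => (dvd_mul_left f _).trans (hzo hx c hc))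
  have hK0 : Ker0 V (R.L R.i0) (R.L i) u e (muXE R i * emb x) :=
    (hUNT p V (R.L R.i0) (R.L i) u e lam u' e' lam' _ hC.toCp hgood hg' hmu hisg).2 N hN3 hN
  obtain ⟨k1, -, k3⟩ := hTHN p er A B P V al hC (R.L R.i0) (R.L i) u e lam u' e' lam'
    (muXE R i * emb x) ⟨_, _, R.nl _⟩ ⟨_, _, R.nl i⟩ hgood
    hg' hmu hisg hK0 a (H i) (by omega) (hH i) _ hzK hza (fun q hq =>
      hzq q ((hH i).mem q hq) (fun hqL => (hH i).ne q hq (by
        rw [two_mul]; exact add_mem hqL hqL)))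
  obtain ⟨k, hk⟩ := usq hLEG hUNR hC hT ⟨_, _, R.nl i⟩ hg'
  obtain ⟨t, ht⟩ := cardp hC.pp hC.p2 (by omega) hpa (hH i)
  refine ⟨hisg, hz, hzm, fun h => hzK (Or.inl h), ⟨k * t, ?_⟩, k3⟩
  rw [k1, hk, ht, ← zpow_natCast, ← zpow_mul]
  congr 1
  push_cast
  ring

/-- the product of the functions `G y` -/
lemma asm (hALG : Sb_ALG) (hPRO : Sb_PRO) {p : ℕ} {V : ValuationSubring ℂ} {S : Set ℂ}
    {s r : ℂ → ℂ} {a2 a4 : ℂ} (hP : PtsO p V S s r a2 a4) {J κ : Type} [Fintype J]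
    (X : J → Finset κ) (g : J → ℤ)
    (G : κ → ℂ → ℂ) (l : κ → ℂ) (hG : ∀ j, ∀ y ∈ X j, RepO p V S s r (G y) 1 (l y)) :
    RepO p V S s r (fun Y => ∏ j, (∏ y ∈ X j, G y Y) ^ g j) 1
      (∑ j, (g j : ℂ) * ∑ y ∈ X j, l y) := by
  obtain ⟨-, -, -, hcg, -⟩ := hALG p V S s r a2 a4 hP
  obtain ⟨-, hpr, -⟩ := hPRO p V S s r a2 a4 hP
  have v0 : V.valuation (0 : ℂ) ≤ V.valuation (p : ℂ) := by rw [map_zero]; exact zero_le
  have h1 : ∀ j, RepO p V S s r (fun Y => ∏ y ∈ X j, G y Y) 1 (∑ y ∈ X j, l y) := by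
    intro j
    have h2 := (hpr (X j) (fun y => G y.1) (fun _ => 1) (fun y => l y.1) (fun _ => 1)
      (fun y => by rw [one_mul]; exact hG j y.1 y.2) (fun y => map_one _)).2
    refine hcg _ _ _ _ _ _ h2 (fun Y _ => ?_) ?_ ?_
    · simp only [zpow_one]
      exact (Finset.prod_coe_sort (X j) (fun y => G y Y)).symm
    · simp only [one_zpow, Finset.prod_const_one, sub_self]
      exact v0
    · simp only [one_zpow, Finset.prod_const_one, one_mul, Int.cast_one]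
      rw [Finset.sum_coe_sort (X j) (fun y => l y), sub_self]
      exact v0
  have h3 := (hpr J (fun j Y => ∏ y ∈ X j, G y Y) (fun _ => 1) (fun j => ∑ y ∈ X j, l y) g
    (fun j => by rw [one_mul]; exact h1 j) (fun y => map_one _)).2
  refine hcg _ _ _ _ _ _ h3 (fun Y _ => rfl) ?_ ?_
  · simp only [one_zpow, Finset.prod_const_one, sub_self]
    exact v0
  · simp only [one_zpow, Finset.prod_const_one, one_mul, sub_self]
    exact v0

/-- an automorphism applied to the root -/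
lemma conj {p : ℕ} {A B : ℤ} {F : IntermediateField (kk A B) ℂ} (σ : F ≃ₐ[kk A B] F)
    {J κ : Type} [Fintype J] (X : J → Finset κ) (g : J → ℤ) (T T' : κ → ℂ)
    (hT : ∀ j, ∀ y ∈ X j, ∃ h : T y ∈ F, (σ ⟨T y, h⟩ : ℂ) = T' y) {y0 : ℂ} (hy0 : y0 ∈ F)
    (h : y0 ^ p = ∏ j, (∏ y ∈ X j, T y) ^ g j) :
    (σ ⟨y0, hy0⟩ : ℂ) ^ p = ∏ j, (∏ y ∈ X j, T' y) ^ g j := by
  have h1 : ∀ y, ∃ th : F, ∀ j, y ∈ X j → (th : ℂ) = T y ∧ (σ th : ℂ) = T' y := by
    intro y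
    by_cases hy : ∃ j, y ∈ X j
    · obtain ⟨j, hj⟩ := hy
      obtain ⟨h2, h3⟩ := hT j y hj
      exact ⟨⟨T y, h2⟩, fun _ _ => ⟨rfl, h3⟩⟩
    · exact ⟨1, fun j hj => absurd ⟨j, hj⟩ hy⟩
  choose θ hθ using h1
  have h2 : (⟨y0, hy0⟩ : F) ^ p = ∏ j, (∏ y ∈ X j, θ y) ^ g j := by
    apply F.val.injective
    rw [map_pow, map_prod]
    simp only [map_zpow₀, map_prod]
    change y0 ^ p = _
    rw [h]
    refine Finset.prod_congr rfl fun j _ => ?_
    congr 1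
    exact Finset.prod_congr rfl fun y hy => ((hθ y j hy).1).symm
  have h3 : (em σ ⟨y0, hy0⟩) ^ p = ∏ j, (∏ y ∈ X j, em σ (θ y)) ^ g j := by
    rw [← map_pow, h2, map_prod]
    simp only [map_zpow₀, map_prod]
  refine h3.trans (Finset.prod_congr rfl fun j _ => ?_)
  congr 1
  exact Finset.prod_congr rfl fun y hy => (hθ y j hy).2

/-- multiplication by a power of an element of `k` -/
lemma conjk {A B : ℤ} {F : IntermediateField (kk A B) ℂ} (σ : F ≃ₐ[kk A B] F) {y0 w0 d : ℂ}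
    (hd : d ∈ kk A B) (K : ℤ) (hy0 : y0 ∈ F) (hw0 : w0 ∈ F) (h : y0 = w0 * d ^ K) :
    (σ ⟨y0, hy0⟩ : ℂ) = σ ⟨w0, hw0⟩ * d ^ K := by
  have h1 : (⟨y0, hy0⟩ : F) = ⟨w0, hw0⟩ * (algebraMap (kk A B) F ⟨d, hd⟩) ^ K := by
    apply F.val.injective
    rw [map_mul, map_zpow₀]
    exact h
  have h2 : em σ ⟨y0, hy0⟩ = em σ ⟨w0, hw0⟩ * d ^ K := by
    rw [h1, map_mul, map_zpow₀, AlgHom.commutes]
    rfl
  exact h2

/-- powers of `v(d)^p` -/
def Cb (p : ℕ) (V : ValuationSubring ℂ) (d x : ℂ) : Prop :=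
  ∃ k : ℤ, V.valuation x = V.valuation d ^ (p * k)

lemma Cb.one (p : ℕ) (V : ValuationSubring ℂ) (d : ℂ) : Cb p V d 1 := ⟨0, by simp⟩

lemma Cb.mul {p : ℕ} {V : ValuationSubring ℂ} {d x y : ℂ} (hd : d ≠ 0) (hx : Cb p V d x)
    (hy : Cb p V d y) : Cb p V d (x * y) := by
  obtain ⟨k, hk⟩ := hx
  obtain ⟨l, hl⟩ := hy
  refine ⟨k + l, ?_⟩
  rw [map_mul, hk, hl, ← zpow_add₀ ((Valuation.ne_zero_iff _).2 hd)]
  congr 1
  ring

lemma Cb.zpow {p : ℕ} {V : ValuationSubring ℂ} {d x : ℂ} (hx : Cb p V d x) (g : ℤ) :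
    Cb p V d (x ^ g) := by
  obtain ⟨k, hk⟩ := hx
  refine ⟨k * g, ?_⟩
  rw [map_zpow₀, hk, ← zpow_mul]
  congr 1
  ring

end ONE

open ONE in
theorem tb_ONEE (hALG : Sb_ALG) (hPRO : Sb_PRO) (hLEG : Sb_LEG) (hPTS : Sb_PTSE) (hTHN : Sb_THNE)
    (hIDL : Sb_IDLE) (hUNR : Sb_UNRE) (hSIG : Sb_SIGE) (hNE1 : Sb_NE1) (hEXO : Sb_EXOE)
    (hMUL : Sb_MULE) (hUNT : Sb_UNT) : Sb_ONEE := by
  intro p er A B P V al hC hT hG n f a hn hf3 hf2 hf ha3 _ hpa hco ι R u e lam hgood H hH J _ X g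
    hX ⟨y0, hy0, hy3⟩
  have ha0 : a ≠ 0 := by omega
  have hpa' : ¬ p ∣ a := by
    intro h
    have h1 : p ∣ a - (a - 1) := Nat.dvd_sub h hpa
    rw [show a - (a - 1) = 1 by omega, Nat.dvd_one] at h1
    exact hC.pp.one_lt.ne' h1
  have hf0 : f ≠ 0 := by omega
  have hp0 : p ≠ 0 := hC.pp.ne_zero
  have hpc : (p : ℂ) ≠ 0 := by exact_mod_cast hp0
  have hring := hC.ring
  obtain ⟨φ, hφ⟩ := hring.hom
  have emul : ∀ x y : OO A B, emb (x * y) = emb x * emb y := fun x y => by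
    rw [← hφ, map_mul, hφ, hφ]
  have eadd : ∀ x y : OO A B, emb (x + y) = emb x + emb y := fun x y => by
    rw [← hφ, map_add, hφ, hφ]
  have eone : emb (1 : OO A B) = 1 := by rw [← hφ, map_one]
  have enat : ∀ n : ℕ, emb ((n : ℕ) : OO A B) = n := fun n => by rw [← hφ, map_natCast]
  have hP := fun j y hy => point (n := n) hLEG hTHN hUNT hUNR hNE1 hMUL hC hT hf3 hf ha3 hpa hco R
    hgood hH y.1 y.2 (hX j y hy)
  have hNL0 : NLE A B (R.L R.i0) := ⟨_, _, R.nl _⟩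
  obtain ⟨hPts, -, hper⟩ := hPTS p er A B P V al hC (R.L R.i0) u e lam hNL0 hgood
  -- the uniformiser
  obtain ⟨d, hd⟩ : ∃ d : ℂ, d = emb al := ⟨_, rfl⟩
  have hdk : d ∈ kk A B := by rw [hd]; exact emb_mem _
  have hd0 : d ≠ 0 := by
    intro h
    have h1 := hC.alv
    have h2 := hC.er1
    rw [← hd, h, map_zero, zero_pow (by omega)] at h1
    exact (Valuation.ne_zero_iff V.valuation).2 hpc h1.symm
  have vd0 : V.valuation d ≠ 0 := (Valuation.ne_zero_iff _).2 hd0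
  -- the product and its root
  have hCW : Cb p V d (∏ j, (∏ y ∈ X j, ThetaH (R.L y.1) (H y.1)
      (ptE R (p ^ (n + 1) * f) y.1 y.2)) ^ g j) := by
    refine Finset.prod_induction _ (Cb p V d) (fun _ _ => Cb.mul hd0) (Cb.one p V d)
      fun j _ => Cb.zpow ?_ _
    refine Finset.prod_induction _ (Cb p V d) (fun _ _ => Cb.mul hd0) (Cb.one p V d)
      fun y hy => ?_
    rw [hd]
    exact (hP j y hy).2.2.2.2.1
  obtain ⟨K, hK⟩ := hCW
  rw [← hy3, map_pow, mul_comm, zpow_mul] at hK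
  have hK' : V.valuation y0 ^ p = (V.valuation d ^ K) ^ p := by
    rw [hK, zpow_natCast]
  have vy0 : V.valuation y0 = V.valuation d ^ K :=
    (pow_left_inj₀ zero_le zero_le hp0).1 hK'
  obtain ⟨w0, hw0⟩ : ∃ w0 : ℂ, w0 = y0 / d ^ K := ⟨_, rfl⟩
  have hdK : d ^ K ≠ 0 := zpow_ne_zero _ hd0
  have hyw : y0 = w0 * d ^ K := by rw [hw0, div_mul_cancel₀ _ hdK]
  have vw0 : V.valuation w0 = 1 := by
    rw [hw0, map_div₀, map_zpow₀, vy0, div_self (zpow_ne_zero _ vd0)]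
  have hw00 : w0 ≠ 0 := by
    intro h
    rw [h, map_zero] at vw0
    exact zero_ne_one vw0
  have hdF : ∀ F : IntermediateField (kk A B) ℂ, d ^ K ∈ F := fun F =>
    zpow_mem (F.algebraMap_mem ⟨d, hdk⟩) K
  -- the level
  have hpfa : ¬ p ∣ f * a := fun h => ((Nat.Prime.dvd_mul hC.pp).1 h).elim hf hpa'
  obtain ⟨i1, -, -, -, -, i6, -⟩ := hIDL p er A B P V al hC f n hf0 hf
  obtain ⟨j1, j2, j3, -, j5, -, j7, -⟩ := hIDL p er A B P V al hC (f * a) n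
    (mul_ne_zero hf0 ha0) hpfa
  obtain ⟨J', hJ'⟩ : ∃ J', er * (n + 1) = J' + 1 := by
    have h1 := hC.er1
    have h2 : 0 < er * (n + 1) := Nat.mul_pos (by omega) (by omega)
    exact ⟨er * (n + 1) - 1, by omega⟩
  rw [hJ'] at i1 j1
  have hle1 : lv0 P (f * a) n ≤ lv0 P f n := by
    refine Ideal.mul_mono_left ?_
    rw [Ideal.span_singleton_le_span_singleton]
    exact ⟨(a : OO A B), by push_cast; ring⟩
  have hmid : idl (A := A) (B := B) (p ^ (n + 1) * (f * a)) = P ^ (J' + 1) * lv0 P (f * a) n := j1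
  -- the big field
  obtain ⟨mm, hmm⟩ : ∃ mm : Ideal (OO A B), mm = P ^ (J' + 1) * lv0 P (f * a) n := ⟨_, rfl⟩
  have hmma : mm ≤ idl (A := A) (B := B) (p ^ (n + 1) * f) := by
    rw [hmm, ← hmid, Ideal.span_singleton_le_span_singleton]
    exact ⟨(a : OO A B), by push_cast; ring⟩
  have hmmA : mm ≤ sp (a : OO A B) := by
    rw [hmm, ← hmid, Ideal.span_singleton_le_span_singleton]
    exact ⟨((p ^ (n + 1) * f : ℕ) : OO A B), by push_cast; ring⟩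
  have hmm2 : mm ≤ idl (A := A) (B := B) 2 := by
    refine hmma.trans ?_
    rw [Ideal.span_singleton_le_span_singleton]
    obtain ⟨f', hf'⟩ := hf2
    exact ⟨((p ^ (n + 1) * f' : ℕ) : OO A B), by rw [hf']; push_cast; ring⟩
  have hmm0 : mm ≠ ⊥ := by
    rw [hmm, ← hmid]
    intro h
    rw [Ideal.span_singleton_eq_bot] at h
    have h2 := congrArg emb h
    rw [enat, ← hφ 0, map_zero] at h2
    exact mul_ne_zero (pow_ne_zero _ hp0) (mul_ne_zero hf0 ha0) (by exact_mod_cast h2)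
  have hFAC := (tm_FAC tm_TRA A B hring).1
  have hy0M : y0 ∈ RFE mm := hFAC _ _ hmma hy0
  have hw0M : w0 ∈ RFE mm := by
    rw [hw0]
    exact div_mem hy0M (hdF _)
  obtain ⟨z₁, hz₁⟩ : ∃ z₁ : ℂ, z₁ = R.om R.i0 / (p ^ (n + 1) * f : ℕ) := ⟨_, rfl⟩
  obtain ⟨-, hEz, hEY⟩ := hEXO p er A B P V al hC n f ι R hf0 hf
  rw [← hz₁, i1] at hEz
  have hsig := hSIG p er A B P V al hC hT hG (R.L R.i0) u e lam hNL0 hgood J' f (lv0 P f n)
    (lv0 P (f * a) n) hf3 hf2 hle1 i6 j2 j3 z₁ hEz w0 (by rw [← hmm]; exact hw0M) vw0.le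
  rw [← hmm] at hsig
  obtain ⟨F, β, vβ, hF, hσF⟩ := hsig
  have hm0 : ((p ^ (n + 1) * f : ℕ) : ℂ) ≠ 0 := by
    exact_mod_cast mul_ne_zero (pow_ne_zero _ hp0) hf0
  have h3n : ∀ eb : ℂ, ((p ^ n * (f * a) : ℕ) : ℂ) * eb * z₁ = eb * (a * R.om R.i0 / p) := by
    intro eb
    have h5 : ((p ^ (n + 1) * f : ℕ) : ℂ) = p * ((p ^ n * f : ℕ) : ℂ) := by
      push_cast
      ring
    have h6 : ((p ^ n * (f * a) : ℕ) : ℂ) = ((p ^ n * f : ℕ) : ℂ) * a := by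
      push_cast
      ring
    have h7 : ((p ^ n * f : ℕ) : ℂ) ≠ 0 := by
      intro h
      rw [h5, h, mul_zero] at hm0
      exact hm0 rfl
    rw [hz₁, h5, h6]
    field_simp
  -- the identity at the points `Y_b`
  have key : ∀ b ∈ Pc P,
      ∏ j, (∏ y ∈ X j, ThetaH (R.L y.1) (H y.1) (ptE R (p ^ (n + 1) * f) y.1 y.2 +
        muXE R y.1 * emb y.2 * (emb b * (a * R.om R.i0 / p))) /
        ThetaH (R.L y.1) (H y.1) (ptE R (p ^ (n + 1) * f) y.1 y.2)) ^ g j =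
      (F (emb b * (a * R.om R.i0 / p)) * w0⁻¹) ^ p := by
    intro b hb
    obtain ⟨c, hc⟩ : ∃ c : OO A B, c = 1 + ((p ^ n * (f * a) : ℕ) : OO A B) * b := ⟨_, rfl⟩
    have hc1 : c - 1 ∈ lv0 P (f * a) n := by
      rw [hc, add_sub_cancel_left]
      exact j5 b hb
    have hcop : IsCoprime (sp c) mm := by
      rw [hmm, ← hmid, Ideal.isCoprime_span_singleton_iff, hc]
      have h1 := j7 1 b one_ne_zero hn
      rwa [mul_one, mul_one] at h1
    have hc2 : c - 1 ∈ idl (A := A) (B := B) 2 := by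
      rw [hc, add_sub_cancel_left]
      obtain ⟨f', hf'⟩ := hf2
      exact Ideal.mul_mem_right _ _ (Ideal.mem_span_singleton.2
        ⟨((p ^ n * (f' * a) : ℕ) : OO A B), by rw [hf']; push_cast; ring⟩)
    obtain ⟨σ, hσ⟩ := hG.sur _ hmm0 hmm2 _ hcop hc2
    have hemc : ∀ z : ℂ, emb (c - 1) * z = ((p ^ n * (f * a) : ℕ) : ℂ) * emb b * z := by
      intro z
      rw [hc, add_sub_cancel_left, emul, enat]
    have k1 := conj σ X g
      (fun y => ThetaH (R.L y.1) (H y.1) (ptE R (p ^ (n + 1) * f) y.1 y.2))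
      (fun y => ThetaH (R.L y.1) (H y.1) (ptE R (p ^ (n + 1) * f) y.1 y.2 +
        muXE R y.1 * emb y.2 * (emb b * (a * R.om R.i0 / p)))) (fun j y hy => by
          obtain ⟨-, hz, hzm, hzL, -⟩ := hP j y hy
          have hNLi : NLE A B (R.L y.1) := ⟨_, _, R.nl y.1⟩
          have hzT0 : Tor (idl (A := A) (B := B) (p ^ (n + 1) * f)) (R.L y.1)
              (ptE R (p ^ (n + 1) * f) y.1 y.2) := by
            refine ((tm_TRA A B hring _ hNLi).2.2.2.2.1 _ _).2 ?_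
            rw [enat]
            exact hzm
          have hzT : Tor mm (R.L y.1) (ptE R (p ^ (n + 1) * f) y.1 y.2) := fun x hx =>
            hzT0 x (hmma hx)
          obtain ⟨hmem, hθ⟩ := tm_GTH tm_TRA A B hring _ hNLi a (H y.1) (hH y.1)
            mm hmmA σ _ hσ (by
              rw [hc, add_sub_cancel_left, Ideal.mem_span_singleton]
              exact ⟨((p ^ n * f : ℕ) : OO A B) * b, by push_cast; ring⟩) _ hzT hzL
          refine ⟨hmem, hθ.trans ?_⟩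
          congr 1
          have h4 : emb c * ptE R (p ^ (n + 1) * f) y.1 y.2 =
              ptE R (p ^ (n + 1) * f) y.1 y.2 + emb (c - 1) * ptE R (p ^ (n + 1) * f) y.1 y.2 := by
            have h5 : c = 1 + (c - 1) := by ring
            conv_lhs => rw [h5, eadd, eone]
            ring
          rw [h4, hemc, ← h3n]
          congr 1
          rw [hz, ← hz₁]
          ring) hy0M hy3
    have k2 := conjk σ hdk K hy0M hw0M hyw
    rw [hσF c hc1 σ hσ hw0M, hemc, h3n] at k2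
    simp only [Finset.prod_div_distrib, div_zpow]
    rw [← k1, ← hy3, k2, hyw, ← div_pow]
    congr 1
    field_simp
  -- the identity on `SP`
  have key2 : ∀ Y ∈ SP P er (R.L R.i0),
      ∏ j, (∏ y ∈ X j, ThetaH (R.L y.1) (H y.1) (ptE R (p ^ (n + 1) * f) y.1 y.2 +
        muXE R y.1 * emb y.2 * Y) /
        ThetaH (R.L y.1) (H y.1) (ptE R (p ^ (n + 1) * f) y.1 y.2)) ^ g j =
      (F Y * w0⁻¹) ^ p := by
    intro Y hY
    obtain ⟨b, hb, hbp, hbY⟩ := (hEY a hpa').2 Y hY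
    obtain ⟨l, hl⟩ : ∃ l : ℂ, l = emb b * (a * R.om R.i0 / p) - Y := ⟨_, rfl⟩
    rw [← hl] at hbY
    have hYb : emb b * (a * R.om R.i0 / p) = Y + l := by rw [hl]; ring
    have h2 := key b hb
    rw [hYb] at h2
    obtain ⟨hYl, hs, hr⟩ := hper Y hY _ hbY
    have hFY : F (Y + l) = F Y := by
      obtain ⟨P, Q, -, -, hPQ, -⟩ := hF
      rw [hPQ _ hYl, hPQ _ hY, hs, hr]
    rw [hFY] at h2
    rw [← h2]
    refine Finset.prod_congr rfl fun j _ => ?_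
    congr 1
    refine Finset.prod_congr rfl fun y hy => ?_
    congr 1
    have h3 : ptE R (p ^ (n + 1) * f) y.1 y.2 + muXE R y.1 * emb y.2 * (Y + l) =
        (ptE R (p ^ (n + 1) * f) y.1 y.2 + muXE R y.1 * emb y.2 * Y) +
        muXE R y.1 * emb y.2 * l := by ring
    rw [h3, theta_per _ _ _ _ ((hP j y hy).1 _ hbY)]
  -- the comparison
  have hS := asm hALG hPRO hPts X g
    (fun y Y => ThetaH (R.L y.1) (H y.1) (ptE R (p ^ (n + 1) * f) y.1 y.2 +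
      muXE R y.1 * emb y.2 * Y) / ThetaH (R.L y.1) (H y.1) (ptE R (p ^ (n + 1) * f) y.1 y.2))
    (fun y => muXE R y.1 * emb y.2 * dlX (R.L y.1) a (ptE R (p ^ (n + 1) * f) y.1 y.2) / u)
    (fun j y hy => (hP j y hy).2.2.2.2.2)
  obtain ⟨hcst, -, -, -, -, hmul, -⟩ := hALG _ _ _ _ _ _ _ hPts
  have hG' : RepO p V (SP P er (R.L R.i0)) (su (R.L R.i0) u e) (ru (R.L R.i0) u e)
      (fun Y => F Y * w0⁻¹) (w0 * w0⁻¹) (w0 * 0 + w0⁻¹ * β) :=
    hmul _ _ _ _ _ _ hF (hcst w0⁻¹ (by rw [map_inv₀, vw0, inv_one]))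
  have hS' := (hPRO _ _ _ _ _ _ _ hPts).2.2 _ _ _ _ _ _ hG' key2 hS
  have hdiff : (∑ j, (g j : ℂ) * ∑ y ∈ X j, emb y.2 * muXE R y.1 *
      dlX (R.L y.1) a (ptE R (p ^ (n + 1) * f) y.1 y.2)) / u =
      ∑ j, (g j : ℂ) * ∑ y ∈ X j, muXE R y.1 * emb y.2 *
        dlX (R.L y.1) a (ptE R (p ^ (n + 1) * f) y.1 y.2) / u := by
    rw [Finset.sum_div]
    refine Finset.sum_congr rfl fun j _ => ?_
    rw [mul_div_assoc, Finset.sum_div]
    congr 1
    refine Finset.sum_congr rfl fun y _ => ?_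
    ring
  rw [hdiff]
  exact hS'

end

end Pool.Agent.OEE
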