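import Pool.Agent.OE.StF
import Pool.Agent.MUX.StJX

/-!
# OE, block F (helper60): the new characters for all imaginary quadratic fields, from the results of block J (`OTJ.O_TJ` and `O_TJE`)
-/

set_option autoImplicit false

open NumberField

namespace Pool.Agent.OEF

open _root_.Pool.Agent.MuCyc

/-- NEW -/
theorem t_NEWX (hLAY : _root_.Pool.Agent.MUXJ.Sj_LAY) (hTJ : _root_.Pool.Agent.OTJ.O_TJ)
    (hTJE : O_TJE) : S_NEWX := by
  intro p _ hp k K h hk hK hz l hl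
  have hfK := hK.fin
  obtain ⟨Ln, hlay, hmono, huniq⟩ := hLAY l hl
  have hGen : ∃ g e : ℕ, _root_.Pool.Agent.TWR.Gen l g e := by
    rcases hl with rfl | rfl
    · exact ⟨5, 2, Or.inr ⟨rfl, rfl, rfl⟩⟩
    · exact ⟨4, 1, Or.inl ⟨rfl, rfl, rfl⟩⟩
  obtain ⟨g, e, hG⟩ := hGen
  by_cases h1 : (∃ z ∈ k, z ^ 2 = -1) ∨ ∃ z ∈ k, z ^ 2 = -3
  · obtain ⟨r₀, hr₀⟩ := hTJE p hp l g e hG k K h hk.deg hk.imag h1
      ⟨hK.gal, hK.comm, hK.prime_to, hz⟩ Ln ⟨hlay, hmono⟩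
    refine ⟨r₀, fun r hr B B' hB hB' => ?_⟩
    obtain rfl : B = Ln r := huniq r B hB
    obtain rfl : B' = Ln (r + 1) := huniq (r + 1) B' hB'
    exact hr₀ r hr
  · obtain ⟨r₀, hr₀⟩ := hTJ p hp l g e hG k K h hk.deg hk.imag
      (fun z hz h2 => h1 (Or.inl ⟨z, hz, h2⟩)) (fun z hz h2 => h1 (Or.inr ⟨z, hz, h2⟩))
      ⟨hK.gal, hK.comm, hK.prime_to, hz⟩ Ln ⟨hlay, hmono⟩
    refine ⟨r₀, fun r hr B B' hB hB' => ?_⟩
    obtain rfl : B = Ln r := huniq r B hB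
    obtain rfl : B' = Ln (r + 1) := huniq (r + 1) B' hB'
    exact hr₀ r hr

end Pool.Agent.OEF
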