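import Pool.Agent.OE.StF
import Pool.Agent.OT.F_T1

/-!
# OE, block F (helper60): the degree
-/

set_option autoImplicit false

open NumberField

namespace Pool.Agent.OEF

open _root_.Pool.Agent.MuCyc Pool.Agent.OBF Pool.Agent.OTF

theorem deg_QX (p : ℕ) [Fact p.Prime] (hp : 5 ≤ p) {k K : IntermediateField ℚ ℂ} (h : k ≤ K)
    (hk : ImQ k) (hK : Abelian p h) : ¬ p ∣ Module.finrank ℚ K := by
  have hpp : p.Prime := Fact.out
  have := hK.fin
  rw [← mul_deg h, hk.deg, hpp.dvd_mul, not_or]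
  refine ⟨fun h0 => ?_, hK.prime_to⟩
  have := Nat.le_of_dvd (by norm_num) h0
  omega

end Pool.Agent.OEF
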