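import Pool.Agent.OE.StF
import Pool.Agent.OE.F_T1
import Pool.Agent.OT.L_NEWK

/-!
# OE, block F (helper60): `S_NEWKX` from `S_NEWX`; copy of `OT/L_NEWK.lean` (helper84) with `ImQ`
-/

set_option autoImplicit false

open NumberField

namespace Pool.Agent.OEF

open _root_.Pool.Agent.RI _root_.Pool.Agent.RID _root_.Pool.Agent.MU3 _root_.Pool.Agent.OTF

open OTF.NEWKx in
/-- NEWK -/
theorem t_NEWKX (hLAY : _root_.Pool.Agent.MUXJ.Sj_LAY) (hIFM : _root_.Pool.Agent.OBF.Sf_IFM)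
    (hNEW : S_NEWX) : S_NEWKX := by
  intro p _ hp k K h hk hK l hl
  have hpp : p.Prime := Fact.out
  have hfK := hK.fin
  have hlp : Fact l.Prime := ⟨prime_l hl⟩
  have hfk : FiniteDimensional ℚ k :=
    FiniteDimensional.of_injective (IntermediateField.inclusion h).toLinearMap
      (IntermediateField.inclusion h).injective
  -- the field `K' = K(ζ)`
  obtain ⟨ζ, hζ⟩ : ∃ ζ : ℂ, IsPrimitiveRoot ζ p :=
    ⟨_, Complex.isPrimitiveRoot_exp p hpp.ne_zero⟩
  obtain ⟨hfK', hK'⟩ := VB.abE_zeta VB.tb_NRM p hpp.pos (⟨h, hK.gal, hK.comm⟩ : VB.AbE k K) ζ hζ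
  set K' : IntermediateField ℚ ℂ := K ⊔ IntermediateField.adjoin ℚ {ζ} with hK'def
  obtain ⟨hkK', hG', hc'⟩ := hK'
  have hKK' : K ≤ K' := le_sup_left
  have hζK' : ζ ∈ K' := (le_sup_right : _ ≤ K') (IntermediateField.mem_adjoin_simple_self ℚ ζ)
  -- the degree
  have hdeg : ¬ p ∣ Module.finrank k (IntermediateField.extendScalars hkK') := by
    have e1 : IntermediateField.extendScalars hKK' = IntermediateField.adjoin K {ζ} := by
      apply le_antisymm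
      · have h2 : K' ≤ (IntermediateField.adjoin K {ζ}).restrictScalars ℚ := by
          refine sup_le ?_ ?_
          · intro x hx
            exact (IntermediateField.adjoin K {ζ}).algebraMap_mem ⟨x, hx⟩
          · rw [IntermediateField.adjoin_simple_le_iff]
            exact IntermediateField.mem_adjoin_simple_self K ζ
        exact fun x hx => h2 hx
      · rw [IntermediateField.adjoin_simple_le_iff]
        exact hζK'
    have hint : IsIntegral K ζ := (hζ.isIntegral hpp.pos).tower_top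
    have e2 : Module.finrank K (IntermediateField.extendScalars hKK') < p := by
      rw [e1, IntermediateField.adjoin.finrank hint]
      have h3 : minpoly K ζ ∣ Polynomial.cyclotomic p K := by
        apply minpoly.dvd
        rw [Polynomial.aeval_def, Polynomial.eval₂_eq_eval_map, Polynomial.map_cyclotomic]
        exact hζ.isRoot_cyclotomic hpp.pos
      have h5 := Polynomial.natDegree_le_of_dvd h3 (Polynomial.cyclotomic_ne_zero p K)
      rw [Polynomial.natDegree_cyclotomic, Nat.totient_prime hpp] at h5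
      have := hpp.one_lt
      omega
    have e3 : Module.finrank k (IntermediateField.extendScalars h) *
        Module.finrank K (IntermediateField.extendScalars hKK') =
        Module.finrank k (IntermediateField.extendScalars hkK') := by
      let _ := algC h
      let _ := algC hKK'
      let _ := algC hkK'
      have : IsScalarTower k K K' := towerC h hKK'
      rw [← finrank_algC h, ← finrank_algC hKK', ← finrank_algC hkK']
      exact Module.finrank_mul_finrank k K K'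
    rw [← e3, hpp.dvd_mul, not_or]
    refine ⟨hK.prime_to, fun h0 => ?_⟩
    have h6 : 0 < Module.finrank K (IntermediateField.extendScalars hKK') := by
      have f1 : FiniteDimensional K (IntermediateField.extendScalars hKK') := by
        have h1 : FiniteDimensional ℚ (IntermediateField.extendScalars hKK') :=
          inferInstanceAs (FiniteDimensional ℚ K')
        exact Module.Finite.of_restrictScalars_finite ℚ K _
      exact Module.finrank_pos
    have := Nat.le_of_dvd h6 h0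
    omega
  have hAb : MuCyc.Abelian p hkK' := ⟨hfK', hG', hc', hdeg⟩
  obtain ⟨r₀, hr₀⟩ := hNEW p hp k K' hkK' hk hAb ⟨ζ, hζK', hζ⟩ l hl
  -- the layers
  obtain ⟨Ln, hlay, hmono, huniq⟩ := hLAY l hl
  have hex : ∃ j : ℕ, ∀ r, j ≤ r → ¬ Ln (r + 1) ≤ K' := by
    refine ⟨Module.finrank ℚ K', fun r hr hle => ?_⟩
    have h1 : Module.finrank ℚ (Ln (r + 1)) ∣ Module.finrank ℚ K' := by
      rw [← mul_deg hle]
      exact Dvd.intro _ rfl
    rw [(hlay (r + 1)).1] at h1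
    have h2 := Nat.le_of_dvd Module.finrank_pos h1
    have h3 : r + 1 < l ^ (r + 1) := Nat.lt_pow_self hlp.out.one_lt
    omega
  obtain ⟨j, hj⟩ := hex
  refine ⟨max r₀ j, fun r hr B B' hB hB' h' χ hχ => ?_⟩
  obtain rfl : B = Ln r := huniq r B hB
  obtain rfl : B' = Ln (r + 1) := huniq (r + 1) B' hB'
  have hle : Ln r ≤ Ln (r + 1) := hmono (Nat.le_succ r)
  have hnot := hj r (le_trans (le_max_right _ _) hr)
  have h'' : k ≤ K' ⊔ Ln (r + 1) := hkK'.trans le_sup_left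
  have hA1 : MuCyc.Abelian p h' := ab_sup p hp h hK hl (hlay (r + 1)) h'
  have hA2 : MuCyc.Abelian p h'' := ab_sup p hp hkK' hAb hl (hlay (r + 1)) h''
  have hf1 := hA1.fin
  have hf2 := hA2.fin
  have hLL : K ⊔ Ln (r + 1) ≤ K' ⊔ Ln (r + 1) := sup_le_sup_right hKK' _
  obtain ⟨res, -, hres⟩ := exists_res h' hLL h'' hA1.gal hA2.gal
  refine hIFM p (by omega) k (K ⊔ Ln (r + 1)) (K' ⊔ Ln (r + 1)) h' h'' hLL hf2 hA2.gal hA2.comm
    (deg_QX p hp h'' hk hA2) χ (χ.comp res) ?_ ?_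
  · intro s s' hs
    show χ (res s') = χ s
    congr 1
    apply AlgEquiv.ext
    intro x
    apply Subtype.ext
    rw [← hres s' x ⟨(x : ℂ), hLL x.2⟩ rfl]
    exact hs x ⟨(x : ℂ), hLL x.2⟩ rfl
  · refine hr₀ r (le_trans (le_max_left _ _) hr) (Ln r) (Ln (r + 1)) hB hB' h'' (χ.comp res) ?_
    obtain ⟨s, hs, hχs⟩ := hχ
    -- `s` on `B'`
    let aC := algC h'
    let aC' := algC h''
    have g1 : IsGalois k ↥(K ⊔ Ln (r + 1)) := (isGalois_algC h').2 hA1.gal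
    have g2 : IsGalois k ↥(K' ⊔ Ln (r + 1)) := (isGalois_algC h'').2 hA2.gal
    obtain ⟨t, g, ht1, ht2, hgne, hgB⟩ := exists_t l r (Ln r) (Ln (r + 1)) hB hB' hle hkK' h'' g2
      hnot
    let s₁ : ↥(K ⊔ Ln (r + 1)) ≃ₐ[k] ↥(K ⊔ Ln (r + 1)) := AlgEquiv.autCongr (extEquiv h') s
    have hs₁ : ∀ x : ↥(K ⊔ Ln (r + 1)), ((s₁ x : ↥(K ⊔ Ln (r + 1))) : ℂ) =
        (s ⟨(x : ℂ), x.2⟩ : IntermediateField.extendScalars h') := fun x => rfl
    let _ := algC (le_sup_right : Ln (r + 1) ≤ K ⊔ Ln (r + 1))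
    obtain ⟨fdB, hGB, -⟩ := LAY_thm l (r + 1) (Ln (r + 1)) (hlay (r + 1))
    have tB : IsScalarTower ℚ (Ln (r + 1)) ↥(K ⊔ Ln (r + 1)) :=
      IsScalarTower.of_algebraMap_eq (fun _ => rfl)
    let g₁ : ↥(Ln (r + 1)) ≃ₐ[ℚ] ↥(Ln (r + 1)) :=
      AlgEquiv.restrictNormalHom ↥(Ln (r + 1)) (s₁.restrictScalars ℚ)
    have hg₁ : ∀ (x : ↥(K ⊔ Ln (r + 1))) (y : ↥(Ln (r + 1))), (x : ℂ) = y →
        ((s₁ x : ↥(K ⊔ Ln (r + 1))) : ℂ) = (g₁ y : ↥(Ln (r + 1))) := by
      intro x y hxy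
      have h2 := AlgEquiv.restrictNormal_commutes (s₁.restrictScalars ℚ) ↥(Ln (r + 1)) y
      have h3 : x = algebraMap ↥(Ln (r + 1)) ↥(K ⊔ Ln (r + 1)) y := Subtype.ext hxy
      rw [h3]
      exact (congrArg Subtype.val h2).symm
    have hg₁B : ∀ x : ↥(Ln (r + 1)), (x : ℂ) ∈ Ln r → g₁ x = x := by
      intro x hx
      apply Subtype.ext
      rw [← hg₁ ⟨(x : ℂ), (le_sup_right : Ln (r + 1) ≤ K ⊔ Ln (r + 1)) x.2⟩ x rfl, hs₁]
      exact congrArg Subtype.val (hs ⟨(x : ℂ), (le_sup_right : Ln (r + 1) ≤ K ⊔ Ln (r + 1)) x.2⟩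
        ((le_sup_right : Ln r ≤ K ⊔ Ln r) hx))
    obtain ⟨m, hm⟩ := lay_pow l r (Ln r) (Ln (r + 1)) hB hB' hle g₁ g hg₁B hgB hgne
    -- the power of `t`
    have htm : ∀ (n : ℕ), (∀ x : ↥(K' ⊔ Ln (r + 1)), (x : ℂ) ∈ K' → (t ^ n) x = x) ∧
        ∀ (x : ↥(K' ⊔ Ln (r + 1))) (y : ↥(Ln (r + 1))), (x : ℂ) = y →
          (((t ^ n) x : ↥(K' ⊔ Ln (r + 1))) : ℂ) = ((g ^ n) y : ↥(Ln (r + 1))) := by
      intro n
      induction n with
      | zero => exact ⟨fun x _ => rfl, fun x y hxy => hxy⟩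
      | succ n ih =>
        obtain ⟨i1, i2⟩ := ih
        refine ⟨fun x hx => ?_, fun x y hxy => ?_⟩
        · rw [pow_succ, AlgEquiv.mul_apply, ht1 x hx, i1 x hx]
        · rw [pow_succ, pow_succ, AlgEquiv.mul_apply, AlgEquiv.mul_apply]
          exact i2 _ _ (ht2 x y hxy)
    obtain ⟨w1, w2⟩ := htm m
    let u : MuCyc.Gal h'' := (AlgEquiv.autCongr (extEquiv h'')).symm (t ^ m)
    have hu : ∀ x : IntermediateField.extendScalars h'',
        ((u x : IntermediateField.extendScalars h'') : ℂ) =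
          ((t ^ m) ⟨(x : ℂ), x.2⟩ : ↥(K' ⊔ Ln (r + 1))) := fun x => rfl
    refine ⟨u, ?_, ?_⟩
    · intro x hx
      apply Subtype.ext
      rw [hu]
      have h3 := ext_sup (K := K') (B := Ln r) (C := K' ⊔ Ln (r + 1))
        (((K' ⊔ Ln (r + 1)).val : ↥(K' ⊔ Ln (r + 1)) →+* ℂ).comp
          ((t ^ m : ↥(K' ⊔ Ln (r + 1)) ≃ₐ[k] ↥(K' ⊔ Ln (r + 1))) :
            ↥(K' ⊔ Ln (r + 1)) →+* ↥(K' ⊔ Ln (r + 1))))
        ((K' ⊔ Ln (r + 1)).val : ↥(K' ⊔ Ln (r + 1)) →+* ℂ)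
        (fun y hy => congrArg Subtype.val (w1 y hy))
        (fun y hy => by
          have h4 := w2 y ⟨(y : ℂ), hle hy⟩ rfl
          rw [← hm, hg₁B ⟨(y : ℂ), hle hy⟩ hy] at h4
          exact h4)
        le_sup_left (hle.trans le_sup_right) ⟨(x : ℂ), x.2⟩ hx
      exact h3
    · have h3 : res u = s := by
        apply AlgEquiv.ext
        intro x
        apply Subtype.ext
        rw [← hres u x ⟨(x : ℂ), hLL x.2⟩ rfl, hu]
        have h4 := ext_sup (K := K) (B := Ln (r + 1)) (C := K ⊔ Ln (r + 1))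
          ((((K' ⊔ Ln (r + 1)).val : ↥(K' ⊔ Ln (r + 1)) →+* ℂ).comp
            ((t ^ m : ↥(K' ⊔ Ln (r + 1)) ≃ₐ[k] ↥(K' ⊔ Ln (r + 1))) :
              ↥(K' ⊔ Ln (r + 1)) →+* ↥(K' ⊔ Ln (r + 1)))).comp
            (IntermediateField.inclusion hLL : ↥(K ⊔ Ln (r + 1)) →+* ↥(K' ⊔ Ln (r + 1))))
          (((K ⊔ Ln (r + 1)).val : ↥(K ⊔ Ln (r + 1)) →+* ℂ).comp
            ((s₁ : ↥(K ⊔ Ln (r + 1)) ≃ₐ[k] ↥(K ⊔ Ln (r + 1))) :
              ↥(K ⊔ Ln (r + 1)) →+* ↥(K ⊔ Ln (r + 1))))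
          (fun y hy => by
            have h5 : (t ^ m) ⟨(y : ℂ), hLL y.2⟩ = ⟨(y : ℂ), hLL y.2⟩ := w1 _ (hKK' hy)
            have h6 : s ⟨(y : ℂ), y.2⟩ = ⟨(y : ℂ), y.2⟩ :=
              hs ⟨(y : ℂ), y.2⟩ ((le_sup_left : K ≤ K ⊔ Ln r) hy)
            show (((t ^ m) ⟨(y : ℂ), hLL y.2⟩ : ↥(K' ⊔ Ln (r + 1))) : ℂ) =
              ((s₁ y : ↥(K ⊔ Ln (r + 1))) : ℂ)
            rw [h5, hs₁, h6])
          (fun y hy => by
            have h5 := w2 ⟨(y : ℂ), hLL y.2⟩ ⟨(y : ℂ), hy⟩ rfl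
            have h6 := hg₁ y ⟨(y : ℂ), hy⟩ rfl
            show (((t ^ m) ⟨(y : ℂ), hLL y.2⟩ : ↥(K' ⊔ Ln (r + 1))) : ℂ) =
              ((s₁ y : ↥(K ⊔ Ln (r + 1))) : ℂ)
            rw [h5, h6, hm])
          le_sup_left le_sup_right ⟨(x : ℂ), x.2⟩ x.2
        exact h4
      show χ (res u) ≠ 1
      rw [h3]
      exact hχs

end Pool.Agent.OEF
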