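import Pool.Agent.OT.F_ROOTE
import Pool.Agent.OE.F_NEW
import Pool.Agent.OE.F_NEWK
import Pool.Agent.OE.F_T3

/-!
# OE, block F (helper60): Theorem T+ for all imaginary quadratic fields, up to the result `O_TJE` of block J for the exceptional fields
-/

set_option autoImplicit false

open NumberField

namespace Pool.Agent.OEF

open _root_.Pool.Agent.MuCyc Pool.Agent.OBF Pool.Agent.OTF

theorem r_TJ0 : _root_.Pool.Agent.OTJ.O_TJ :=
  r_TJ (OTI.oti_IT (OT.ot_HETA (OBT.x_TYF OBR.o_RFIN) OBG.x_GPT))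

/-- The final statement from the result of block J for the exceptional fields. -/
theorem r_EX (h : O_TJE) : FinalEX :=
  final_E
    (final_T (t_NEWKX MUXJ.t_LAY r_IFM (t_NEWX MUXJ.t_LAY r_TJ0 h)) r_IFR r_IFM r_REL MUXJ.t_LAY)
    r_IFM OTE.e_PEX OTE.te_PPP OTE.te_CPD _root_.MU3.u_SYL
    (MUXJ.t_SUB (MUXJ.t_DWN MUXK.k_NIX)) VB.tb_TCQ r_LAY

end Pool.Agent.OEF
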