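import Pool.Agent.OE.F_T1
import Pool.Agent.OB.F_P5

/-!
# OE, block F (helper60): `FinalTX` from `S_NEWKX`; copy of `OT/F_T2.lean` with `ImQ`
-/

set_option autoImplicit false

open NumberField

namespace Pool.Agent.OEF

open _root_.Pool.Agent.MuCyc Pool.Agent.OBF Pool.Agent.OTF

/-- (1) the characters -/
theorem chars (hNEW : S_NEWKX) (hIFR : OT.S_IFR) (hLAY : MUXJ.Sj_LAY) (p : ℕ) [Fact p.Prime]
    (hp : 5 ≤ p) (k K : IntermediateField ℚ ℂ) (h : k ≤ K) (hk : ImQ k) (hK : Abelian p h)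
    (l : ℕ) (hl : l = 2 ∨ l = 3) :
    ∃ (r₀ : ℕ) (B₀ : IntermediateField ℚ ℂ), IsLayer l r₀ B₀ ∧
      ∀ (r : ℕ) (B : IntermediateField ℚ ℂ), IsLayer l r B →
        ∀ (hB : k ≤ K ⊔ B) (χ : Chr p hB),
        (∃ s : Gal hB, (∀ x : IntermediateField.extendScalars hB, (x : ℂ) ∈ K ⊔ B₀ → s x = x) ∧
          χ s ≠ 1) → MuZeroC p hB χ := by
  classical
  obtain ⟨Bl, hlay, hmono, hu⟩ := hLAY l hl
  obtain ⟨r₀, hr₀⟩ := hNEW p hp k K h hk hK l hl
  refine ⟨r₀, Bl r₀, hlay r₀, ?_⟩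
  intro r B hB hB' χ hχ
  obtain rfl : B = Bl r := hu r B hB
  have hAb : ∀ (j : ℕ) (hj : k ≤ K ⊔ Bl j), Abelian p hj := fun j hj =>
    ab_sup p hp h hK hl (hlay j) hj
  have hkj : ∀ j, k ≤ K ⊔ Bl j := fun j => h.trans le_sup_left
  have hA := hAb r hB'
  have := hA.fin
  obtain ⟨s₀, hs₀, hχs⟩ := hχ
  let P : ℕ → Prop := fun j => ∀ s : Gal hB',
    (∀ x : IntermediateField.extendScalars hB', (x : ℂ) ∈ K ⊔ Bl j → s x = x) → χ s = 1
  have hPr : P r := by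
    intro s hs
    have : s = 1 := by
      apply AlgEquiv.ext
      intro x
      exact hs x x.2
    rw [this, map_one]
  have hPmono : ∀ i j, i ≤ j → P i → P j := by
    intro i j hij hi s hs
    exact hi s fun x hx => hs x ((sup_le_sup_left (hmono hij) K) hx)
  have hex : ∃ j, P j := ⟨r, hPr⟩
  have hP0 : ¬ P r₀ := fun h0 => hχs (h0 s₀ hs₀)
  have hlt : r₀ < Nat.find hex := by
    by_contra h0
    exact hP0 (hPmono _ _ (not_lt.1 h0) (Nat.find_spec hex))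
  obtain ⟨j, hj⟩ : ∃ j, Nat.find hex = j + 1 := ⟨Nat.find hex - 1, by omega⟩
  have hPj : ¬ P j := Nat.find_min hex (by omega)
  have hPj1 : P (j + 1) := by
    rw [← hj]
    exact Nat.find_spec hex
  have hjr : j + 1 ≤ r := by
    rw [← hj]
    exact Nat.find_min' hex hPr
  -- the character of the smaller field
  have hle : K ⊔ Bl (j + 1) ≤ K ⊔ Bl r := sup_le_sup_left (hmono hjr) K
  have hA1 := hAb (j + 1) (hkj (j + 1))
  obtain ⟨χ₁, hχ₁⟩ := factor p (hkj (j + 1)) hle hB' hA1.gal hA.gal χ hPj1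
  obtain ⟨res, -, hres⟩ := exists_res (hkj (j + 1)) hle hB' hA1.gal hA.gal
  have hm : MuZeroC p (hkj (j + 1)) χ₁ := by
    refine hr₀ j (by omega) (Bl j) (Bl (j + 1)) (hlay j) (hlay (j + 1)) (hkj (j + 1)) χ₁ ?_
    by_contra h0
    push Not at h0
    apply hPj
    intro s hs
    rw [hχ₁ (res s) s (fun x x' hx => hres s x x' hx)]
    apply h0
    intro x hx
    apply Subtype.ext
    rw [← hres s x ⟨x, hle x.2⟩ rfl, hs ⟨x, hle x.2⟩ hx]
  exact hIFR p (by omega) k (K ⊔ Bl (j + 1)) (K ⊔ Bl r) (hkj (j + 1)) hB' hle hA.fin hA.gal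
    hA.comm (deg_QX p hp hB' hk hA) χ₁ χ (fun s s' hss => hχ₁ s s' hss) hm

/-- (2) class numbers -/
theorem fields (hIFM : Sf_IFM) (hREL : Sf_REL) (p : ℕ) [Fact p.Prime]
    (hp : 5 ≤ p) (k K : IntermediateField ℚ ℂ) (h : k ≤ K) (hk : ImQ k) (hK : Abelian p h)
    (l : ℕ) (hl : l = 2 ∨ l = 3) (B₀ : IntermediateField ℚ ℂ)
    (r : ℕ) (B : IntermediateField ℚ ℂ) (hB : IsLayer l r B)
    (hχ : ∀ (hB : k ≤ K ⊔ B) (χ : Chr p hB),
        (∃ s : Gal hB, (∀ x : IntermediateField.extendScalars hB, (x : ℂ) ∈ K ⊔ B₀ → s x = x) ∧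
          χ s ≠ 1) → MuZeroC p hB χ)
    (L : IntermediateField ℚ ℂ) (hkL : k ≤ L) (hL : L ≤ K ⊔ B) : MuLE p L (L ⊓ (K ⊔ B₀)) := by
  have hkB : k ≤ K ⊔ B := h.trans le_sup_left
  have hA := ab_sup p hp h hK hl hB hkB
  have := hA.fin
  have hfL : FiniteDimensional ℚ L :=
    FiniteDimensional.of_injective (IntermediateField.inclusion hL).toLinearMap
      (IntermediateField.inclusion hL).injective
  obtain ⟨hGL, hcL⟩ := sub_ab hkL hL hkB hA.gal hA.comm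
  have hdM : ¬ p ∣ Module.finrank ℚ ↥(K ⊔ B) := deg_QX p hp hkB hk hA
  have hdL : ¬ p ∣ Module.finrank ℚ L := fun h0 => hdM ((mul_deg hL) ▸ h0.mul_right _)
  have hk' : k ≤ L ⊓ (K ⊔ B₀) := le_inf hkL (h.trans le_sup_left)
  refine hREL p (by omega) k (L ⊓ (K ⊔ B₀)) L hk' inf_le_left hkL hfL hGL hcL hdL ?_
  rintro χ ⟨s, hs, hχs⟩
  obtain ⟨res, hsur, hres⟩ := exists_res hkL hL hkB hGL hA.gal
  have hss : ∀ (s : Gal hkL) (s' : Gal hkB), (∀ (x : IntermediateField.extendScalars hkL)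
      (x' : IntermediateField.extendScalars hkB), (x' : ℂ) = x →
        ((s' x' : IntermediateField.extendScalars hkB) : ℂ) =
          (s x : IntermediateField.extendScalars hkL)) → (χ.comp res) s' = χ s := by
    intro s s' h1
    show χ (res s') = χ s
    rw [res_unique hL hres s s' h1]
  refine hIFM p (by omega) k L (K ⊔ B) hkL hkB hL hA.fin hA.gal hA.comm hdM χ (χ.comp res) hss ?_
  apply hχ
  by_contra h0
  push Not at h0
  -- `χ ∘ res` is trivial on `Gal(M/K B₀)` and on `Gal(M/L)`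
  have h1 : ∀ s : Gal hkB, (∀ x : IntermediateField.extendScalars hkB, (x : ℂ) ∈ L → s x = x) →
      (χ.comp res) s = 1 := by
    intro s hs
    show χ (res s) = 1
    have h2 : res s = 1 := by
      apply AlgEquiv.ext
      intro x
      apply Subtype.ext
      rw [← hres s x ⟨x, hL x.2⟩ rfl, hs ⟨x, hL x.2⟩ x.2]
      rfl
    rw [h2, map_one]
  have h3 : ∀ s : Gal hkB, (∀ x : IntermediateField.extendScalars hkB,
      (x : ℂ) ∈ (K ⊔ B₀) ⊓ (K ⊔ B) → s x = x) → (χ.comp res) s = 1 :=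
    fun s hs => h0 s fun x hx => hs x ⟨hx, x.2⟩
  obtain ⟨s', rfl⟩ := hsur s
  apply hχs
  refine two_fields hkL (le_inf (h.trans le_sup_left) hkB) hL inf_le_right hkB hA.gal
    (χ.comp res) h1 h3 s' ?_
  intro x hx
  have hxL : (x : ℂ) ∈ L := hx.1
  have h4 := hs ⟨x, hxL⟩ ⟨hxL, hx.2.1⟩
  apply Subtype.ext
  rw [hres s' ⟨x, hxL⟩ x rfl, h4]

/-- The final statement from `S_NEWKX`. -/
theorem final_T (hNEW : S_NEWKX) (hIFR : OT.S_IFR) (hIFM : Sf_IFM) (hREL : Sf_REL)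
    (hLAY : MUXJ.Sj_LAY) : FinalTX := by
  intro p _ hp k K h hk hK l hl
  obtain ⟨r₀, B₀, h0, h1⟩ := chars hNEW hIFR hLAY p hp k K h hk hK l hl
  refine ⟨r₀, B₀, h0, fun r B hB => ⟨h1 r B hB, fun L hkL hL => ?_⟩⟩
  exact fields hIFM hREL p hp k K h hk hK l hl B₀ r B hB (h1 r B hB) L hkL hL

end Pool.Agent.OEF
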