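import Pool.Agent.OE.CaseG
import Pool.Agent.OB.T_BAS
import Pool.Agent.MUX.XLib
import Pool.Agent.MUX.E_RNG

/-!
# OE: elementary facts on `P` and `V` for `CaseG` (copy of `OB/T_BAS.lean`)
-/

set_option autoImplicit false

namespace Pool.Agent.OE

open _root_.MU3 Pool.Agent.MU3A Pool.Agent.MU3B Pool.Agent.RI Pool.Agent.MUX Pool.Agent.MUXU
open Pool.Agent.NS Pool.Agent.OB


open Pool.Agent.OBT.BAS

theorem o_BASG : S_BASG := by
  intro p er A B P V h
  have hq := h.cq
  have hded : IsDedekindDomain (OO A B) := (Pool.Agent.MUXE.te_RNG A B hq).ded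
  have hP := h.prime
  have hp0 : ((p : ℕ) : OO A B) ≠ 0 := natCast_ne_zero' hq h.pp.ne_zero
  have hPb : P ≠ ⊥ := fun e => hp0 (by simpa [e] using h.mem)
  have hmax : P.IsMaximal := hP.isMaximal hPb
  have hv : V.valuation (p : ℂ) < 1 := by
    have h1 := (h.hV ((p : ℕ) : OO A B)).2 h.mem
    rw [emb_natCast hq] at h1
    exact (V.mem_nonunits_iff).1 h1
  have hib : idl (A := A) (B := B) p ≠ ⊥ := fun e =>
    hp0 (Ideal.span_singleton_eq_bot.1 e)
  obtain ⟨Q, hQ⟩ : P ∣ idl (A := A) (B := B) p := Ideal.dvd_iff_le.2 (idl_dvd h.mem)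
  have hQb : Q ≠ ⊥ := fun e => hib (by rw [hQ, e, Ideal.mul_bot])
  have hnp : nI (idl (A := A) (B := B) p) = p ^ 2 := by
    have h1 := nI_sp hq hp0
    rw [show idl (A := A) (B := B) p = sp ((p : ℕ) : OO A B) from rfl, h1]
    have h2 : nm ((p : ℕ) : OO A B) = (p : ℤ) ^ 2 := by
      have := nm_intCast (A := A) (B := B) (p : ℤ)
      simpa using this
    rw [h2, Int.natAbs_pow, Int.natAbs_natCast]
  have hmul : nI P * nI Q = p ^ 2 := by rw [← nI_mul hq hPb hQb, ← hQ, hnp]
  have hn1 : nI P ≠ 1 := fun e => hP.ne_top (eq_top_of_nI e)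
  have hcase : nI P = p ∨ nI P = p ^ 2 := by
    obtain ⟨i, hi, hi2⟩ := (Nat.dvd_prime_pow h.pp).1 (Dvd.intro _ hmul)
    interval_cases i
    · exact absurd hi2 (by simpa using hn1)
    · exact Or.inl (by simpa using hi2)
    · exact Or.inr hi2
  have hp5 := h.p5
  have hd : ¬ p ∣ nI P - 1 := by
    intro hd
    have h1 : p ∣ nI P := by
      rcases hcase with e | e
      · rw [e]
      · rw [e]
        exact dvd_pow_self p two_ne_zero
    have h2 : 1 ≤ nI P := by
      rcases hcase with e | e <;> rw [e]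
      · omega
      · exact Nat.one_le_pow _ _ (by omega)
    have h3 : p ∣ 1 := by
      have := (Nat.dvd_sub h1 hd)
      rwa [Nat.sub_sub_self h2] at this
    have := Nat.le_of_dvd one_pos h3
    omega
  have h4 : 4 ≤ nI P - 1 := by
    rcases hcase with e | e <;> rw [e]
    · omega
    · have : 5 * 5 ≤ p ^ 2 := by
        rw [pow_two]
        exact Nat.mul_le_mul hp5 hp5
      omega
  have hy : ∃ y : OO A B, (∀ x ∈ P, ∃ z, x * y = (p : OO A B) * z) ∧
      ∀ z, y ≠ (p : OO A B) * z := by
    have h1 : ¬ Q ≤ idl (A := A) (B := B) p := by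
      intro h1
      have h2 : ⊤ * Q ≤ P * Q := by
        rw [← hQ, Ideal.top_mul]
        exact h1
      rw [mul_comm ⊤ Q, mul_comm P Q] at h2
      exact hP.ne_top (top_le_iff.1 ((mul_le_mul_iff hq hQb).1 h2))
    obtain ⟨y, hyQ, hyp⟩ := SetLike.not_le_iff_exists.1 h1
    refine ⟨y, fun x hx => ?_, fun z hz => hyp ?_⟩
    · have h2 : x * y ∈ idl (A := A) (B := B) p := by
        rw [hQ]
        exact Ideal.mul_mem_mul hx hyQ
      obtain ⟨z, hz⟩ := Ideal.mem_span_singleton.1 h2
      exact ⟨z, hz⟩
    · rw [hz]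
      exact Ideal.mem_span_singleton.2 ⟨z, rfl⟩
  have hlast : IsCoprime (Pc P) P ∧ idl (A := A) (B := B) p = Pc P * P ^ er := by
    have hPP := mul_cjI hq hPb
    rcases hcase with e | e
    · have e1 : P * cjI P = idl (A := A) (B := B) p := by rw [hPP, e]
      by_cases hc : cjI P = P
      · have hPc : Pc P = ⊤ := by
          unfold Pc
          rw [if_pos hc]
        have e2 : P * P = idl (A := A) (B := B) p := by
          have e3 := e1
          rwa [hc] at e3
        have her : er = 2 := by
          rcases h.ram with ⟨-, h1⟩ | ⟨h1, -⟩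
          · exact absurd (not_mem_sq e2) h1
          · exact h1
        rw [hPc, her, Ideal.top_mul, pow_two]
        exact ⟨top_coprime P, e2.symm⟩
      · have hPc : Pc P = cjI P := by
          unfold Pc
          rw [if_neg hc]
        have hpr : (cjI P).IsPrime := by
          unfold cjI
          exact Ideal.IsPrime.comap _
        have hmx : (cjI P).IsMaximal := hpr.isMaximal (cjI_ne_bot hq hPb)
        have her : er = 1 := by
          rcases h.ram with ⟨h1, -⟩ | ⟨-, h1⟩
          · exact h1
          · exfalso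
            have h2 : P * cjI P ≤ P * P := by
              rw [e1, ← pow_two]
              exact idl_dvd h1
            exact hc (hmx.eq_of_le hP.ne_top ((mul_le_mul_iff hq hPb).1 h2))
        rw [hPc]
        refine ⟨Ideal.isCoprime_iff_sup_eq.2 (hmx.coprime_of_ne hmax hc), ?_⟩
        rw [her, pow_one, mul_comm, e1]
    · have hQ1 : nI Q = 1 := by
        have h1 : p ^ 2 * nI Q = p ^ 2 * 1 := by rw [← e, hmul, mul_one, e]
        exact Nat.eq_of_mul_eq_mul_left (pow_pos h.pp.pos 2) h1
      have hPi : idl (A := A) (B := B) p = P := by rw [hQ, eq_top_of_nI hQ1, Ideal.mul_top]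
      have hc : cjI P = P := by
        apply mul_cancel hq hPb
        rw [hPP, e]
        conv_rhs => rw [← hPi]
        rw [show sp ((p ^ 2 : ℕ) : OO A B) = idl (A := A) (B := B) (p ^ 2) from rfl, idl, idl,
          Ideal.span_singleton_mul_span_singleton]
        congr 2
        push_cast
        ring
      have hPc : Pc P = ⊤ := by
        unfold Pc
        rw [if_pos hc]
      have her : er = 1 := by
        rcases h.ram with ⟨h1, -⟩ | ⟨-, h1⟩
        · exact h1
        · exfalso
          have h2 : P * ⊤ ≤ P * P := by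
            rw [Ideal.mul_top, ← pow_two]
            conv_lhs => rw [← hPi]
            exact idl_dvd h1
          exact hP.ne_top (top_le_iff.1 ((mul_le_mul_iff hq hPb).1 h2))
      rw [hPc]
      refine ⟨top_coprime P, ?_⟩
      rw [Ideal.top_mul, her, pow_one, hPi]
  refine ⟨hv, ?_, hmax, fun x => ?_, fun x => ?_, fun n hn => nat_unit h.pp hv hn, hcase, hd, h4,
    hy, hlast.1, hlast.2⟩
  · have h1 : ¬ p ∣ 2 := fun h1 => by
      have := Nat.le_of_dvd two_pos h1
      omega
    exact_mod_cast nat_unit h.pp hv h1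
  · exact (V.valuation_le_one_iff _).2 (integral_mem V (Pool.Agent.MUXE.RNGaux.emb_int hq x))
  · rw [← h.hV x, V.mem_nonunits_iff]

end Pool.Agent.OE
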