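import Pool.Agent.OE.CaseG
import Pool.Agent.OB.I_EPS
import Pool.Agent.MUX.XLib

/-!
# OE: the odd character, the twist `t`, the sign `s` and the type `i`, for `SetG` (copy of `OB/I_EPS.lean`)
-/

set_option autoImplicit false

namespace Pool.Agent.OE

open _root_.MU3 Pool.Agent.MU3 Pool.Agent.MU3A Pool.Agent.MU3B Pool.Agent.RI Pool.Agent.RID
  Pool.Agent.MUX Pool.Agent.MUXK Pool.Agent.MUXI Pool.Agent.NS Pool.Agent.NSI Pool.Agent.OB
open Pool.Agent.MU3I (zt)

noncomputable section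


open Pool.Agent.OBI Pool.Agent.OBI.EPSx

theorem o_EPSG (hbas : S_BASG) (hprf : S_PRFG) : S_EPSG := by
  intro p er A B P V f hS w hw e0 r hpr h1 hm1 hmul hper hsupp hpow
  have hc : CQ A B := hS.cq
  obtain ⟨vp, v2, hmax, vle, vlt, vnat, hq, -, hN4, -, hPc, hidl⟩ := hbas p er A B P V hS.toCaseG
  obtain ⟨hPZ, -, hpowN, ⟨g, hgP, hrep⟩, m, hm, hmN, hm1', hmq, hnm⟩ :=
    hprf p er A B P V hS.toCaseG
  have hprime := hS.prime
  have hpP := hS.mem
  have lv : lvX p f 0 = p * f := by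
    rw [lvX_odd (by have := hS.p5; omega)]
    ring
  rw [lv] at hper hsupp
  rw [lv]
  have h1P : (1 : OO A B) ∉ P := fun h => hprime.ne_top ((Ideal.eq_top_iff_one _).2 h)
  have hpowP : ∀ (x : OO A B) (k : ℕ), x ∉ P → x ^ k ∉ P := fun x k hx h =>
    hx (hprime.mem_of_pow_mem k h)
  -- `idl (p f) = gO * P^er`
  have hidlmul : idl (A := A) (B := B) (p * f) = gO P f * P ^ er := by
    have h2 : idl (A := A) (B := B) (p * f) = idl (A := A) (B := B) p * idl (A := A) (B := B) f := by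
      have e : ((p * f : ℕ) : OO A B) = ((p : ℕ) : OO A B) * ((f : ℕ) : OO A B) := by
        push_cast
        rfl
      have e2 := Ideal.span_singleton_mul_span_singleton ((p : ℕ) : OO A B) ((f : ℕ) : OO A B)
      rw [← e] at e2
      exact e2.symm
    rw [h2, hidl]
    unfold gO
    rw [mul_comm (Pc P) (P ^ er), mul_comm (P ^ er * Pc P), mul_comm (P ^ er), mul_assoc]
  have herle : er ≤ 2 := by rcases hS.ram with ⟨h, -⟩ | ⟨h, -⟩ <;> omega
  have her1 : 1 ≤ er := by rcases hS.ram with ⟨h, -⟩ | ⟨h, -⟩ <;> omega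
  have hleP : ∀ x, x ∈ idl (A := A) (B := B) (p * f) → x ∈ P := by
    intro x hx
    rw [hidlmul] at hx
    exact EPSx.gle_pow her1 (EPSx.gmem_left hx)
  have hleG : ∀ x, x ∈ idl (A := A) (B := B) (p * f) → x ∈ gO P f := by
    intro x hx
    rw [hidlmul] at hx
    exact EPSx.gmem_right hx
  have hGPc : ∀ x, x ∈ gO P f → x ∈ Pc P := by
    intro x hx
    unfold gO at hx
    exact EPSx.gmem_left hx
  -- `gO` is prime to `P`
  have hcopf : IsCoprime (idl (A := A) (B := B) f) P := by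
    have h2 : IsCoprime ((p : ℕ) : ℤ) ((f : ℕ) : ℤ) :=
      Nat.isCoprime_iff_coprime.2 ((Nat.Prime.coprime_iff_not_dvd hS.pp).2 hS.fp)
    obtain ⟨a, b, hab⟩ := h2
    rw [Ideal.isCoprime_iff_exists]
    refine ⟨(b : OO A B) * ((f : ℕ) : OO A B), Ideal.mul_mem_left _ _
      (Ideal.mem_span_singleton_self _), (a : OO A B) * ((p : ℕ) : OO A B),
      Ideal.mul_mem_left _ _ hpP, ?_⟩
    have h3 := congrArg (fun n : ℤ => (n : OO A B)) hab
    push_cast at h3 ⊢
    linear_combination h3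
  have hG : IsCoprime (gO P f) P := by
    unfold gO
    exact IsCoprime.mul_left hcopf hPc
  -- elements of `k*` are prime to `p f`
  have hkcop : ∀ x, x - 1 ∈ gO P f → x ∉ P → IsCoprime x ((p * f : ℕ) : OO A B) := by
    intro x hx hxP
    have h2 : IsCoprime (sp x) (gO P f) := by
      rw [Ideal.isCoprime_iff_exists]
      refine ⟨x, Ideal.mem_span_singleton_self _, -(x - 1), neg_mem hx, ?_⟩
      ring
    have h3 : IsCoprime (sp x) P := by
      obtain ⟨y, i, hi, hy⟩ := hmax.exists_inv hxP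
      rw [Ideal.isCoprime_iff_exists]
      exact ⟨y * x, Ideal.mul_mem_left _ _ (Ideal.mem_span_singleton_self _), i, hi, hy⟩
    have h4 : IsCoprime (sp x) (idl (A := A) (B := B) (p * f)) := by
      rw [hidlmul]
      exact IsCoprime.mul_right h2 (IsCoprime.pow_right h3)
    exact (Ideal.isCoprime_span_singleton_iff _ _).1 h4
  -- step A
  have stepA : ∀ x x', x - 1 ∈ gO P f → x ∉ P → x' - 1 ∈ gO P f → x' ∉ P → x - x' ∈ P →
      e0 x = e0 x' := by
    intro x x' hx hxP hx' hxP' hxx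
    obtain ⟨x'', b, hab⟩ := hkcop x' hx' hxP'
    have h2 : x'' * x' - 1 ∈ idl (A := A) (B := B) (p * f) := by
      rw [EPSx.mem_idl]
      refine ⟨-b, ?_⟩
      linear_combination hab
    have h3 : e0 x'' * e0 x' = 1 := by rw [← hmul, hper _ _ h2, h1]
    -- `y = x x''`
    have hyP : x'' * x - 1 ∈ P := by
      have e : x'' * x - 1 = x'' * (x - x') + (x'' * x' - 1) := by ring
      rw [e]
      exact Ideal.add_mem _ (Ideal.mul_mem_left _ _ hxx) (hleP _ h2)
    have hyG : x'' * x - 1 ∈ gO P f := by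
      have e : x'' * x - 1 = x'' * ((x - 1) - (x' - 1)) + (x'' * x' - 1) := by ring
      rw [e]
      exact Ideal.add_mem _ (Ideal.mul_mem_left _ _ (Ideal.sub_mem _ hx hx')) (hleG _ h2)
    have hyGP : x'' * x - 1 ∈ gO P f * P := by
      exact EPSx.gmem_inf hG hyG hyP
    have hs : (∑ i ∈ Finset.range p, (x'' * x) ^ i) ∈ P := by
      have e : (∑ i ∈ Finset.range p, (x'' * x) ^ i) =
          (∑ i ∈ Finset.range p, ((x'' * x) ^ i - 1)) + ((p : ℕ) : OO A B) := by
        rw [Finset.sum_sub_distrib]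
        simp
      rw [e]
      refine Ideal.add_mem _ (Ideal.sum_mem _ fun i _ => ?_) hpP
      have h5 := sub_dvd_pow_sub_pow (x'' * x) 1 i
      rw [one_pow] at h5
      exact Ideal.mem_of_dvd _ h5 hyP
    have hyp : (x'' * x) ^ p - 1 ∈ idl (A := A) (B := B) (p * f) := by
      have e : (x'' * x) ^ p - 1 = (x'' * x - 1) * ∑ i ∈ Finset.range p, (x'' * x) ^ i := by
        rw [mul_comm (x'' * x - 1), geom_sum_mul]
      rw [e, hidlmul]
      exact EPSx.gmem_pow herle hyGP hs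
    have h4 : e0 (x'' * x) ^ p = 1 := by
      rw [← mul_pow' h1 hmul, hper _ _ hyp, h1]
    have h5 : e0 (x'' * x) ≠ 0 := by
      intro h
      rw [h, zero_pow hS.pp.ne_zero] at h4
      exact zero_ne_one h4
    have h6 := hpow _ h5
    have h7 : e0 (x'' * x) = 1 := by
      have h8 : Nat.Coprime p r := (Nat.Prime.coprime_iff_not_dvd hS.pp).2 hpr
      have h9 := orderOf_dvd_of_pow_eq_one h4
      have h10 := orderOf_dvd_of_pow_eq_one h6
      have h11 := Nat.dvd_gcd h9 h10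
      rw [h8] at h11
      exact orderOf_eq_one_iff.1 (Nat.dvd_one.1 h11)
    rw [hmul] at h7
    have h8 : e0 x'' ≠ 0 := left_ne_zero_of_mul_eq_one h3
    exact mul_left_cancel₀ h8 (h7.trans h3.symm)
  -- the lift `Y` of the generator
  obtain ⟨a, ha, b, hb, hab⟩ := Ideal.isCoprime_iff_exists.1 hG
  obtain ⟨Y, hYP, hYG⟩ : ∃ Y : OO A B, Y - g ∈ P ∧ Y - 1 ∈ gO P f := by
    refine ⟨g * a + b, ?_, ?_⟩
    · have e : g * a + b - g = (1 - g) * b := by linear_combination g * hab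
      rw [e]
      exact Ideal.mul_mem_left _ _ hb
    · have e : g * a + b - 1 = (g - 1) * a := by linear_combination hab
      rw [e]
      exact Ideal.mul_mem_left _ _ ha
  have hYPn : Y ∉ P := by
    intro h
    apply hgP
    have := Ideal.sub_mem _ h hYP
    rwa [sub_sub_cancel] at this
  have hYkP : ∀ k : ℕ, Y ^ k - g ^ k ∈ P := fun k =>
    Ideal.mem_of_dvd _ (sub_dvd_pow_sub_pow Y g k) hYP
  have hYkG : ∀ k : ℕ, Y ^ k - 1 ∈ gO P f := fun k => by
    have h2 := sub_dvd_pow_sub_pow Y 1 k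
    rw [one_pow] at h2
    exact Ideal.mem_of_dvd _ h2 hYG
  have h11 : (1 : OO A B) - 1 ∈ gO P f := by
    rw [sub_self]
    exact Ideal.zero_mem _
  have eYN : e0 Y ^ (nI P - 1) = 1 := by
    rw [← mul_pow' h1 hmul, stepA (Y ^ (nI P - 1)) 1 (hYkG _) (hpowP _ _ hYPn) h11 h1P
      (hpowN Y hYPn), h1]
  have wne : ∀ x, x ∉ P → w x ≠ 0 := by
    intro x hx h
    have h5 := hw.pow x hx
    rw [h, zero_pow (by omega)] at h5
    exact zero_ne_one h5
  -- `w (-1) = -1`
  have wm1 : w (-1) = -1 := by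
    have h2 : w (-1) * w (-1) = 1 := by
      rw [← hw.mul, neg_mul_neg, one_mul, hw.one]
    rcases mul_self_eq_one_iff.1 h2 with h | h
    · exfalso
      have h4 := hw.cong (-1)
      rw [h, MUX.emb_neg hc, MUX.emb_one hc] at h4
      have e : (1 : ℂ) - -1 = 2 := by norm_num
      rw [e, v2, one_pow] at h4
      exact absurd (h4.trans_lt vp) (lt_irrefl _)
    · exact h
  have hprim : IsPrimitiveRoot (w g) (nI P - 1) := by
    refine ⟨hw.pow g hgP, fun l hl => ?_⟩
    apply ord_dvd hmax hN4 hgP hrep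
    rw [← mul_pow' hw.one hw.mul] at hl
    have h4 := hw.cong (g ^ l)
    rw [hl] at h4
    have h5 : V.valuation (1 - emb (g ^ l)) < 1 := by
      by_contra hcon
      have h6 : 1 ≤ V.valuation (1 - emb (g ^ l)) ^ er := one_le_pow₀ (not_lt.1 hcon)
      exact absurd ((h6.trans h4).trans_lt vp) (lt_irrefl _)
    rw [← MUX.emb_one hc, ← MUX.emb_sub hc] at h5
    have h6 := (vlt _).1 h5
    have h7 := neg_mem h6
    rwa [neg_sub] at h7
  have _ : NeZero (nI P - 1) := ⟨by omega⟩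
  obtain ⟨b0, hb0N, hb0⟩ := hprim.eq_pow_of_pow_eq_one eYN
  -- `e0 = w ^ b0` on `k*`
  have he0 : ∀ x, x - 1 ∈ gO P f → x ∉ P → e0 x = w x ^ b0 := by
    intro x hx hxP
    obtain ⟨k, hk⟩ := hrep x hxP
    have h4 : x - Y ^ k ∈ P := by
      have := Ideal.sub_mem _ hk (hYkP k)
      have e : x - g ^ k - (Y ^ k - g ^ k) = x - Y ^ k := by ring
      rwa [e] at this
    rw [stepA x (Y ^ k) hx hxP (hYkG k) (hpowP _ _ hYPn) h4, hw.per _ _ hk, mul_pow' h1 hmul,
      mul_pow' hw.one hw.mul, ← hb0, ← pow_mul, ← pow_mul, mul_comm]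
  have wnm : ∀ x, x - 1 ∈ gO P f → x ∉ P → w ((nm x : ℤ) : OO A B) = w x ^ m := by
    intro x hx hxP
    rw [hw.per _ _ (hnm x (hGPc _ hx) hxP), mul_pow' hw.one hw.mul]
  -- the exponents
  obtain ⟨cc, hcc⟩ := hmN
  have hcc1 : 1 ≤ cc := by
    rcases Nat.eq_zero_or_pos cc with h | h
    · rw [h, mul_zero] at hcc
      omega
    · exact h
  obtain ⟨i, j, hmi, hi, hij⟩ : ∃ i j : ℕ, m ≤ i ∧ i ≤ nI P - 2 ∧
      i + m * j = b0 + 1 + (nI P - 1) := by
    refine ⟨m + (b0 + 1) % m, (b0 + 1) / m + (cc - 1), by omega, ?_, ?_⟩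
    · have := Nat.mod_lt (b0 + 1) (show 0 < m by omega)
      omega
    · obtain ⟨c', rfl⟩ : ∃ c', cc = c' + 1 := ⟨cc - 1, by omega⟩
      have h5 := Nat.mod_add_div (b0 + 1) m
      rw [hcc, Nat.add_sub_cancel, mul_add, mul_add, mul_one]
      omega
  -- norms
  have hpf : ∀ x : OO A B, IsCoprime x ((p * f : ℕ) : OO A B) → IsCoprime x ((p : ℕ) : OO A B) := by
    intro x hx
    have e : ((p * f : ℕ) : OO A B) = ((p : ℕ) : OO A B) * ((f : ℕ) : OO A B) := by push_cast; rfl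
    rw [e] at hx
    exact hx.of_mul_right_left
  have hcopP : ∀ x : OO A B, IsCoprime x ((p * f : ℕ) : OO A B) → x ∉ P := by
    intro x hx hxP
    obtain ⟨u, z, huz⟩ := hpf x hx
    apply h1P
    rw [← huz]
    exact Ideal.add_mem _ (Ideal.mul_mem_left _ _ hxP) (Ideal.mul_mem_left _ _ hpP)
  have hnmP : ∀ x : OO A B, IsCoprime x ((p * f : ℕ) : OO A B) → ((nm x : ℤ) : OO A B) ∉ P := by
    intro x hx h
    exact nm_ndvd hprime hpP (hpf x hx) ((hPZ _).1 h)
  refine ⟨fun x => e0 x * w x * (w ((nm x : ℤ) : OO A B) ^ j)⁻¹, (-1) ^ j, i,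
    fun a => w (a : OO A B) ^ j, ?_, neg_one_pow_eq_or ℤ j, ?_, hi, ?_, ?_, ?_, ?_, ?_, ?_, ?_, ?_⟩
  · refine ⟨?_, ?_, ?_, ?_, ?_⟩
    · simp only [h1, nm_one, Int.cast_one, hw.one, one_pow, inv_one, mul_one]
    · intro x y
      simp only [hmul, hw.mul, MUX.nm_mul hc, Int.cast_mul, mul_pow, mul_inv]
      ring
    · intro x y hxy
      have h5 : ((nm x : ℤ) : OO A B) - ((nm y : ℤ) : OO A B) ∈ P := by
        rw [← Int.cast_sub, hPZ]
        apply nm_congr
        rw [EPSx.mem_idl] at hxy ⊢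
        refine dvd_trans ⟨((f : ℕ) : OO A B), ?_⟩ hxy
        push_cast
        rfl
      rw [hper x y hxy, hw.per x y (hleP _ hxy), hw.per _ _ h5]
    · intro x
      rw [Ideal.isCoprime_span_singleton_iff]
      constructor
      · intro h
        exact (hsupp x).1 (left_ne_zero_of_mul (left_ne_zero_of_mul h))
      · intro h
        exact mul_ne_zero (mul_ne_zero ((hsupp x).2 h) (wne x (hcopP x h)))
          (inv_ne_zero (pow_ne_zero _ (wne _ (hnmP x h))))
    · simp only [hm1, wm1, nm_neg_one, Int.cast_one, hw.one, one_pow, inv_one, mul_one, one_mul]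
  · rw [hm]
    exact Nat.mul_le_mul_right _ hmi
  · intro x hx hxP
    simp only
    rw [he0 x hx hxP, wnm x hx hxP, ← pow_mul, ← pow_succ]
    have h5 : w x ^ (m * j) ≠ 0 := pow_ne_zero _ (wne x hxP)
    rw [← div_eq_mul_inv, div_eq_iff h5, ← pow_add, hij, pow_add _ (b0 + 1), hw.pow x hxP, mul_one,
      pow_succ]
  · intro x hx
    simp only at hx ⊢
    have hcx := (hsupp x).1 (left_ne_zero_of_mul (left_ne_zero_of_mul hx))
    have hxP := hcopP x hcx
    have e1 : e0 x ^ ((nI P - 1) * r) = 1 := by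
      rw [mul_comm, pow_mul, hpow x ((hsupp x).2 hcx), one_pow]
    have e2 : w x ^ ((nI P - 1) * r) = 1 := by
      rw [pow_mul, hw.pow x hxP, one_pow]
    have e3 : (w ((nm x : ℤ) : OO A B) ^ j) ^ ((nI P - 1) * r) = 1 := by
      rw [← pow_mul, mul_comm j, mul_assoc, pow_mul, hw.pow _ (hnmP x hcx), one_pow]
    rw [mul_pow, mul_pow, e1, e2, inv_pow, e3]
    norm_num
  · intro a b
    simp only [Int.cast_mul, hw.mul, mul_pow]
  · intro a b hab
    simp only
    rw [hw.per (a : OO A B) (b : OO A B) (by rw [← Int.cast_sub]; exact (hPZ _).2 hab)]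
  · simp only [Int.cast_one, hw.one, one_pow]
  · simp only [Int.cast_neg, Int.cast_one, wm1, Int.cast_pow]
  · intro a ha'
    simp only
    rw [← pow_mul, mul_comm, pow_mul, hw.pow _ (fun h => ha' ((hPZ _).1 h)), one_pow]
  · intro x hx
    simp only
    have h5 : w ((nm x : ℤ) : OO A B) ^ j ≠ 0 := pow_ne_zero _ (wne _ (hnmP x hx))
    rw [mul_assoc _ (w ((nm x : ℤ) : OO A B) ^ j)⁻¹, inv_mul_cancel₀ h5, mul_one]

end

end Pool.Agent.OE
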