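import Pool.Agent.OE.Defs
import Pool.Agent.ME.G_GPN
import Pool.Agent.OB.G_LCN

/-!
# OE, block G: Theorem G for `PT p (PhiKE R e kk / (u om_0))`, `t = 1/p³`, for the exceptional fields, every prime `p ≥ 5` (helper59)

From `MEG.gptQE` (`ME2/G_GPT3.lean`) with `q = p³`, after `MEG.g_GPT4` (`p = 3`, `D = -4`) and `OBG.o_GPT`.
-/

set_option autoImplicit false

namespace Pool.Agent.OEG

open _root_.MU3 Pool.Agent.MU3A Pool.Agent.MU3B Pool.Agent.MU3Q Pool.Agent.MUX Pool.Agent.MuSym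
  Pool.Agent.MUXN Pool.Agent.NS Pool.Agent.NSG Pool.Agent.N2 Pool.Agent.OB Pool.Agent.OE
  Pool.Agent.MEG OnePoint UpperHalfPlane
open Pool.Agent.ME hiding ActE
open Pool.Agent.MUXU

noncomputable section

variable {A B : ℤ} {n : ℕ} {ι : Type} {p : ℕ} {P : Ideal (OO A B)} {V : ValuationSubring ℂ}

theorem int_le (V : ValuationSubring ℂ) (z : ℤ) : V.valuation (z : ℂ) ≤ 1 :=
  (V.valuation_le_one_iff _).2 (Pool.Agent.MU3A2.int_mem z)

theorem vp (h : CaseOE p A B P V) : V.valuation (p : ℂ) < 1 := by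
  have h1 : emb ((p : ℕ) : OO A B) ∈ V.nonunits := (h.hV _).2 h.mem
  rw [ValuationSubring.mem_nonunits_iff] at h1
  have h2 : emb ((p : ℕ) : OO A B) = (p : ℂ) := by
    unfold emb
    rw [QuadraticAlgebra.re_natCast, QuadraticAlgebra.im_natCast]
    norm_num
  rw [h2] at h1
  exact h1

/-- integers prime to `p` are units at `V` -/
theorem vn (h : CaseOE p A B P V) {m : ℕ} (hm : ¬ p ∣ m) : V.valuation (m : ℂ) = 1 := by
  have h1 : V.valuation (m : ℂ) ≤ 1 := by exact_mod_cast int_le V (m : ℤ)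
  refine le_antisymm h1 (not_lt.1 fun h2 => ?_)
  have hc : IsCoprime (m : ℤ) (p : ℤ) :=
    Nat.isCoprime_iff_coprime.2 ((h.pp.coprime_iff_not_dvd.2 hm).symm)
  obtain ⟨a, b, hab⟩ := hc
  have e : (a : ℂ) * m + b * p = 1 := by exact_mod_cast hab
  have h3 : V.valuation ((a : ℂ) * m + b * p) < 1 := by
    refine V.valuation.map_add_lt ?_ ?_
    · rw [map_mul]
      exact mul_lt_one_of_nonneg_of_lt_one_right (int_le V a) zero_le h2
    · rw [map_mul]
      exact mul_lt_one_of_nonneg_of_lt_one_right (int_le V b) zero_le (vp h)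
  rw [e, map_one] at h3
  exact lt_irrefl _ h3

/-- `LocN` -/
theorem loc (h : CaseOE p A B P V) : LocN A B V := by
  intro S hS
  have hC : CQ A B := h.toCQ
  have hPp : P.IsPrime := h.prime
  classical
  obtain ⟨t, ht, htS⟩ : ∃ t : OO A B, t ∉ P ∧ ∀ y ∈ S, ∃ c : OO A B, emb t * y = emb c := by
    induction S using Finset.induction_on with
    | empty =>
      exact ⟨1, fun h => hPp.ne_top (P.eq_top_iff_one.2 h),
        fun y hy => absurd hy (Finset.notMem_empty y)⟩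
    | insert y S hyS ih =>
      obtain ⟨t, ht, htS⟩ := ih (fun z hz => hS z (Finset.mem_insert_of_mem hz))
      obtain ⟨h1, h2⟩ := hS y (Finset.mem_insert_self y S)
      obtain ⟨u, hu, c, hc⟩ := OBG.LCN.one hC h.pp hPp h.mem h.hV h1 h2
      refine ⟨t * u, fun h => (hPp.mem_or_mem h).elim ht hu, ?_⟩
      intro z hz
      rcases Finset.mem_insert.1 hz with rfl | hz
      · refine ⟨t * c, ?_⟩
        rw [emb_mul hC, emb_mul hC, ← hc]
        ring
      · obtain ⟨c', hc'⟩ := htS z hz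
        refine ⟨u * c', ?_⟩
        rw [emb_mul hC, emb_mul hC, ← hc']
        ring
  exact ⟨t, OBG.LCN.val1 hC h.hV ht, htS⟩

/-- `LegN` for the lattice `u L` -/
theorem legX (R : RepsE A B n ι) {u e lam : ℂ} (h : GoodL V (R.L R.i0) u e lam) :
    IsAlgebraic ℚ u ∧ ∃ (L' : PeriodPair), LegN A B V L' (u * R.om R.i0) (e / u ^ 2) lam := by
  have hleg : LegQ (R.L R.i0) u e lam := h.eq
  have halg := leg_algE (R.nl R.i0).nrm h.u0 hleg
  obtain ⟨L', hL'⟩ := u_SCX (R.L R.i0) u h.u0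
  obtain ⟨s1, s2, -, -⟩ := ta_SCP (R.L R.i0) L' u h.u0 hL'
  have hlat := latE R h.u0 hL'
  refine ⟨halg.1, L', hlat.1, hlat.2, ?_, halg.2.2, h.vl, h.vl1⟩
  intro z hz
  have e1 : z = u * (u⁻¹ * z) := by rw [mul_inv_cancel_left₀ h.u0]
  have hz' : u⁻¹ * z ∉ (R.L R.i0).lattice := by
    intro h4
    apply hz
    rw [e1]
    exact (hL' _).1 h4
  have h5 := h.eq _ hz'
  rw [e1, s1, s2]
  have hu := h.u0
  rw [show (R.L R.i0).weierstrassP (u⁻¹ * z) / u ^ 2 - e / u ^ 2 =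
    ((R.L R.i0).weierstrassP (u⁻¹ * z) - e) / u ^ 2 by ring, ← h5]
  field_simp
  ring

/-- the integrality property of a lattice in Legendre form at `V` -/
theorem binX (h : CaseOE p A B P V) {L' : PeriodPair} {om e lam : ℂ}
    (hL : LegN A B V L' om e lam) : BinP V L' {lam} := by
  have hv2 : V.valuation (2 : ℂ) = 1 := by
    have h2 : ¬ p ∣ 2 := by
      intro h2
      have h3 := Nat.le_of_dvd (by norm_num) h2
      have h5 := h.p5
      omega
    exact_mod_cast vn h h2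
  refine ⟨fun x hx => ?_, ?_⟩
  · rw [Finset.mem_singleton.1 hx]
    exact hL.alg
  intro K _ hS N hN hζ Z z hQS hzK hz0 hden hcusp hper
  exact bin_leg Pool.Agent.MU3Q.wq (tg_GP tg_GV tg_GD) tg_DV K V p h.pp (by
    rw [ValuationSubring.mem_nonunits_iff]
    exact vp h) hv2 N hN hζ L' e lam hL.eq (hS lam (Finset.mem_singleton_self _)) hL.v1
    hL.v2 Z z hQS hzK hz0 hden hcusp hper

/-- (GPT) for the exceptional fields, `p ≥ 5` -/
theorem oe_GPT : O_GPTE := by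
  classical
  intro p A B P V f hS hT ι _ R u el lam hg e he r hr her kk hkk N' hN' hNd
  have hCO : CaseOE p A B P V := hS.toCaseOE
  have hE : CaseE A B := hCO.toCaseE
  have hp : p.Prime := hCO.pp
  have hp5 : 5 ≤ p := hCO.p5
  obtain ⟨hua, L', hL'⟩ := legX R hg
  have hn : 2 ≤ p * f := by
    have := Nat.pos_of_ne_zero hS.f0
    nlinarith
  have hrE : V.valuation (rE A B : ℂ) = 1 := by
    have h3 : rE A B = 2 ∨ rE A B = 3 := by
      unfold rE
      split_ifs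
      · exact Or.inl rfl
      · exact Or.inr rfl
    apply vn hCO
    intro hd
    have h4 : 0 < rE A B := by omega
    have h5 := Nat.le_of_dvd h4 hd
    omega
  obtain ⟨q, hq⟩ : ∃ q : ℕ, q = p ^ 3 := ⟨_, rfl⟩
  have hq1 : 1 < q := by rw [hq]; exact Nat.one_lt_pow (by norm_num) hp.one_lt
  have hq0 : 0 < q := by omega
  obtain ⟨i0, hi0⟩ : ∃ i0 : Fin q, i0 = ⟨0, by omega⟩ := ⟨_, rfl⟩
  obtain ⟨i1, hi1⟩ : ∃ i1 : Fin q, i1 = ⟨1, hq1⟩ := ⟨_, rfl⟩
  have e0 : (i0 : ℕ) = 0 := by rw [hi0]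
  have e1 : (i1 : ℕ) = 1 := by rw [hi1]
  obtain ⟨cc, hcc⟩ : ∃ cc : Fin q → ℂ, cc = fun t => (if t = i0 then 1 else 0) -
      (if t = i1 then 1 else 0) := ⟨_, rfl⟩
  have hF : ∀ F : Fin q → ℂ, ∑ t, cc t * F t = F i0 - F i1 := by
    intro F
    rw [hcc]
    simp only [sub_mul, ite_mul, one_mul, zero_mul, Finset.sum_sub_distrib, Finset.sum_ite_eq',
      Finset.mem_univ, if_true]
  have hz : IsPrimitiveRoot (zq q) q := by
    have := Complex.isPrimitiveRoot_exp q hq0.ne'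
    unfold zq
    exact_mod_cast this
  have hs : ∑ t, cc t * zq q ^ (t : ℕ) = 1 - zq q := by
    rw [hF (fun t => zq q ^ (t : ℕ)), e0, e1, pow_zero, pow_one]
  have hzq : (1 : ℂ) - zq q ≠ 0 := by
    intro h0
    exact hz.ne_one hq1 (by linear_combination -h0)
  obtain ⟨a, b, c, d, m1, m2, m3, m4⟩ := gptQE hE hT (loc hCO) hn R hg.u0 hua (binX hCO hL')
    ⟨hL'.om0, hL'.mem⟩ he hr her hkk hN' hNd hq0 cc (by rw [hs]; exact hzq)
  refine ⟨a, b, c, d, m1, m2, m3, ?_⟩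
  rw [hrE, one_mul, hs, hF (fun t => PhiKE R e kk (mob q (t : ℕ) 0 q ∞)
      (mob q (t : ℕ) 0 q (mob a b c d ∞)) / (u * R.om R.i0))] at m4
  have hvz : V.valuation (zq q - 1) ^ ((p - 1) * p ^ 2) = V.valuation (p : ℂ) := by
    have := MUXH.Hz.val_p p hp V 2 (zq q) (by
      have : (p : ℕ) ^ (2 + 1) = q := by rw [hq]
      rw [this]
      exact hz)
    rw [mul_comm] at this
    exact this
  have hz2 : V.valuation (1 - zq q) = V.valuation (zq q - 1) := by
    rw [← neg_sub, Valuation.map_neg]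
  rw [← hvz, ← hz2]
  refine pow_le_pow_left₀ zero_le ?_ _
  unfold Pool.Agent.OBH.PT
  dsimp only
  have hqc : ((p : ℤ) ^ 3) = (q : ℤ) := by rw [hq]; push_cast; ring
  rw [e0, e1] at m4
  rw [hqc]
  have f0 : ((0 : ℕ) : ℤ) = 0 := rfl
  have f1 : ((1 : ℕ) : ℤ) = 1 := rfl
  rw [f0, f1] at m4
  rw [TrQ.mob_zero _ (by omega), TrQ.mob_zero _ (by omega)] at m4
  exact m4

end

end Pool.Agent.OEG
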