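import Pool.Agent.OE.CaseG
import Pool.Agent.OB.I_PRF
import Pool.Agent.MUX.XLib

/-!
# OE: facts on `P`, continued, for `CaseG` (copy of `OB/I_PRF.lean`)
-/

set_option autoImplicit false

namespace Pool.Agent.OE

open _root_.MU3 Pool.Agent.MU3 Pool.Agent.MU3A Pool.Agent.MU3B Pool.Agent.RI Pool.Agent.RID
  Pool.Agent.MUX Pool.Agent.MUXK Pool.Agent.MUXI Pool.Agent.NS Pool.Agent.NSI Pool.Agent.OB

noncomputable section


open Pool.Agent.OBI.PRFx in
theorem o_PRFG (hB : S_BASG) : S_PRFG := by
  intro p er A B P V hc
  obtain ⟨v1, v2, hM, vle, vlt, vn, hq, hqn, hq4, hy, hcop, hid⟩ := hB p er A B P V hc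
  have hcq := hc.cq
  have hp := hc.pp
  have hp5 := hc.p5
  have hfp : Fact p.Prime := ⟨hp⟩
  have hp0 : ((p : ℕ) : OO A B) ≠ 0 := natCast_ne_zero' hcq hp.ne_zero
  have hPb : P ≠ ⊥ := by
    intro h0
    have := hc.mem
    rw [h0, Ideal.mem_bot] at this
    exact hp0 this
  have hfin : Finite (OO A B ⧸ P) := finite_quot hcq hPb
  have hpn : nI (idl (A := A) (B := B) p) = p ^ 2 := by
    rw [show (idl (A := A) (B := B) p) = sp ((p : ℕ) : OO A B) from rfl, nI_sp hcq hp0]
    have : ((p : ℕ) : OO A B) = (((p : ℕ) : ℤ) : OO A B) := by push_cast; rfl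
    rw [this, nm_intCast, Int.natAbs_pow, Int.natAbs_natCast]
  let _ : Field (OO A B ⧸ P) := Ideal.Quotient.field P
  let _ : Fintype (OO A B ⧸ P) := Fintype.ofFinite _
  have hcard : Fintype.card (OO A B ⧸ P) = nI P := by
    unfold nI
    rw [Nat.card_eq_fintype_card]
  have hchar : CharP (OO A B ⧸ P) p := charP_quot hM hp hc.mem
  refine ⟨int_mem hM.ne_top hp hc.mem, ?_, ?_, ?_, ?_⟩
  · -- (2)
    intro x hx
    obtain ⟨t, ht, s, hs, hts⟩ := Ideal.isCoprime_iff_exists.1 hcop
    have htP : t ∉ P := by
      intro htP
      apply hM.ne_top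
      rw [Ideal.eq_top_iff_one, ← hts]
      exact P.add_mem htP hs
    have h1 : t * x ^ er ∈ idl (A := A) (B := B) p := by
      rw [hid]
      exact Ideal.mul_mem_mul ht (Ideal.pow_mem_pow hx er)
    obtain ⟨z, hz⟩ := Ideal.mem_span_singleton.1 h1
    have h2 := congrArg emb hz
    rw [emb_mul hcq, emb_pow hcq, emb_mul hcq, emb_natCast hcq] at h2
    have h3 := congrArg V.valuation h2
    rw [map_mul, map_mul, map_pow] at h3
    have h4 : V.valuation (emb t) = 1 :=
      le_antisymm (vle t) (not_lt.1 fun h => htP ((vlt t).1 h))
    rw [h4, one_mul] at h3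
    rw [h3]
    exact mul_le_of_le_one_right' (vle z)
  · -- (3)
    intro x hx
    have h1 : Ideal.Quotient.mk P x ≠ 0 := fun h => hx (Ideal.Quotient.eq_zero_iff_mem.1 h)
    have h2 := FiniteField.pow_card_sub_one_eq_one _ h1
    rw [hcard, ← map_pow, ← map_one (Ideal.Quotient.mk P)] at h2
    exact Ideal.Quotient.eq.1 h2
  · -- (4)
    obtain ⟨g, hg⟩ := IsCyclic.exists_generator (α := (OO A B ⧸ P)ˣ)
    obtain ⟨g0, hg0⟩ := Ideal.Quotient.mk_surjective (I := P) (g : OO A B ⧸ P)
    refine ⟨g0, ?_, ?_⟩
    · intro h
      have h1 := Ideal.Quotient.eq_zero_iff_mem.2 h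
      rw [hg0] at h1
      exact g.ne_zero h1
    · intro x hx
      have h1 : Ideal.Quotient.mk P x ≠ 0 := fun h => hx (Ideal.Quotient.eq_zero_iff_mem.1 h)
      have h2 := hg (Units.mk0 _ h1)
      rw [← mem_powers_iff_mem_zpowers] at h2
      obtain ⟨k, hk⟩ := h2
      refine ⟨k, Ideal.Quotient.eq.1 ?_⟩
      have h3 := congrArg (fun u : (OO A B ⧸ P)ˣ => (u : OO A B ⧸ P)) hk
      simp only [Units.val_pow_eq_pow_val, Units.val_mk0] at h3
      rw [map_pow, hg0, h3]
  · -- (5)
    have hcb : cjI P ≠ ⊥ := cjI_ne_bot hcq hPb
    have hcn : nI (cjI P) = nI P := nI_cjI hcq hPb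
    have hp1 : 1 < p := hp.one_lt
    have hPe : P ^ er ≠ ⊥ := by
      rcases hc.ram with ⟨rfl, -⟩ | ⟨rfl, -⟩
      · rw [pow_one]; exact hPb
      · rw [pow_two]; exact mul_ne_bot hcq hPb hPb
    have hne : nI (P ^ er) = nI P ^ er := by
      rcases hc.ram with ⟨rfl, -⟩ | ⟨rfl, -⟩
      · rw [pow_one, pow_one]
      · rw [pow_two, pow_two]; exact nI_mul hcq hPb hPb
    -- the norm equation
    have hnc : cjI P = P → nI P ^ er = p ^ 2 := by
      intro h1
      have h2 : Pc P = ⊤ := by unfold Pc; rw [if_pos h1]
      rw [h2, Ideal.top_mul] at hid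
      rw [← hne, ← hid, hpn]
    have hnn : cjI P ≠ P → nI P * nI P ^ er = p ^ 2 := by
      intro h1
      have h2 : Pc P = cjI P := by unfold Pc; rw [if_neg h1]
      rw [h2] at hid
      rw [← hne, ← hpn, hid, nI_mul hcq hcb hPe, hcn]
    rcases hc.ram with ⟨her, -⟩ | ⟨her, -⟩
    · subst her
      rcases hq with hq | hq
      · -- split
        have h1 : cjI P ≠ P := by
          intro h
          have := hnc h
          rw [hq, pow_one] at this
          nlinarith
        have h2 : Pc P = cjI P := by unfold Pc; rw [if_neg h1]
        refine ⟨1, by rw [hq], one_dvd _, le_rfl, by omega, ?_⟩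
        intro x hx _
        rw [h2, mem_cjI, star_sub, star_one] at hx
        rw [← mul_star, pow_one]
        have : x * star x - x = x * (star x - 1) := by ring
        rw [this]
        exact P.mul_mem_left _ hx
      · -- inert
        have h1 : cjI P = P := by
          by_contra h
          have h3 := hnn h
          rw [hq, pow_one] at h3
          have : 1 < p ^ 2 := Nat.one_lt_pow (by norm_num) hp1
          nlinarith
        have e1 : p ^ 2 - 1 = (p + 1) * (p - 1) := by
          have := Nat.sq_sub_sq p 1
          simpa using this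
        refine ⟨p + 1, ?_, ?_, by omega, by rw [hq]; nlinarith, ?_⟩
        · rw [hq, one_mul, e1]
        · rw [hq, e1]; exact dvd_mul_right _ _
        · intro x _ _
          have key : star x - x ^ p ∈ P := by
            have hT := add_star x
            have hN := mul_star x
            set T : ℤ := 2 * x.re + B * x.im with hTd
            set a : OO A B ⧸ P := Ideal.Quotient.mk P x with ha
            set b : OO A B ⧸ P := Ideal.Quotient.mk P (star x) with hb
            have hT' : a + b = ((T : ℤ) : OO A B ⧸ P) := by
              rw [ha, hb, ← map_add, hT, map_intCast]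
            have hN' : a * b = ((nm x : ℤ) : OO A B ⧸ P) := by
              rw [ha, hb, ← map_mul, hN, map_intCast]
            have hTp : (a + b) ^ p = a + b := by rw [hT']; exact int_pow hM hp hc.mem T
            have hNp : (a * b) ^ p = a * b := by rw [hN']; exact int_pow hM hp hc.mem _
            have h3 : (a ^ p - a) * (a ^ p - b) = 0 := by
              rw [add_pow_char] at hTp
              rw [mul_pow] at hNp
              linear_combination (a ^ p) * hTp - hNp
            rcases mul_eq_zero.1 h3 with h4 | h4
            · have h5 : x ^ p - x ∈ P := by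
                rw [← Ideal.Quotient.eq_zero_iff_mem, map_sub, map_pow]
                exact h4
              obtain ⟨c, hcx⟩ := int_of_pow hM hp hc.mem x h5
              have h6 : star x - (c : OO A B) ∈ P := by
                rw [← h1, mem_cjI, star_sub, star_star, star_int]
                exact hcx
              have h7 : star x - x ^ p = (star x - (c : OO A B)) - (x - (c : OO A B)) -
                (x ^ p - x) := by ring
              rw [h7]
              exact P.sub_mem (P.sub_mem h6 hcx) h5
            · have h5 : x ^ p - star x ∈ P := by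
                rw [← Ideal.Quotient.eq_zero_iff_mem, map_sub, map_pow]
                exact h4
              have h7 : star x - x ^ p = - (x ^ p - star x) := by ring
              rw [h7]
              exact P.neg_mem h5
          rw [← mul_star]
          have : x * star x - x ^ (p + 1) = x * (star x - x ^ p) := by ring
          rw [this]
          exact P.mul_mem_left _ key
    · subst her
      rcases hq with hq | hq
      · -- ramified
        have h1 : cjI P = P := by
          by_contra h
          have h3 := hnn h
          rw [hq] at h3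
          have : 1 < p ^ 2 := Nat.one_lt_pow (by norm_num) hp1
          nlinarith
        have hodd : ¬ 2 ∣ p := by
          intro h
          have := (Nat.prime_dvd_prime_iff_eq Nat.prime_two hp).1 h
          omega
        refine ⟨2, by rw [hq], by rw [hq]; omega, by norm_num, by omega, ?_⟩
        intro x _ _
        have h5 : x ^ p - x ∈ P := by
          rw [← Ideal.Quotient.eq_zero_iff_mem, map_sub, map_pow]
          have := FiniteField.pow_card (Ideal.Quotient.mk P x)
          rw [hcard, hq] at this
          rw [this, sub_self]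
        obtain ⟨c, hcx⟩ := int_of_pow hM hp hc.mem x h5
        have h6 : star x - (c : OO A B) ∈ P := by
          rw [← h1, mem_cjI, star_sub, star_star, star_int]
          exact hcx
        rw [← mul_star]
        have : x * star x - x ^ 2 = x * ((star x - (c : OO A B)) - (x - (c : OO A B))) := by ring
        rw [this]
        exact P.mul_mem_left _ (P.sub_mem h6 hcx)
      · exfalso
        have hp2 : 1 < p ^ 2 := Nat.one_lt_pow (by norm_num) hp1
        by_cases h : cjI P = P
        · have h3 := hnc h
          rw [hq] at h3
          nlinarith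
        · have h3 := hnn h
          rw [hq] at h3
          nlinarith [Nat.one_lt_pow (n := 2) (by norm_num) hp2]

end

end Pool.Agent.OE
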