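import Pool.Agent.OE.CaseG
import Pool.Agent.OB.I_TEI
import Pool.Agent.MUX.XLib

/-!
# OE: existence of the Teichmueller character for `CaseG` (copy of `OB/I_TEI.lean`)

`N = nI P - 1` is prime to `p` and `x ^ N ≡ 1` modulo `P` for `x ∉ P`. For such an `x` there is exactly one
`N`-th root of unity `η` with `v (emb x - η) < 1`, and then `v (emb x - η) ^ er ≤ v p`
(the product of the `emb x - η` is `emb x ^ N - 1`, and different `N`-th roots of unity differ by units at `V`).
Put `w x = η`, and `w x = 0` for `x ∈ P`; everything follows from the uniqueness.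
-/

set_option autoImplicit false

namespace Pool.Agent.OE

open _root_.MU3 Pool.Agent.MU3 Pool.Agent.MU3A Pool.Agent.MU3B Pool.Agent.RI Pool.Agent.RID
  Pool.Agent.MUX Pool.Agent.MUXK Pool.Agent.MUXI Pool.Agent.NS Pool.Agent.NSI Pool.Agent.OB
open Pool.Agent.MU3I (zt)

noncomputable section


open Pool.Agent.OBI.TEIx in
/-- (TEI) existence of the Teichmueller character -/
theorem o_TEIG (h1 : S_BASG) (h2 : S_PRFG) : S_TEIG := by
  classical
  intro p er A B P V hC
  have hc : CQ A B := hC.cq
  obtain ⟨vp, -, -, hV1, -, hnat, -, hnq, hq4, -, -, -⟩ := h1 p er A B P V hC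
  obtain ⟨-, hP2, hP3, -, -⟩ := h2 p er A B P V hC
  have hP : P.IsPrime := hC.prime
  set N := nI P - 1 with hNd
  have hN : N ≠ 0 := by omega
  have vN : V.valuation (N : ℂ) = 1 := hnat N hnq
  have hex : ∀ x : OO A B, x ∉ P →
      ∃ η : ℂ, η ^ N = 1 ∧ V.valuation (η - emb x) ^ er ≤ V.valuation (p : ℂ) := by
    intro x hx
    refine exists_root hN vN vp ?_
    have h3 := hP2 _ (hP3 x hx)
    rwa [emb_sub hc, emb_pow hc, emb_one hc] at h3
  choose η hη8 hηv using hex
  have key : ∀ (x : OO A B) (hx : x ∉ P) (ξ : ℂ), ξ ^ N = 1 →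
      V.valuation (ξ - emb x) < 1 → η x hx = ξ := by
    intro x hx ξ hξ hv
    refine root_eq hN vN (hη8 x hx) hξ ?_
    have e1 : η x hx - ξ = (η x hx - emb x) - (ξ - emb x) := by ring
    rw [e1]
    exact lt_of_le_of_lt (V.valuation.map_sub _ _) (max_lt (lt_of_pow vp (hηv x hx)) hv)
  refine ⟨fun x => if hx : x ∈ P then 0 else η x hx, ?_, ?_, ?_, ?_, ?_, ?_⟩
  · have h3 : (1 : OO A B) ∉ P := (Ideal.ne_top_iff_one _).1 hP.ne_top
    rw [dif_neg h3]
    refine key 1 h3 1 (one_pow N) ?_
    rw [emb_one hc, sub_self, map_zero]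
    exact zero_lt_one
  · intro x y
    by_cases hx : x ∈ P
    · rw [dif_pos hx, dif_pos (Ideal.mul_mem_right y _ hx), zero_mul]
    · by_cases hy : y ∈ P
      · rw [dif_pos hy, dif_pos (Ideal.mul_mem_left _ x hy), mul_zero]
      · have hxy : x * y ∉ P := fun h => (hP.mem_or_mem h).elim hx hy
        rw [dif_neg hx, dif_neg hy, dif_neg hxy]
        refine key (x * y) hxy _ (by rw [mul_pow, hη8, hη8, one_mul]) ?_
        have e1 : η x hx * η y hy - emb (x * y) =
            η x hx * (η y hy - emb y) + emb y * (η x hx - emb x) := by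
          rw [emb_mul hc]
          ring
        rw [e1]
        refine lt_of_le_of_lt (V.valuation.map_add _ _) (max_lt ?_ ?_)
        · rw [map_mul, v_root hN (hη8 x hx), one_mul]
          exact lt_of_pow vp (hηv y hy)
        · rw [map_mul]
          exact lt_of_le_of_lt (mul_le_of_le_one_left' (hV1 y)) (lt_of_pow vp (hηv x hx))
  · intro x y hxy
    by_cases hx : x ∈ P
    · have hy : y ∈ P := by
        have h := Ideal.sub_mem _ hx hxy
        rwa [sub_sub_cancel] at h
      rw [dif_pos hx, dif_pos hy]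
    · have hy : y ∉ P := by
        intro h
        apply hx
        have h := Ideal.add_mem _ hxy h
        rwa [sub_add_cancel] at h
      rw [dif_neg hx, dif_neg hy]
      refine key x hx _ (hη8 y hy) ?_
      have e1 : η y hy - emb x = (η y hy - emb y) - emb (x - y) := by
        rw [emb_sub hc]
        ring
      rw [e1]
      exact lt_of_le_of_lt (V.valuation.map_sub _ _)
        (max_lt (lt_of_pow vp (hηv y hy)) (lt_of_pow vp (hP2 _ hxy)))
  · intro x hx
    rw [dif_pos hx]
  · intro x hx
    rw [dif_neg hx]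
    exact hη8 x hx
  · intro x
    by_cases hx : x ∈ P
    · rw [dif_pos hx, zero_sub, Valuation.map_neg]
      exact hP2 x hx
    · rw [dif_neg hx]
      exact hηv x hx

end

end Pool.Agent.OE
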