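import Pool.Agent.OE.HB_HETA
import Pool.Agent.OT.H_HT
import Pool.Agent.OT.H_LAG
import Pool.Agent.OT.H_VSY
import Pool.Agent.OT.H_CNG
import Pool.Agent.TWV.TWV

/-!
# OE, blocks HQ and HB put together (helper51): `O_HETAE` from TYPE and Theorem G
-/

set_option autoImplicit false

namespace Pool.Agent.OEHB

open Pool.Agent.OE

theorem oe_HETAE (hT : O_TYFE) (hG : O_GPTE) : O_HETAE :=
  oe_HETA (OTH.h_HT OTH.h_LAG OTH.h_VSY OTH.h_CNG TWV.a_TWV) OTH.h_NDN hT hG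

end Pool.Agent.OEHB
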