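import Pool.Agent.OE.Defs
import Pool.Agent.ME.H_QS
import Pool.Agent.OT.HB_SGP
import Pool.Agent.OT.HB_SYE
import Pool.Agent.MUX.XFAll

/-!
# OE, block HB (helper51): the sums `SGX` and the vector symbol `PV` of `QTE`

After `OT/HB_SGE.lean` (helper31), `HB_SGP.lean` (helper88), `HB_SYE.lean` (helper11), for `er = 1` and the exceptional fields.
-/

set_option autoImplicit false

namespace Pool.Agent.OEHB

open _root_.MU3 _root_.Pool.Agent.MU3A _root_.Pool.Agent.MU3B _root_.Pool.Agent.MU3F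
  _root_.Pool.Agent.MUX _root_.Pool.Agent.MuSym _root_.Pool.Agent.OB
  _root_.Pool.Agent.OBH _root_.Pool.Agent.OE OnePoint
open _root_.Pool.Agent.OT (HypT IsZ0 IsTw Yh PV coT tM)
open _root_.Pool.Agent.ME (CaseE TorXE RepsE IsNE IsEIE PhiKE SnXE STXE)

noncomputable section

/-- the weights `kk_i / e(N b_i)` -/
def kk0E {A B : ℤ} {n : ℕ} {ι : Type} (R : RepsE A B n ι) (e : OO A B → ℂ) (kk : ι → ℂ) (i : ι) :
    ℂ :=
  kk i / e ((nI (R.b i) : ℕ) : OO A B)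

section SGE

variable {A B : ℤ} {n' : ℕ} {ι : Type}

lemma SnX_per (R : RepsE A B n' ι) (m M : ℕ) (e : OO A B → ℂ) (i : ι) (c c' : ℤ)
    (h : (M : ℤ) ∣ c - c') : SnXE R m M e i c = SnXE R m M e i c' := by
  unfold SnXE
  congr 2
  funext x
  have h1 : ((M : ℤ) ∣ nm x * nI (R.b i) - c) ↔ ((M : ℤ) ∣ nm x * nI (R.b i) - c') := by
    constructor
    · intro h2
      have := dvd_add h2 h
      rwa [show nm x * (nI (R.b i) : ℤ) - c + (c - c') = nm x * nI (R.b i) - c' by ring] at this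
    · intro h2
      have := dvd_sub h2 h
      rwa [show nm x * (nI (R.b i) : ℤ) - c' - (c - c') = nm x * nI (R.b i) - c by ring] at this
  simp only [h1]

lemma STX_per [Fintype ι] (R : RepsE A B n' ι) (m M a : ℕ) (e : OO A B → ℂ) (kk : ι → ℂ)
    (c c' : ℤ) (h : (M : ℤ) ∣ c - c') : STXE R m M a e kk c = STXE R m M a e kk c' := by
  unfold STXE
  refine Finset.sum_congr rfl fun i _ => ?_
  rw [SnX_per R m M e i c c' h, SnX_per R m M e i ((a : ℤ) ^ 2 * c) ((a : ℤ) ^ 2 * c') (by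
    rw [← mul_sub]
    exact Dvd.dvd.mul_left h _)]

lemma SG_per [Fintype ι] (p : ℕ) (R : RepsE A B n' ι) (m M a : ℕ) (e : OO A B → ℂ) (kk : ι → ℂ)
    (t : ℤ → ℂ) (z₀ c c' : ℤ) (h : (M : ℤ) ∣ c - c') :
    SGX p R m M a e kk t z₀ c = SGX p R m M a e kk t z₀ c' := by
  unfold SGX
  refine Finset.sum_congr rfl fun k _ => ?_
  rw [STX_per R m M a e kk (z₀ ^ k * c) (z₀ ^ k * c') (by
    rw [← mul_sub]
    exact Dvd.dvd.mul_left h _)]

end SGE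

/-- (SGE) the sums `SGX` under `c ↦ z₀ c` -/
theorem oe_SGE {p n : ℕ} {z₀ : ℤ} {t : ℤ → ℂ} {q : ℕ} {A B : ℤ} {n' : ℕ} {ι : Type} [Fintype ι]
    (R : RepsE A B n' ι) (m a : ℕ) (e : OO A B → ℂ) (kk : ι → ℂ) (hp : p.Prime) (hz : IsZ0 p n z₀)
    (ht : IsTw p q t) :
    (∀ c c' : ℤ, ((p ^ (n + 1) : ℕ) : ℤ) ∣ c - c' →
      SGX p R m (p ^ (n + 1)) a e kk t z₀ c = SGX p R m (p ^ (n + 1)) a e kk t z₀ c') ∧
    t z₀ ^ q = 1 ∧
    ∀ (c : ℤ) (j : ℕ), t z₀ ^ j * SGX p R m (p ^ (n + 1)) a e kk t z₀ (z₀ ^ j * c) =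
      SGX p R m (p ^ (n + 1)) a e kk t z₀ c := by
  have hp1 : 1 ≤ p - 1 := by have := hp.two_le; omega
  have hzp : ¬ (p : ℤ) ∣ z₀ := by
    intro h1
    have h2 : (p : ℤ) ∣ ((p ^ (n + 1) : ℕ) : ℤ) := by
      push_cast
      exact dvd_pow_self _ (Nat.succ_ne_zero n)
    have h3 := h2.trans hz.one
    have h4 : (p : ℤ) ∣ z₀ ^ (p - 1) := dvd_pow h1 (by omega)
    have h5 : (p : ℤ) ∣ 1 := by
      have := dvd_sub h4 h3
      rwa [sub_sub_cancel] at this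
    have h6 : p ∣ 1 := by exact_mod_cast h5
    exact hp.one_lt.ne' (Nat.dvd_one.1 h6)
  have htpow : ∀ k : ℕ, t (z₀ ^ k) = t z₀ ^ k := by
    intro k
    induction k with
    | zero => rw [pow_zero, pow_zero, ht.one]
    | succ k ih => rw [pow_succ, ht.mul, ih, pow_succ]
  have hlast : t z₀ ^ (p - 1) = 1 := by
    rw [← htpow, ht.per (z₀ ^ (p - 1)) 1 ?_, ht.one]
    refine dvd_trans ?_ hz.one
    push_cast
    exact dvd_pow_self _ (Nat.succ_ne_zero n)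
  have step : ∀ c : ℤ, t z₀ * SGX p R m (p ^ (n + 1)) a e kk t z₀ (z₀ * c) =
      SGX p R m (p ^ (n + 1)) a e kk t z₀ c := by
    intro c
    unfold SGX
    rw [Finset.mul_sum]
    have h1 : ∀ k ∈ Finset.range (p - 1),
        t z₀ * (t (z₀ ^ k) * STXE R m (p ^ (n + 1)) a e kk (z₀ ^ k * (z₀ * c))) =
          t (z₀ ^ (k + 1)) * STXE R m (p ^ (n + 1)) a e kk (z₀ ^ (k + 1) * c) := by
      intro k _
      rw [htpow, htpow, pow_succ (t z₀) k, pow_succ z₀ k, mul_assoc (z₀ ^ k) z₀ c]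
      ring
    rw [Finset.sum_congr rfl h1]
    have h2 := Finset.sum_range_succ' (fun k => t (z₀ ^ k) *
      STXE R m (p ^ (n + 1)) a e kk (z₀ ^ k * c)) (p - 1)
    have h3 := Finset.sum_range_succ (fun k => t (z₀ ^ k) *
      STXE R m (p ^ (n + 1)) a e kk (z₀ ^ k * c)) (p - 1)
    have h4 : STXE R m (p ^ (n + 1)) a e kk (z₀ ^ (p - 1) * c) =
        STXE R m (p ^ (n + 1)) a e kk (z₀ ^ 0 * c) := by
      apply STX_per
      rw [← sub_mul, pow_zero]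
      exact Dvd.dvd.mul_right hz.one _
    have h5 : t (z₀ ^ (p - 1)) = t (z₀ ^ 0) := by rw [htpow, htpow, hlast, pow_zero]
    rw [h3] at h2
    rw [h4, h5] at h2
    exact (add_right_cancel h2).symm
  refine ⟨fun c c' h => SG_per p R m _ a e kk t z₀ c c' h, ?_, ?_⟩
  · exact ht.pow z₀ hzp
  · intro c j
    induction j with
    | zero => rw [pow_zero, pow_zero, one_mul, one_mul]
    | succ j ih =>
      rw [pow_succ (t z₀), mul_assoc]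
      have := step (z₀ ^ j * c)
      rw [show z₀ ^ (j + 1) * c = z₀ * (z₀ ^ j * c) by ring]
      rw [this]
      exact ih

/-- the function `Yh` of the full symbol at `c` -/
theorem Yh_eq {A B : ℤ} {n' : ℕ} {ι : Type} [Fintype ι] (R : RepsE A B n' ι) (e : OO A B → ℂ)
    (kk : ι → ℂ) (M : ℕ) (hM : M ≠ 0) (c : ℤ) :
    Yh M (ex (-1 / (M : ℚ)) ^ c) (PhiKE R e kk) ∞ ((0 : ℚ) : OnePoint ℚ) =
      ∑ i, kk i * ∑ β ∈ Finset.range M, ex (-(β * c) / (M : ℚ)) *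
        PhiI (R.b i) e ∞ (((β / (M : ℚ) : ℚ) : ℚ) : OnePoint ℚ) := by
  unfold Yh
  have h1 : ∀ β ∈ Finset.range M, (ex (-1 / (M : ℚ)) ^ c) ^ β *
      PhiKE R e kk (tM M β ∞) (tM M β ((0 : ℚ) : OnePoint ℚ)) =
      ∑ i, kk i * (ex (-(β * c) / (M : ℚ)) *
        PhiI (R.b i) e ∞ (((β / (M : ℚ) : ℚ) : ℚ) : OnePoint ℚ)) := by
    intro β _
    have h2 : (ex (-1 / (M : ℚ)) ^ c) ^ β = ex (-(β * c) / (M : ℚ)) := by
      rw [← zpow_natCast, ← zpow_mul, OT.SGP.ex_zpow]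
      congr 1
      push_cast
      ring
    rw [h2, OT.SGP.tM_inf, OT.SGP.tM_zero M hM]
    unfold PhiKE
    rw [Finset.mul_sum]
    refine Finset.sum_congr rfl fun i _ => ?_
    push_cast
    ring
  rw [Finset.sum_congr rfl h1, Finset.sum_comm]
  refine Finset.sum_congr rfl fun i _ => ?_
  rw [Finset.mul_sum]

/-- (SGP) the sums of the final statement as values of `PV` -/
theorem oe_SGP {p : ℕ} (hp : p.Prime) (hp2 : p ≠ 2) {A B : ℤ} (hC : CQ A B) {f : ℕ} (hf : f ≠ 0)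
    {ι : Type} [Fintype ι] (R : RepsE A B (p * f) ι) {e : OO A B → ℂ}
    (he : IsEI (idl (A := A) (B := B) (p * f)) e) (kk : ι → ℂ) (t : ℤ → ℂ) (z₀ : ℤ) (n : ℕ)
    (c : ℤ) :
    ∑ j ∈ Finset.range 2, (-1 : ℂ) ^ (1 - j) *
        SGX p R (lvX p f n) (p ^ (n + 1)) (aX p f) e kk t z₀ (c * (1 + (p : ℤ)) ^ j) =
      2 * f / R.om R.i0 * PV p n (ex (-1 / ((p ^ (n + 1) : ℕ) : ℚ))) (aX p f : ℕ) z₀ t
        (fun _ => PhiKE R e (kk0E R e kk)) c ∞ ((0 : ℚ) : OnePoint ℚ) := by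
  have hq0 : q0 p * p ^ n = p ^ (n + 1) := by
    unfold q0
    rw [if_neg hp2, pow_succ, mul_comm]
  have hM : p ^ (n + 1) ≠ 0 := pow_ne_zero _ hp.ne_zero
  set a : ℕ := aX p f with ha
  set D : ℂ := 2 * f / R.om R.i0 with hD
  set Y : ℤ → ℂ := fun m => Yh (p ^ (n + 1)) (ex (-1 / ((p ^ (n + 1) : ℕ) : ℚ)) ^ m)
    (PhiKE R e (kk0E R e kk)) ∞ ((0 : ℚ) : OnePoint ℚ) with hY
  -- the sums `SnXE`
  have hS : ∀ m : ℤ, ∑ i, kk i * SnXE R (lvX p f n) (p ^ (n + 1)) e i m = D * Y m := by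
    intro m
    rw [hY]
    show _ = D * Yh (p ^ (n + 1)) (ex (-1 / ((p ^ (n + 1) : ℕ) : ℚ)) ^ m)
      (PhiKE R e (kk0E R e kk)) ∞ ((0 : ℚ) : OnePoint ℚ)
    rw [Yh_eq R e (kk0E R e kk) _ hM m, Finset.mul_sum]
    refine Finset.sum_congr rfl fun i _ => ?_
    have h1 := MEH.SnXE_eq MUXF.xf_F5 hC hp hf R he (Ideal.mem_span_singleton_self _) n i m
    rw [hq0] at h1
    rw [h1]
    unfold kk0E
    ring
  -- the sums `STXE`
  have hT : ∀ m : ℤ, STXE R (lvX p f n) (p ^ (n + 1)) a e kk m =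
      D * ((a : ℂ) * Y ((a : ℤ) ^ 2 * m) - (a : ℂ) ^ 2 * Y m) := by
    intro m
    unfold STXE
    have h1 : ∀ i, kk i * ((a : ℂ) * SnXE R (lvX p f n) (p ^ (n + 1)) e i ((a : ℤ) ^ 2 * m) -
        (a : ℂ) ^ 2 * SnXE R (lvX p f n) (p ^ (n + 1)) e i m) =
        (a : ℂ) * (kk i * SnXE R (lvX p f n) (p ^ (n + 1)) e i ((a : ℤ) ^ 2 * m)) -
        (a : ℂ) ^ 2 * (kk i * SnXE R (lvX p f n) (p ^ (n + 1)) e i m) := fun i => by ring
    rw [Finset.sum_congr rfl fun i _ => h1 i, Finset.sum_sub_distrib, ← Finset.mul_sum,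
      ← Finset.mul_sum, hS, hS]
    ring
  unfold PV SGX
  rw [Finset.mul_sum]
  have hL : ∀ j ∈ Finset.range 2, (-1 : ℂ) ^ (1 - j) * ∑ k ∈ Finset.range (p - 1), t (z₀ ^ k) *
      STXE R (lvX p f n) (p ^ (n + 1)) a e kk (z₀ ^ k * (c * (1 + (p : ℤ)) ^ j)) =
      ∑ k ∈ Finset.range (p - 1), (-1 : ℂ) ^ (1 - j) * (t (z₀ ^ k) *
      (D * ((a : ℂ) * Y ((a : ℤ) ^ 2 * (z₀ ^ k * (c * (1 + (p : ℤ)) ^ j))) -
        (a : ℂ) ^ 2 * Y (z₀ ^ k * (c * (1 + (p : ℤ)) ^ j))))) := by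
    intro j _
    rw [Finset.mul_sum]
    exact Finset.sum_congr rfl fun k _ => by rw [hT]
  rw [Finset.sum_congr rfl hL, Finset.sum_comm]
  refine Finset.sum_congr rfl fun k _ => ?_
  have hR : ∀ j r : ℕ, Yh (p ^ (n + 1)) (ex (-1 / ((p ^ (n + 1) : ℕ) : ℚ)) ^
      (c * (a : ℤ) ^ (2 * r) * (1 + (p : ℤ)) ^ j * z₀ ^ k)) (PhiKE R e (kk0E R e kk)) ∞
      ((0 : ℚ) : OnePoint ℚ) = Y (c * (a : ℤ) ^ (2 * r) * (1 + (p : ℤ)) ^ j * z₀ ^ k) :=
    fun j r => rfl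
  simp only [hR]
  rw [Finset.mul_sum, Finset.mul_sum]
  refine Finset.sum_congr rfl fun j hj => ?_
  rw [Finset.sum_range_succ, Finset.sum_range_one]
  have e0 : c * (a : ℤ) ^ (2 * 0) * (1 + (p : ℤ)) ^ j * z₀ ^ k =
      z₀ ^ k * (c * (1 + (p : ℤ)) ^ j) := by ring
  have e1 : c * (a : ℤ) ^ (2 * 1) * (1 + (p : ℤ)) ^ j * z₀ ^ k =
      (a : ℤ) ^ 2 * (z₀ ^ k * (c * (1 + (p : ℤ)) ^ j)) := by ring
  rw [e0, e1]
  unfold coT
  rw [if_pos rfl, if_neg one_ne_zero]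
  push_cast
  ring

/-- (SYE) the symbol `PV` of `QTE` and of the whole `PhiKE` -/
theorem oe_SYE (h1 : OT.Ob_ZC) {p : ℕ} (hp : p.Prime) (hp2 : p ≠ 2) {A B : ℤ} (hcq : CQ A B)
    {n' : ℕ} {ι : Type} [Fintype ι] (R : RepsE A B n' ι) (e : OO A B → ℂ)
    (kk : ι → ℂ) (u : ℂ) {t : ℤ → ℂ} {q n : ℕ} (ht : IsTw p q t) {z₀ : ℤ} (hz : IsZ0 p n z₀)
    (a c : ℤ) (x : ℚ) :
    PV p n (ex (-1 / ((p ^ (n + 1) : ℕ) : ℚ))) a z₀ t (fun _ => QTE R e kk (t (-1)) u) c ∞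
          ((x : ℚ) : OnePoint ℚ) =
        (PV p n (ex (-1 / ((p ^ (n + 1) : ℕ) : ℚ))) a z₀ t (fun _ => PhiKE R e kk) c ∞
            ((x : ℚ) : OnePoint ℚ) +
          PV p n (ex (-1 / ((p ^ (n + 1) : ℕ) : ℚ))) a z₀ t (fun _ => PhiKE R e kk) c ∞
            ((-x : ℚ) : OnePoint ℚ)) / (u * R.om R.i0) := by
  have hM0 : p ^ (n + 1) ≠ 0 := pow_ne_zero _ hp.ne_zero
  have hpM : (p : ℤ) ∣ ((p ^ (n + 1) : ℕ) : ℤ) := by
    push_cast
    exact dvd_pow_self _ (Nat.succ_ne_zero n)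
  obtain ⟨hz1, hz2, -⟩ := h1 p n z₀ hp hp2 hz
  obtain ⟨ξ, hξ⟩ : ∃ ξ : ℂ, ξ = ex (-1 / ((p ^ (n + 1) : ℕ) : ℚ)) := ⟨_, rfl⟩
  have hξM : ξ ^ (p ^ (n + 1)) = 1 := by rw [hξ]; exact OT.SYE.ex_pow _ hM0
  have hξ0 : ξ ≠ 0 := by
    intro h
    rw [h, zero_pow hM0] at hξM
    exact zero_ne_one hξM
  have hξz : ∀ m m' : ℤ, ((p ^ (n + 1) : ℕ) : ℤ) ∣ m - m' → ξ ^ m = ξ ^ m' := by
    rintro m m' ⟨k, hk⟩
    have : m = m' + ((p ^ (n + 1) : ℕ) : ℤ) * k := by linear_combination hk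
    rw [this, zpow_add₀ hξ0, zpow_mul, zpow_natCast, hξM, one_zpow, mul_one]
  rw [← hξ]
  -- the period
  have hper : ∀ (x : ℚ) (k : ℤ),
      PhiKE R e kk ∞ ((x + k : ℚ) : OnePoint ℚ) = PhiKE R e kk ∞ (x : OnePoint ℚ) := by
    intro x k
    unfold PhiKE
    refine Finset.sum_congr rfl fun i _ => ?_
    rw [MUXHY.Qsx.PhiI_per MUXF.xf_PRD hcq (R.nl i).b_ne]
  -- the exponents
  obtain ⟨m, hm⟩ : ∃ m : ℕ → ℕ → ℕ → ℤ,
      m = fun k j r => c * a ^ (2 * r) * (1 + (p : ℤ)) ^ j * z₀ ^ k := ⟨_, rfl⟩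
  -- the terms
  obtain ⟨S, hSd⟩ : ∃ S : ℕ → ℚ → ℂ, S = fun k y => t (z₀ ^ k) * ∑ j ∈ Finset.range 2,
      ∑ r ∈ Finset.range 2, coT a j r *
        Yh (p ^ (n + 1)) (ξ ^ m k j r) (PhiKE R e kk) ∞
          ((y : ℚ) : OnePoint ℚ) := ⟨_, rfl⟩
  have hSper : ∀ (k : ℕ) (y : ℚ), S (k + (p - 1)) y = S k y := by
    intro k y
    have hd : ((p ^ (n + 1) : ℕ) : ℤ) ∣ z₀ ^ (k + (p - 1)) - z₀ ^ k := by
      have : z₀ ^ (k + (p - 1)) - z₀ ^ k = z₀ ^ k * (z₀ ^ (p - 1) - 1) := by ring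
      rw [this]
      exact hz.one.mul_left _
    rw [hSd]
    simp only
    rw [ht.per _ _ (hpM.trans hd)]
    congr 1
    refine Finset.sum_congr rfl fun j _ => Finset.sum_congr rfl fun r _ => ?_
    rw [hξz (m (k + (p - 1)) j r) (m k j r) (by
      rw [hm]
      simp only
      rw [← mul_sub]
      exact hd.mul_left _)]
  have hflip : ∀ (k : ℕ) (y : ℚ), t (z₀ ^ k) * ∑ j ∈ Finset.range 2, ∑ r ∈ Finset.range 2,
      coT a j r * Yh (p ^ (n + 1)) (ξ ^ m k j r) (QTE R e kk (t (-1)) u) ∞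
        ((y : ℚ) : OnePoint ℚ) = (S k y + S (k + (p - 1) / 2) (-y)) / (u * R.om R.i0) := by
    intro k y
    have hd : ((p ^ (n + 1) : ℕ) : ℤ) ∣ -z₀ ^ k - z₀ ^ (k + (p - 1) / 2) := by
      have : -z₀ ^ k - z₀ ^ (k + (p - 1) / 2) = -(z₀ ^ k * (z₀ ^ ((p - 1) / 2) + 1)) := by ring
      rw [this, dvd_neg]
      exact hz2.mul_left _
    have ht1 : t (z₀ ^ k) * t (-1) = t (z₀ ^ (k + (p - 1) / 2)) := by
      rw [← ht.mul]
      apply ht.per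
      have : z₀ ^ k * -1 = -z₀ ^ k := by ring
      rw [this]
      exact hpM.trans hd
    have hY : ∀ j r : ℕ, Yh (p ^ (n + 1)) (ξ ^ m k j r) (QTE R e kk (t (-1)) u) ∞
        ((y : ℚ) : OnePoint ℚ) = (Yh (p ^ (n + 1)) (ξ ^ m k j r)
          (PhiKE R e kk) ∞ ((y : ℚ) : OnePoint ℚ) + t (-1) *
          Yh (p ^ (n + 1)) (ξ ^ m (k + (p - 1) / 2) j r)
            (PhiKE R e kk) ∞ ((-y : ℚ) : OnePoint ℚ)) / (u * R.om R.i0) := by
      intro j r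
      have e1 := OT.SYE.Yh_flip hM0 (ζ := ξ ^ m k j r) (by
        rw [← zpow_natCast, ← zpow_mul, mul_comm, zpow_mul, zpow_natCast, hξM, one_zpow])
        (PhiKE R e kk) hper y
      have e2 : (ξ ^ m k j r)⁻¹ = ξ ^ m (k + (p - 1) / 2) j r := by
        rw [← zpow_neg]
        apply hξz
        rw [hm]
        simp only
        have : -(c * a ^ (2 * r) * (1 + (p : ℤ)) ^ j * z₀ ^ k) -
            c * a ^ (2 * r) * (1 + (p : ℤ)) ^ j * z₀ ^ (k + (p - 1) / 2) =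
            c * a ^ (2 * r) * (1 + (p : ℤ)) ^ j * (-z₀ ^ k - z₀ ^ (k + (p - 1) / 2)) := by ring
        rw [this]
        exact hd.mul_left _
      rw [e2] at e1
      rw [← e1]
      unfold Yh QTE
      rw [Finset.mul_sum, ← Finset.sum_add_distrib, Finset.sum_div]
      refine Finset.sum_congr rfl fun b _ => ?_
      ring
    simp only [hY]
    rw [hSd]
    simp only
    rw [← ht1]
    simp only [Finset.mul_sum, Finset.sum_div, add_div]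
    rw [← Finset.sum_add_distrib]
    refine Finset.sum_congr rfl fun j _ => ?_
    rw [← Finset.sum_add_distrib]
    refine Finset.sum_congr rfl fun r _ => ?_
    ring
  have hPV : ∀ y : ℚ, PV p n ξ a z₀ t (fun _ => QTE R e kk (t (-1)) u) c ∞
      ((y : ℚ) : OnePoint ℚ) = (∑ k ∈ Finset.range (p - 1), S k y +
        ∑ k ∈ Finset.range (p - 1), S k (-y)) / (u * R.om R.i0) := by
    intro y
    rw [← OT.SYE.shiftN (p - 1) (fun k => S k (-y)) (fun k => hSper k (-y)) ((p - 1) / 2),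
      ← Finset.sum_add_distrib, Finset.sum_div]
    unfold PV
    refine Finset.sum_congr rfl fun k _ => ?_
    rw [← hflip k y, hm]
  have hSP : ∀ y : ℚ, ∑ k ∈ Finset.range (p - 1), S k y =
      PV p n ξ a z₀ t (fun _ => PhiKE R e kk) c ∞ ((y : ℚ) : OnePoint ℚ) := by
    intro y
    unfold PV
    refine Finset.sum_congr rfl fun k _ => ?_
    rw [hSd, hm]
  rw [hPV, hSP, hSP]

end

end Pool.Agent.OEHB
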