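import Pool.Agent.OE.HQ_HQ1
import Pool.Agent.OT.HB_HT1
import Pool.Agent.OT.HB_HT2
import Pool.Agent.OT.HB_HT3
import Pool.Agent.OT.HB_HT

/-!
# OE, block HB (helper51): the hypotheses of the abstract theorem `Ot_H` for the symbols `QTE`

After `OT/HB_ND.lean` (helper52), `HB_HT1.lean` (helper53), `HB_HT2.lean`, `HB_HT3.lean` (helper22), `HB_HT.lean` (helper52).
-/

set_option autoImplicit false

namespace Pool.Agent.OEHB

open _root_.MU3 _root_.Pool.Agent.MU3A _root_.Pool.Agent.MU3B _root_.Pool.Agent.MU3F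
  _root_.Pool.Agent.MUX _root_.Pool.Agent.MUXH _root_.Pool.Agent.MuSym _root_.Pool.Agent.OB
  _root_.Pool.Agent.OBH _root_.Pool.Agent.OE _root_.Pool.Agent.OEHQ OnePoint
open _root_.Pool.Agent.OT (HypT IsZ0 IsTw Yh)
open _root_.Pool.Agent.ME (CaseE TorXE RepsE IsNE IsEIE PhiKE)

noncomputable section

lemma QTE_sgn {A B : ℤ} {n : ℕ} {ι : Type} [Fintype ι] (R : RepsE A B n ι)
    (e : OO A B → ℂ) (kk : ι → ℂ) (s u : ℂ) :
    QTE R e kk s u = sgnPart s (fun x y => PhiKE R e kk x y / (u * R.om R.i0)) := by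
  funext x y
  unfold QTE sgnPart
  ring

/-- (ND) closed cycles of all levels on which the Fourier coefficients of `QTE` are not small -/
theorem oe_ND (h1 : OTH.S_NDN) (h3 : Sq_HQ1) {p : ℕ} {A B : ℤ} {P : Ideal (OO A B)}
    {V : ValuationSubring ℂ} {f : ℕ} (hS : SetOE p A B P V f) (hT : TorXE A B)
    {ι : Type} [Fintype ι] (R : RepsE A B (p * f) ι) {u el lam : ℂ}
    (hg : GoodL V (R.L R.i0) u el lam) {w : OO A B → ℂ} (hw : IsTeiP p 1 P V w)
    {e : OO A B → ℂ} (he : IsEIE (idl (A := A) (B := B) (p * f)) e) {r : ℕ} (hrp : ¬ p ∣ r)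
    (her : ∀ x, e x ≠ 0 → e x ^ r = 1) {i : ℕ} (hi1 : nI P - 1 ≤ i * (p - 1))
    (hi2 : i ≤ nI P - 2) (hty : ∀ x, x - 1 ∈ gO P f → x ∉ P → e x = w x ^ i)
    {s : ℂ} (hs : s = 1 ∨ s = -1) {kk : ι → ℂ} (hkk : ∀ i, kk i ^ r = 1) {n : ℕ} (hn : 2 ≤ n)
    {ξ : ℂ} (hξ : IsPrimitiveRoot ξ (p ^ (n + 1))) :
    OTH.ND p n V (p ^ (1 + 1) * N0O p 1 A B f) ξ (QTE R e kk s u) := by
  obtain ⟨s', hs', rfl⟩ : ∃ s' : ℤ, (s' = 1 ∨ s' = -1) ∧ (s' : ℂ) = s := by
    rcases hs with rfl | rfl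
    · exact ⟨1, Or.inl rfl, by norm_num⟩
    · exact ⟨-1, Or.inr rfl, by norm_num⟩
  have pp : p.Prime := hS.pp
  have p5 : 5 ≤ p := hS.p5
  obtain ⟨r1, -⟩ := oe_RAM p A B P V hS.toCaseOE
  obtain ⟨pi, KI, hyp, hdep, hKI, hpi⟩ := h3 p A B P V f hS hT ι R u el lam hg w hw e he r hrp
    her i hi1 hi2 hty s' hs' kk hkk
  rw [QTE_sgn]
  have hle : nI P ≤ p ^ 2 := by
    rcases r1 with h | h
    · rw [h, pow_two]
      exact Nat.le_mul_self p
    · exact h.le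
  have hge : p ≤ nI P := by
    rcases r1 with h | h
    · exact h.ge
    · rw [h, pow_two]
      exact Nat.le_mul_self p
  refine h1 p V (N0O p 1 A B f) 1 (nI P - 1) i (nuX e) _ pi KI hyp hdep hKI hi1 (by omega) ?_
    hpi n hn ξ hξ
  have h7 : p ^ 2 ≤ (p - 1) * p ^ 2 := Nat.le_mul_of_pos_left _ (by omega)
  omega

/-- (HT1) symbols, algebraic, bounded -/
theorem oe_HT1 {p : ℕ} {A B : ℤ} {P : Ideal (OO A B)}
    {V : ValuationSubring ℂ} {f : ℕ} (hS : SetOE p A B P V f) (hT : TorXE A B)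
    {ι : Type} [Fintype ι] (R : RepsE A B (p * f) ι)
    {e : OO A B → ℂ} (he : IsEI (idl (A := A) (B := B) (p * f)) e) {r : ℕ} (hr0 : r ≠ 0)
    (her : ∀ x, e x ≠ 0 → e x ^ r = 1) {kk : ι → ℂ} (hkk : ∀ i, kk i ^ r = 1)
    {u : ℂ} (hu : u ≠ 0) (hua : IsAlgebraic ℚ u) {s : ℂ} (hs : s = 1 ∨ s = -1) :
    IsSym (p ^ (1 + 1) * N0O p 1 A B f) (nuX e) (QTE R e kk s u) ∧
    (∀ x y, IsAlgebraic ℚ (QTE R e kk s u x y)) ∧
    ∃ K : ℕ, ∀ x y, V.valuation ((p : ℂ) ^ K * QTE R e kk s u x y) ≤ 1 := by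
  have hpp : p.Prime := hS.pp
  obtain ⟨vp, -⟩ := oe_VAL p A B P V f hS
  obtain ⟨sym, alg, fin⟩ := oe_SAF p A B P V f hS hT ι R e he r hr0 her kk
    (fun j => Or.inr (hkk j)) u hu hua
  obtain ⟨K, hK⟩ := to_BDN p hpp V vp _ alg fin
  have sA : IsAlgebraic ℚ s := by
    rcases hs with rfl | rfl
    · exact isAlgebraic_one
    · exact isAlgebraic_one.neg
  have sv : V.valuation s ≤ 1 := by
    rcases hs with rfl | rfl
    · rw [map_one]
    · rw [Valuation.map_neg, map_one]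
  have hQ : ∀ x y, QTE R e kk s u x y = PhiKE R e kk x y / (u * R.om R.i0) +
      s * (PhiKE R e kk (mob (-1) 0 0 1 x) (mob (-1) 0 0 1 y) / (u * R.om R.i0)) := by
    intro x y
    unfold QTE
    rw [add_div, mul_div_assoc]
  refine ⟨?_, fun x y => ?_, K, fun x y => ?_⟩
  · have h9 := OT.HT1.isSym_add sym (OT.HT1.isSym_neg sym) s
    have h12 : (fun x y => (fun x y => PhiKE R e kk x y / (u * R.om R.i0)) x y +
          s * (fun x y => (fun x y => PhiKE R e kk x y / (u * R.om R.i0))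
            (mob (-1) 0 0 1 x) (mob (-1) 0 0 1 y)) x y) = QTE R e kk s u := by
      funext x y
      rw [hQ]
    rw [← h12]
    exact h9
  · rw [hQ]
    exact (alg x y).add (sA.mul (alg _ _))
  · rw [hQ, mul_add]
    refine (Valuation.map_add V.valuation _ _).trans (max_le (hK x y) ?_)
    rw [mul_left_comm, map_mul]
    exact mul_le_one' sv (hK _ _)

/-- depletion at `l` for `PhiKE` -/
theorem dep {A B : ℤ} (hc : CQ A B) {n : ℕ} (hn : n ≠ 0) {ι : Type} [Fintype ι]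
    (R : RepsE A B n ι) (e : OO A B → ℂ) (he : IsEI (idl (A := A) (B := B) n) e) (wt : ι → ℂ)
    (l : ℕ) (hl : l.Prime) (hln : l ∣ n) (x : ℚ) :
    ∑ j ∈ Finset.range l, PhiKE R e wt ∞ ((x + (j : ℚ) / l : ℚ) : OnePoint ℚ) = 0 := by
  have hb : idl (A := A) (B := B) n ≠ ⊥ := by
    rw [Ne, Ideal.span_singleton_eq_bot]
    intro h
    have h1 := congrArg QuadraticAlgebra.re h
    rw [QuadraticAlgebra.re_natCast] at h1
    exact hn (by exact_mod_cast h1)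
  have hgl : idl n ≤ Ideal.span {((l : ℕ) : OO A B)} := by
    rw [Ideal.span_singleton_le_span_singleton]
    obtain ⟨k, hk⟩ := hln
    refine ⟨(k : OO A B), ?_⟩
    rw [hk]
    push_cast
    rfl
  unfold PhiKE
  rw [Finset.sum_comm]
  refine Finset.sum_eq_zero fun i _ => ?_
  rw [← Finset.mul_sum, Pool.Agent.TWB.t_DPL A B hc _ _ e l (R.nl i).b_ne hb he hl hgl x, mul_zero]

/-- (HT3) depletion at `l` -/
theorem oe_HT3 {A B : ℤ} (hc : CQ A B) {p f l : ℕ} (hp : p ≠ 0) (hf : f ≠ 0) (hl : l.Prime)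
    (hlf : l ∣ f) {ι : Type} [Fintype ι] (R : RepsE A B (p * f) ι) {e : OO A B → ℂ}
    (he : IsEI (idl (A := A) (B := B) (p * f)) e) (kk : ι → ℂ) (s u : ℂ) (x : ℚ) :
    ∑ j ∈ Finset.range l, QTE R e kk s u ∞ ((x + (j : ℚ) / l : ℚ) : OnePoint ℚ) = 0 := by
  have hn : p * f ≠ 0 := mul_ne_zero hp hf
  have hln : l ∣ p * f := hlf.mul_left p
  have hl0 : (l : ℚ) ≠ 0 := by exact_mod_cast hl.ne_zero
  have h1 := dep hc hn R e he kk l hl hln x
  have h2 : ∑ j ∈ Finset.range l, PhiKE R e kk (mob (-1) 0 0 1 ∞)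
      (mob (-1) 0 0 1 ((x + (j : ℚ) / l : ℚ) : OnePoint ℚ)) = 0 := by
    have h3 := dep hc hn R e he kk l hl hln (-x - (l - 1) / l)
    rw [← Finset.sum_range_reflect] at h3
    rw [← h3]
    refine Finset.sum_congr rfl fun j hj => ?_
    have hj' : j < l := Finset.mem_range.1 hj
    have hc : ((l - 1 - j : ℕ) : ℚ) = (l : ℚ) - 1 - j := by
      rw [Nat.sub_sub, Nat.cast_sub (by omega)]
      push_cast
      ring
    rw [OT.HT3.mob_inf, OT.HT3.mob_neg, hc]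
    congr 2
    field_simp
    ring
  unfold QTE
  rw [← Finset.sum_div, Finset.sum_add_distrib, ← Finset.mul_sum, h1, h2, mul_zero, add_zero,
    zero_div]

/-- (HT) the hypotheses of the abstract theorem -/
theorem oe_HT (h1 : OTH.S_NDN) (h3 : Sq_HQ1) {p : ℕ} {A B : ℤ} {P : Ideal (OO A B)}
    {V : ValuationSubring ℂ} {f : ℕ} (hS : SetOE p A B P V f) (hT : TorXE A B)
    {ι : Type} [Fintype ι] (R : RepsE A B (p * f) ι) {u el lam : ℂ}
    (hg : GoodL V (R.L R.i0) u el lam) {w : OO A B → ℂ} (hw : IsTeiP p 1 P V w)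
    {e : OO A B → ℂ} (heE : IsEIE (idl (A := A) (B := B) (p * f)) e) {r : ℕ} (hrp : ¬ p ∣ r)
    (her : ∀ x, e x ≠ 0 → e x ^ r = 1) {i : ℕ} (hi1 : nI P - 1 ≤ i * (p - 1))
    (hi2 : i ≤ nI P - 2) (hty : ∀ x, x - 1 ∈ gO P f → x ∉ P → e x = w x ^ i)
    {t : ℤ → ℂ} (ht : IsTw p (nI P - 1) t) {kk : ι → ℂ} (hkk : ∀ i, kk i ^ r = 1)
    {l : ℕ} (hl : l.Prime) (hlf : l ∣ f) {n : ℕ} (hn : 5 ≤ n) {z₀ : ℤ} (hz : IsZ0 p n z₀)
    {ξ : ℂ} (hξ : IsPrimitiveRoot ξ (p ^ (n + 1))) :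
    HypT p n V (p ^ (1 + 1) * N0O p 1 A B f) (nuX e) (t (-1)) z₀ t
      (fun _ => QTE R e kk (t (-1)) u) ξ l := by
  have he : IsEI (idl (A := A) (B := B) (p * f)) e := heE.toIsEI
  have hr0 : r ≠ 0 := by
    rintro rfl
    exact hrp (dvd_zero p)
  have pp : p.Prime := hS.pp
  have p5 : 5 ≤ p := hS.p5
  obtain ⟨vp, -, -, -, -, -, -, -, -, -, hN0, -, -, -⟩ := oe_VAL p A B P V f hS
  obtain ⟨hnu1, -, hnuper, hnuv⟩ := oe_CHR p A B P V f hS e he r hr0 her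
  obtain ⟨r1, -⟩ := oe_RAM p A B P V hS.toCaseOE
  have hs := OT.HT.sq_m1 ht
  have hua : IsAlgebraic ℚ u := oe_UAL A B hS.toCaseE (p * f) ι R V u el lam hg
  obtain ⟨hsym, halg, K, hK⟩ := oe_HT1 hS hT R he hr0 her hkk hg.u0 hua hs
  have hs2 : t (-1) * t (-1) = 1 := by rcases hs with h | h <;> rw [h] <;> norm_num
  refine
    { pp := pp
      p5 := p5
      vp := vp
      n5 := hn
      N0 := mul_ne_zero (pow_ne_zero _ pp.ne_zero) hN0
      nu1 := hnu1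
      nuv := hnuv
      nua := ?_
      nuper := ?_
      s1 := hs
      z0 := hz
      tw := ⟨nI P - 1, ?_, ht⟩
      ts := rfl
      xi := hξ
      sym := fun _ => hsym
      alg := fun _ => halg
      bdd := ⟨K, fun _ => hK⟩
      neg := ?_
      perk := fun _ => rfl
      dep := fun _ x => oe_HT3 hS.toCQ pp.ne_zero hS.f0 hl hlf R he kk (t (-1)) u x
      nd := oe_ND h1 h3 hS hT R hg hw heE hrp her hi1 hi2 hty hs hkk (by omega) hξ }
  · intro d
    unfold nuX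
    refine IsAlgebraic.mul ?_ (OT.HT.alg_root hr0 ?_)
    · exact isAlgebraic_intCast _
    · by_cases h : e (d : OO A B) = 0
      · exact Or.inl h
      · exact Or.inr (her _ h)
  · intro d d' h
    refine hnuper d d' (dvd_trans ?_ h)
    rw [Int.natCast_dvd_natCast]
    exact Nat.mul_dvd_mul_right (dvd_pow_self p (by omega)) (N0O p 1 A B f)
  · intro h
    have h9 : p ∣ nI P := by
      rcases r1 with h' | h'
      · rw [h']
      · rw [h']
        exact dvd_pow_self p two_ne_zero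
    have h10 : 1 ≤ nI P := by
      rcases r1 with h' | h'
      · rw [h']
        exact pp.one_lt.le
      · rw [h']
        exact Nat.one_le_pow _ _ pp.pos
    have h11 := (Nat.dvd_sub_iff_right h10 h9).1 h
    exact pp.one_lt.ne' (Nat.dvd_one.1 h11)
  · intro k x y
    unfold QTE
    rw [OT.HT2.mob_mob, OT.HT2.mob_mob]
    linear_combination (-(PhiKE R e kk (mob (-1) 0 0 1 x)
      (mob (-1) 0 0 1 y) / (u * R.om R.i0))) * hs2

end

end Pool.Agent.OEHB
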