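import Pool.Agent.OE.StHQ
import Pool.Agent.MUX.XLib
import Pool.Agent.MUX.HY_CHR
import Pool.Agent.MUX.F_CHI
import Pool.Agent.MUX.XFAll
import Pool.Agent.MUX.XTF7
import Pool.Agent.MUX.HY_QSX
import Pool.Agent.MUX.HY_PRX
import Pool.Agent.OB.HB_RAM
import Pool.Agent.OB.HB_QBO
import Pool.Agent.OB.HB_DEP

/-!
# OE, block HQ (helper51): RAM VAL CHR QBO DEP PJ1 for the exceptional fields, `p ≥ 5`

After `OB/HB_RAM.lean`, `HB_VAL.lean`, `HB_CHR.lean`, `HB_QBO.lean`, `HB_DEP.lean`, `HB_PJ1.lean` (helper2, helper77, helper65, helper70, helper66, helper34).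
-/

set_option autoImplicit false

namespace Pool.Agent.OEHQ

open _root_.MU3 _root_.Pool.Agent.MU3A _root_.Pool.Agent.MU3B _root_.Pool.Agent.MU3F _root_.Pool.Agent.MUX
  _root_.Pool.Agent.MUXH _root_.Pool.Agent.MUXHY _root_.Pool.Agent.MuSym _root_.Pool.Agent.OB
  _root_.Pool.Agent.OBH _root_.Pool.Agent.OE OnePoint
open _root_.Pool.Agent.ME (CaseE TorXE RepsE IsNE IsEIE PhiKE)
open _root_.Pool.Agent.MUXF (qb)

noncomputable section

theorem oe_RAM : Sq_RAM := by
  intro p A B P V h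
  have hq := h.toCQ
  have pp := h.pp
  have p5 := h.p5
  have hPt : P ≠ ⊤ := h.prime.ne_top
  have hle : idl (A := A) (B := B) p ≤ P := (Ideal.span_singleton_le_iff_mem _).2 h.mem
  refine ⟨?_, ?_⟩
  · have h1 := OBH.RAM.card_dvd hle
    rw [OBH.RAM.nI_idl hq pp.ne_zero, Nat.dvd_prime_pow pp] at h1
    obtain ⟨k, hk, hk'⟩ := h1
    have h2 := OBH.RAM.nI_ne_one hPt
    interval_cases k
    · exact absurd (by simpa using hk') h2
    · exact Or.inl (by simpa using hk')
    · exact Or.inr hk'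
  · intro hd
    have hA := h.hA
    have h5 : (5 : ℤ) ≤ p := by exact_mod_cast p5
    have h1 := Int.le_of_dvd (by
      have := hq.neg
      unfold absD
      omega) hd
    unfold absD at h1
    rw [hA] at h1
    rcases hq.hB with hB | hB <;> rw [hB] at h1 <;> omega

theorem oe_VAL : Sq_VAL := by
  intro p A B P V f H
  have hp := H.pp
  have hp5 := H.p5
  have hpZ : Prime (p : ℤ) := Nat.prime_iff_prime_int.1 hp
  have hf0 := H.f0
  have h3 : V.valuation (p : ℂ) < 1 := by
    have h1 : emb ((p : ℕ) : OO A B) ∈ V.nonunits := (H.hV _).2 H.mem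
    have h2 : emb ((p : ℕ) : OO A B) = (p : ℂ) := by
      unfold emb
      rw [QuadraticAlgebra.re_natCast, QuadraticAlgebra.im_natCast]
      push_cast
      ring
    rw [h2, ValuationSubring.mem_nonunits_iff] at h1
    exact h1
  have hle : ∀ z : ℤ, V.valuation (z : ℂ) ≤ 1 := fun z =>
    (V.valuation_le_one_iff _).2 (intCast_mem V z)
  have hD0 : 0 < absD A B := by
    have := H.neg
    unfold absD
    omega
  have h3f : ((p * f : ℕ) : OO A B) ∈ idl (A := A) (B := B) (p * f) :=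
    Ideal.mem_span_singleton_self _
  have hDn : (((absD A B).toNat : ℕ) : ℤ) = absD A B := Int.toNat_of_nonneg hD0.le
  obtain ⟨-, hpD⟩ := oe_RAM p A B P V H.toCaseOE
  have hN0 : N0O p 1 A B f = (absD A B).toNat * f ^ 2 := by
    unfold N0O
    simp
  rw [hN0]
  refine ⟨h3, hle, ?_, ?_, hD0, ?_, ?_, ?_, h3f, ?_, ?_, ?_, ?_, ?_⟩
  · intro n hn
    have hc : IsCoprime n (p : ℤ) := by
      rw [isCoprime_comm]
      exact (hpZ.coprime_iff_not_dvd).2 hn
    obtain ⟨a, b, hab⟩ := hc
    by_contra hne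
    have hlt : V.valuation (n : ℂ) < 1 := lt_of_le_of_ne (hle n) hne
    have h1 : V.valuation ((a : ℂ) * n + b * (p : ℂ)) < 1 := by
      refine lt_of_le_of_lt (V.valuation.map_add _ _) (max_lt ?_ ?_)
      · rw [map_mul]
        exact mul_lt_one_of_nonneg_of_lt_one_right (hle a) zero_le hlt
      · rw [map_mul]
        exact mul_lt_one_of_nonneg_of_lt_one_right (hle b) zero_le h3
    have h2 : (a : ℂ) * n + b * (p : ℂ) = 1 := by exact_mod_cast hab
    rw [h2, map_one] at h1
    exact lt_irrefl _ h1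
  · intro r z hr hz
    have h1 : V.valuation z ^ r = 1 := by rw [← map_pow, hz, map_one]
    exact (pow_eq_one_iff_of_nonneg zero_le hr).1 h1
  · rw [Ideal.span_singleton_le_iff_mem, Ideal.mem_span_singleton]
    obtain ⟨t, ht⟩ := H.fD
    refine ⟨((2 * t : ℤ) : OO A B), ?_⟩
    have h1 : ((p * f : ℕ) : OO A B) = ((((p * f : ℕ) : ℤ) : ℤ) : OO A B) := by push_cast; rfl
    rw [h1, ht]
    push_cast
    ring
  · intro h
    rw [h, Ideal.mem_bot] at h3f
    have h1 := congrArg QuadraticAlgebra.re h3f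
    simp only [QuadraticAlgebra.re_natCast, QuadraticAlgebra.re_zero] at h1
    have h2 : (p * f : ℕ) = 0 := by exact_mod_cast h1
    rcases Nat.mul_eq_zero.1 h2 with h | h
    · exact hp.ne_zero h
    · exact hf0 h
  · intro h
    rw [Ideal.eq_top_iff_one, Ideal.mem_span_singleton] at h
    obtain ⟨y, hy⟩ := h
    have h1 := congrArg QuadraticAlgebra.re hy
    rw [QuadraticAlgebra.re_one, QuadraticAlgebra.re_mul, QuadraticAlgebra.re_natCast,
      QuadraticAlgebra.im_natCast, mul_zero, zero_mul, add_zero] at h1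
    have h9 : ((p * f : ℕ) : ℤ) ∣ 1 := ⟨y.re, h1⟩
    have h10 : (p * f : ℕ) ∣ 1 := by exact_mod_cast h9
    have h11 := Nat.dvd_one.1 h10
    have h12 : p ∣ 1 := ⟨f, h11.symm⟩
    have h13 := Nat.le_of_dvd one_pos h12
    omega
  · push_cast
    rw [hDn]
    ring
  · have h1 : (absD A B).toNat ≠ 0 := by omega
    exact Nat.mul_ne_zero h1 (pow_ne_zero _ hf0)
  · rw [Nat.Prime.coprime_iff_not_dvd hp]
    intro h
    rcases (Nat.Prime.dvd_mul hp).1 h with h | h
    · apply hpD
      rw [← hDn]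
      exact_mod_cast h
    · exact H.fp (hp.dvd_of_dvd_pow h)
  · refine ⟨(p : ℤ) * (f : ℤ) ^ 2, ?_⟩
    push_cast
    rw [hDn]
    ring
  · refine ⟨absD A B * (f : ℤ), ?_⟩
    push_cast
    rw [hDn]
    ring

theorem oe_CHR : Sq_CHR := by
  intro p A B P V f H e he r hr0 hr
  obtain ⟨-, vZ, -, vru, hDpos, hgD, hg0, -, hpf, -, -, -, hDN, hfN⟩ := oe_VAL p A B P V f H
  have hcq : CQ A B := H.toCQ
  have ev : ∀ x, V.valuation (e x) ≤ 1 := by
    intro x
    by_cases hx : e x = 0
    · rw [hx, map_zero]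
      exact zero_le_one
    · exact (vru r (e x) hr0 (hr x hx)).le
  have hcopD : ∀ d : ℤ, e (d : OO A B) ≠ 0 → IsCoprime d (absD A B) := by
    intro d hd
    have h5 := (he.supp _).1 hd
    apply Chr.coprime_int (A := A) (B := B)
    rw [← Ideal.isCoprime_span_singleton_iff]
    rw [Ideal.isCoprime_iff_sup_eq] at h5 ⊢
    exact top_le_iff.1 (h5 ▸ sup_le_sup_left hgD _)
  refine ⟨?_, ?_, ?_, ?_⟩
  · unfold nuX
    have : ((1 : ℤ) : OO A B) = 1 := by push_cast; rfl
    rw [Chr.chiX_one, this, he.one]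
    norm_num
  · intro d d'
    unfold nuX
    have : ((d * d' : ℤ) : OO A B) = (d : OO A B) * (d' : OO A B) := by push_cast; rfl
    rw [Chr.chiX_mul, this, he.mul]
    push_cast
    ring
  · intro d d' hd
    have hD : absD A B ∣ d - d' := hDN.trans hd
    obtain ⟨t, ht⟩ := hfN.trans hd
    unfold nuX
    by_cases hcop : IsCoprime d (absD A B)
    · have h5 : chiX A B d' = chiX A B d :=
        ((MUXF.tx_CHI A B (toCQ hcq) d hcop).2.2 d' hD)
      have h6 : e (d : OO A B) = e (d' : OO A B) := by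
        apply he.per
        have h7 : (d : OO A B) - (d' : OO A B) =
            ((t : ℤ) : OO A B) * ((p * f : ℕ) : OO A B) := by
          have h8 : (d : OO A B) - (d' : OO A B) = ((d - d' : ℤ) : OO A B) := by push_cast; rfl
          rw [h8, ht]
          push_cast
          ring
        rw [h7]
        exact Ideal.mul_mem_left _ _ hpf
      rw [h5, h6]
    · have h5 : e (d : OO A B) = 0 := by
        by_contra hne
        exact hcop (hcopD d hne)
      have h6 : e (d' : OO A B) = 0 := by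
        by_contra hne
        apply hcop
        obtain ⟨s, hs⟩ := hD
        have h7 : d = d' + absD A B * s := by linarith
        rw [h7]
        exact (IsCoprime.add_mul_left_left_iff).2 (hcopD d' hne)
      rw [h5, h6, mul_zero, mul_zero]
  · intro d
    unfold nuX
    rw [map_mul]
    exact mul_le_one' (vZ _) (ev _)

theorem oe_QBO : Sq_QBO := by
  intro p A B P V f hS e he b hb x hx hex
  have hp := hS.pp
  have hn : ¬ (p : ℤ) ∣ nm x := OBH.QBO.not_dvd hp he hex
  have hq : nm x = (nI b : ℤ) * qb b x := ((MUXF.xf_QB A B (toCQ hS.toCQ) b hb).1 x hx).1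
  exact ⟨hn, fun h1 => hn (by rw [hq]; exact Dvd.dvd.mul_left h1 _)⟩

theorem oe_DEP : Sq_DEP := by
  intro p A B P V f hS e he b hb x
  obtain ⟨-, -, -, -, -, -, hg, -, -, -, -, -, -, -⟩ := oe_VAL p A B P V f hS
  have hp0 : p ≠ 0 := hS.pp.ne_zero
  have hq := fun y hy h0 => (oe_QBO p A B P V f hS e he b hb y hy h0).2
  have hcq := toCQ hS.toCQ
  have hI := fun r : ℚ => MUXF.xf_ITG A B hcq b _ e hb hg (toEI he) r
  have e1 : ∀ j ∈ Finset.range p, PhiI b e ∞ (((x + j) / p : ℚ) : OnePoint ℚ) =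
      2 * Real.pi * ∫ t in Set.Ioi (0 : ℝ), thetaI b e (((x / p : ℚ) : ℂ) + t * Complex.I +
        (j : ℂ) / p) := by
    intro j _
    rw [Qsx.PhiI_inf]
    unfold IvI
    rw [neg_mul, neg_neg]
    congr 1
    refine MeasureTheory.integral_congr_ae (Filter.Eventually.of_forall fun t => ?_)
    show thetaI b e _ = thetaI b e _
    congr 1
    push_cast
    ring
  rw [Finset.sum_congr rfl e1, ← Finset.mul_sum, ← MeasureTheory.integral_finsetSum]
  · have e2 : ∫ t in Set.Ioi (0 : ℝ), ∑ j ∈ Finset.range p,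
        thetaI b e (((x / p : ℚ) : ℂ) + t * Complex.I + (j : ℂ) / p) = 0 := by
      rw [MeasureTheory.setIntegral_congr_fun (g := fun _ => (0 : ℂ)) measurableSet_Ioi]
      · simp
      · intro t ht
        refine DEP.theta_dep hp0 hS.toCQ hg he hb hq _ ?_
        have h1 : (((x / p : ℚ) : ℂ)).im = 0 := by
          rw [← Complex.ofReal_ratCast]
          exact Complex.ofReal_im _
        rw [Complex.add_im, h1, zero_add, Complex.mul_im]
        simpa using ht
    rw [e2, mul_zero]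
  · intro j _
    have h1 := hI ((x + j) / p)
    refine h1.congr_fun ?_ measurableSet_Ioi
    intro t _
    show thetaI b e _ = thetaI b e _
    congr 1
    push_cast
    ring

lemma sgn_PK {A B : ℤ} {n : ℕ} {ι : Type} [Fintype ι] (R : RepsE A B n ι) (e : OO A B → ℂ)
    (kk : ι → ℂ) (Z s : ℂ) (x y : OnePoint ℚ) :
    sgnPart s (fun x y => PhiKE R e kk x y / Z) x y =
      (∑ c, kk c * sgnPart s (PhiI (R.b c) e) x y) / Z := by
  unfold sgnPart PhiKE
  rw [← mul_div_assoc, ← add_div, Finset.mul_sum, ← Finset.sum_add_distrib]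
  congr 1
  refine Finset.sum_congr rfl fun c _ => ?_
  ring

theorem oe_PJ1 : Sq_PJ1 := by
  intro p A B P V f hS ι _ R e he kk Z s
  obtain ⟨-, -, hv1, hr, hD, hgD, hg, -, -, -, -, -, -, -⟩ := oe_VAL p A B P V f hS
  have hDp : ¬ (p : ℤ) ∣ absD A B := (oe_RAM p A B P V hS.toCaseOE).2
  obtain ⟨φ, hφ, hper, hφ2⟩ := MUXF.xf_PHX A B (toCQ hS.toCQ)
  have hqD : (((absD A B).toNat : ℕ) : ℤ) = absD A B := Int.toNat_of_nonneg hD.le
  have hq : (absD A B).toNat ≠ 0 := by omega
  have hv : V.valuation (((absD A B).toNat : ℕ) : ℂ) = 1 := by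
    have h5 : (((absD A B).toNat : ℕ) : ℂ) = ((absD A B : ℤ) : ℂ) := by
      rw [← Int.cast_natCast (R := ℂ) (absD A B).toNat, hqD]
    rw [h5]
    exact hv1 _ hDp
  refine ⟨(absD A B).toNat, fun t => (1 / ((absD A B).toNat : ℂ)) *
    ∑ n ∈ Finset.range (absD A B).toNat, φ n * ex (-(t * n) / (absD A B).toNat), hq,
    fun t => Prx.val_le V hr _ hq hv φ hφ t, fun x y => ?_⟩
  have key : ∀ c, ∑ t ∈ Finset.range (absD A B).toNat, ((1 / ((absD A B).toNat : ℂ)) *
      ∑ n ∈ Finset.range (absD A B).toNat, φ n * ex (-(t * n) / (absD A B).toNat)) *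
      sgnPart s (PhiI (R.b c) e) (mob (absD A B).toNat t 0 (absD A B).toNat x)
        (mob (absD A B).toNat t 0 (absD A B).toNat y) = PhiI (R.b c) e x y := by
    intro c
    exact MUXF.xf_PRJ A B (toCQ hS.toCQ) (R.b c) _ e (R.nl c).b_ne hg (toEI he) _ φ hq
      (fun n => by rw [hqD]; exact hper n)
      (hφ2 (R.b c) _ e (R.nl c).b_ne (toEI he) hgD) s x y
  simp only [sgn_PK]
  simp only [← mul_div_assoc]
  rw [← Finset.sum_div]
  congr 1
  simp only [Finset.mul_sum (s := (Finset.univ : Finset ι))]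
  rw [Finset.sum_comm]
  unfold PhiKE
  refine Finset.sum_congr rfl fun c _ => ?_
  rw [← key c, Finset.mul_sum]
  refine Finset.sum_congr rfl fun t _ => ?_
  ring

end

end Pool.Agent.OEHQ
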