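import Pool.Agent.OE.HQ_SAF
import Pool.Agent.MUX.HY_SYM
import Pool.Agent.MUX.HX_HK
import Pool.Agent.OB.HN_BDN
import Pool.Agent.OB.HN_HKN
import Pool.Agent.OB.HN_TYP
import Pool.Agent.OB.HN_PRT

/-!
# OE, block HQ (helper51): `HypQ` for the symbols of the exceptional fields, `p ≥ 5`

After `OB/HB_HQ1.lean`.
-/

set_option autoImplicit false

namespace Pool.Agent.OEHQ

open _root_.MU3 _root_.Pool.Agent.MU3A _root_.Pool.Agent.MU3B _root_.Pool.Agent.MU3F _root_.Pool.Agent.MUX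
  _root_.Pool.Agent.MUXH _root_.Pool.Agent.MUXHY _root_.Pool.Agent.MuSym _root_.Pool.Agent.OB
  _root_.Pool.Agent.OBH _root_.Pool.Agent.OE OnePoint
open _root_.Pool.Agent.ME (CaseE TorXE RepsE IsNE IsEIE PhiKE)
open _root_.Pool.Agent.MUXF (qb)

noncomputable section

theorem oe_HQ1 (hT : O_TYFE) (hG : O_GPTE) : Sq_HQ1 := by
  intro p A B P V f hS hTor ι _ R u el lam hg w hw e heE r hrp her i hi1 hi2 hty s hs kk hkk
  have he : IsEI (idl (A := A) (B := B) (p * f)) e := heE.toIsEI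
  have hpp : p.Prime := hS.pp
  have hp5 : 5 ≤ p := hS.p5
  obtain ⟨vp, vZ, v1, vr, D0, -, gb, gt, hpf, hN, hNne, hcop, -, -⟩ := oe_VAL p A B P V f hS
  obtain ⟨hnP, -⟩ := oe_RAM p A B P V hS.toCaseOE
  have hr0 : r ≠ 0 := by
    rintro rfl
    exact hrp (dvd_zero p)
  have hnI5 : 5 ≤ nI P ∧ nI P ≤ p ^ 2 := by
    have h12 : p ≤ p ^ 2 := by nlinarith
    rcases hnP with h | h
    · rw [h]; exact ⟨hp5, h12⟩
    · rw [h]; exact ⟨hp5.trans h12, le_refl _⟩
  obtain ⟨nu1, num, nuper, nuv⟩ := oe_CHR p A B P V f hS e he r hr0 her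
  have hk0 : ∀ j, kk j = 0 ∨ kk j ^ r = 1 := fun j => Or.inr (hkk j)
  obtain ⟨pi, KI, typ, unr, vpi⟩ := hT p A B P V f hS hTor ι R u el lam hg w hw e heE r hrp
    her i hty kk hkk
  have hua : IsAlgebraic ℚ u := oe_UAL A B hS.toCaseE (p * f) ι R V u el lam hg
  obtain ⟨sym, alg, T, fin⟩ := oe_SAF p A B P V f hS hTor ι R e he r hr0 her kk hk0 u hg.u0 hua
  have hsA : IsAlgebraic ℚ ((s : ℤ) : ℂ) := isAlgebraic_intCast s
  have hsK : ((s : ℤ) : ℂ) ∈ KI := intCast_mem KI s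
  set Φ : OnePoint ℚ → OnePoint ℚ → ℂ := fun x y => PhiKE R e kk x y / (u * R.om R.i0) with hΦ
  have hQ : ∀ x y, sgnPart ((s : ℤ) : ℂ) Φ x y =
      Φ x y + ((s : ℤ) : ℂ) * Φ (mob (-1) 0 0 1 x) (mob (-1) 0 0 1 y) := fun x y => rfl
  have halg : ∀ x y, IsAlgebraic ℚ (sgnPart ((s : ℤ) : ℂ) Φ x y) := by
    intro x y
    rw [hQ]
    exact (alg x y).add (hsA.mul (alg _ _))
  have hfin : ∃ T : Finset ℂ, ∀ x y, sgnPart ((s : ℤ) : ℂ) Φ x y ∈
      AddSubgroup.closure (T : Set ℂ) := by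
    refine ⟨T, fun x y => ?_⟩
    rw [hQ]
    refine add_mem (fin x y) ?_
    rw [← zsmul_eq_mul]
    exact zsmul_mem (fin _ _) s
  have hdep : ∀ x : ℚ, ∑ j ∈ Finset.range p, Φ ∞ (((x + j) / p : ℚ) : OnePoint ℚ) = 0 := by
    intro x
    simp only [hΦ]
    unfold PhiKE
    rw [← Finset.sum_div, Finset.sum_comm]
    have h12 : ∀ c, ∑ j ∈ Finset.range p, kk c * PhiI (R.b c) e ∞
        (((x + j) / p : ℚ) : OnePoint ℚ) = 0 := by
      intro c
      rw [← Finset.mul_sum, oe_DEP p A B P V f hS e he (R.b c) (R.nl c).b_ne x, mul_zero]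
    rw [Finset.sum_eq_zero fun c _ => h12 c, zero_div]
  obtain ⟨hsym, -, hdepQ⟩ := to_HKN p hpp _ (nuX e) Φ ((s : ℤ) : ℂ) sym nu1 hdep
  have hpi0 : pi ≠ 0 := by
    rintro rfl
    have h12 : nI P - 1 ≠ 0 := by omega
    rw [map_zero, zero_pow h12, zero_mul] at vpi
    exact zero_ne_one vpi
  have hgap := to_TYP p hpp V vp KI 1 (nI P - 1) i le_rfl (by omega) (by rw [one_mul]; exact hi1)
    (by
      have h12 : nI P - 1 < p ^ 2 := by omega
      have h13 : 1 ≤ p - 1 := by omega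
      calc 1 * (nI P - 1) = nI P - 1 := one_mul _
        _ < p ^ 2 := h12
        _ = 1 * p ^ 2 := (one_mul _).symm
        _ ≤ (p - 1) * p ^ 2 := Nat.mul_le_mul_right _ h13)
    (fun w hw h1 => by rw [pow_one]; exact unr w hw h1) pi (by rw [one_mul]; exact vpi)
  refine ⟨pi, KI, ?_, hdepQ, unr, vpi⟩
  exact
    { pp := hpp
      p2 := by omega
      vp := vp
      N0 := hNne
      cop := hcop
      nu1 := nu1
      num := num
      nuper := nuper
      nuv := nuv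
      sym := hsym
      bdd := to_BDN p hpp V vp _ halg hfin
      pi0 := hpi0
      typ := by
        intro x y
        obtain ⟨a, ha, ha1⟩ := typ x y
        obtain ⟨b, hb, hb1⟩ := typ (mob (-1) 0 0 1 x) (mob (-1) 0 0 1 y)
        refine ⟨a + (s : ℂ) * b, KI.add_mem ha (KI.mul_mem hsK hb), ?_⟩
        rw [hQ]
        simp only [hΦ]
        rw [ha1, hb1]
        ring
      gap := fun a ha => (hgap a ha).1
      G := by
        obtain ⟨q, c, hq, hc, hsum⟩ := oe_PJ1 p A B P V f hS ι R e he kk (u * R.om R.i0)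
          ((s : ℤ) : ℂ)
        have hM : (p - 1) * p ^ 2 ≠ 0 := by
          have h12 : p - 1 ≠ 0 := by omega
          exact mul_ne_zero h12 (pow_ne_zero _ hpp.ne_zero)
        refine to_PRT p hpp V vp (p ^ (1 + 1) * N0O p 1 A B f) ((p - 1) * p ^ 2) Φ
          (sgnPart ((s : ℤ) : ℂ) Φ) q c hq hM hc hsum ?_
        intro N' hN' hd
        refine hG p A B P V f hS hTor ι R u el lam hg e heE r hr0 her kk ?_ N' hN' ?_
        · exact vr r _ hr0 (hkk _)
        · rw [← hN]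
          exact_mod_cast hd }

end

end Pool.Agent.OEHQ
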