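import Pool.Agent.OE.HQ_ELM
import Pool.Agent.OB.HB_SAF
import Pool.Agent.OB.HB_UAL
import Pool.Agent.ME.X.YAll

/-!
# OE, block HQ (helper51): SAF, UAL for the exceptional fields, `p ≥ 5`

After `OB/HB_SAF.lean` (helper28) and `OB/HB_UAL.lean` (helper53).
-/

set_option autoImplicit false

namespace Pool.Agent.OEHQ

open _root_.MU3 _root_.Pool.Agent.MU3A _root_.Pool.Agent.MU3B _root_.Pool.Agent.MU3F _root_.Pool.Agent.MUX
  _root_.Pool.Agent.MUXH _root_.Pool.Agent.MUXHY _root_.Pool.Agent.MuSym _root_.Pool.Agent.OB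
  _root_.Pool.Agent.OBH _root_.Pool.Agent.OE OnePoint
open _root_.Pool.Agent.ME (CaseE TorXE RepsE IsNE IsEIE PhiKE g2E g3E NrmE)
open _root_.Pool.Agent.MUXF (qb)

noncomputable section

theorem oe_SAF : Sq_SAF := by
  intro p A B P V f hS hT ι _ R e he r hr0 her kk hkk u hu hua
  obtain ⟨-, -, -, -, D0, -, gb, gt, hpf, hN, hNne, -, -, -⟩ := oe_VAL p A B P V f hS
  have hcq : CQ A B := hS.toCQ
  have hp0 : 0 < p := hS.pp.pos
  have hf0 : 0 < f := Nat.pos_of_ne_zero hS.f0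
  have hcop : ∀ i, IsCoprime (MUX.sp ((MUX.nI (R.b i) : ℕ) : OO A B))
      (idl (A := A) (B := B) (p * f)) :=
    MUXY.y_COP_E A B (p * f) ι R _ 1 (by rw [pow_one]; exact hpf)
  refine ⟨?_, ?_, ?_⟩
  · have h1 : ∀ c, IsSym (p ^ (1 + 1) * N0O p 1 A B f) (nuX e) (PhiI (R.b c) e) := fun c =>
      MUXT.sym_EI (toCQ hcq) (R.b c) (R.nl c).b_ne _ e (toEI he) (p * f) (Nat.mul_pos hp0 hf0)
        hpf _ (mul_ne_zero (pow_ne_zero _ hp0.ne') hNne) (by rw [hN])
    exact Sym.isSym_lin h1 kk (u * R.om R.i0)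
  · intro x y
    have hka : ∀ c, IsAlgebraic ℚ (kk c) := fun c => by
      rcases hkk c with h0 | h1
      · rw [h0]
        exact isAlgebraic_zero
      · exact IsAlgebraic.of_pow (Nat.pos_of_ne_zero hr0) (by rw [h1]; exact isAlgebraic_one)
    have h1 := fun c =>
      (MUXY.y_ALP_E A B hS.toCaseE hT (p * f) ι inferInstance R _ e gb gt he hcop r hr0 her c x y).2
    have e1 : PhiKE R e kk x y / (u * R.om R.i0) =
        (∑ c, kk c * (PhiI (R.b c) e x y / R.om R.i0)) * u⁻¹ := by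
      unfold PhiKE
      rw [mul_comm u, ← div_div, Finset.sum_div, div_eq_mul_inv]
      congr 1
      refine Finset.sum_congr rfl fun c _ => ?_
      ring
    rw [e1]
    exact (OBH.SAF.sum_alg _ _ fun c _ => (hka c).mul (h1 c)).mul hua.inv
  · classical
    have h1 := fun c => MUXT.fg_EI A B (toCQ hcq) (R.b c) _ e (R.nl c).b_ne gb (toEI he)
    choose S hS' using h1
    set Z : ℂ := u * R.om R.i0 with hZ
    refine ⟨Finset.univ.biUnion fun c => (S c).image fun t => kk c / Z * t, fun x y => ?_⟩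
    have e1 : PhiKE R e kk x y / Z = ∑ c, kk c / Z * PhiI (R.b c) e x y := by
      unfold PhiKE
      rw [Finset.sum_div]
      refine Finset.sum_congr rfl fun c _ => ?_
      ring
    rw [e1]
    refine sum_mem fun c _ => ?_
    have h2 := hS' c x y
    have h3 : AddMonoidHom.mulLeft (kk c / Z) (PhiI (R.b c) e x y) ∈
        (AddSubgroup.closure (S c : Set ℂ)).map (AddMonoidHom.mulLeft (kk c / Z)) :=
      AddSubgroup.mem_map_of_mem _ h2
    rw [AddMonoidHom.map_closure] at h3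
    refine AddSubgroup.closure_mono ?_ h3
    rintro _ ⟨t, ht, rfl⟩
    simp only [Finset.coe_biUnion, Set.mem_iUnion]
    exact ⟨c, by simp, Finset.mem_coe.2 (Finset.mem_image.2 ⟨t, ht, rfl⟩)⟩

/-- the invariants of the normalised lattices are rational -/
theorem nrm_alg {A B : ℤ} {L : PeriodPair} (h : NrmE A B L) :
    IsAlgebraic ℚ L.g₂ ∧ IsAlgebraic ℚ L.g₃ := by
  rw [h.g2, h.g3]
  unfold g2E g3E
  have h0 : IsAlgebraic ℚ (0 : ℂ) := isAlgebraic_zero
  have h4 : IsAlgebraic ℚ (4 : ℂ) := by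
    have := isAlgebraic_algebraMap (R := ℚ) (A := ℂ) (4 : ℚ)
    simpa using this
  split_ifs
  · exact ⟨h4, h0⟩
  · exact ⟨h0, h4.neg⟩

theorem oe_UAL : Sq_UAL := by
  intro A B hc n ι R V u e lam h
  obtain ⟨h2, h3⟩ := nrm_alg (R.nl R.i0).nrm
  have k1 : IsAlgebraic ℚ e := OBH.UAL.root_alg h2 h3 (by rw [OBH.UAL.cub h e]; ring)
  have k2 : IsAlgebraic ℚ (e + u ^ 2) :=
    OBH.UAL.root_alg h2 h3 (by rw [OBH.UAL.cub h (e + u ^ 2)]; ring)
  have k4 : IsAlgebraic ℚ (u ^ 2) := by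
    have : u ^ 2 = (e + u ^ 2) - e := by ring
    rw [this]
    exact k2.sub k1
  exact IsAlgebraic.of_pow (by norm_num) k4

end

end Pool.Agent.OEHQ
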