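import Pool.Agent.OE.StI0
import Pool.Agent.OT.I_EIX
import Pool.Agent.ME.Lib

/-!
# OE, block I: module EIX, the character `e ψ(N x)`
-/

set_option autoImplicit false

namespace Pool.Agent.OEI

open _root_.MU3 Pool.Agent.MU3 Pool.Agent.MU3A Pool.Agent.MU3B Pool.Agent.RI Pool.Agent.RID
  Pool.Agent.MUX Pool.Agent.ME Pool.Agent.MUXK Pool.Agent.MUXI Pool.Agent.NS Pool.Agent.NSI
  Pool.Agent.OB Pool.Agent.OBI Pool.Agent.OT Pool.Agent.OTI

noncomputable section

/-- EIX -/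
theorem te_EIX : Te_EIX := by
  intro p A B f hS hE l r hl hlf e he ψ
  refine ⟨ti_EIX p A B f hS l r hl hlf e he.toIsEI ψ, ?_⟩
  intro z hz
  show e z * ψ ((nm z : ℤ) : ZMod (l ^ r)) = emb z
  rw [(isUnit_nm hE z).1 hz, he.unit z hz, Int.cast_one, map_one, mul_one]

end

end Pool.Agent.OEI
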