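import Pool.Agent.OE.Defs
import Pool.Agent.ME.X.StIX
import Pool.Agent.ME.X.StJX
import Pool.Agent.OB.StI
import Pool.Agent.TWR.St
import Pool.Agent.OB.FDefs2

/-!
# OE (Theorem T+ for `k = ℚ(i)`, `ℚ(√-3)`), bookkeeping for the fields `K B_m`, `B_m` the layers for `l` (helper84)

Twin of `OT/StL.lean` (see there) with `SetOE`, `RFE`, `RepsE`, `TorXE`, `AR_E`. `Bl m` = the `m`-th layer of the cyclotomic `ℤ_l`-extension of `ℚ`,
`l = 2, 3`. `K ≤ RFE (f p)`, `l ^ h ∣ f`, so `K B_m ≤ RFE (f l^(m+h) p)`. All levels are even (`12 ∣ f`).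

* `setOE_up`: the standing hypotheses at the levels `f m`.
* `S_LVTE`: the fields `K B_m` are in the ray class fields of their levels.
* `S_E0LE`: the new characters of `Gal(K B_(m+1) / k)`; additionally `e0 j z = 1` for all units `z`.
* `S_NEWE`, `S_NEWKE`: the new characters of the fields `K B_(r+1)`, for `k = ℚ(i)`, `ℚ(√-3)`; the reverse inflation is `OT/L_IFR.lean`.
-/

set_option autoImplicit false

open NumberField

namespace Pool.Agent.OE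

open _root_.MU3 Pool.Agent.MU3 Pool.Agent.MU3A Pool.Agent.MU3B Pool.Agent.RI Pool.Agent.RID
  Pool.Agent.MUX Pool.Agent.ME Pool.Agent.MUXK Pool.Agent.MUXI Pool.Agent.NS Pool.Agent.NSI
  Pool.Agent.OB Pool.Agent.OBI
open Pool.Agent.MU3I (zt)

noncomputable section

/-- The standing hypotheses at the level `f * m`. -/
theorem setOE_up {p : ℕ} {A B : ℤ} {P : Ideal (OO A B)} {V : ValuationSubring ℂ} {f : ℕ}
    (h : SetOE p A B P V f) (m : ℕ) (hm : m ≠ 0) (hpm : ¬ p ∣ m) :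
    SetOE p A B P V (f * m) where
  toCaseOE := h.toCaseOE
  f0 := Nat.mul_ne_zero h.f0 hm
  fp := fun h1 => by
    rcases h.pp.dvd_mul.1 h1 with h2 | h2
    · exact h.fp h2
    · exact hpm h2
  f12 := h.f12.mul_right m
  fD := by
    have h1 : ((p * (f * m) : ℕ) : ℤ) = ((p * f : ℕ) : ℤ) * (m : ℤ) := by push_cast; ring
    rw [h1]
    exact h.fD.mul_right _

/-- (LVT) the fields `K B_m` are in the ray class fields of their levels. Module of helper84. -/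
def S_LVTE : Prop :=
  ∀ (l g h : ℕ), Pool.Agent.TWR.Gen l g h →
    ∀ (p : ℕ) (A B : ℤ) (P : Ideal (OO A B)) (V : ValuationSubring ℂ) (f : ℕ),
    SetOE p A B P V f → TorXE A B →
    (∃ (b : Ideal (OO A B)) (L : PeriodPair) (om : ℂ), IsNE b L om) →
    ∀ (K : IntermediateField ℚ ℂ), (∀ y ∈ K, y ∈ RFE (idl (A := A) (B := B) (lvX p f 0))) →
    ∀ (m : ℕ) (Bm : IntermediateField ℚ ℂ), IsLayer l m Bm →
    ∀ y ∈ K ⊔ Bm, y ∈ RFE (idl (A := A) (B := B) (lvX p (f * l ^ (m + h)) 0))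

/-- (E0L) the new characters of `Gal(K B_(m+1) / k)`, in a finite family. Module of helper84. -/
def S_E0LE : Prop :=
  ∀ (l g h : ℕ), Pool.Agent.TWR.Gen l g h →
    ∀ (p : ℕ) (A B : ℤ) (P : Ideal (OO A B)) (V : ValuationSubring ℂ) (f : ℕ),
    SetOE p A B P V f → l ^ h ∣ f → TorXE A B →
    ∀ (ι : Type) [Finite ι] (R : RepsE A B (p * f) ι)
    (K : IntermediateField ℚ ℂ) [FiniteDimensional ℚ K] (_ : kk A B ≤ K),
    (∀ y ∈ K, y ∈ RFE (idl (A := A) (B := B) (lvX p f 0))) →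
    ∀ (Bl : ℕ → IntermediateField ℚ ℂ), (∀ m, IsLayer l m (Bl m)) → Monotone Bl →
    ∃ (J : Type) (_ : Finite J) (r : ℕ) (e0 : J → OO A B → ℂ) (kp : J → ι → ℂ), ¬ p ∣ r ∧
      (∀ j, e0 j 1 = 1 ∧ e0 j (-1) = 1 ∧ (∀ x y, e0 j (x * y) = e0 j x * e0 j y) ∧
        (∀ x y, x - y ∈ idl (A := A) (B := B) (lvX p f 0) → e0 j x = e0 j y) ∧
        (∀ x, e0 j x ≠ 0 ↔ IsCoprime x ((lvX p f 0 : ℕ) : OO A B)) ∧
        (∀ x, e0 j x ≠ 0 → e0 j x ^ r = 1) ∧ (∀ z, IsUnit z → e0 j z = 1) ∧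
        (∀ i, kp j i ^ r = 1)) ∧
      ∀ (m : ℕ) (hm : kk A B ≤ K ⊔ Bl (m + 1)), letI := algC hm
      ∀ (X : (↥(K ⊔ Bl (m + 1)) ≃ₐ[kk A B] ↥(K ⊔ Bl (m + 1))) →* ℂˣ) (t : ℕ), ¬ p ∣ t →
      (∀ τ, X τ ^ t = 1) →
      (∃ g : ↥(K ⊔ Bl (m + 1)) ≃ₐ[kk A B] ↥(K ⊔ Bl (m + 1)),
        (∀ x : ↥(K ⊔ Bl (m + 1)), (x : ℂ) ∈ K ⊔ Bl m → g x = x) ∧ X g ≠ 1) →
      ∃ (j : J) (ψ : DirichletCharacter ℂ (l ^ (m + 1 + h))), ψ (-1) = 1 ∧
        ψ (1 + (l : ZMod (l ^ (m + 1 + h))) ^ (m + 1 + h - 1)) ≠ 1 ∧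
        ∀ (τ : ↥(K ⊔ Bl (m + 1)) ≃ₐ[kk A B] ↥(K ⊔ Bl (m + 1))) (i : ι) (x : OO A B),
          IsCoprime x ((lvX p (f * l ^ (m + 1 + h)) 0 : ℕ) : OO A B) →
          AR_E hm (idl (lvX p (f * l ^ (m + 1 + h)) 0)) τ (sp x * cjI (R.b i)) →
          (((X τ)⁻¹ : ℂˣ) : ℂ) =
            kp j i * ψ ((nI (R.b i) : ℕ) : ZMod (l ^ (m + 1 + h))) *
              (e0 j x * ψ ((nm x : ℤ) : ZMod (l ^ (m + 1 + h))))

end

end Pool.Agent.OE
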