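import Pool.Agent.OE.StI0
import Pool.Agent.OB.I_SUB

/-!
# OE, block I, module SUB: the fields `K B_n` are contained in the ray class fields (after `Pool/Agent/OB/I_SUB.lean`)
-/

set_option autoImplicit false

namespace Pool.Agent.OEI

open _root_.MU3 Pool.Agent.MU3 Pool.Agent.MU3A Pool.Agent.MU3B Pool.Agent.RI Pool.Agent.RID
  Pool.Agent.MUX Pool.Agent.ME Pool.Agent.MUXU Pool.Agent.MUXK Pool.Agent.MUXI Pool.Agent.NS
  Pool.Agent.NSI Pool.Agent.OB Pool.Agent.OBI Pool.Agent.OT Pool.Agent.OTI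

noncomputable section

/-- Module SUB. -/
theorem te_SUB (h1 : Si_IAF_E) : Te_SUB := by
  intro p A B f hS hT hNL K hK n Bn hlay
  have hC : CQ A B := hS.cq
  have hp2 : p ≠ 2 := hS.p2
  have hp0 : p ≠ 0 := hS.pp.ne_zero
  have hpn : p ^ (n + 1) ≠ 0 := pow_ne_zero _ hp0
  have hlv : lvX p f n = f * p ^ (n + 1) := lvX_odd hp2 f n
  have hlv0 : lvX p f n ≠ 0 := by
    rw [hlv]; exact Nat.mul_ne_zero hS.f0 hpn
  have hm : idl (A := A) (B := B) (lvX p f n) ≠ ⊥ := Pool.Agent.NST.ALT.idl_ne hC hlv0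
  have hdiv : ∀ {M N : ℕ}, M ∣ N → idl (A := A) (B := B) N ≤ idl M := by
    intro M N h
    rw [Ideal.span_singleton_le_span_singleton]
    obtain ⟨c, rfl⟩ := h
    exact ⟨c, by push_cast; ring⟩
  have hle : idl (A := A) (B := B) (lvX p f n) ≤ idl (p ^ (n + 1)) :=
    hdiv ⟨f, by rw [hlv]; ring⟩
  have hle0 : idl (A := A) (B := B) (lvX p f n) ≤ idl (lvX p f 0) :=
    hdiv ⟨p ^ n, by unfold lvX; ring⟩
  obtain ⟨i1, -, -, -, -, -, -, i8⟩ := h1 A B hC hT hNL _ hm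
  obtain ⟨a, ha⟩ := i1 (RingEquiv.refl ℂ) rfl
  have hz : ∀ z : ℂ, z ^ p ^ (n + 1) = 1 → z ∈ RFE (idl (A := A) (B := B) (lvX p f n)) :=
    fun z hz => (i8 (p ^ (n + 1)) (RingEquiv.refl ℂ) a z hpn hle ha hz).1
  have hK' : K ≤ IntermediateField.restrictScalars ℚ
      (RFE (idl (A := A) (B := B) (lvX p f n))) := by
    intro x hx
    exact hT.mono _ _ hle0 (hK x hx)
  intro y hy
  exact SUBx.sup_le_F hS.pp hp2 hlay _ hK' hz hy

end

end Pool.Agent.OEI
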