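import Pool.Agent.OE.StI
import Pool.Agent.OE.G_BAS
import Pool.Agent.OB.I_TEI
import Pool.Agent.OB.I_EPS
import Pool.Agent.ME.Lib

/-!
# OE, block I: modules TEU and EPS, the Teichmueller character on the units and the character `e` (helper79)
-/

set_option autoImplicit false

namespace Pool.Agent.OEI

open _root_.MU3 Pool.Agent.MU3 Pool.Agent.MU3A Pool.Agent.MU3B Pool.Agent.RI Pool.Agent.RID
  Pool.Agent.MUX Pool.Agent.ME Pool.Agent.MUXK Pool.Agent.MUXI Pool.Agent.NS Pool.Agent.NSI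
  Pool.Agent.OB Pool.Agent.OBI Pool.Agent.OT Pool.Agent.OTI Pool.Agent.OE

noncomputable section

namespace TEUx

variable {A B : ℤ}

/-- the units are 12th roots of unity -/
lemma pow12 (h : CaseE A B) {z : OO A B} (hz : IsUnit z) : z ^ 12 = 1 := by
  have hw : (⟨0, 1⟩ : OO A B) ^ 12 = 1 := by
    have h2 : (⟨0, 1⟩ : OO A B) ^ 2 = ⟨A, B⟩ := by
      rw [pow_two]
      ext <;> simp
    rcases h.or with ⟨hA, hB⟩ | ⟨hA, hB⟩
    · have h3 : (⟨0, 1⟩ : OO A B) ^ 2 = -1 := by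
        rw [h2]
        ext <;> simp [hA, hB, QuadraticAlgebra.re_one, QuadraticAlgebra.im_one]
      have h4 : (⟨0, 1⟩ : OO A B) ^ 12 = ((⟨0, 1⟩ : OO A B) ^ 2) ^ 6 := by rw [← pow_mul]
      rw [h4, h3]
      ring
    · have h3 : (⟨0, 1⟩ : OO A B) ^ 3 = -1 := by
        rw [pow_succ, h2]
        ext <;> simp [hA, hB, QuadraticAlgebra.re_one, QuadraticAlgebra.im_one]
      have h4 : (⟨0, 1⟩ : OO A B) ^ 12 = ((⟨0, 1⟩ : OO A B) ^ 3) ^ 4 := by rw [← pow_mul]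
      rw [h4, h3]
      ring
  have hn : (⟨0, -1⟩ : OO A B) = -⟨0, 1⟩ := by ext <;> simp
  rcases unit_list h hz with rfl | rfl | rfl | rfl | ⟨hB, h1⟩
  · exact one_pow 12
  · ring
  · exact hw
  · rw [hn, Even.neg_pow (by decide)]
    exact hw
  · have h3 : (⟨1, -1⟩ : OO A B) ^ 3 = -1 := by
      have h2 : (⟨1, -1⟩ : OO A B) ^ 2 = ⟨0, -1⟩ := by
        rw [pow_two]
        ext <;> simp [h.hA, hB]
      rw [pow_succ, h2]
      ext <;> simp [h.hA, hB, QuadraticAlgebra.re_one, QuadraticAlgebra.im_one]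
    have hn' : (⟨-1, 1⟩ : OO A B) = -⟨1, -1⟩ := by ext <;> simp
    have h4 : (⟨1, -1⟩ : OO A B) ^ 12 = 1 := by
      have h5 : (⟨1, -1⟩ : OO A B) ^ 12 = ((⟨1, -1⟩ : OO A B) ^ 3) ^ 4 := by rw [← pow_mul]
      rw [h5, h3]
      ring
    rcases h1 with rfl | rfl
    · exact h4
    · rw [hn', Even.neg_pow (by decide)]
      exact h4

end TEUx

/-- (TEU) -/
theorem te_TEU : Te_TEU := by
  intro p A B P V hC w hw z hz
  obtain ⟨vp, -, -, -, -, hnat, -⟩ := o_BASG p 1 A B P V hC.toG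
  have hc : CQ A B := hC.toCQ
  have h12 : V.valuation ((12 : ℕ) : ℂ) = 1 := by
    refine hnat 12 fun h => ?_
    have h1 := hC.p5
    have h2 : p ∣ 2 ^ 2 * 3 := by simpa using h
    rcases (Nat.Prime.dvd_mul hC.pp).1 h2 with h3 | h3
    · have h4 := Nat.le_of_dvd two_pos (hC.pp.dvd_of_dvd_pow h3)
      omega
    · have h4 := Nat.le_of_dvd three_pos h3
      omega
  have hz12 := TEUx.pow12 hC.toCaseE hz
  have e1 : w z ^ 12 = 1 := by
    have h1 := EPSx.mul_pow' hw.one hw.mul z 12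
    rw [hz12, hw.one] at h1
    exact h1.symm
  have e2 : emb z ^ 12 = 1 := by
    rw [← emb_pow hc, hz12, emb_one hc]
  refine TEIx.root_eq (N := 12) (by norm_num) h12 e1 e2 ?_
  exact TEIx.lt_of_pow vp (hw.cong z)

/-- (EPS) -/
theorem te_EPS (h1 : S_EPSG) (h2 : Te_TEU) : Te_EPS := by
  intro p A B P V f hS w hw e0 r hr h01 h0m h0mul h0per h0supp h0pow h0u
  obtain ⟨e, s, i, t, hei, -, hi1, hi2, hty, hepow, ht1, ht2, ht3, -, ht5, hes⟩ :=
    h1 p 1 A B P V f hS.toG w hw e0 r hr h01 h0m h0mul h0per h0supp h0pow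
  rw [one_mul] at hi1
  refine ⟨e, i, t, ⟨hei, ?_⟩, hi1, hi2, hty, hepow, ⟨ht3, ht1, ht2, ht5⟩, hes⟩
  intro z hz
  have h3 : IsCoprime z ((lvX p f 0 : ℕ) : OO A B) := by
    obtain ⟨y, hy⟩ := hz.exists_left_inv
    exact ⟨y, 0, by rw [hy, zero_mul, add_zero]⟩
  have h4 := hes z h3
  rw [(isUnit_nm hS.toCaseE z).1 hz, ht3, mul_one, h0u z hz, one_mul] at h4
  rw [← h4]
  exact h2 p A B P V hS.toCaseOE w hw z hz

end

end Pool.Agent.OEI
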