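import Pool.Agent.OE.StI0
import Pool.Agent.OT.I_EIX
import Pool.Agent.OB.I_XMX
import Pool.Agent.ME.X.I_HIT

/-!
# OE, block I, module XMF: the sets `XXE` for the group `NC h Bn` (after `Pool/Agent/OT/I_XMF.lean`)
-/

set_option autoImplicit false

namespace Pool.Agent.OEI

open _root_.MU3 Pool.Agent.MU3 Pool.Agent.MU3A Pool.Agent.MU3B Pool.Agent.RI Pool.Agent.RID
  Pool.Agent.MUX Pool.Agent.ME Pool.Agent.MUXK Pool.Agent.MUXI Pool.Agent.NS Pool.Agent.NSI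
  Pool.Agent.OB Pool.Agent.OBI Pool.Agent.OT Pool.Agent.OTI
open Pool.Agent.MU3I (zt)

noncomputable section

open XMXx in
theorem te_XMF (h1 : Si_XXF_E) (h2 : Si_ARF_E) (h3 : Ti_NCB) (h4 : Ti_ZAR) : Te_XMF := by
  intro p hpF A B f hS hE h2f hT ι R D n h Bn hLay hBR hRB hD
  let aD : Algebra (kk A B) ↥D := algC h
  intro hG γ hγ z₀ hz₀
  have hQ := hS.cq
  have hp0 : 0 < p := hS.pp.pos
  have hq3 : 3 ≤ p := by
    have h4 := hS.pp.two_le
    have h5 := hS.p2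
    omega
  have hf1 : 1 ≤ f := Nat.one_le_iff_ne_zero.2 hS.f0
  have hpn : 1 ≤ p ^ n := Nat.one_le_pow _ _ hp0
  set m : ℕ := lvX p f n with hm
  set M : ℕ := p ^ (n + 1) with hM
  have hmM : m = f * M := by rw [hm, hM, lvX_odd hS.p2]
  have hM3 : 3 ≤ M := by
    rw [hM]
    calc 3 = 1 * 3 := rfl
      _ ≤ p ^ n * p := Nat.mul_le_mul hpn hq3
      _ = p ^ (n + 1) := (pow_succ p n).symm
  have hm3 : 3 ≤ m := by
    rw [hmM]
    calc 3 = 1 * 3 := rfl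
      _ ≤ f * M := Nat.mul_le_mul hf1 hM3
  have hm2 : 2 ≤ m := by omega
  have hM0 : M ≠ 0 := by omega
  have hm0 : idl (A := A) (B := B) m ≠ ⊥ := by
    rw [Ne, Ideal.span_singleton_eq_bot]
    exact natCast_ne_zero' hQ (by omega)
  have h2n : 2 ∣ m := by
    rw [hmM]
    exact h2f.mul_right M
  have hcop : ∀ i, (nI (R.b i)).Coprime m := by
    intro i
    have h4 := R.cop i
    have h5 : (nI (R.b i)).Coprime p := h4.coprime_mul_right_right
    have h6 : (nI (R.b i)).Coprime f := h4.coprime_mul_left_right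
    rw [hmM, hM]
    exact h6.mul_right (h5.pow_right (n + 1))
  have hNL : ∃ (b : Ideal (OO A B)) (L : PeriodPair) (om : ℂ), IsNE b L om :=
    ⟨_, _, _, R.nl R.i0⟩
  obtain ⟨a1, -, a3, a4, a5, -, a7⟩ := h2 A B hQ hT hNL (idl m) hm0
    (MUXI.Hit.idl_le h2n) D h hD hG
  obtain ⟨x1, xt, x2⟩ := h1 A B hE hT (p * f) ι R m (by omega) h2n D h hD hG
  have hcomm : ∀ σ τ : ↥D ≃ₐ[kk A B] ↥D, σ * τ = τ * σ := by
    intro σ τ
    obtain ⟨a, -, ha⟩ := a3 σ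
    obtain ⟨b, -, hb⟩ := a3 τ
    have h5 := a5 σ τ a b ha hb
    have h6 := a5 τ σ b a hb ha
    refine a4 _ _ _ _ h5 h6 ⟨1, 1, ?_, ?_, ?_, ?_, ?_⟩
    · have := natCast_ne_zero' hQ (n := 1) one_ne_zero
      rwa [Nat.cast_one] at this
    · have := natCast_ne_zero' hQ (n := 1) one_ne_zero
      rwa [Nat.cast_one] at this
    · rw [sp, Ideal.span_singleton_one, ← Ideal.one_eq_top]
      exact isCoprime_one_left
    · rw [sub_self]
      exact Ideal.zero_mem _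
    · rw [mul_comm a b]
  have hcopr : ∀ τ, ∀ q ∈ XXE R m h τ,
      IsCoprime (Quotient.out q.2 : OO A B) ((m : ℕ) : OO A B) := fun τ q hq => hq.1
  refine ⟨hcomm, hcopr, xt, fun q hq hq2 => (x2 q hq).1 hq2,
    fun q τ τ' hq hq' => (x2 q (hcopr τ q hq)).2 τ τ' hq hq', ?_⟩
  intro q τ hq j
  set ζ : ℂ := zt M with hζd
  have hζ : IsPrimitiveRoot ζ M := Complex.isPrimitiveRoot_exp M hM0
  have hζM : ζ ^ M = 1 := hζ.pow_eq_one
  have htB : ζ + ζ⁻¹ ∈ RB p n := IntermediateField.mem_adjoin_simple_self ℚ _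
  have htD : ζ + ζ⁻¹ ∈ D := hRB htB
  set y : ↥D := ⟨ζ + ζ⁻¹, htD⟩ with hy
  have hle : idl (A := A) (B := B) m ≤ idl M := by
    rw [Ideal.span_singleton_le_span_singleton, hmM]
    push_cast
    exact dvd_mul_left _ _
  -- the ideal of `τ`
  set x : OO A B := Quotient.out q.2 with hx
  have hxc : IsCoprime x ((m : ℕ) : OO A B) := hcopr τ q hq
  have hqe : (q.1, Ideal.Quotient.mk (idl (A := A) (B := B) m) x) = q := by
    have h5 : Ideal.Quotient.mk (idl (A := A) (B := B) m) x = q.2 := Quotient.out_eq q.2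
    rw [h5]
  have hAR : AR_E h (idl m) τ (sp x * cjI (R.b q.1)) := by
    refine ((x1 τ q.1 x hxc).1 ?_).2
    rw [hqe]
    exact hq
  have hx0 : x ≠ 0 := by
    intro h0
    rw [h0, isCoprime_zero_left] at hxc
    obtain ⟨z, hz⟩ := hxc.exists_right_inv
    exact natCast_not_unit hm2 z hz
  have hb0 : R.b q.1 ≠ ⊥ := (R.nl q.1).b_ne
  have hspx : sp x ≠ ⊥ := by
    rwa [Ne, Ideal.span_singleton_eq_bot]
  have hN : ((nI (sp x * cjI (R.b q.1)) : ℕ) : ℤ) = nm x * nI (R.b q.1) := by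
    rw [nI_mul hQ hspx (cjI_ne_bot hQ hb0), nI_sp hQ hx0, nI_cjI hQ hb0]
    push_cast
    rw [abs_of_nonneg (nm_nonneg hQ x)]
  have e1 := a7 M τ _ ζ y hM0 hle hAR hζM rfl
  -- the ideal of `γ`
  obtain ⟨c, hcc, hc⟩ := a3 γ
  have hc0 : c ≠ ⊥ := by
    rintro rfl
    have h5 : IsUnit (idl (A := A) (B := B) m) := isCoprime_zero_left.1 hcc
    rw [Ideal.isUnit_iff, Ideal.eq_top_iff_one] at h5
    obtain ⟨z, hz⟩ := Ideal.mem_span_singleton.1 h5
    exact natCast_not_unit hm2 z hz.symm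
  have hARj : ∀ j : ℕ, AR_E h (idl m) (γ ^ j) (c ^ j) := by
    intro j
    induction j with
    | zero =>
      rw [pow_zero, pow_zero, Ideal.one_eq_top]
      exact a1
    | succ j ih =>
      rw [pow_succ, pow_succ]
      exact a5 _ _ _ _ ih hc
  have e2 := a7 M (γ ^ j) _ ζ y hM0 hle (hARj j) hζM rfl
  rw [(nI_pow hQ hc0 j).2] at e2
  have e3 := a7 M γ _ ζ y hM0 hle hc hζM rfl
  have e4 := hγ y rfl
  rw [e3] at e4
  have e5 := (pm hM0 hζ _ _).1 e4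
  have e6 := pw (M : ℤ) (nI c : ℤ) ((1 + p : ℕ) : ℤ) e5 j
  -- the condition on `τ`
  let φ : ↥D →+* ℂ := (algebraMap ↥D ℂ).comp (τ : ↥D →+* ↥D)
  let ψ : ↥D →+* ℂ := (algebraMap ↥D ℂ).comp ((γ ^ j : ↥D ≃ₐ[kk A B] ↥D) : ↥D →+* ↥D)
  have key : τ * (γ ^ j)⁻¹ ∈ NC h Bn ↔ ∀ z : ↥D, (z : ℂ) ∈ Bn → φ z = ψ z := by
    rw [hcomm τ (γ ^ j)⁻¹]
    constructor
    · intro hmem z hz
      have h5 : ((γ ^ j)⁻¹ * τ) z = z := hmem z hz
      have h6 : τ z = (γ ^ j) z := by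
        have h7 : (γ ^ j) (((γ ^ j)⁻¹ * τ) z) = (γ ^ j) z := by rw [h5]
        rwa [← AlgEquiv.mul_apply, mul_inv_cancel_left] at h7
      show ((τ z : ↥D) : ℂ) = (((γ ^ j) z : ↥D) : ℂ)
      rw [h6]
    · intro he z hz
      have h6 : τ z = (γ ^ j) z := Subtype.ext (he z hz)
      show (γ ^ j)⁻¹ (τ z) = z
      rw [h6, ← AlgEquiv.mul_apply, inv_mul_cancel]
      rfl
  -- the norms are prime to `p`
  have hpp : Prime (p : ℤ) := Nat.prime_iff_prime_int.1 hS.pp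
  have hpm : p ∣ m := by
    rw [hmM, hM, pow_succ]
    exact (dvd_mul_left p (p ^ n)).mul_left f
  have hpM : (p : ℤ) ∣ (M : ℤ) := by
    rw [hM, pow_succ]
    push_cast
    exact dvd_mul_left _ _
  have hpa : ¬ p ∣ nI (sp x * cjI (R.b q.1)) := by
    intro h5
    have h6 : (p : ℤ) ∣ nm x * nI (R.b q.1) := by
      rw [← hN]
      exact_mod_cast h5
    rcases hpp.dvd_or_dvd h6 with h7 | h7
    · have h8 : IsCoprime (nm x) ((m : ℕ) : ℤ) := EIXx.nm_cop hQ hxc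
      have h9 : (p : ℤ) ∣ ((m : ℕ) : ℤ) := by exact_mod_cast hpm
      exact hpp.not_isUnit (h8.isUnit_of_dvd' h7 h9)
    · have h8 : p ∣ nI (R.b q.1) := by exact_mod_cast h7
      have h9 := Nat.dvd_gcd h8 hpm
      rw [hcop q.1] at h9
      exact hS.pp.one_lt.ne' (Nat.dvd_one.1 h9)
  have hpb : ¬ p ∣ nI c ^ j := by
    intro h5
    have h6 : (p : ℤ) ∣ (nI c : ℤ) := by exact_mod_cast hS.pp.dvd_of_dvd_pow h5
    have h7 : (p : ℤ) ∣ ((1 + p : ℕ) : ℤ) := by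
      rcases e5 with h8 | h8
      · have h9 := dvd_sub h6 (hpM.trans h8)
        rwa [sub_sub_cancel] at h9
      · have h9 := dvd_sub (hpM.trans h8) h6
        rwa [add_sub_cancel_left] at h9
    have h8 : p ∣ 1 + p := by exact_mod_cast h7
    have h9 : p ∣ 1 := (Nat.dvd_add_left (dvd_refl p)).1 h8
    exact hS.pp.one_lt.ne' (Nat.dvd_one.1 h9)
  have e7 := h3 p hS.p2 n Bn hLay hBR D hRB φ ψ _ _ hpa hpb y rfl e1 e2
  have hMp : (M : ℤ) ∣ ((nI c ^ j : ℕ) : ℤ) ^ (p - 1) - ((1 + (p : ℤ)) ^ j) ^ (p - 1) := by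
    have h5 : Even (p - 1) := by
      obtain ⟨k, hk⟩ := hS.pp.odd_of_ne_two hS.p2
      exact ⟨k, by omega⟩
    have h6 : ((nI c ^ j : ℕ) : ℤ) = (nI c : ℤ) ^ j := by push_cast; rfl
    have h7 : ((1 + p : ℕ) : ℤ) ^ j = (1 + (p : ℤ)) ^ j := by push_cast; rfl
    rw [h6, ← h7]
    rcases e6 with h8 | h8
    · exact h8.trans (sub_dvd_pow_sub_pow _ _ _)
    · have h9 : (M : ℤ) ∣ (nI c : ℤ) ^ j - -(((1 + p : ℕ) : ℤ) ^ j) := by
        rwa [sub_neg_eq_add]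
      have h10 := h9.trans (sub_dvd_pow_sub_pow _ _ (p - 1))
      rwa [h5.neg_pow] at h10
  have e8 := (h4 p n hS.pp hS.p2 z₀ hz₀).2.2 ((nI (sp x * cjI (R.b q.1)) : ℕ) : ℤ) j
    (by exact_mod_cast hpa)
  rw [key, e7, ← hN, ← e8]
  constructor
  · intro h5
    have h6 := dvd_add h5 hMp
    rwa [sub_add_sub_cancel] at h6
  · intro h5
    have h6 := dvd_sub h5 hMp
    rwa [sub_sub_sub_cancel_right] at h6

end

end Pool.Agent.OEI
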