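import Pool.Agent.OE.StL
import Pool.Agent.OT.L_E0L
import Pool.Agent.MUX.I_E0
import Pool.Agent.MUX.StJX

/-!
# OE, modules LVT and E0L (helper84); models: `OT/L_E0L.lean`, `ME/N/I_E0.lean`, `TWF/LVL.lean`
-/

set_option autoImplicit false

open NumberField IsDedekindDomain Finset
open scoped nonZeroDivisors Pointwise

namespace Pool.Agent.OE

open _root_.MU3 Pool.Agent.MU3 Pool.Agent.MU3A Pool.Agent.MU3B Pool.Agent.RI Pool.Agent.RID
  Pool.Agent.MUX Pool.Agent.ME Pool.Agent.MUXK Pool.Agent.MUXI Pool.Agent.NS Pool.Agent.NSI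
  Pool.Agent.OB Pool.Agent.OBI
open Pool.Agent.MU3I (zt)
open Pool.Agent.TWF (Twr cyc chr_split gal_ab)
open Pool.Agent.OT (gen_ls)
open Pool.Agent.OT.E0Lx (fin_chr fix_ord)

/-- `K B_n` is contained in the ray class field of level `f l^(n+s)` (model: `TWF/LVL.lean`) -/
theorem lvlE (hLAY : Si_LAY) (hIAF : Si_IAF_E) (l s : ℕ)
    (hls : (l = 3 ∧ s = 1) ∨ (l = 2 ∧ s = 2))
    (A B : ℤ) (hc : CQ A B) (T : TorXE A B)
    (hNL : ∃ (b : Ideal (OO A B)) (L : PeriodPair) (om : ℂ), IsNE b L om) (f : ℕ) (hf : f ≠ 0)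
    (K : IntermediateField ℚ ℂ) (hK : ∀ y ∈ K, y ∈ RFE (idl (A := A) (B := B) f)) (n : ℕ)
    (Bn : IntermediateField ℚ ℂ) (hB : IsLayer l n Bn) :
    ∀ y ∈ K ⊔ Bn, y ∈ RFE (idl (A := A) (B := B) (f * l ^ (n + s))) := by
  have hl0 : l ≠ 0 := by rcases hls with ⟨rfl, -⟩ | ⟨rfl, -⟩ <;> norm_num
  set M : ℕ := l ^ (n + s) with hM
  have hM0 : M ≠ 0 := pow_ne_zero _ hl0
  have hm0 : idl (A := A) (B := B) (f * M) ≠ ⊥ := by
    rw [Ne, Ideal.span_singleton_eq_bot]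
    exact natCast_ne_zero' hc (mul_ne_zero hf hM0)
  have hmf : idl (A := A) (B := B) (f * M) ≤ idl f := by
    rw [Ideal.span_singleton_le_span_singleton]
    push_cast
    exact dvd_mul_right _ _
  have hmM : idl (A := A) (B := B) (f * M) ≤ idl M := by
    rw [Ideal.span_singleton_le_span_singleton]
    push_cast
    exact dvd_mul_left _ _
  obtain ⟨i1, -, -, -, -, -, -, i8⟩ := hIAF A B hc T hNL _ hm0
  obtain ⟨a₀, ha₀⟩ := i1 (RingEquiv.refl ℂ) rfl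
  have hq0 : q0 l * l ^ n = M := by
    rcases hls with ⟨rfl, rfl⟩ | ⟨rfl, rfl⟩
    · have h3 : q0 3 = 3 := by simp [q0]
      rw [h3, hM]
      ring
    · have h3 : q0 2 = 4 := by simp [q0]
      rw [h3, hM]
      ring
  have hζ : IsPrimitiveRoot (zt M) M := Complex.isPrimitiveRoot_exp M hM0
  have hz := (i8 M (RingEquiv.refl ℂ) a₀ (zt M) hM0 hmM ha₀ hζ.pow_eq_one).1
  have hBeq := hLAY l n (by rcases hls with ⟨h, -⟩ | ⟨h, -⟩ <;> tauto) Bn hB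
  rw [hq0] at hBeq
  have hBn : Bn ≤ IntermediateField.restrictScalars ℚ (RFE (idl (A := A) (B := B) (f * M))) := by
    rw [hBeq, IntermediateField.adjoin_le_iff]
    intro x hx
    rw [Set.mem_singleton_iff] at hx
    rw [hx]
    exact add_mem hz (inv_mem hz)
  have hK' : K ≤ IntermediateField.restrictScalars ℚ (RFE (idl (A := A) (B := B) (f * M))) := by
    intro x hx
    exact T.mono _ _ hmf (hK x hx)
  intro y hy
  exact (sup_le hK' hBn) hy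

/-- LVT -/
theorem t_LVTE (hLAY : Si_LAY) (hIAF : Si_IAF_E) : S_LVTE := by
  intro l g h hGen p A B P V f hS T hNL K hK m Bm hB
  have hp2 : p ≠ 2 := by have := hS.p5; omega
  have h1 := lvlE hLAY hIAF l h (gen_ls hGen) A B hS.toCQ T hNL (lvX p f 0)
    (by
      rw [lvX_odd hp2]
      exact Nat.mul_ne_zero hS.f0 (pow_ne_zero _ hS.pp.ne_zero)) K hK m Bm hB
  have h2 : lvX p f 0 * l ^ (m + h) = lvX p (f * l ^ (m + h)) 0 := by
    rw [lvX_odd hp2, lvX_odd hp2]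
    ring
  rw [h2] at h1
  exact h1

/-- `m ≤ (2)` for even `m` -/
theorem idl_le2 {A B : ℤ} {n : ℕ} (h : 2 ∣ n) : (idl n : Ideal (OO A B)) ≤ idl 2 := by
  obtain ⟨k, rfl⟩ := h
  rw [Ideal.span_singleton_le_span_singleton]
  push_cast
  exact dvd_mul_right _ _

open Pool.Agent.MUXI.E0 in
/-- the characters `e0` and `kp` attached to a character of `Gal(K/k)` (model: `ME/N/I_E0.lean`) -/
theorem e0E (h1 : Pool.Agent.MUXI.Si_ARF_E) (h4 : Pool.Agent.MUXF.Sx_NIM) (p : ℕ) (A B : ℤ) (f : ℕ)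
    (S : SetQ p A B f) (h2l : 2 ∣ lvX p f 0) (T : TorXE A B) (ι : Type) (R : RepsE A B (p * f) ι)
    (K : IntermediateField ℚ ℂ) (hK : kk A B ≤ K)
    (hKm : ∀ y ∈ K, y ∈ RFE (idl (A := A) (B := B) (lvX p f 0))) : letI := algC hK
    ∀ (_ : IsGalois (kk A B) K) (X : (K ≃ₐ[kk A B] K) →* ℂˣ) (r : ℕ) (_ : ∀ τ, X τ ^ r = 1),
    ∃ (e0 : OO A B → ℂ) (kp : ι → ℂ), e0 1 = 1 ∧ e0 (-1) = 1 ∧ (∀ x y, e0 (x * y) = e0 x * e0 y) ∧
      (∀ x y, x - y ∈ idl (A := A) (B := B) (lvX p f 0) → e0 x = e0 y) ∧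
      (∀ x, e0 x ≠ 0 ↔ IsCoprime x ((lvX p f 0 : ℕ) : OO A B)) ∧
      (∀ x, e0 x ≠ 0 → e0 x ^ r = 1) ∧ (∀ z, IsUnit z → e0 z = 1) ∧ (∀ i, kp i ^ r = 1) ∧
      ∀ (τ : K ≃ₐ[kk A B] K) (i : ι) (x : OO A B), IsCoprime x ((lvX p f 0 : ℕ) : OO A B) →
        AR_E hK (idl (lvX p f 0)) τ (sp x * cjI (R.b i)) → (((X τ)⁻¹ : ℂˣ) : ℂ) = kp i * e0 x := by
  intro hG X r hX
  have hlv : 3 ≤ lvX p f 0 := by
    have hf : 1 ≤ f := Nat.one_le_iff_ne_zero.2 S.f0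
    have h2 := S.pp.two_le
    have h3 := S.p2
    have h4 : 3 ≤ p := by omega
    rw [lvX_odd S.p2 f 0, zero_add, pow_one]
    calc 3 = 1 * 3 := by norm_num
      _ ≤ f * p := Nat.mul_le_mul hf h4
  have hm : (idl (lvX p f 0) : Ideal (OO A B)) ≠ ⊥ := by
    rw [Ne, Ideal.span_singleton_eq_bot]
    exact nat_ne (by omega)
  have hm1 : (idl (lvX p f 0) : Ideal (OO A B)) ≠ ⊤ := by
    rw [Ne, Ideal.span_singleton_eq_top]
    intro hu
    obtain ⟨y, hy⟩ := hu.exists_right_inv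
    have h := congrArg QuadraticAlgebra.re hy
    rw [QuadraticAlgebra.re_mul] at h
    simp only [QuadraticAlgebra.re_natCast, QuadraticAlgebra.im_natCast, QuadraticAlgebra.re_one,
      mul_zero, zero_mul, add_zero] at h
    have h' : ((lvX p f 0 : ℕ) : ℤ) ∣ 1 := ⟨_, h.symm⟩
    have h'' := Int.le_of_dvd one_pos h'
    omega
  have hbot : ∀ a : Ideal (OO A B), IsCoprime a (idl (lvX p f 0)) → a ≠ ⊥ := by
    rintro a ha rfl
    apply hm1
    rw [← Ideal.isCoprime_iff_sup_eq.1 ha, bot_sup_eq]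
  obtain ⟨a1, a2, -, a4, a5, -, -⟩ := h1 A B S.cq T ⟨_, _, _, R.nl R.i0⟩
    (idl (lvX p f 0)) hm (idl_le2 h2l) K hK hKm hG
  let _ : Algebra (kk A B) K := algC hK
  obtain ⟨ψ, s1, s2, s3, s4, s5, s6⟩ := psi (idl (lvX p f 0))
    (fun τ a => AR_E hK (idl (lvX p f 0)) τ a) X r hX a1
    (fun a ha => a2 a (hbot a ha) ha)
    (fun τ a h => by obtain ⟨σ, h, -⟩ := h; exact h.cop)
    a4 a5
  have hcop : ∀ x : OO A B, IsCoprime (sp x) (idl (lvX p f 0)) ↔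
      IsCoprime x ((lvX p f 0 : ℕ) : OO A B) := fun x => Ideal.isCoprime_span_singleton_iff _ _
  refine ⟨fun x => ψ (sp x), fun i => ψ (cjI (R.b i)), ?_, ?_, ?_, ?_, ?_, ?_, ?_, ?_, ?_⟩
  · show ψ (sp 1) = 1
    rw [sp, Ideal.span_singleton_one, s3]
  · show ψ (sp (-1)) = 1
    rw [sp, Ideal.span_singleton_neg, Ideal.span_singleton_one, s3]
  · intro x y
    show ψ (sp (x * y)) = ψ (sp x) * ψ (sp y)
    rw [← s2, sp, sp, sp, Ideal.span_singleton_mul_span_singleton]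
  · intro x y hxy
    show ψ (sp x) = ψ (sp y)
    by_cases hx : IsCoprime (sp x) (idl (lvX p f 0))
    · have hy := cop_sub hxy hx
      have hx0 : x ≠ 0 := by
        rintro rfl
        exact hbot _ hx (by rw [sp, Ideal.span_singleton_eq_bot])
      have hy0 : y ≠ 0 := by
        rintro rfl
        exact hbot _ hy (by rw [sp, Ideal.span_singleton_eq_bot])
      refine s6 _ _ ⟨y, x, hy0, hx0, hy, ?_, mul_comm _ _⟩ hx hy
      rw [← neg_sub]
      exact neg_mem hxy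
    · have hy : ¬ IsCoprime (sp y) (idl (lvX p f 0)) := fun hy => hx (cop_sub (by
        rw [← neg_sub]
        exact neg_mem hxy) hy)
      rw [not_not.1 fun h => hx ((s4 _).1 h), not_not.1 fun h => hy ((s4 _).1 h)]
  · intro x
    exact (s4 _).trans (hcop x)
  · intro x hx
    exact s5 _ hx
  · intro z hz
    show ψ (sp z) = 1
    rw [sp, Ideal.span_singleton_eq_top.2 hz, s3]
  · intro i
    apply s5
    rw [s4]
    obtain ⟨-, -, n3, -⟩ := h4 A B (Pool.Agent.MUXY.cqF S.cq)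
    obtain ⟨-, -, -, n4⟩ := n3 (R.b i) (R.nl i).b_ne
    have h5 : ((nI (R.b i) : ℕ) : OO A B) ∈ cjI (R.b i) := by
      show (starRingEnd (OO A B)) ((nI (R.b i) : ℕ) : OO A B) ∈ R.b i
      rw [map_natCast]
      exact n4
    obtain ⟨u, v, huv⟩ := cop_nat (A := A) (B := B) (lv_cop (R.cop i))
    exact Ideal.isCoprime_iff_exists.2 ⟨u * _, Ideal.mul_mem_left _ _ h5, v * _,
      Ideal.mul_mem_left _ _ (Ideal.mem_span_singleton_self _), huv⟩
  · intro τ i x hx hA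
    show (((X τ)⁻¹ : ℂˣ) : ℂ) = ψ (cjI (R.b i)) * ψ (sp x)
    rw [← s1 τ _ hA, s2, mul_comm]


/-- E0L -/
theorem t_E0LE (hARF : Si_ARF_E) (hIAF : Si_IAF_E) (hLAY : Si_LAY)
    (hNIM : Pool.Agent.MUXF.Sx_NIM) (hGAL : Pool.Agent.MUXJ.Sj_GAL_E) : S_E0LE := by
  classical
  intro l g s hGen p A B P V f hS hlf T ι _ R K _ hK hSub Bl hlay hmono
  have hc : CQ A B := hS.toCQ
  have hpp : p.Prime := hS.pp
  have hp2 : p ≠ 2 := by have := hS.p5; omega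
  have hls := gen_ls hGen
  have hlp : l.Prime := by
    rcases hls with ⟨rfl, -⟩ | ⟨rfl, -⟩
    · exact Nat.prime_three
    · exact Nat.prime_two
  have : Fact l.Prime := ⟨hlp⟩
  have hs1 : 1 ≤ s := by rcases hls with ⟨-, h⟩ | ⟨-, h⟩ <;> omega
  have hlf1 : l ∣ f := (dvd_pow_self l (by omega)).trans hlf
  have hpl : ¬ p ∣ l := by
    intro h
    exact hS.fp (h.trans hlf1)
  have hlv : ∀ f' : ℕ, lvX p f' 0 = f' * p := fun f' => by
    rw [lvX_odd hp2, zero_add, pow_one]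
  have h2l : 2 ∣ lvX p f 0 := by
    rw [hlv]
    exact ((by norm_num : 2 ∣ 12).trans hS.f12).mul_right _
  have hfm : (idl (lvX p f 0) : Ideal (OO A B)) ≠ ⊥ := by
    rw [Ne, Ideal.span_singleton_eq_bot, hlv]
    exact natCast_ne_zero' hc (mul_ne_zero hS.f0 hpp.ne_zero)
  have fdk : FiniteDimensional ℚ (kk A B) := FiniteDimensional.of_injective
    (IntermediateField.inclusion hK).toLinearMap
    (IntermediateField.inclusion hK).toRingHom.injective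
  obtain ⟨gK, -, cK⟩ := hGAL A B T (idl (lvX p f 0)) hfm K hK hSub
  have hB : Twr l (kk A B) K Bl := ⟨hK, gK, cK, hlay, hmono⟩
  let aK : Algebra (kk A B) K := algC hK
  have galK : IsGalois (kk A B) K := (isGalois_algC hK).2 gK
  have tK : IsScalarTower ℚ (kk A B) K := IsScalarTower.of_algebraMap_eq (fun _ => rfl)
  have fdK : FiniteDimensional (kk A B) K := Module.Finite.of_restrictScalars_finite ℚ (kk A B) K
  have hfB : ∀ n, FiniteDimensional ℚ (Bl n) := fun n => (LAY_thm l n (Bl n) (hlay n)).1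
  have hfL : ∀ n, FiniteDimensional ℚ ↥(K ⊔ Bl n) := fun n =>
    IntermediateField.finiteDimensional_sup K (Bl n)
  have hc0 : Nat.card (K ≃ₐ[kk A B] K) ≠ 0 := Nat.card_pos.ne'
  obtain ⟨a, r, hr, hcr⟩ := Nat.exists_eq_pow_mul_and_not_dvd hc0 p hpp.ne_one
  have hr0 : r ≠ 0 := by
    rintro rfl
    exact hr (dvd_zero p)
  have hcopf : ∀ i, (nI (R.b i)).Coprime f := fun i => (R.cop i).coprime_mul_left_right
  have hcopp : ∀ i, (nI (R.b i)).Coprime p := fun i => (R.cop i).coprime_mul_right_right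
  -- the characters of `Gal(K/k)`
  have hE := fun (j : {X : (K ≃ₐ[kk A B] K) →* ℂˣ // ∀ g, X g ^ r = 1}) =>
    e0E hARF hNIM p A B f ⟨hS.toCQ, hS.pp, hp2, hS.f0⟩ h2l T ι R K hK hSub galK j.1 r j.2
  choose e0 kp e1 e2 e3 e4 e5 e6 eu e7 e8 using hE
  refine ⟨{X : (K ≃ₐ[kk A B] K) →* ℂˣ // ∀ g, X g ^ r = 1}, fin_chr r hr0, r, e0, kp, hr,
    fun j => ⟨e1 j, e2 j, e3 j, e4 j, e5 j, e6 j, eu j, e7 j⟩, ?_⟩
  intro n hn
  let aL : Algebra (kk A B) ↥(K ⊔ Bl (n + 1)) := algC hn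
  intro X t ht hXt hg₀
  obtain ⟨g₀, hg1, hg2⟩ := hg₀
  obtain ⟨galL, comL⟩ := gal_ab l (kk A B) K Bl hB (n + 1) hn
  have tL : IsScalarTower ℚ (kk A B) ↥(K ⊔ Bl (n + 1)) :=
    IsScalarTower.of_algebraMap_eq (fun _ => rfl)
  have fdL : FiniteDimensional (kk A B) ↥(K ⊔ Bl (n + 1)) :=
    Module.Finite.of_restrictScalars_finite ℚ (kk A B) _
  obtain ⟨r₁, r₂, hr1, hr2, hsplit⟩ := chr_split l (kk A B) K Bl hB (n + 1) hn
  obtain ⟨X₁, X₂, hX12⟩ := hsplit X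
  have hX2 : ∀ g : Bl (n + 1) ≃ₐ[ℚ] Bl (n + 1), X₂ g ^ (l ^ (n + 1)) = 1 := by
    intro g
    have hGB : IsGalois ℚ (Bl (n + 1)) := (LAY_thm l (n + 1) (Bl (n + 1)) (hlay (n + 1))).2.1
    have h1 : Nat.card (Bl (n + 1) ≃ₐ[ℚ] Bl (n + 1)) = l ^ (n + 1) := by
      rw [IsGalois.card_aut_eq_finrank, (hlay (n + 1)).1]
    rw [← h1, ← map_pow, pow_card_eq_one', map_one]
  have hpl' : ¬ p ∣ l ^ (n + 1) := fun h => hpl (hpp.dvd_of_dvd_pow h)
  obtain ⟨Y, hYr, hXY⟩ := fix_ord p a r t (l ^ (n + 1)) hpp hcr r₁ r₂ X X₁ X₂ hX12 ht hXt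
    hpl' hX2
  obtain ⟨ψ, hψ1, hψ2, hψ3⟩ := cyc hLAY l s n hls (Bl n) (Bl (n + 1)) (hlay n) (hlay (n + 1))
    (hmono (Nat.le_succ n)) X₂
  refine ⟨⟨Y, hYr⟩, ψ, hψ1, hψ2 ?_, ?_⟩
  · -- the ramified part
    refine ⟨r₂ g₀, ?_, ?_⟩
    · intro x hx
      have h1 := hr2 g₀ x ⟨(x : ℂ), (le_sup_right : Bl (n + 1) ≤ K ⊔ Bl (n + 1)) x.2⟩ rfl
      have h2 := hg1 ⟨(x : ℂ), (le_sup_right : Bl (n + 1) ≤ K ⊔ Bl (n + 1)) x.2⟩
        ((le_sup_right : Bl n ≤ K ⊔ Bl n) hx)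
      rw [h2] at h1
      exact Subtype.ext h1.symm
    · intro h1
      have h2 : r₁ g₀ = 1 := by
        ext x
        have h3 := hr1 g₀ x ⟨(x : ℂ), (le_sup_left : K ≤ K ⊔ Bl (n + 1)) x.2⟩ rfl
        have h4 := hg1 ⟨(x : ℂ), (le_sup_left : K ≤ K ⊔ Bl (n + 1)) x.2⟩
          ((le_sup_left : K ≤ K ⊔ Bl n) x.2)
        rw [h4] at h3
        exact h3.symm
      have h3 : X g₀ = 1 := by rw [hXY g₀, h1, h2, map_one, mul_one]
      exact hg2 h3
  · intro τ i x hxc hAR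
    have hM0 : (l ^ (n + 1 + s)) ≠ 0 := pow_ne_zero _ hlp.ne_zero
    have hm2 : 2 ≤ lvX p (f * l ^ (n + 1 + s)) 0 := by
      rw [hlv]
      calc 2 ≤ p := hpp.two_le
        _ = 1 * p := (one_mul p).symm
        _ ≤ f * l ^ (n + 1 + s) * p := Nat.mul_le_mul_right _
          (Nat.pos_of_ne_zero (mul_ne_zero hS.f0 hM0))
    have hm0 : idl (A := A) (B := B) (lvX p (f * l ^ (n + 1 + s)) 0) ≠ ⊥ := by
      rw [Ne, Ideal.span_singleton_eq_bot]
      exact natCast_ne_zero' hc (by omega)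
    have hNL : ∃ (b : Ideal (OO A B)) (L : PeriodPair) (om : ℂ), IsNE b L om :=
      ⟨_, _, _, R.nl R.i0⟩
    have hmf : idl (A := A) (B := B) (lvX p (f * l ^ (n + 1 + s)) 0) ≤ idl (lvX p f 0) := by
      rw [hlv, hlv, Ideal.span_singleton_le_span_singleton]
      push_cast
      exact mul_dvd_mul_right (dvd_mul_right _ _) _
    have hmM : idl (A := A) (B := B) (lvX p (f * l ^ (n + 1 + s)) 0) ≤
        idl (l ^ (n + 1 + s)) := by
      rw [hlv, Ideal.span_singleton_le_span_singleton]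
      push_cast
      exact (dvd_mul_left _ _).mul_right _
    -- the field is contained in the ray class field
    obtain ⟨i1, -, -, -, -, -, -, i8⟩ := hIAF A B hc T hNL _ hm0
    have hD := t_LVTE hLAY hIAF l g s hGen p A B P V f hS T hNL K hSub (n + 1) (Bl (n + 1))
      (hlay (n + 1))
    have h2m : 2 ∣ lvX p (f * l ^ (n + 1 + s)) 0 := by
      rw [hlv]
      exact (((by norm_num : 2 ∣ 12).trans hS.f12).mul_right _).mul_right _
    obtain ⟨a1, -, a3, a4, a5, a6, a7⟩ := hARF A B hc T hNL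
      (idl (lvX p (f * l ^ (n + 1 + s)) 0)) hm0 (idl_le2 h2m) (K ⊔ Bl (n + 1)) hn hD galL
    have hx0 : x ≠ 0 := by
      intro h0
      rw [h0, isCoprime_zero_left] at hxc
      obtain ⟨z, hz⟩ := hxc.exists_right_inv
      have h := congrArg QuadraticAlgebra.re hz
      rw [QuadraticAlgebra.re_mul] at h
      simp only [QuadraticAlgebra.re_natCast, QuadraticAlgebra.im_natCast,
        QuadraticAlgebra.re_one, mul_zero, zero_mul, add_zero] at h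
      have h' : ((lvX p (f * l ^ (n + 1 + s)) 0 : ℕ) : ℤ) ∣ 1 := ⟨_, h.symm⟩
      have h'' := Int.le_of_dvd one_pos h'
      omega
    have hb0 : R.b i ≠ ⊥ := (R.nl i).b_ne
    have hspx : sp x ≠ ⊥ := by
      rwa [Ne, Ideal.span_singleton_eq_bot]
    obtain ⟨N, hNdef⟩ : ∃ N : ℕ, N = nI (sp x * cjI (R.b i)) := ⟨_, rfl⟩
    have hN : ((N : ℕ) : ℤ) = nm x * nI (R.b i) := by
      rw [hNdef, nI_mul hc hspx (cjI_ne_bot hc hb0), nI_sp hc hx0, nI_cjI hc hb0]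
      push_cast
      rw [abs_of_nonneg (nm_nonneg hc x)]
    -- the automorphism of `ℂ`
    obtain ⟨σ, hσ, hσe⟩ := hAR
    have hσz : ∀ z : ℂ, z ^ (l ^ (n + 1 + s)) = 1 → σ z = z ^ N := fun z hz => by
      rw [hNdef]
      exact (i8 (l ^ (n + 1 + s)) σ _ z hM0 hmM hσ hz).2
    have hNl : N.Coprime l := by
      have hζ : IsPrimitiveRoot (zt (l ^ (n + 1 + s))) (l ^ (n + 1 + s)) :=
        Complex.isPrimitiveRoot_exp (l ^ (n + 1 + s)) hM0
      have h1 : IsPrimitiveRoot (σ (zt (l ^ (n + 1 + s)))) (l ^ (n + 1 + s)) :=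
        hζ.map_of_injective (f := σ) σ.injective
      rw [hσz _ hζ.pow_eq_one] at h1
      have h2 := (hζ.pow_iff_coprime (Nat.pos_of_ne_zero hM0) N).1 h1
      exact h2.coprime_dvd_right (dvd_pow_self l (by omega))
    have hσB : ∀ y : Bl (n + 1), (σ : ℂ →+* ℂ) (y : ℂ) = (r₂ τ y : Bl (n + 1)) := by
      intro y
      have h1 := hσe ⟨(y : ℂ), (le_sup_right : Bl (n + 1) ≤ K ⊔ Bl (n + 1)) y.2⟩
      have h2 := hr2 τ y ⟨(y : ℂ), (le_sup_right : Bl (n + 1) ≤ K ⊔ Bl (n + 1)) y.2⟩ rfl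
      rw [h2] at h1
      exact h1
    have hψN := hψ3 (σ : ℂ →+* ℂ) N (r₂ τ) hNl hσz hσB
    have hARK : AR_E hK (idl (lvX p f 0)) (r₁ τ) (sp x * cjI (R.b i)) :=
      a6 K hK (idl (lvX p f 0)) hmf le_sup_left τ (r₁ τ) _ (fun y y' h => hr1 τ y y' h)
        ⟨σ, hσ, hσe⟩
    have hxfp : IsCoprime x ((lvX p f 0 : ℕ) : OO A B) := by
      refine IsCoprime.of_isCoprime_of_dvd_right hxc ?_
      rw [hlv, hlv]
      push_cast
      exact mul_dvd_mul_right (dvd_mul_right _ _) _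
    have hΨ := e8 ⟨Y, hYr⟩ (r₁ τ) i x hxfp hARK
    have hcast : ((nI (R.b i) : ℕ) : ZMod (l ^ (n + 1 + s))) *
        ((nm x : ℤ) : ZMod (l ^ (n + 1 + s))) = ((N : ℕ) : ZMod (l ^ (n + 1 + s))) := by
      have h1 := congrArg (Int.cast : ℤ → ZMod (l ^ (n + 1 + s))) hN
      push_cast at h1
      rw [h1, mul_comm]
    have h2 : kp ⟨Y, hYr⟩ i * ψ ((nI (R.b i) : ℕ) : ZMod (l ^ (n + 1 + s))) *
        (e0 ⟨Y, hYr⟩ x * ψ ((nm x : ℤ) : ZMod (l ^ (n + 1 + s)))) =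
        (kp ⟨Y, hYr⟩ i * e0 ⟨Y, hYr⟩ x) * (ψ ((nI (R.b i) : ℕ) : ZMod (l ^ (n + 1 + s))) *
          ψ ((nm x : ℤ) : ZMod (l ^ (n + 1 + s)))) := by ring
    rw [h2, ← map_mul, hcast, hψN, ← hΨ, ← Units.val_mul, ← mul_inv, ← hXY τ]

end Pool.Agent.OE
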