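import Pool.Agent.OB.IAll
import Pool.Agent.OT.I_Z0
import Pool.Agent.OT.I_ZAR
import Pool.Agent.OT.I_NCB
import Pool.Agent.OT.I_CHK
import Pool.Agent.ME.X.IAll
import Pool.Agent.ME.X.JAll
import Pool.Agent.OE.G_TEI
import Pool.Agent.OE.G_EPS
import Pool.Agent.OE.G_PRF
import Pool.Agent.OE.L_E0L
import Pool.Agent.OE.I_TSH
import Pool.Agent.OE.I_EIX
import Pool.Agent.OE.I_SUB
import Pool.Agent.OE.I_XMF
import Pool.Agent.OE.I_THF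
import Pool.Agent.OE.I_POW
import Pool.Agent.OE.I_TEU
import Pool.Agent.OE.I_ITE

/-!
# OE, block I: the result from `O_HETAE` (helper79)
-/

set_option autoImplicit false

namespace Pool.Agent.OEI

open Pool.Agent.MUXF Pool.Agent.MUXU Pool.Agent.MUXY Pool.Agent.MUXK Pool.Agent.MUXI
  Pool.Agent.NSI Pool.Agent.OB Pool.Agent.OBT Pool.Agent.RI Pool.Agent.RID Pool.Agent.OT
  Pool.Agent.OTI Pool.Agent.OE

/-- (PRF) for `CaseG` -/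
theorem g_PRF : S_PRFG := o_PRFG o_BASG

/-- (TEI) for `CaseG` -/
theorem g_TEI : S_TEIG := o_TEIG o_BASG g_PRF

/-- (EPS) for `SetG` -/
theorem g_EPS : S_EPSG := o_EPSG o_BASG g_PRF

/-- THE RESULT of block I -/
theorem oei_ITE (hH : O_HETAE) : O_ITE :=
  te_ITE Pool.Agent.MUXJ.j_RES Pool.Agent.OBI.o_CHI ti_CHK
    (t_E0LE i_ARF_E i_IAF_E i_LAY xf_NIM Pool.Agent.MUXJ.j_GAL_E) (te_EPS g_EPS te_TEU)
    g_TEI (t_LVTE i_LAY i_IAF_E) i_ARF_E i_XXF_E (te_SUB i_IAF_E)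
    Pool.Agent.OBI.o_GAM Pool.Agent.OBI.o_NCR ti_Z0 (te_XMF i_XXF_E i_ARF_E ti_NCB ti_ZAR)
    (te_THF (te_TSH i_PTP_E xf_ALG) ti_ZAR i_PTP_E) (te_POW n_FOU Pool.Agent.MU3I.t_ITG) te_EIX
    i_GEN hH k_GALX k_RSX o_BASG

end Pool.Agent.OEI
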