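import Pool.Agent.OE.StI
import Pool.Agent.OT.I_THF
import Pool.Agent.ME.N.I_TH

/-!
# OE, block I, module THF: the sums over `Δ` are the sums `SGX` (after `Pool/Agent/OT/I_THF.lean` and `Pool/Agent/ME/N/I_TH.lean`)
-/

set_option autoImplicit false

open NumberField

namespace Pool.Agent.OEI

open _root_.MU3 Pool.Agent.MU3 Pool.Agent.MU3A Pool.Agent.MU3B Pool.Agent.RI Pool.Agent.RID
  Pool.Agent.MUX Pool.Agent.ME Pool.Agent.MUXK Pool.Agent.MUXI Pool.Agent.NS Pool.Agent.NSI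
  Pool.Agent.OB Pool.Agent.OBI Pool.Agent.OT Pool.Agent.OTI Pool.Agent.OE

noncomputable section

namespace THFx

section

variable {A B : ℤ} {p f n : ℕ} {ι : Type} {R : RepsE A B (p * f) ι} {z₀ : ℤ} {G : Type} [Group G]
  {γ : G} {Δ : Subgroup G} {X : G → Set (ι × (OO A B ⧸ idl (A := A) (B := B) (lvX p f n)))}

lemma mem_iff (hM : XMFE R p f n z₀ γ Δ X)
    (q : ι × (OO A B ⧸ idl (A := A) (B := B) (lvX p f n))) (j : ℕ) :
    (∃ δ : Δ, q ∈ X (γ ^ j * (δ : G))) ↔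
      (Quotient.out q.2 : OO A B) - 1 ∈ idl (A := A) (B := B) 2 ∧
      (IsCoprime (Quotient.out q.2 : OO A B) ((lvX p f n : ℕ) : OO A B) ∧
      ∃ k < p - 1, ((p ^ (n + 1) : ℕ) : ℤ) ∣
        nm (Quotient.out q.2) * nI (R.b q.1) - z₀ ^ k * (1 + (p : ℤ)) ^ j) := by
  constructor
  · rintro ⟨δ, hδ⟩
    refine ⟨hM.two _ _ hδ, hM.cop _ _ hδ, (hM.nrm q _ hδ j).1 ?_⟩
    rw [hM.comm (γ ^ j) δ, mul_inv_cancel_right]
    exact δ.2
  · rintro ⟨h2, hc, hC⟩
    obtain ⟨τ, hτ⟩ := hM.ex q hc h2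
    have h1 := (hM.nrm q τ hτ j).2 hC
    refine ⟨⟨_, h1⟩, ?_⟩
    have h2 : γ ^ j * (τ * (γ ^ j)⁻¹) = τ := by
      rw [hM.comm (γ ^ j), inv_mul_cancel_right]
    rw [h2]
    exact hτ

end

lemma muX_ne {p : ℕ} {A B : ℤ} {f : ℕ}
    (hS : SetQ p A B f) {ι : Type} (R : RepsE A B (p * f) ι) (i : ι) : muXE R i ≠ 0 := by
  have h1 : nI (R.b i) ≠ 0 := by
    intro h0
    have h2 := R.cop i
    rw [h0, Nat.coprime_zero_left] at h2
    have h3 : p = 1 := Nat.eq_one_of_mul_eq_one_right h2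
    exact hS.pp.one_lt.ne' h3
  unfold muXE
  refine div_ne_zero (mul_ne_zero (R.nl i).om_ne ?_) (R.nl R.i0).om_ne
  exact_mod_cast h1

end THFx

open Classical in
/-- (THF) the sums over `Δ` are the sums `SGX` -/
theorem te_THF (h1 : Te_TSH) (h2 : Ti_ZAR) (hP : Si_PTP_E) : Te_THF := by
  intro p A B f hS hE2 h2f g hlv hg ι _ R n z₀ hz G _ _ γ Δ _ X hM χ e0 kp c w e t q₁ hq₁ ht hE
    hes hχ j
  have hm0 : lvX p f n ≠ 0 := OBI.THx.lvX_ne hS n
  have hfin : Finite (OO A B ⧸ idl (A := A) (B := B) (lvX p f n)) := MUXI.TH.finR _ hm0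
  rw [MUXI.TH.sum_disj (fun δ : Δ => X (γ ^ j * (δ : G)))
    (fun q δ δ' h2 h4 => Subtype.ext (mul_left_cancel (hM.uniq q _ _ h2 h4)))
    (fun δ => (((χ δ)⁻¹ : ℂˣ) : ℂ)) _ (fun q => kp q.1 * e0 (Quotient.out q.2))
    (fun δ q hq => hχ δ j q hq)]
  set GG : ι → OO A B → ℂ := fun i x =>
      kp i * c i * (t (nI (R.b i)))⁻¹ * ∑ k ∈ Finset.range (p - 1), t (z₀ ^ k) *
      (if ((p ^ (n + 1) : ℕ) : ℤ) ∣ nm x * nI (R.b i) - z₀ ^ k * (1 + (p : ℤ)) ^ j then
        e x * dlX (R.L i) (aX p f) (ptE R (lvX p f n) i x) else 0) with hGG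
  have hind : ∀ q : ι × (OO A B ⧸ idl (A := A) (B := B) (lvX p f n)),
      (if ∃ δ : Δ, q ∈ X (γ ^ j * (δ : G)) then
        kp q.1 * e0 (Quotient.out q.2) * (w (Quotient.out q.2) *
        c q.1 * dlX (R.L q.1) (aX p f) (ptE R (lvX p f n) q.1 (Quotient.out q.2))) else 0) =
      if (Quotient.out q.2 : OO A B) - 1 ∈ idl (A := A) (B := B) 2 then
        GG q.1 (Quotient.out q.2) else 0 := by
    intro q
    rw [if_congr (THFx.mem_iff hM q j) rfl rfl, ite_and]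
    refine if_congr Iff.rfl ?_ rfl
    exact OTI.THFx.term hS n h2 hz hg hE.toIsEI hq₁ ht hes _ j _ _ _ _
  have hmM : lvX p f n = f * p ^ (n + 1) := lvX_odd hS.p2 f n
  have hlvd : ((p ^ (n + 1) : ℕ) : ℤ) ∣ ((lvX p f n : ℕ) : ℤ) := ⟨(f : ℤ), by
    rw [hmM]; push_cast; ring⟩
  have hle0 : idl (A := A) (B := B) (lvX p f n) ≤ idl (A := A) (B := B) (lvX p f 0) := by
    refine Ideal.span_singleton_le_span_singleton.2 ⟨((p ^ n : ℕ) : OO A B), ?_⟩
    unfold lvX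
    push_cast
    ring
  have h2n : 2 ∣ lvX p f n := by
    rw [hmM]
    exact h2f.mul_right _
  have hus : ∀ i : ι, (rE A B : ℂ) * ∑ᶠ q : OO A B ⧸ idl (A := A) (B := B) (lvX p f n),
      (if (Quotient.out q : OO A B) - 1 ∈ idl (A := A) (B := B) 2 then
        GG i (Quotient.out q) else 0) =
      ∑ᶠ q : OO A B ⧸ idl (A := A) (B := B) (lvX p f n), GG i (Quotient.out q) := by
    intro i
    refine USum.usum hE2 hm0 h2n (GG i) ?_ ?_ ?_
    · intro x y hxy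
      have e1 : e x = e y := hE.per x y (hlv (hle0 hxy))
      have e2 := (hP A B hE2.toCQ (p * f) ι R (lvX p f n) hm0 i).1 x y hxy
      have e3 := e2.2.2 (aX p f)
      have e4 : ∀ t : ℤ, ((p ^ (n + 1) : ℕ) : ℤ) ∣ nm x * nI (R.b i) - t ↔
          ((p ^ (n + 1) : ℕ) : ℤ) ∣ nm y * nI (R.b i) - t := by
        intro t
        have e5 : ((p ^ (n + 1) : ℕ) : ℤ) ∣ (nm x - nm y) * nI (R.b i) :=
          (hlvd.trans (NSI.TH.nm_per hxy)).mul_right _
        have e6 : nm x * nI (R.b i) - t = (nm y * nI (R.b i) - t) + (nm x - nm y) * nI (R.b i) := by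
          ring
        rw [e6]
        exact (Int.dvd_add_left e5)
      simp only [hGG]
      rw [e1, e3]
      congr 1
      refine Finset.sum_congr rfl fun k _ => ?_
      rw [if_congr (e4 _) rfl rfl]
    · intro x hx
      have e1 : e x ≠ 0 := by
        intro h0
        apply hx
        simp only [hGG, h0, zero_mul, ite_self, mul_zero, Finset.sum_const_zero]
      have h8 : IsCoprime x ((f : ℕ) : OO A B) := OBI.THx.cop_f hg ((hE.supp x).1 e1)
      obtain ⟨k, hk⟩ := h2f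
      have h9 : (2 : OO A B) ∣ ((f : ℕ) : OO A B) := ⟨(k : OO A B), by rw [hk]; push_cast; rfl⟩
      exact h8.of_isCoprime_of_dvd_right h9
    · intro z x hz
      have e1 : nm (z * x) = nm x := by
        rw [nm_mul hE2.toCQ, (isUnit_nm hE2 z).1 hz, one_mul]
      have e2 : e (z * x) = emb z * e x := by rw [hE.mul, hE.unit z hz]
      have e3 : dlX (R.L i) (aX p f) (ptE R (lvX p f n) i (z * x)) =
          dlX (R.L i) (aX p f) (ptE R (lvX p f n) i x) / emb z := by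
        rw [NSI.TH.ptE_mul hE2.toCQ]
        exact dlX_unit hE2 (R.nl i).toIsLI hz _ _
      have hz0 : emb z ≠ 0 := emb_ne_zero hE2.toCQ fun h0 => not_isUnit_zero (by
        haveI := isDomain hE2.toCQ
        exact (h0 ▸ hz : IsUnit (0 : OO A B)))
      have e4 : e (z * x) * dlX (R.L i) (aX p f) (ptE R (lvX p f n) i (z * x)) =
          e x * dlX (R.L i) (aX p f) (ptE R (lvX p f n) i x) := by
        rw [e2, e3]
        field_simp
      simp only [hGG]
      rw [e1, e4]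
  rw [finsum_congr hind, MUXI.TH.sum_pairs, Finset.mul_sum, Finset.sum_congr rfl fun i _ => hus i]
  have hsum : ∀ i : ι, ∑ᶠ q : OO A B ⧸ idl (A := A) (B := B) (lvX p f n),
      GG i (Quotient.out q) =
      ∑ k ∈ Finset.range (p - 1), t (z₀ ^ k) * (kkTE R kp c t i *
        ((aX p f : ℂ) * SnXE R (lvX p f n) (p ^ (n + 1)) e i
          ((aX p f : ℤ) ^ 2 * (z₀ ^ k * (1 + (p : ℤ)) ^ j)) -
        (aX p f : ℂ) ^ 2 * SnXE R (lvX p f n) (p ^ (n + 1)) e i
          (z₀ ^ k * (1 + (p : ℤ)) ^ j))) := by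
    intro i
    rw [OTI.THFx.comb_sumk (Q := OO A B ⧸ idl (A := A) (B := B) (lvX p f n)) (p - 1) _ _ _ _
      (fun x => rfl), Finset.mul_sum]
    refine Finset.sum_congr rfl fun k _ => ?_
    have hT := h1 p A B f hS g hlv ι R n e hE.toIsEI i (z₀ ^ k * (1 + (p : ℤ)) ^ j)
    rw [← hT]
    have hmu := THFx.muX_ne hS R i
    unfold kkTE sumMod
    field_simp
  rw [Finset.sum_congr rfl fun i _ => hsum i]
  unfold SGX STXE
  simp_rw [Finset.mul_sum]
  rw [Finset.sum_comm]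

end

end Pool.Agent.OEI
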