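import Pool.Agent.OE.J_MAIN
import Pool.Agent.OB.F_ONE

/-!
# OE, block J, module NB (helper19): the result of the block, for `ℚ(i)`, `ℚ(√-3)`

After `OT/J_NBT.lean`.
-/

set_option autoImplicit false

open NumberField IsDedekindDomain

namespace Pool.Agent.OEJ

open _root_.MU3 Pool.Agent.MU3 Pool.Agent.MU3A Pool.Agent.MU3B Pool.Agent.RI Pool.Agent.RID
  Pool.Agent.MUX Pool.Agent.ME Pool.Agent.MUXK Pool.Agent.MUXE Pool.Agent.MUXJ Pool.Agent.MUXZ
  Pool.Agent.NSI Pool.Agent.OB Pool.Agent.OE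
open Pool.Agent.OTJ (AbK LyL NewC newC_mp fd_LL S_PIGS)
open _root_.Pool.Agent.TWR (Gen)
open Pool.Agent.OBF.CHIx

/-- a subfield of a quadratic field with an element which is not real is equal to it -/
theorem quad_eq {k k' : IntermediateField ℚ ℂ} (h : Module.finrank ℚ k = 2)
    (hle : k' ≤ k) {z : ℂ} (hz : z ∈ k') (hr : (starRingEnd ℂ) z ≠ z) : k = k' := by
  have f1 : FiniteDimensional ℚ k := Module.finite_of_finrank_pos (by rw [h]; norm_num)
  have f3 : FiniteDimensional ℚ k' :=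
    Module.Finite.of_injective (IntermediateField.inclusion hle).toLinearMap
      (IntermediateField.inclusion hle).injective
  have h1 : Module.finrank ℚ k' ≠ 1 := by
    intro h1
    have h2 : k' = ⊥ := IntermediateField.finrank_eq_one_iff.1 h1
    rw [h2] at hz
    obtain ⟨q, hq⟩ := IntermediateField.mem_bot.1 hz
    apply hr
    rw [← hq]
    simp
  have h2 : Module.finrank ℚ k' = 2 := by
    have h3 : Module.finrank ℚ k' ≤ Module.finrank ℚ k :=
      LinearMap.finrank_le_finrank_of_injective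
        (f := (IntermediateField.inclusion hle).toLinearMap)
        (IntermediateField.inclusion hle).injective
    have h4 : 0 < Module.finrank ℚ k' := Module.finrank_pos
    omega
  exact (IntermediateField.eq_of_le_of_finrank_eq hle (h2.trans h.symm)).symm

theorem wC_one : wC (MUXZ.pA 1) (MUXZ.pB 1) = Complex.I := by
  unfold wC
  rw [MUXZ.absD_p]
  unfold MUXZ.pB
  norm_num

theorem wC_three : wC (MUXZ.pA 3) (MUXZ.pB 3) = (1 + (Real.sqrt 3 : ℝ) * Complex.I) / 2 := by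
  unfold wC
  rw [MUXZ.absD_p]
  unfold MUXZ.pB
  norm_num
  ring

theorem sqrt3_sq : (((Real.sqrt 3 : ℝ) : ℂ) * Complex.I) ^ 2 = -3 := by
  have h3 : ((Real.sqrt 3 : ℝ) : ℂ) ^ 2 = 3 := by
    rw [← Complex.ofReal_pow, Real.sq_sqrt (by norm_num)]
    norm_num
  rw [mul_pow, h3, Complex.I_sq]
  norm_num

/-- `ℚ(i)` -/
theorem kk_eq_one {k : IntermediateField ℚ ℂ} (h : Module.finrank ℚ k = 2)
    (hz : ∃ z ∈ k, z ^ 2 = -1) : k = kk (MUXZ.pA 1) (MUXZ.pB 1) := by
  obtain ⟨z, hz, hz1⟩ := hz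
  have hI : Complex.I ∈ k := by
    have h1 : (Complex.I - z) * (Complex.I + z) = 0 := by
      linear_combination Complex.I_sq - hz1
    rcases mul_eq_zero.1 h1 with h2 | h2
    · rw [sub_eq_zero.1 h2]
      exact hz
    · rw [eq_neg_of_add_eq_zero_left h2]
      exact neg_mem hz
  refine quad_eq h ?_ JT.kk_one ?_
  · refine IntermediateField.adjoin_simple_le_iff.2 ?_
    rw [wC_one]
    exact hI
  · rw [Complex.conj_I]
    intro h1
    have h2 := congrArg Complex.im h1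
    simp at h2
    norm_num at h2

/-- `ℚ(√-3)` -/
theorem kk_eq_three {k : IntermediateField ℚ ℂ} (h : Module.finrank ℚ k = 2)
    (hz : ∃ z ∈ k, z ^ 2 = -3) : k = kk (MUXZ.pA 3) (MUXZ.pB 3) := by
  obtain ⟨z, hz, hz1⟩ := hz
  have hI : ((Real.sqrt 3 : ℝ) : ℂ) * Complex.I ∈ k := by
    have h1 : (((Real.sqrt 3 : ℝ) : ℂ) * Complex.I - z) *
        (((Real.sqrt 3 : ℝ) : ℂ) * Complex.I + z) = 0 := by
      linear_combination sqrt3_sq - hz1
    rcases mul_eq_zero.1 h1 with h2 | h2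
    · rw [sub_eq_zero.1 h2]
      exact hz
    · rw [eq_neg_of_add_eq_zero_left h2]
      exact neg_mem hz
  have hw : wC (MUXZ.pA 3) (MUXZ.pB 3) ∈ k := by
    rw [wC_three]
    have h2 : (2 : ℂ) ∈ k := by
      exact_mod_cast k.algebraMap_mem 2
    exact div_mem (add_mem (one_mem _) hI) h2
  obtain ⟨w, hw', hw3⟩ := JT.kk_three
  refine quad_eq h (IntermediateField.adjoin_simple_le_iff.2 hw) hw' ?_
  intro h1
  obtain ⟨x, rfl⟩ := Complex.conj_eq_iff_real.1 h1
  have h2 : x ^ 2 = -3 := by exact_mod_cast hw3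
  nlinarith [sq_nonneg x]

theorem case_one : CaseE (MUXZ.pA 1) (MUXZ.pB 1) :=
  { MUXZ.cq_p (d := 1) squarefree_one with hA := by unfold MUXZ.pA; norm_num }

theorem case_three : CaseE (MUXZ.pA 3) (MUXZ.pB 3) :=
  { MUXZ.cq_p (d := 3) Nat.prime_three.squarefree with hA := by unfold MUXZ.pA; norm_num }

/-- (NB) -/
theorem t_NBE (hM : S_MAINTE) (hLAY : OBF.Sf_LAY) : OEF.O_TJE := by
  intro p hpf h5 l g h hG k K₀ _ hk h2 hi hcase hA Ln hL
  obtain ⟨A, B, hE, rfl⟩ : ∃ (A B : ℤ), CaseE A B ∧ k = kk A B := by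
    rcases hcase with h4 | h3
    · exact ⟨_, _, case_one, kk_eq_one h2 h4⟩
    · exact ⟨_, _, case_three, kk_eq_three h2 h3⟩
  obtain ⟨r₀, hr₀⟩ := hM p h5 A B hE l g h hG K₀ hk hA Ln hL
  refine ⟨r₀, fun r hr h' χ hχ => ?_⟩
  obtain ⟨Bn, hlay, hmono, hu⟩ := hLAY p (by omega)
  have hfd := fd_LL hG hL K₀ (r + 1)
  have hfL : ∀ n, FiniteDimensional ℚ ↥(K₀ ⊔ Ln (r + 1) ⊔ Bn n) := fun n => by
    obtain ⟨h1, -, -⟩ := LAY_thm p n (Bn n) (hlay n)
    exact IntermediateField.finiteDimensional_sup (K₀ ⊔ Ln (r + 1)) (Bn n)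
  have hk₀ : ∀ n, kk A B ≤ K₀ ⊔ Ln (r + 1) ⊔ Bn n := fun n =>
    h'.trans le_sup_left
  obtain ⟨hBX, m, hm⟩ := hr₀ r hr (K₀ ⊔ Ln (r + 1)) Bn rfl hlay hmono hk₀ h' (toC h' χ) (by
    let _ := algC h'
    obtain ⟨s', hs', h1⟩ := hχ
    refine ⟨AlgEquiv.autCongr (extEquiv h') s', fun x hx => ?_, fun h6 => h1 ?_⟩
    · have h7 := hs' ⟨(x : ℂ), x.2⟩ hx
      exact Subtype.ext (congrArg Subtype.val h7)
    · have e1 : toC h' χ (AlgEquiv.autCongr (extEquiv h') s') = χ s' :=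
        toC_apply h' χ (AlgEquiv.autCongr (extEquiv h') s') s' (by
          intro x x' hx
          obtain rfl : x' = ⟨(x : ℂ), x.2⟩ := Subtype.ext hx
          rfl)
      rw [← e1]
      exact h6)
  exact OBF.nil_mu p _ _ Bn hBX hu hk₀ h' χ m hm

end Pool.Agent.OEJ
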