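import Pool.Agent.OB.O_Fin
import Pool.Agent.OB.F_LAY
import Pool.Agent.OT.J_LEM1S
import Pool.Agent.OT.J_PIGS
import Pool.Agent.OE.J_NB

/-!
# OE, block J (helper19): the result of the block from the results of the blocks R, E, I
-/

set_option autoImplicit false

namespace Pool.Agent.OEJ

open _root_.MU3 Pool.Agent.MU3 Pool.Agent.MU3A Pool.Agent.MU3B Pool.Agent.RI Pool.Agent.RID
  Pool.Agent.MUX Pool.Agent.MUXK Pool.Agent.MUXE Pool.Agent.MUXJ Pool.Agent.MUXW Pool.Agent.MUXZ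
  Pool.Agent.OB Pool.Agent.OE

/-- THE RESULT of block J for the exceptional fields -/
theorem o_TJE (hR : O_RFINE) (hE : O_EFINE) (hI : O_ITE) : OEF.O_TJE :=
  t_NBE (t_MAINTE hR hE hI (OTJ.t_PIGS (OTJ.t_LEM1S k_GALX k_RSX) OB.o_NRX)) OBF.tf_LAY

end Pool.Agent.OEJ
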