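import Pool.Agent.OE.StI0
import Pool.Agent.OE.Defs

/-!
# OE (Theorem T+ for `ℚ(i)`, `ℚ(√-3)`), block I (helper79), second part

THE ARGUMENT as in `OT/StI.lean`. The sums over `XXE` are `1/r` times the sums over all `x`, `r = rE A B ∈ {2, 3}` (`THF`), and `v(r) = 1`.
-/

set_option autoImplicit false

open NumberField

namespace Pool.Agent.OEI

open _root_.MU3 Pool.Agent.MU3 Pool.Agent.MU3A Pool.Agent.MU3B Pool.Agent.RI Pool.Agent.RID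
  Pool.Agent.MUX Pool.Agent.ME Pool.Agent.MUXK Pool.Agent.MUXI Pool.Agent.NS Pool.Agent.NSI
  Pool.Agent.OB Pool.Agent.OBI Pool.Agent.OT Pool.Agent.OTI Pool.Agent.OE
open Pool.Agent.MU3I (zt)
open Pool.Agent.TWR (Gen)

noncomputable section

/-- (THF) the sums over `Δ` are the sums `SGX`. MODEL: `OT/I_THF.lean`, `ME/N/I_TH.lean`.

USES TSH, Ti_ZAR, Si_PTP_E. -/
def Te_THF : Prop :=
  ∀ (p : ℕ) (A B : ℤ) (f : ℕ),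
    SetQ p A B f → CaseE A B → 2 ∣ f →
    ∀ g : Ideal (OO A B), idl (A := A) (B := B) (lvX p f 0) ≤ g → g ≤ idl f →
    ∀ (ι : Type) [Fintype ι] (R : RepsE A B (p * f) ι) (n : ℕ) (z₀ : ℤ), IsZ0 p n z₀ →
    ∀ (G : Type) [Group G] [Finite G] (γ : G) (Δ : Subgroup G) [Fintype Δ]
    (X : G → Set (ι × (OO A B ⧸ idl (A := A) (B := B) (lvX p f n)))), XMFE R p f n z₀ γ Δ X →
    ∀ (χ : Δ →* ℂˣ) (e0 : OO A B → ℂ) (kp c : ι → ℂ) (w e : OO A B → ℂ) (t : ℤ → ℂ) (q₁ : ℕ),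
    q₁ ≠ 0 → IsTw p q₁ t → IsEIE g e →
    (∀ x, IsCoprime x ((lvX p f 0 : ℕ) : OO A B) → e0 x * w x = e x * t (nm x)) →
    (∀ (δ : Δ) (j : ℕ), ∀ q ∈ X (γ ^ j * (δ : G)),
      (((χ δ)⁻¹ : ℂˣ) : ℂ) = kp q.1 * e0 (Quotient.out q.2)) →
    ∀ j : ℕ,
    (rE A B : ℂ) * ∑ δ : Δ, (((χ δ)⁻¹ : ℂˣ) : ℂ) * ∑ᶠ q ∈ X (γ ^ j * (δ : G)),
        w (Quotient.out q.2) *
        c q.1 * dlX (R.L q.1) (aX p f) (ptE R (lvX p f n) q.1 (Quotient.out q.2)) =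
      SGX p R (lvX p f n) (p ^ (n + 1)) (aX p f) e (kkTE R kp c t) t z₀ ((1 + (p : ℤ)) ^ j)

/-- (POW) if the product is a `p`-th power then the sum is small. MODEL: `OT/I_POW.lean`.

USES Sn_FOU, MU3I.St_ITG. -/
def Te_POW : Prop :=
  ∀ (p : ℕ) (A B : ℤ) (P : Ideal (OO A B)) (V : ValuationSubring ℂ) (f : ℕ)
    (ι : Type) (R : RepsE A B (p * f) ι) (u : ℂ)
    (n : ℕ) (D : IntermediateField ℚ ℂ) [FiniteDimensional ℚ D] (h : kk A B ≤ D)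
    (C : (letI := algC h; D ≃ₐ[kk A B] D) → ℂ) (_ : EInpOE p P V f R u n h C)
    (w : OO A B → ℂ) (_ : IsTeiP p 1 P V w),
    letI := algC h
    ∀ (_ : ∀ σ τ : D ≃ₐ[kk A B] D, σ * τ = τ * σ) (c₁ : ℂ) (hc : c₁ ∈ D) (_ : c₁ = C 1)
      (γ : D ≃ₐ[kk A B] D) (Δ : Subgroup (D ≃ₐ[kk A B] D)) [Fintype Δ] (N k' : ℕ) (b : Δ → ℕ)
      (X : Δ →* ℂˣ) (_ : (∑ δ : Δ, (b δ : ℂ) * (X δ : ℂ)) ∉ V.nonunits) (y : D)
      (_ : y ^ p = ∏ δ : Δ, ((δ : D ≃ₐ[kk A B] D) ((Tg γ)^[N] ⟨c₁, hc⟩)) ^ b δ),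
      V.valuation ((∑ j ∈ Finset.range (N + 1),
        (((-1 : ℤ) ^ (N - j) * (N.choose j : ℤ) : ℤ) : ℂ) *
        ∑ δ : Δ, (((X δ)⁻¹ : ℂˣ) : ℂ) * TTNE R w (lvX p f n)
          (aX p f) h (γ ^ (k' + j) * (δ : D ≃ₐ[kk A B] D))) / u) ≤ V.valuation (p : ℂ)

/-- (TEU) the Teichmueller character on the units.

PROOF. The units of `O` are 12th roots of unity (`ME.unit_list`), `12` is a unit at `V`, and 12th roots of unity which are congruent are equal (`OBI.TEIx.root_eq`). -/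
def Te_TEU : Prop :=
  ∀ (p : ℕ) (A B : ℤ) (P : Ideal (OO A B)) (V : ValuationSubring ℂ), CaseOE p A B P V →
    ∀ w : OO A B → ℂ, IsTeiP p 1 P V w → ∀ z : OO A B, IsUnit z → w z = emb z

/-- (EPS) the odd character, the twist `t`, the sign `s` and the type `i`.

USES S_EPSG, TEU. PROOF. For a unit `z`: `nm z = 1`, `e z = e z t(1) = e0 z w z = emb z`. -/
def Te_EPS : Prop :=
  ∀ (p : ℕ) (A B : ℤ) (P : Ideal (OO A B)) (V : ValuationSubring ℂ) (f : ℕ)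
    (_ : SetOE p A B P V f) (w : OO A B → ℂ) (_ : IsTeiP p 1 P V w)
    (e0 : OO A B → ℂ) (r : ℕ) (_ : ¬ p ∣ r)
    (_ : e0 1 = 1) (_ : e0 (-1) = 1) (_ : ∀ x y, e0 (x * y) = e0 x * e0 y)
    (_ : ∀ x y, x - y ∈ idl (A := A) (B := B) (lvX p f 0) → e0 x = e0 y)
    (_ : ∀ x, e0 x ≠ 0 ↔ IsCoprime x ((lvX p f 0 : ℕ) : OO A B))
    (_ : ∀ x, e0 x ≠ 0 → e0 x ^ r = 1) (_ : ∀ z, IsUnit z → e0 z = 1),
    ∃ (e : OO A B → ℂ) (i : ℕ) (t : ℤ → ℂ),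
      IsEIE (idl (A := A) (B := B) (p * f)) e ∧
      nI P - 1 ≤ i * (p - 1) ∧ i ≤ nI P - 2 ∧
      (∀ x, x - 1 ∈ gO P f → x ∉ P → e x = w x ^ i) ∧
      (∀ x, e x ≠ 0 → e x ^ ((nI P - 1) * r) = 1) ∧
      IsTw p (nI P - 1) t ∧
      ∀ x, IsCoprime x ((lvX p f 0 : ℕ) : OO A B) → e0 x * w x = e x * t (nm x)

/-- THE RESULT of block I for the exceptional fields (twin of `OTI.O_IT`): for all large `m`, the input (I3) of block K for `K' = K B_(m+1)`, `N = 1`, `n = 5`, and every `χ` which is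
not trivial on `Gal(K B_(m+1)/K B_m)`. Module of helper79. -/
def O_ITE : Prop :=
  ∀ (l g h : ℕ), Gen l g h →
    ∀ (p : ℕ) [Fact p.Prime] (A B : ℤ) (P : Ideal (OO A B)) (V : ValuationSubring ℂ) (f : ℕ),
    SetOE p A B P V f → l ^ h ∣ f → ∀ (hl : l ∣ f), TorXE A B →
    ∀ (ι : Type) [Fintype ι] (R : RepsE A B (p * f) ι) (u el lam : ℂ),
    GoodL V (R.L R.i0) u el lam →
    ∀ (K : IntermediateField ℚ ℂ) [FiniteDimensional ℚ K], kk A B ≤ K →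
    (∃ ω ∈ K, IsPrimitiveRoot ω p) →
    (∀ y ∈ K, y ∈ RFE (idl (A := A) (B := B) (lvX p f 0))) →
    ∀ (Bl : ℕ → IntermediateField ℚ ℂ), (∀ m, IsLayer l m (Bl m)) → Monotone Bl →
    ∃ r₀ : ℕ, ∀ m, r₀ ≤ m → ∀ (Bn : ℕ → IntermediateField ℚ ℂ)
    [FiniteDimensional ℚ ↥(K ⊔ Bl (m + 1))]
    [∀ n, FiniteDimensional ℚ ↥((K ⊔ Bl (m + 1)) ⊔ Bn n)]
    (hB : BasX p (kk A B) (K ⊔ Bl (m + 1)) Bn)
    (_ : ¬ p ∣ Module.finrank (kk A B) (IntermediateField.extendScalars hB.hk))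
    (hk : kk A B ≤ (K ⊔ Bl (m + 1)) ⊔ Bn 5) (hkK : kk A B ≤ K ⊔ Bl (m + 1))
    (C : (letI := algC hk; ↥((K ⊔ Bl (m + 1)) ⊔ Bn 5) ≃ₐ[kk A B]
      ↥((K ⊔ Bl (m + 1)) ⊔ Bn 5)) → ℂ)
    (_ : EInpOE p P V (f * l ^ (m + 1 + h)) (RLE R l (m + 1 + h) hl) u 5 hk C) (c₀ : ℂ)
    (mem : c₀ ∈ (K ⊔ Bl (m + 1)) ⊔ Bn 5) (_ : c₀ = C (letI := algC hk; 1))
    (χ : (letI := algC hkK; (↥(K ⊔ Bl (m + 1)) ≃ₐ[kk A B] ↥(K ⊔ Bl (m + 1))) →*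
      (IsLocalRing.ResidueField V)ˣ)),
    (letI := algC hkK; ∃ s : ↥(K ⊔ Bl (m + 1)) ≃ₐ[kk A B] ↥(K ⊔ Bl (m + 1)),
      (∀ x : ↥(K ⊔ Bl (m + 1)), (x : ℂ) ∈ K ⊔ Bl m → s x = x) ∧ χ s ≠ 1) →
    I3At (IsLocalRing.ResidueField V) p (kk A B) (K ⊔ Bl (m + 1)) Bn hkK χ 1 5 hk c₀ mem

end

end Pool.Agent.OEI
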