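import Pool.Agent.OE.StJ
import Pool.Agent.OE.StI

/-!
# OE, block J (helper19): the result of block I (helper79) in the form of `StJ.lean`

After `OT/J_CONV.lean`.
-/

set_option autoImplicit false

open NumberField IsDedekindDomain

namespace Pool.Agent.OEJ

open _root_.MU3 Pool.Agent.MU3 Pool.Agent.MU3A Pool.Agent.MU3B Pool.Agent.RI Pool.Agent.RID
  Pool.Agent.MUX Pool.Agent.ME Pool.Agent.MUXK Pool.Agent.MUXE Pool.Agent.MUXJ Pool.Agent.MUXZ
  Pool.Agent.NSI Pool.Agent.OB Pool.Agent.OE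
open Pool.Agent.OTJ (AbK LyL NewC)
open _root_.Pool.Agent.TWR (Gen)

/-- the result of block I -/
theorem t_ITE (hI : OEI.O_ITE) : O_ITE := by
  intro p _ A B P V f hS T ι _ R u el lam hGL l g h hG hl K₀ _ hk hA hK₀ Ln hL
  have hlh : l ^ h ∣ f := by
    refine Dvd.dvd.trans ?_ hS.f12
    rcases hG with ⟨rfl, -, rfl⟩ | ⟨rfl, -, rfl⟩ <;> norm_num
  obtain ⟨r₀, hr₀⟩ := hI l g h hG p A B P V f hS hlh hl T ι R u el lam hGL K₀ hk hA.om hK₀
    Ln hL.lay hL.mono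
  refine ⟨r₀, fun r hr K' hKeq Bn _ _ hB hkn hkK hAK _ C hE c₀ mem hc χ hχ => ?_⟩
  subst hKeq
  exact hr₀ r hr Bn hB hAK.cop hkn hkK C hE c₀ mem hc χ hχ

end Pool.Agent.OEJ
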