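import Pool.Agent.OT.J_ABL
import Pool.Agent.OB.ZL
import Pool.Agent.ME.X.JAll

/-!
# OE, block J, modules SUB, LLV, ABL for the exceptional fields (helper19)

After `OB/ZL.lean` (`o_SUB`) and `OT/J_LLV.lean`, `OT/J_ABL.lean` (helper88): `K₀ ⊔ Bn ≤ RFE (lvX p f n)`; the composite of a subfield of `RFE (lvX p f 0)` and of the `r`-th layer of
the cyclotomic `ℤ_l`-extension, `l = 2, 3`, is in `RFE (lvX p (f l^(r+h)) 0)`, abelian over `k`, of degree prime to `p`.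
-/

set_option autoImplicit false

namespace Pool.Agent.OEJ

open _root_.MU3 Pool.Agent.MU3 Pool.Agent.MU3A Pool.Agent.MU3B Pool.Agent.RI Pool.Agent.RID
  Pool.Agent.MUX Pool.Agent.ME Pool.Agent.MUXE Pool.Agent.MUXK Pool.Agent.MUXJ
open Pool.Agent.MU3I (zt)
open Pool.Agent.TWR (Gen)
open Pool.Agent.OT.JLLV (zt_pow idl_ne idl_le gen_cases gen_q0)
open Pool.Agent.OT.JABL (deg)
open Pool.Agent.OBZ (SetQ)

/-- roots of unity in ray class fields -/
theorem zeta_memE {A B : ℤ} (T : TorXE A B) (hN : NLex_E A B) {M m : ℕ} (hM : M ≠ 0)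
    (hm : m ≠ 0) (h : M ∣ m) {z : ℂ} (hz : z ^ M = 1) : z ∈ RFE (idl (A := A) (B := B) m) := by
  obtain ⟨b, L, om, hL⟩ := hN
  obtain ⟨a, -, ha⟩ := T.act _ (idl_ne hm) (RingEquiv.refl ℂ) rfl
  obtain ⟨b', L', om', mu, hL', hact⟩ := ha b L om hL
  exact (T.zeta M _ a (RingEquiv.refl ℂ) b L L' om mu (idl_ne hm) rfl hM (idl_le h) hL hact z
    hz).1

/-- (SUB) `K B_n ≤ RFE (lvX p f n)` -/
theorem t_SUBE (p : ℕ) (A B : ℤ) (f : ℕ) (hS : SetQ p A B f) (hT : TorXE A B) (hL : NLex_E A B)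
    (K : IntermediateField ℚ ℂ) (hK : ∀ y ∈ K, y ∈ RFE (idl (A := A) (B := B) (lvX p f 0)))
    (n : ℕ) (Bn : IntermediateField ℚ ℂ) (hlay : IsLayer p n Bn) :
    ∀ y ∈ K ⊔ Bn, y ∈ RFE (idl (A := A) (B := B) (lvX p f n)) := by
  have : Fact p.Prime := ⟨hS.hp⟩
  have hp0 : p ≠ 0 := hS.hp.ne_zero
  have hq : q0 p = p := if_neg hS.p2
  have hM : p ^ (n + 1) ≠ 0 := pow_ne_zero _ hp0
  have hlv : lvX p f n = f * p ^ (n + 1) := by unfold lvX; rw [hq]; ring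
  have hlv0 : lvX p f n ≠ 0 := by
    rw [hlv]; exact Nat.mul_ne_zero hS.f0 hM
  have hle0 : idl (A := A) (B := B) (lvX p f n) ≤ idl (lvX p f 0) :=
    idl_le ⟨p ^ n, by unfold lvX; ring⟩
  have hz : ∀ z : ℂ, z ^ (p ^ (n + 1)) = 1 → z ∈ RFE (idl (A := A) (B := B) (lvX p f n)) :=
    fun z hz => zeta_memE hT hL hM hlv0 ⟨f, by rw [hlv]; ring⟩ hz
  have hBn : Bn ≤ IntermediateField.restrictScalars ℚ
      (RFE (idl (A := A) (B := B) (lvX p f n))) := by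
    refine (OB.t_CYCO p hS.p2 n Bn hlay).1.trans ?_
    rw [IntermediateField.adjoin_le_iff]
    intro x hx
    exact hz x hx
  have hK' : K ≤ IntermediateField.restrictScalars ℚ
      (RFE (idl (A := A) (B := B) (lvX p f n))) := by
    intro x hx
    exact hT.mono _ _ hle0 (hK x hx)
  intro y hy
  exact (sup_le hK' hBn) hy

/-- Module LLV. -/
theorem t_LLVE (l g h : ℕ) (hG : Gen l g h) (A B : ℤ) (T : TorXE A B) (hN : NLex_E A B)
    (p f : ℕ) (hp : p ≠ 0) (hf : f ≠ 0) (K₀ : IntermediateField ℚ ℂ)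
    (hK : ∀ y ∈ K₀, y ∈ RFE (idl (A := A) (B := B) (lvX p f 0))) (r : ℕ)
    (L : IntermediateField ℚ ℂ) (hL : IsLayer l r L) :
    ∀ y ∈ K₀ ⊔ L, y ∈ RFE (idl (A := A) (B := B) (lvX p (f * l ^ (r + h)) 0)) := by
  have hl := gen_cases hG
  have hl0 : l ≠ 0 := by rcases hl with rfl | rfl <;> norm_num
  have hq : q0 p ≠ 0 := by
    unfold q0
    split_ifs with h2
    · norm_num
    · exact hp
  have hlv : lvX p (f * l ^ (r + h)) 0 = lvX p f 0 * l ^ (r + h) := by unfold lvX; ring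
  have hM : l ^ (r + h) ≠ 0 := pow_ne_zero _ hl0
  have hlv0 : lvX p (f * l ^ (r + h)) 0 ≠ 0 := by
    unfold lvX
    exact mul_ne_zero (mul_ne_zero (mul_ne_zero hf hM) hq) (pow_ne_zero _ hp)
  have hd1 : lvX p f 0 ∣ lvX p (f * l ^ (r + h)) 0 := ⟨_, hlv⟩
  have hd2 : l ^ (r + h) ∣ lvX p (f * l ^ (r + h)) 0 := ⟨lvX p f 0, by rw [hlv, mul_comm]⟩
  have hz : zt (l ^ (r + h)) ∈ RFE (idl (A := A) (B := B) (lvX p (f * l ^ (r + h)) 0)) :=
    zeta_memE T hN hM hlv0 hd2 (zt_pow _ hM)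
  have hL' : L ≤ IntermediateField.restrictScalars ℚ
      (RFE (idl (A := A) (B := B) (lvX p (f * l ^ (r + h)) 0))) := by
    rw [Pool.Agent.MUXI.ti_LAY l r hl L hL, gen_q0 hG, IntermediateField.adjoin_le_iff]
    intro x hx
    rw [Set.mem_singleton_iff] at hx
    rw [hx]
    exact add_mem hz (inv_mem hz)
  have hK' : K₀ ≤ IntermediateField.restrictScalars ℚ
      (RFE (idl (A := A) (B := B) (lvX p (f * l ^ (r + h)) 0))) := by
    intro x hx
    exact T.mono _ _ (idl_le hd1) (hK x hx)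
  intro y hy
  exact (sup_le hK' hL') hy

/-- Module ABL. -/
theorem t_ABLE (l g h : ℕ) (hG : Gen l g h) (A B : ℤ) (T : TorXE A B) (hN : NLex_E A B)
    (p f : ℕ) (hp : p.Prime) (hp5 : 5 ≤ p) (hf : f ≠ 0) (K₀ : IntermediateField ℚ ℂ)
    (hk : kk A B ≤ K₀) (hK : ∀ y ∈ K₀, y ∈ RFE (idl (A := A) (B := B) (lvX p f 0)))
    (hcop : ¬ p ∣ Module.finrank (kk A B) (IntermediateField.extendScalars hk)) (r : ℕ)
    (L : IntermediateField ℚ ℂ) (hL : IsLayer l r L) (hk' : kk A B ≤ K₀ ⊔ L) :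
    IsGalois (kk A B) (IntermediateField.extendScalars hk') ∧
    (∀ σ τ : (IntermediateField.extendScalars hk') ≃ₐ[kk A B]
      (IntermediateField.extendScalars hk'), σ * τ = τ * σ) ∧
    ¬ p ∣ Module.finrank (kk A B) (IntermediateField.extendScalars hk') := by
  have hl := gen_cases hG
  have hl0 : l ≠ 0 := by rcases hl with rfl | rfl <;> norm_num
  have hlp : Fact l.Prime := ⟨by rcases hl with rfl | rfl <;> norm_num⟩
  have hq : ∀ f', f' ≠ 0 → lvX p f' 0 ≠ 0 := by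
    intro f' hf'
    unfold lvX q0
    split_ifs with h2
    · exact mul_ne_zero (mul_ne_zero hf' (by norm_num)) (pow_ne_zero _ hp.ne_zero)
    · exact mul_ne_zero (mul_ne_zero hf' hp.ne_zero) (pow_ne_zero _ hp.ne_zero)
  obtain ⟨g1, g2, -⟩ := t_GAL_E A B T _ (idl_ne (hq f hf)) K₀ hk hK
  obtain ⟨g3, g4, g5⟩ := t_GAL_E A B T _
    (idl_ne (hq (f * l ^ (r + h)) (mul_ne_zero hf (pow_ne_zero _ hl0)))) (K₀ ⊔ L) hk'
    (t_LLVE l g h hG A B T hN p f hp.ne_zero hf K₀ hK r L hL)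
  obtain ⟨h1, h2, -⟩ := LAY_thm l r L hL
  have hdeg : ¬ p ∣ Module.finrank ℚ L := by
    rw [hL.1]
    intro h3
    have h4 := hp.dvd_of_dvd_pow h3
    have h5 := Nat.le_of_dvd (Nat.pos_of_ne_zero hl0) h4
    rcases hl with rfl | rfl <;> omega
  exact ⟨g3, g5, deg hk hk' hp hcop hdeg⟩

end Pool.Agent.OEJ
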