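import Pool.Agent.OB.HB_RAM
import Pool.Agent.MUX.E_CTX

/-!
# OE, block J, module UNR (helper19): a prime `p` which does not divide the discriminant is unramified
-/

set_option autoImplicit false

namespace Pool.Agent.OEJ

open _root_.MU3 Pool.Agent.MU3A Pool.Agent.MU3B Pool.Agent.MUX Pool.Agent.MUXE
  Pool.Agent.OBH.RAM

noncomputable section

variable {A B : ℤ}

/-- lift of the root modulo `p²` -/
theorem liftU {p r : ℤ} (h : p ∣ r ^ 2 - B * r - A) (hd : IsCoprime p (B ^ 2 + 4 * A)) :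
    ∃ s : ℤ, p ^ 2 ∣ s ^ 2 - B * s - A ∧ p ∣ s - r := by
  obtain ⟨k, hk⟩ := h
  obtain ⟨a, b, hab⟩ := hd
  have h1 : (2 * r - B) ^ 2 = 4 * (p * k) + (B ^ 2 + 4 * A) := by linear_combination 4 * hk
  refine ⟨r - p * k * (b * (2 * r - B)),
    ⟨k * a - 4 * k ^ 2 * b + k ^ 2 * (b * (2 * r - B)) ^ 2, ?_⟩,
    ⟨-(k * (b * (2 * r - B))), by ring⟩⟩
  linear_combination hk - p * k * b * h1 - p * k * hab

/-- `p` is not in `P²` -/
theorem not_sqU {p : ℕ} (hp : p.Prime) (hd : IsCoprime (p : ℤ) (B ^ 2 + 4 * A))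
    {P : Ideal (OO A B)} (hcard : Nat.card (OO A B ⧸ P) = p) : ((p : ℕ) : OO A B) ∉ P ^ 2 := by
  intro hmem
  rw [pow_two] at hmem
  obtain ⟨r, hr, hP⟩ := CtxX.dgi P p hp hcard
  obtain ⟨s, hs, hsr⟩ := liftU hr hd
  have hP' : ∀ x ∈ P, (p : ℤ) ∣ x.re + x.im * s := by
    intro x hx
    have h1 := (hP x).1 hx
    have h2 : x.re + x.im * s = (x.re + x.im * r) + x.im * (s - r) := by ring
    rw [h2]
    exact dvd_add h1 (Dvd.dvd.mul_left hsr _)
  have key : ∀ y ∈ P * P, ((p : ℤ)) ^ 2 ∣ y.re + y.im * s := by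
    intro y hy
    refine Submodule.mul_induction_on (C := fun y : OO A B => ((p : ℤ)) ^ 2 ∣ y.re + y.im * s)
      hy ?_ ?_
    · intro x hx y hy
      have h1 : (x * y).re + (x * y).im * s = (x.re + x.im * s) * (y.re + y.im * s) -
          x.im * y.im * (s ^ 2 - B * s - A) := by
        rw [QuadraticAlgebra.re_mul, QuadraticAlgebra.im_mul]
        ring
      show ((p : ℤ)) ^ 2 ∣ (x * y).re + (x * y).im * s
      rw [h1]
      refine dvd_sub ?_ (Dvd.dvd.mul_left hs _)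
      rw [pow_two]
      exact mul_dvd_mul (hP' x hx) (hP' y hy)
    · intro x y hx hy
      have h1 : (x + y).re + (x + y).im * s = (x.re + x.im * s) + (y.re + y.im * s) := by
        rw [QuadraticAlgebra.re_add, QuadraticAlgebra.im_add]
        ring
      show ((p : ℤ)) ^ 2 ∣ (x + y).re + (x + y).im * s
      rw [h1]
      exact dvd_add hx hy
  have h1 := key _ hmem
  have h2 : ((p : ℕ) : OO A B).re = p := by simp
  have h3 : ((p : ℕ) : OO A B).im = 0 := by simp
  rw [h2, h3, zero_mul, add_zero] at h1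
  have h4 : p ^ 2 ∣ p := by exact_mod_cast h1
  have h5 := Nat.le_of_dvd hp.pos h4
  have h6 := hp.one_lt
  nlinarith

/-- UNR -/
theorem t_UNR {p : ℕ} (hC : CQ A B) (hp : p.Prime) (hd : ¬ (p : ℤ) ∣ absD A B)
    {P : Ideal (OO A B)} (hP : P.IsPrime) (hmem : ((p : ℕ) : OO A B) ∈ P) :
    ((p : ℕ) : OO A B) ∉ P ^ 2 := by
  intro hram
  have hpi : Prime (p : ℤ) := Nat.prime_iff_prime_int.1 hp
  have hPt : P ≠ ⊤ := hP.ne_top
  have hp0 : ((p : ℕ) : OO A B) ≠ 0 := natCast_ne_zero' hC hp.ne_zero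
  have hPb : P ≠ ⊥ := fun h0 => hp0 (by rwa [h0, Ideal.mem_bot] at hmem)
  have hle : idl (A := A) (B := B) p ≤ P := (Ideal.span_singleton_le_iff_mem _).2 hmem
  have hnP : nI P = p ∨ nI P = p ^ 2 := by
    have h1 := card_dvd hle
    rw [nI_idl hC hp.ne_zero, Nat.dvd_prime_pow hp] at h1
    obtain ⟨k, hk, hk'⟩ := h1
    have h2 := nI_ne_one hPt
    interval_cases k
    · exact absurd (by simpa using hk') h2
    · exact Or.inl (by simpa using hk')
    · exact Or.inr hk'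
  have hle2 : idl (A := A) (B := B) p ≤ P * P := by
    rw [← sq]
    exact (Ideal.span_singleton_le_iff_mem _).2 hram
  have hn : nI P = p := by
    rcases hnP with h1 | h1
    · exact h1
    · exfalso
      have h2 := card_dvd hle2
      rw [nI_mul hC hPb hPb, h1, nI_idl hC hp.ne_zero] at h2
      have h3 : 0 < p ^ 2 := pow_pos hp.pos 2
      have h4 := Nat.le_of_dvd h3 h2
      have h5 : 1 < p ^ 2 := Nat.one_lt_pow (by norm_num) hp.one_lt
      nlinarith
  refine not_sqU hp ?_ hn hram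
  rw [Prime.coprime_iff_not_dvd hpi]
  intro h1
  apply hd
  unfold absD
  rw [← dvd_neg, neg_neg]
  exact h1

end

end Pool.Agent.OEJ
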