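import Pool.Agent.OE.StJ
import Pool.Agent.OE.J_INW
import Pool.Agent.OE.J_UNR
import Pool.Agent.OT.J_INPT
import Pool.Agent.ME.ZSqE
import Pool.Agent.ME.X.Z_THN

/-!
# OE, block J, modules VEX, DO, EINP, INPT (helper19): the inputs of block K for the fields `K₀ ⊔ Ln (r + 1)`, exceptional `k`

After `OB/J_VEXO.lean`, `OB/Z_EINP.lean`, `OT/J_INPT.lean` and `ME/ZSqE.lean`.
-/

set_option autoImplicit false

open NumberField IsDedekindDomain

namespace Pool.Agent.OEJ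

open _root_.MU3 Pool.Agent.MU3 Pool.Agent.MU3A Pool.Agent.MU3B Pool.Agent.RI Pool.Agent.RID
  Pool.Agent.MUX Pool.Agent.ME Pool.Agent.MUXK Pool.Agent.MUXE Pool.Agent.MUXJ Pool.Agent.MUXZ
  Pool.Agent.NSI Pool.Agent.OB Pool.Agent.MUXW Pool.Agent.OE
open Pool.Agent.OTJ (AbK LyL NewC gen_dvd gen_ne gen_p)
open _root_.Pool.Agent.TWR (Gen)
open Pool.Agent.NSZ (idl_ne_bot vex mem_idl)
open Pool.Agent.OBZ (SetQ tl_LVX)

noncomputable section

/-! ### The data -/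

/-- VEX: the prime ideal `P` above `p` and the valuation ring `V` above `P`. -/
theorem t_VEXE (p : ℕ) (A B : ℤ) (hE : CaseE A B) (hp : p.Prime) (h5 : 5 ≤ p) :
    ∃ (P : Ideal (OO A B)) (V : ValuationSubring ℂ), CaseOE p A B P V := by
  have h1 : (idl (A := A) (B := B) p) ≠ ⊤ := by
    intro h
    have h2 : (1 : OO A B) ∈ idl (A := A) (B := B) p := by rw [h]; trivial
    rw [mem_idl] at h2
    obtain ⟨h2, -⟩ := h2
    rw [QuadraticAlgebra.re_one] at h2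
    have := Int.le_of_dvd one_pos h2
    omega
  obtain ⟨P, hP, hle⟩ := Ideal.exists_le_maximal _ h1
  obtain ⟨V, hV⟩ := vex hE.toCQ P hP
  have hmem : ((p : ℕ) : OO A B) ∈ P := hle (Ideal.mem_span_singleton_self _)
  have hd : ¬ (p : ℤ) ∣ absD A B := by
    intro h2
    have h3 : absD A B = 4 ∨ absD A B = 3 := by
      unfold absD
      rw [hE.hA]
      rcases hE.toCQ.hB with hB | hB
      · rw [hB]
        norm_num
      · rw [hB]
        norm_num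
    rcases h3 with h3 | h3
    · rw [h3] at h2
      have := Int.le_of_dvd (by norm_num) h2
      omega
    · rw [h3] at h2
      have := Int.le_of_dvd (by norm_num) h2
      omega
  exact ⟨P, V, { hE with pp := hp, p5 := h5, prime := hP.isPrime, mem := hmem,
                         unr := t_UNR hE.toCQ hp hd hP.isPrime hmem, hV := hV }⟩

/-- `p` is in the maximal ideal of `V` -/
theorem caseOE_hp {p : ℕ} {A B : ℤ} {P : Ideal (OO A B)} {V : ValuationSubring ℂ}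
    (h : CaseOE p A B P V) : (p : ℂ) ∈ V.nonunits := by
  have h2 := (h.hV ((p : ℕ) : OO A B)).2 h.mem
  have h3 : emb ((p : ℕ) : OO A B) = (p : ℂ) := by
    rw [← RNGaux.eH_apply h.toCQ, map_natCast]
  rwa [h3] at h2

/-- the divisor `24` of the level -/
theorem t_DOE {p : ℕ} {A B : ℤ} {P : Ideal (OO A B)} {V : ValuationSubring ℂ}
    (h : CaseOE p A B P V) : ¬ p ∣ 24 ∧
      ∀ f : ℕ, f ≠ 0 → ¬ p ∣ f → 24 ∣ f → SetOE p A B P V f := by
  have hp := h.pp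
  have h5 := h.p5
  constructor
  · intro h1
    have e : (24 : ℕ) = 2 * (2 * (2 * 3)) := by norm_num
    rw [e] at h1
    rcases hp.dvd_mul.1 h1 with h2 | h2
    · have := Nat.le_of_dvd (by norm_num) h2
      omega
    · rcases hp.dvd_mul.1 h2 with h3 | h3
      · have := Nat.le_of_dvd (by norm_num) h3
        omega
      · rcases hp.dvd_mul.1 h3 with h3 | h3
        · have := Nat.le_of_dvd (by norm_num) h3
          omega
        · have := Nat.le_of_dvd (by norm_num) h3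
          omega
  · intro f hf0 hpf hdf
    have h6 : 2 * absD A B ∣ 24 := by
      unfold absD
      rw [h.hA]
      rcases h.toCQ.hB with hB | hB
      · rw [hB]
        norm_num
      · rw [hB]
        norm_num
    have h7 : (24 : ℤ) ∣ ((p * f : ℕ) : ℤ) := by exact_mod_cast hdf.mul_left p
    exact { h with f0 := hf0, fp := hpf, f12 := (by norm_num : 12 ∣ 24).trans hdf,
                   fD := h6.trans h7 }

/-- the level `f l^m` -/
theorem setOE_up {p : ℕ} {A B : ℤ} {P : Ideal (OO A B)} {V : ValuationSubring ℂ} {f : ℕ}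
    (hS : SetOE p A B P V f) {l g h : ℕ} (H : Gen l g h) (m : ℕ) :
    SetOE p A B P V (f * l ^ m) :=
  { hS.toCaseOE with
    f0 := Nat.mul_ne_zero hS.f0 (pow_ne_zero _ (gen_ne H))
    fp := fun hd => (hS.pp.dvd_mul.1 hd).elim hS.fp fun h1 =>
      gen_p H hS.p5 (hS.pp.dvd_of_dvd_pow h1)
    f12 := hS.f12.mul_right _
    fD := by
      refine hS.fD.trans ?_
      push_cast
      rw [← mul_assoc]
      exact dvd_mul_right _ _ }

theorem setQ_OE {p : ℕ} {A B : ℤ} {P : Ideal (OO A B)} {V : ValuationSubring ℂ} {f : ℕ}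
    (h : SetOE p A B P V f) : SetQ p A B f :=
  ⟨h.toCQ, h.pp, by have := h.p5; omega, h.f0, h.fp⟩

theorem lv_evenO {p f : ℕ} (hf : 12 ∣ f) (n : ℕ) : 2 ∣ lvX p f n := by
  unfold lvX
  exact Dvd.dvd.mul_right (Dvd.dvd.mul_right ((by norm_num : 2 ∣ 12).trans hf) _) _

/-! ### The input of block E -/

/-- the input of block I for the norm to any field `D ≤ RFE (lvX p f n)` -/
theorem eInpOE (hEF : O_EFINE)
    {p : ℕ} {A B : ℤ} {P : Ideal (OO A B)} {V : ValuationSubring ℂ} {f : ℕ}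
    (hS : SetOE p A B P V f) (hT : TorXE A B)
    {ι : Type} [Fintype ι] (R : RepsE A B (p * f) ι) {u e lam : ℂ}
    (hG : GoodL V (R.L R.i0) u e lam) {H : ι → Finset ℂ}
    {θ : ∀ n : ℕ, (RFE (idl (A := A) (B := B) (lvX p f n)) : IntermediateField (kk A B) ℂ)}
    (hth : ThN_E p f R H θ) (n : ℕ) (hn : 1 ≤ n) (D : IntermediateField ℚ ℂ) (h : kk A B ≤ D)
    (hD : ∀ y ∈ D, y ∈ RFE (idl (A := A) (B := B) (lvX p f n))) :
    EInpOE p P V f R u n h (fun τ => cWt h (θ n) τ) := by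
  obtain ⟨hl0, _, _, hl2, hlu, hodd, hac, _, _, hcop⟩ := tl_LVX p A B f (setQ_OE hS) n
  have hb : (idl (A := A) (B := B) (lvX p f n)) ≠ ⊥ := idl_ne_bot hl0
  have := hT.fin _ hb
  have := hT.gal _ hb
  obtain ⟨h1, h2, h3, _, _⟩ := y_MEM A B _ (hT.fin _ hb) (hT.gal _ hb) (hT.comm _ hb) D h hD
    (θ n) (hth.ne n)
  let := algC h
  have hconj : ∀ τ : D ≃ₐ[kk A B] D, ∃ y : D, (y : ℂ) = cWt h (θ n) 1 ∧
      ((τ y : D) : ℂ) = cWt h (θ n) τ := by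
    intro τ
    refine ⟨⟨cWt h (θ n) 1, (h2 1).1⟩, rfl, ?_⟩
    have hm : cW h (θ n) ∈ D := by rw [h1]; exact (h2 1).1
    have := h3 τ hm
    have he : (⟨cWt h (θ n) 1, (h2 1).1⟩ : D) = ⟨cW h (θ n), hm⟩ := Subtype.ext h1.symm
    rw [he]; exact this
  have hsq : ∀ τ : D ≃ₐ[kk A B] D, cXE R (lvX p f n) H h τ = cWt h (θ n) τ ^ 2 :=
    y_CXW_E A B hS.toCaseE hT (p * f) ι R (lvX p f n) hl0 (lv_evenO hS.f12 n)
      (fun i => hcop _ (R.cop i)) hl2 (aX p f) H (by unfold aX; omega) hac hth.half (θ n)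
      (hth.ptE n) D h hD
  have hfin : Finite (D ≃ₐ[kk A B] D) := MEZ.finG _ (hT.fin _ hb) D h hD
  refine ⟨(h2 1).2, hconj, ?_⟩
  rintro w hw g ⟨y, hy, hye⟩ τ'
  refine hEF p A B P V f hS hT ι R u e lam hG w hw n hn H hth.half D h hD ?_ g
    ⟨y ^ 2, pow_mem hy 2, ?_⟩ τ'
  · intro τ
    obtain ⟨z, hz1, hz2⟩ := hconj τ
    refine ⟨z ^ 2, ?_, ?_⟩
    · rw [hsq]
      push_cast
      rw [hz1]
    · rw [hsq, map_pow]
      push_cast
      rw [hz2]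
  · have h4 : (∏ᶠ τ : D ≃ₐ[kk A B] D, cXE R (lvX p f n) H h τ ^ g τ) =
        (∏ᶠ τ : D ≃ₐ[kk A B] D, cWt h (θ n) τ ^ g τ) ^ 2 := by
      have := Fintype.ofFinite (D ≃ₐ[kk A B] D)
      rw [finprod_eq_prod_of_fintype, finprod_eq_prod_of_fintype, ← Finset.prod_pow]
      refine Finset.prod_congr rfl fun τ _ => ?_
      rw [hsq, ← zpow_natCast, ← zpow_natCast, ← zpow_mul, ← zpow_mul, mul_comm]
    rw [h4, ← hye]
    ring

/-! ### The inputs of block K -/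

/-- (INPT) -/
theorem t_INPTE (hIT : O_ITE) (hRF : O_RFINE) (hEF : O_EFINE) :
    ∀ (p : ℕ) (A B : ℤ) (P : Ideal (OO A B)) (V : ValuationSubring ℂ),
      CaseOE p A B P V → TorXE A B → InpGTE p A B V := by
  intro p A B P V hC hT l g h hG f hf0 hfp hf12 hfD K₀ _ hk hA hK₀ Ln hL
  have hCQ : CQ A B := hC.toCQ
  have hS : SetOE p A B P V f := { hC with f0 := hf0, fp := hfp, f12 := hf12, fD := hfD }
  have : Fact (Nat.Prime p) := ⟨hC.pp⟩
  have hl : l ∣ f := (gen_dvd hG).trans hf12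
  obtain ⟨R⟩ := MEZ.rexE hC.toCaseE (p * f)
  obtain ⟨u, e, lam, hGL, -, -, -⟩ := (hRF p A B P V hC hT).1 _ _ _ (R.nl R.i0)
  obtain ⟨r₀, hr₀⟩ := hIT p A B P V f hS hT Unit R u e lam hGL l g h hG hl K₀ hk hA hK₀ Ln hL
  refine ⟨r₀, fun r hr K' K Bn _ _ _ _ _ hKeq hX hK hH hkn hk₀ hkK => ?_⟩
  have hS' := setOE_up hS hG (r + 1 + h)
  have hQ' := setQ_OE hS'
  have hodd := (tl_LVX p A B _ hQ' 0).2.2.2.2.2.1
  obtain ⟨H, hHalf, hθ⟩ := (tz_THN_E y_THG_E) A B hCQ hT (p * (f * l ^ (r + 1 + h))) Unit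
    (RLE R l (r + 1 + h) hl) (aX p (f * l ^ (r + 1 + h))) hodd
  have hθ' : ∀ n : ℕ, ∃ θ : (RFE (idl (A := A) (B := B) (lvX p (f * l ^ (r + 1 + h)) n)) :
      IntermediateField (kk A B) ℂ),
      (θ : ℂ) = ThetaH ((RLE R l (r + 1 + h) hl).L (RLE R l (r + 1 + h) hl).i0)
        (H (RLE R l (r + 1 + h) hl).i0)
        (ptE (RLE R l (r + 1 + h) hl) (lvX p (f * l ^ (r + 1 + h)) n)
          (RLE R l (r + 1 + h) hl).i0 1) ∧
      (θ : ℂ) = ThetaH ((RLE R l (r + 1 + h) hl).L (RLE R l (r + 1 + h) hl).i0)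
        (H (RLE R l (r + 1 + h) hl).i0)
        ((RLE R l (r + 1 + h) hl).om (RLE R l (r + 1 + h) hl).i0 /
          emb ((lvX p (f * l ^ (r + 1 + h)) n : ℕ) : OO A B)) ∧
      θ ≠ 0 := fun n =>
    hθ (lvX p (f * l ^ (r + 1 + h)) n) (tl_LVX p A B _ hQ' n).1 (tl_LVX p A B _ hQ' n).2.2.2.2.1
      (tl_LVX p A B _ hQ' n).2.2.2.2.2.2.1
  choose θ hθ1 hθ2 hθ3 using hθ'
  have hth : ThN_E p (f * l ^ (r + 1 + h)) (RLE R l (r + 1 + h) hl) H θ :=
    ⟨hHalf, hθ1, hθ2, hθ3⟩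
  obtain ⟨S, hW⟩ := z_INWE p A B (f * l ^ (r + 1 + h)) hQ' hC.toCaseE (lv_evenO hS'.f12 0) hT
    Unit (RLE R l (r + 1 + h) hl) H θ hth K' K Bn hX hK hH hkn hk₀
  have hNL : ∃ (b : Ideal (OO A B)) (L : PeriodPair) (om : ℂ), IsNE b L om :=
    ⟨_, _, _, R.nl R.i0⟩
  have hK'f : ∀ y ∈ K', y ∈ RFE (idl (A := A) (B := B) (lvX p (f * l ^ (r + 1 + h)) 0)) :=
    fun y hy => hK y (hX.le hy)
  have hInR : ∀ y ∈ K' ⊔ Bn 5,
      y ∈ RFE (idl (A := A) (B := B) (lvX p (f * l ^ (r + 1 + h)) 5)) :=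
    t_SUBE p A B _ hQ' hT hNL K' hK'f 5 (Bn 5) (hX.b0.lay 5)
  have hAK : AbK p hkK := by
    subst hKeq
    obtain ⟨h1, h2, h3⟩ := t_ABLE l g h hG A B hT hNL p f hC.pp hC.p5 hf0 K₀ hk hK₀ hA.cop
      (r + 1) (Ln (r + 1)) (hL.lay (r + 1)) hkK
    obtain ⟨ω, hω, hω1⟩ := hA.om
    exact ⟨h1, h2, h3, ω, (le_sup_left : K₀ ≤ K₀ ⊔ Ln (r + 1)) hω, hω1⟩
  refine ⟨S, fun n => cW (hkn n) (θ n), fun n => cW (hk₀ n) (θ n), 0, hW, fun χ hχ =>
    ⟨5, by norm_num, ?_⟩⟩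
  refine hr₀ r hr K' hKeq Bn hX.b0 (hk₀ 5) hkK hAK hK'f
    (fun τ => cWt (hk₀ 5) (θ 5) τ) ?_ _ _ ?_ χ hχ
  · exact eInpOE hEF hS' hT (RLE R l (r + 1 + h) hl) hGL hth 5 (by norm_num)
      (K' ⊔ Bn 5) (hk₀ 5) hInR
  · have hb : (idl (A := A) (B := B) (lvX p (f * l ^ (r + 1 + h)) 5)) ≠ ⊥ :=
      idl_ne_bot (tl_LVX p A B _ hQ' 5).1
    exact (y_MEM A B _ (hT.fin _ hb) (hT.gal _ hb) (hT.comm _ hb) _ (hk₀ 5) hInR (θ 5)
      (hth.ne 5)).1

end

end Pool.Agent.OEJ
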