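import Pool.Agent.OE.J_INPT
import Pool.Agent.OE.J_LEV
import Pool.Agent.OE.J_SETF
import Pool.Agent.ME.JTE
import Pool.Agent.ME.X.JAll
import Pool.Agent.OT.J_MAINT

/-!
# OE, block J, module MAIN (helper19): nilpotency for the new characters, for the fields `kk A B`, `CaseE A B`

After `OT/J_MAINT.lean`.
-/

set_option autoImplicit false

open NumberField IsDedekindDomain

namespace Pool.Agent.OEJ

open _root_.MU3 Pool.Agent.MU3 Pool.Agent.MU3A Pool.Agent.MU3B Pool.Agent.RI Pool.Agent.RID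
  Pool.Agent.MUX Pool.Agent.ME Pool.Agent.MUXK Pool.Agent.MUXE Pool.Agent.MUXJ Pool.Agent.MUXZ
  Pool.Agent.NSI Pool.Agent.OB Pool.Agent.OE
open Pool.Agent.OTJ (AbK LyL NewC newC_mp fd_LL S_PIGS)
open _root_.Pool.Agent.TWR (Gen)

noncomputable section

/-- the result for the fields `kk A B` -/
def S_MAINTE : Prop :=
  ∀ (p : ℕ) [Fact p.Prime], 5 ≤ p → ∀ (A B : ℤ), CaseE A B →
    ∀ (l g h : ℕ), Gen l g h → ∀ (K₀ : IntermediateField ℚ ℂ) [FiniteDimensional ℚ K₀]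
    (hk : kk A B ≤ K₀), AbK p hk → ∀ Ln : ℕ → IntermediateField ℚ ℂ, LyL l Ln →
    ∃ r₀ : ℕ, ∀ r, r₀ ≤ r → ∀ (K' : IntermediateField ℚ ℂ) (Bn : ℕ → IntermediateField ℚ ℂ)
      [∀ n, FiniteDimensional ℚ ↥(K' ⊔ Bn n)], K' = K₀ ⊔ Ln (r + 1) →
      (∀ n, IsLayer p n (Bn n)) → Monotone Bn →
      ∀ (hk₀ : ∀ n, kk A B ≤ K' ⊔ Bn n) (hkK : kk A B ≤ K')
      (χ : (letI := algC hkK; (↥K' ≃ₐ[kk A B] ↥K') →* (AlgebraicClosure (ZMod p))ˣ)),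
      NewC hkK (K₀ ⊔ Ln r) χ →
      BasX p (kk A B) K' Bn ∧
      ∃ m : ℕ, NilC (AlgebraicClosure (ZMod p)) (kk A B) K' Bn hk₀ hkK χ m

/-- (MAINTE) -/
theorem t_MAINTE (hRF : O_RFINE) (hEF : O_EFINE) (hIT : O_ITE) (hPIG : S_PIGS) : S_MAINTE := by
  intro p hpf h5 A B hE l g h hG K₀ _ hk hA Ln hL
  have hp : p.Prime := hpf.out
  obtain ⟨P, V, hC⟩ := t_VEXE p A B hE hp h5
  obtain ⟨hpd, hd⟩ := t_DOE hC
  have hCQ : CQ A B := hE.toCQ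
  have hTor : TorXE A B := Pool.Agent.MEC.c_TORE A B hE
  have hNL : NLex_E A B := by
    obtain ⟨L, w, hL⟩ := Pool.Agent.MEC.exists_isNE hE ⊤ (by
      have := (MUXE.xe_RNG A B hCQ).ded
      exact bot_ne_top.symm)
    exact ⟨⊤, L, w, hL⟩
  have hTU : TorU_E A B K₀ := Pool.Agent.JTE.torU_E A B hE K₀ hk hA.gal hA.ab
  obtain ⟨M, hM, hKM⟩ := t_DIR_E A B hCQ hTor K₀ hTU
  obtain ⟨f, hf0, hfp, hfd, hKf⟩ := t_LEVE p 24 A B hp (by norm_num) hpd (by norm_num) hTor hNL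
    K₀ hk hA.cop M hM hKM
  have hS := hd f hf0 hfp hfd
  obtain ⟨r₀, hr₀⟩ := t_INPTE hIT hRF hEF p A B P V hC hTor l g h hG f hS.f0 hS.fp hS.f12 hS.fD
    K₀ hk hA hKf Ln hL
  refine ⟨r₀, fun r hr K' Bn _ hKeq hlay hmono hk₀ hkK χ hχ => ?_⟩
  have hK'A : FiniteDimensional ℚ K' ∧ AbK p hkK := by
    subst hKeq
    refine ⟨fd_LL hG hL K₀ (r + 1), ?_⟩
    obtain ⟨h1, h2, h3⟩ := t_ABLE l g h hG A B hTor hNL p f hp h5 hf0 K₀ hk hKf hA.cop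
      (r + 1) (Ln (r + 1)) (hL.lay (r + 1)) hkK
    obtain ⟨ω, hω, hω1⟩ := hA.om
    exact ⟨h1, h2, h3, ω, (le_sup_left : K₀ ≤ K₀ ⊔ Ln (r + 1)) hω, hω1⟩
  obtain ⟨hK'fd, hAK⟩ := hK'A
  have hK'f : ∀ y ∈ K', y ∈ RFE (idl (A := A) (B := B) (lvX p (f * l ^ (r + 1 + h)) 0)) := by
    rw [hKeq]
    exact t_LLVE l g h hG A B hTor hNL p f hp.ne_zero hf0 K₀ hKf (r + 1) (Ln (r + 1))
      (hL.lay (r + 1))
  have hl0 : l ≠ 0 := by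
    rcases hG with ⟨rfl, -, -⟩ | ⟨rfl, -, -⟩ <;> norm_num
  have hf'0 : f * l ^ (r + 1 + h) ≠ 0 := Nat.mul_ne_zero hf0 (pow_ne_zero _ hl0)
  obtain ⟨K, hKfd, hSX, hKR, hHK⟩ := t_SETFE p A B P V hE hp h5 hC.prime hC.mem hC.hV hTor
    (f * l ^ (r + 1 + h)) hf'0 K' hkK hAK.cop hK'f hAK.om Bn hlay hmono
  have hfk : FiniteDimensional ℚ (kk A B) :=
    Module.Finite.of_injective (IntermediateField.inclusion hk).toLinearMap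
      (IntermediateField.inclusion hk).injective
  have hfB : ∀ n, FiniteDimensional ℚ ↥(K ⊔ Bn n) := fun n => by
    obtain ⟨h1, -, -⟩ := LAY_thm p n (Bn n) (hlay n)
    exact IntermediateField.finiteDimensional_sup K (Bn n)
  have hkn : ∀ n, kk A B ≤ K ⊔ Bn n := fun n => (hkK.trans hSX.le).trans le_sup_left
  obtain ⟨S, c, c₀, n₁, hW, hI⟩ := hr₀ r hr K' K Bn hKeq hSX hKR hHK hkn hk₀ hkK
  obtain ⟨hchar, halg⟩ := t_RES p V (caseOE_hp hC)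
  obtain ⟨io⟩ := ex_io p (IsLocalRing.ResidueField V)
  obtain ⟨m, hm, hI3⟩ := hI (mpO io hkK χ) (newC_mp io hkK _ χ hχ)
  have hI3A := I3At_mp io p (kk A B) K' Bn hkK χ 1 m (hk₀ m) (c₀ m) (hW.mem₀ m) hI3
  have hI3C := hPIG (AlgebraicClosure (ZMod p)) p (kk A B) K' K Bn hSX hkn hk₀ hkK S c c₀ n₁ hW χ
    m hm hI3A
  exact ⟨hSX.b0, o_MAINO (AlgebraicClosure (ZMod p)) p (kk A B) K' K Bn hSX hkn hk₀ hkK S c c₀ n₁
    hW χ hI3C⟩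

end

end Pool.Agent.OEJ
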