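import Pool.Agent.OE.StN
import Pool.Agent.OE.HQ_HQ1
import Pool.Agent.OB.HAll
import Pool.Agent.MUX.XFAll
import Pool.Agent.ME.H_QS
import Pool.Agent.MUX.HY_HFX
import Pool.Agent.MUX.HY_BRG

/-!
# OE, one branch: module HFE (`O_HFINE` from `O_TYFE`, `O_GPTE`), after `OB/HB_HF1.lean` (helper60)
-/

set_option autoImplicit false

namespace Pool.Agent.OEN

open _root_.MU3 _root_.Pool.Agent.MU3A _root_.Pool.Agent.MU3B _root_.Pool.Agent.MU3F _root_.Pool.Agent.MUX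
  _root_.Pool.Agent.MUXH _root_.Pool.Agent.MUXHY _root_.Pool.Agent.MuSym _root_.Pool.Agent.OB
  _root_.Pool.Agent.OBH _root_.Pool.Agent.OE _root_.Pool.Agent.OEHQ _root_.Pool.Agent.ME OnePoint
open _root_.Pool.Agent.MUXF (qb)
open _root_.Pool.Agent.MEH (PPE)

noncomputable section

/-- the norms of the `b_i` are prime to the conductor -/
private theorem copE' {A B : ℤ} {n : ℕ} {ι : Type} (R : RepsE A B n ι) {g : Ideal (OO A B)}
    (hg : ((n : ℕ) : OO A B) ∈ g) (i : ι) :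
    IsCoprime (MUX.sp ((MUX.nI (R.b i) : ℕ) : OO A B)) g := by
  obtain ⟨u, w, huw⟩ : IsCoprime ((nI (R.b i) : ℕ) : ℤ) (n : ℤ) :=
    Nat.isCoprime_iff_coprime.mpr (R.cop i)
  rw [Ideal.isCoprime_iff_exists]
  refine ⟨(u : OO A B) * ((nI (R.b i) : ℕ) : OO A B), ?_, (w : OO A B) * ((n : ℕ) : OO A B), ?_, ?_⟩
  · exact Ideal.mul_mem_left _ _ (Ideal.mem_span_singleton_self _)
  · exact Ideal.mul_mem_left _ _ hg
  · have := congrArg (fun z : ℤ => (z : OO A B)) huw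
    push_cast at this
    exact this

private theorem e_nIE' {A B : ℤ} {n : ℕ} {ι : Type} (R : RepsE A B n ι) {g : Ideal (OO A B)}
    {e : OO A B → ℂ} (he : IsEI g e) (hn : ((n : ℕ) : OO A B) ∈ g) (c : ι) :
    e ((nI (R.b c) : ℕ) : OO A B) ≠ 0 := by
  rw [he.supp]
  exact copE' R hn c

theorem n_HFE (h1 : Sq_HQ1) (h2 : So_HN) (h3 : Sq_VAL) (h4 : Sq_RAM) : O_HFINE := by
  intro p A B P V f hS hT ι _ R u el lam hg w hw e he' r hrp her i hi1 hi2 hty s hs kk hkk n₀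
  have he : IsEI (idl (A := A) (B := B) (p * f)) e := he'.toIsEI
  obtain ⟨-, -, v1, -, -, -, -, -, hpf, -, -, -, -, -⟩ := h3 p A B P V f hS
  obtain ⟨hnI, -⟩ := h4 p A B P V hS.toCaseOE
  have hcq : CQ A B := hS.toCQ
  have hp : p.Prime := hS.pp
  have hp5 : 5 ≤ p := hS.p5
  have hpz : Prime (p : ℤ) := Nat.prime_iff_prime_int.mp hp
  have hr0 : r ≠ 0 := by
    rintro rfl
    exact hrp (dvd_zero p)
  have hf0 := hS.f0
  set kk' : ι → ℂ := fun c => kk c / e ((nI (R.b c) : ℕ) : OO A B) with hkk'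
  have heN : ∀ c, e ((nI (R.b c) : ℕ) : OO A B) ≠ 0 := e_nIE' R he hpf
  have hk1 : ∀ c, kk' c ^ r = 1 := by
    intro c
    rw [hkk']
    beta_reduce
    rw [div_pow, hkk, her _ (heN c), div_one]
  obtain ⟨pi, KI, hyp, hdep, hunr, hvpi⟩ := h1 p A B P V f hS hT ι R u el lam hg w hw e he' r hrp
    her i hi1 hi2 hty s hs kk' hk1
  have hpp : p ≤ p ^ 2 := by nlinarith
  have hnP : p ≤ nI P ∧ nI P ≤ p ^ 2 := by
    rcases hnI with h | h <;> rw [h]
    · exact ⟨le_rfl, hpp⟩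
    · exact ⟨hpp, le_rfl⟩
  have hq2 : i < nI P - 1 := by omega
  have hq3 : nI P - 1 < (p - 1) * p ^ 2 := by
    have h5 : 1 * p ^ 2 ≤ (p - 1) * p ^ 2 := Nat.mul_le_mul_right _ (by omega)
    have h6 : 0 < p ^ 2 := by positivity
    omega
  have hq0 : q0 p = p := by
    unfold q0
    rw [if_neg (by omega)]
  have hfz : (0 : ℤ) < f := by exact_mod_cast Nat.pos_of_ne_zero hf0
  have haz : ((aX p f : ℕ) : ℤ) - 1 = p * (2 * f) := by
    unfold aX
    rw [hq0]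
    push_cast
    ring
  have hap : (p : ℤ) ∣ ((aX p f : ℕ) : ℤ) - 1 := by rw [haz]; exact Dvd.intro _ rfl
  have hpz0 : (0 : ℤ) < p := by exact_mod_cast hp.pos
  have ha1 : ((aX p f : ℕ) : ℤ) ≠ 1 := by
    intro h
    rw [h, sub_self] at haz
    have : (0 : ℤ) < p * (2 * f) := by positivity
    omega
  obtain ⟨n, hn, hmain⟩ := h2 p V (N0O p 1 A B f) 1 (nI P - 1) i (nuX e) _ pi KI hyp hdep hunr
    hi1 hq2 hq3 hvpi ((aX p f : ℕ) : ℤ) (1 + (p : ℤ)) hap ha1 (by rw [add_sub_cancel_left])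
    (by omega) n₀
  refine ⟨n, hn, ?_⟩
  have hQS := MEH.h_QSX MUXF.xf_F5 MUXF.xf_PRD p hp A B hcq f hf0 ι inferInstance R _ e
    he hpf kk s 1 n
  have hM : p * p ^ n = p ^ (n + 1) := by ring
  rw [hq0, hM] at hQS
  have hL : ∑ j ∈ Finset.range 2, (-1 : ℂ) ^ (1 - j) *
        (STXE R (lvX p f n) (p ^ (n + 1)) (aX p f) e kk ((1 + (p : ℤ)) ^ j) +
          s * STXE R (lvX p f n) (p ^ (n + 1)) (aX p f) e kk (-((1 + (p : ℤ)) ^ j))) =
      ∑ j ∈ Finset.range (1 + 1), ((-1 : ℂ) ^ (1 - j) * ((1 : ℕ).choose j : ℂ)) *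
        (STXE R (lvX p f n) (p ^ (n + 1)) (aX p f) e kk ((1 + (p : ℤ)) ^ j) +
          s * STXE R (lvX p f n) (p ^ (n + 1)) (aX p f) e kk (-(1 + (p : ℤ)) ^ j)) := by
    refine Finset.sum_congr rfl fun j hj => ?_
    have hj2 : j = 0 ∨ j = 1 := by
      have := Finset.mem_range.1 hj
      omega
    rcases hj2 with rfl | rfl <;> simp
  rw [hL, hQS]
  have hprim := Hfx.prim p (n + 1) hp (-((1 + (p : ℤ)) * ((aX p f : ℕ) : ℤ) ^ 2)) (by
    intro h
    rw [dvd_neg] at h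
    have hnu : ¬ (p : ℤ) ∣ 1 := fun h7 => hpz.not_isUnit (isUnit_of_dvd_one h7)
    rcases hpz.dvd_or_dvd h with h | h
    · exact hnu ((dvd_add_left (dvd_refl (p : ℤ))).1 h)
    · have h5 := hpz.dvd_of_dvd_pow h
      have h6 := dvd_sub h5 hap
      rw [sub_sub_cancel] at h6
      exact hnu h6)
  have hζ : ex (-((1 + (p : ℚ)) ^ 1 * (aX p f : ℚ) ^ 2) / ((p ^ (n + 1) : ℕ) : ℚ)) =
      ex (((-((1 + (p : ℤ)) * ((aX p f : ℕ) : ℤ) ^ 2) : ℤ) : ℚ) / (p : ℚ) ^ (n + 1)) := by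
    push_cast
    rw [pow_one]
  rw [hζ]
  set ζ : ℂ := ex (((-((1 + (p : ℤ)) * ((aX p f : ℕ) : ℤ) ^ 2) : ℤ) : ℚ) / (p : ℚ) ^ (n + 1))
    with hζd
  have h5 := hmain ζ hprim
  have hu := hg.u0
  have e5 : (2 * (f : ℂ) * ∑ b ∈ Finset.range (p ^ (n + 1)), ζ ^ b *
      comb ((aX p f : ℕ) : ℤ) (1 + (p : ℤ)) 1 (fun b => sgnPart (s : ℂ) (PPE R e kk) ∞
        ((b / ((p ^ (n + 1) : ℕ) : ℚ) : ℚ) : OnePoint ℚ)) b) / u =
      2 * f * ∑ b ∈ Finset.range (p ^ (n + 1)), ζ ^ b *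
      comb ((aX p f : ℕ) : ℤ) (1 + (p : ℤ)) 1 (fun b => sgnPart (s : ℂ)
        (fun x y => PhiKE R e kk' x y / (u * R.om R.i0)) ∞
        (((b : ℚ) / (p : ℚ) ^ (n + 1) : ℚ) : OnePoint ℚ)) b := by
    rw [mul_div_assoc, Finset.sum_div]
    congr 1
    refine Finset.sum_congr rfl fun b _ => ?_
    rw [mul_div_assoc]
    congr 1
    unfold comb
    rw [Finset.sum_div]
    refine Finset.sum_congr rfl fun j _ => ?_
    rw [mul_div_assoc]
    congr 1
    have e6 : ∀ b : ℤ, sgnPart (s : ℂ) (PPE R e kk) ∞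
        ((b / ((p ^ (n + 1) : ℕ) : ℚ) : ℚ) : OnePoint ℚ) = u * sgnPart (s : ℂ)
        (fun x y => PhiKE R e kk' x y / (u * R.om R.i0)) ∞
        (((b : ℚ) / (p : ℚ) ^ (n + 1) : ℚ) : OnePoint ℚ) := by
      intro b
      have e7 : ∀ x y, PPE R e kk x y = u * (PhiKE R e kk' x y / (u * R.om R.i0)) := by
        intro x y
        unfold PPE
        rw [← mul_div_assoc, mul_div_mul_left _ _ hu]
      unfold sgnPart
      rw [e7, e7]
      push_cast
      ring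
    beta_reduce
    rw [e6, e6]
    field_simp
  rw [e5, map_mul, map_mul]
  have e8 : V.valuation (2 : ℂ) = 1 := by
    have := v1 2 (by
      intro h
      have := Int.le_of_dvd (by norm_num) h
      omega)
    exact_mod_cast this
  have e9 : V.valuation (f : ℂ) = 1 := by
    have := v1 f (by
      intro h
      exact hS.fp (by exact_mod_cast h))
    exact_mod_cast this
  rw [e8, e9, one_mul, one_mul]
  exact h5

/-- (HFINE) the character sums for the exceptional fields -/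
theorem o_HFINE (hT : O_TYFE) (hG : O_GPTE) : O_HFINE :=
  n_HFE (oe_HQ1 hT hG) o_HN oe_VAL oe_RAM

end

end Pool.Agent.OEN
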