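import Pool.Agent.OE.StI
import Pool.Agent.OB.I_TH
import Pool.Agent.ME.N.I_TH

/-!
# OE, one branch, module TH: the sums `That_j` with a twist `t` (after `Pool/Agent/OB/I_TH.lean` and `Pool/Agent/ME/N/I_TH.lean`)
-/

set_option autoImplicit false

open NumberField

namespace Pool.Agent.OEI

open _root_.MU3 Pool.Agent.MU3 Pool.Agent.MU3A Pool.Agent.MU3B Pool.Agent.RI Pool.Agent.RID
  Pool.Agent.MUX Pool.Agent.ME Pool.Agent.MUXK Pool.Agent.MUXI Pool.Agent.NS Pool.Agent.NSI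
  Pool.Agent.OB Pool.Agent.OBI Pool.Agent.OT Pool.Agent.OTI Pool.Agent.OE

noncomputable section

namespace THNx

lemma muX_ne {p : ℕ} {A B : ℤ} {f : ℕ}
    (hS : SetQ p A B f) {ι : Type} (R : RepsE A B (p * f) ι) (i : ι) : muXE R i ≠ 0 := by
  have h1 : nI (R.b i) ≠ 0 := by
    intro h0
    have h2 := R.cop i
    rw [h0, Nat.coprime_zero_left] at h2
    have h3 : p = 1 := Nat.eq_one_of_mul_eq_one_right h2
    exact hS.pp.one_lt.ne' h3
  unfold muXE
  refine div_ne_zero (mul_ne_zero (R.nl i).om_ne ?_) (R.nl R.i0).om_ne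
  exact_mod_cast h1

end THNx

/-- (TH) the sums `That_j` with a twist `t` -/
def Te_TH : Prop :=
  ∀ (p : ℕ) (A B : ℤ) (f : ℕ),
    SetQ p A B f → CaseE A B → 2 ∣ f →
    ∀ g : Ideal (OO A B), idl (A := A) (B := B) (lvX p f 0) ≤ g → g ≤ idl f →
    ∀ (ι : Type) [Fintype ι] (R : RepsE A B (p * f) ι) (n : ℕ) (G : Type)
    [Group G] [Finite G] (γ : G) (Δ : Subgroup G) [Fintype Δ]
    (X : G → Set (ι × (OO A B ⧸ idl (A := A) (B := B) (lvX p f n)))), XM_E R p f n γ Δ X →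
    ∀ (χ : Δ →* ℂˣ) (e0 : OO A B → ℂ) (kp c : ι → ℂ) (w : OO A B → ℂ) (e : OO A B → ℂ)
    (s : ℤ) (t : ℤ → ℂ),
    IsEIE g e → (∀ a b : ℤ, t (a * b) = t a * t b) → (∀ a b : ℤ, (p : ℤ) ∣ a - b → t a = t b) →
    t 1 = 1 → t (-1) = s →
    (∀ x, IsCoprime x ((lvX p f 0 : ℕ) : OO A B) → e0 x * w x = e x * t (nm x)) →
    (∀ (δ : Δ) (j : ℕ), ∀ q ∈ X (γ ^ j * (δ : G)),
      (((χ δ)⁻¹ : ℂˣ) : ℂ) = kp q.1 * e0 (Quotient.out q.2)) →
    ∀ j : ℕ,
    (rE A B : ℂ) * ∑ δ : Δ, (((χ δ)⁻¹ : ℂˣ) : ℂ) * ∑ᶠ q ∈ X (γ ^ j * (δ : G)),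
        w (Quotient.out q.2) *
        c q.1 * dlX (R.L q.1) (aX p f) (ptE R (lvX p f n) q.1 (Quotient.out q.2)) =
      STXE R (lvX p f n) (p ^ (n + 1)) (aX p f) e (kkTE R kp c t) ((1 + (p : ℤ)) ^ j) +
        s * STXE R (lvX p f n) (p ^ (n + 1)) (aX p f) e (kkTE R kp c t) (-(1 + (p : ℤ)) ^ j)

open Classical in
/-- (TH) the sums `That_j` with a twist `t` -/
theorem te_TH (h1 : Te_TSH) (hP : Si_PTP_E) : Te_TH := by
  intro p A B f hS hE2 h2f g hlv hg ι _ R n G _ _ γ Δ _ X hM χ e0 kp c w e s t hE htm htp ht1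
    hts hes hχ j
  have hm0 : lvX p f n ≠ 0 := OBI.THx.lvX_ne hS n
  have hfin : Finite (OO A B ⧸ idl (A := A) (B := B) (lvX p f n)) := MUXI.TH.finR _ hm0
  have hq : q0 p = p := q0_odd hS.p2
  have hpn : p * p ^ n = p ^ (n + 1) := by ring
  rw [MUXI.TH.sum_disj (fun δ : Δ => X (γ ^ j * (δ : G)))
    (fun q δ δ' h2 h4 => Subtype.ext (mul_left_cancel (hM.uniq q _ _ h2 h4)))
    (fun δ => (((χ δ)⁻¹ : ℂˣ) : ℂ)) _ (fun q => kp q.1 * e0 (Quotient.out q.2))
    (fun δ q hq => hχ δ j q hq)]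
  set GG : ι → OO A B → ℂ := fun i x =>
      kp i * c i * (t (nI (R.b i)))⁻¹ *
      ((if ((p ^ (n + 1) : ℕ) : ℤ) ∣ nm x * nI (R.b i) - (1 + (p : ℤ)) ^ j then
        e x * dlX (R.L i) (aX p f) (ptE R (lvX p f n) i x) else 0) +
      s * (if ((p ^ (n + 1) : ℕ) : ℤ) ∣ nm x * nI (R.b i) - -(1 + (p : ℤ)) ^ j then
        e x * dlX (R.L i) (aX p f) (ptE R (lvX p f n) i x) else 0)) with hGG
  have hind : ∀ q : ι × (OO A B ⧸ idl (A := A) (B := B) (lvX p f n)),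
      (if ∃ δ : Δ, q ∈ X (γ ^ j * (δ : G)) then
        kp q.1 * e0 (Quotient.out q.2) * (w (Quotient.out q.2) *
        c q.1 * dlX (R.L q.1) (aX p f) (ptE R (lvX p f n) q.1 (Quotient.out q.2))) else 0) =
      if (Quotient.out q.2 : OO A B) - 1 ∈ idl (A := A) (B := B) 2 then
        GG q.1 (Quotient.out q.2) else 0 := by
    intro q
    have hmem := MUXI.TH.mem_iff_E hM q j
    rw [hq, hpn] at hmem
    rw [if_congr hmem rfl rfl, ite_and]
    refine if_congr Iff.rfl ?_ rfl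
    exact OBI.THx.term hS n hg hE.toIsEI htm htp ht1 hts hes _ j _ _ _ _
  have hmM : lvX p f n = f * p ^ (n + 1) := lvX_odd hS.p2 f n
  have hlvd : ((p ^ (n + 1) : ℕ) : ℤ) ∣ ((lvX p f n : ℕ) : ℤ) := ⟨(f : ℤ), by
    rw [hmM]; push_cast; ring⟩
  have hle0 : idl (A := A) (B := B) (lvX p f n) ≤ idl (A := A) (B := B) (lvX p f 0) := by
    refine Ideal.span_singleton_le_span_singleton.2 ⟨((p ^ n : ℕ) : OO A B), ?_⟩
    unfold lvX
    push_cast
    ring
  have h2n : 2 ∣ lvX p f n := by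
    rw [hmM]
    exact h2f.mul_right _
  have hus : ∀ i : ι, (rE A B : ℂ) * ∑ᶠ q : OO A B ⧸ idl (A := A) (B := B) (lvX p f n),
      (if (Quotient.out q : OO A B) - 1 ∈ idl (A := A) (B := B) 2 then
        GG i (Quotient.out q) else 0) =
      ∑ᶠ q : OO A B ⧸ idl (A := A) (B := B) (lvX p f n), GG i (Quotient.out q) := by
    intro i
    refine USum.usum hE2 hm0 h2n (GG i) ?_ ?_ ?_
    · intro x y hxy
      have e1 : e x = e y := hE.per x y (hlv (hle0 hxy))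
      have e2 := (hP A B hE2.toCQ (p * f) ι R (lvX p f n) hm0 i).1 x y hxy
      have e3 := e2.2.2 (aX p f)
      have e4 : ∀ t : ℤ, ((p ^ (n + 1) : ℕ) : ℤ) ∣ nm x * nI (R.b i) - t ↔
          ((p ^ (n + 1) : ℕ) : ℤ) ∣ nm y * nI (R.b i) - t := by
        intro t
        have e5 : ((p ^ (n + 1) : ℕ) : ℤ) ∣ (nm x - nm y) * nI (R.b i) :=
          (hlvd.trans (NSI.TH.nm_per hxy)).mul_right _
        have e6 : nm x * nI (R.b i) - t = (nm y * nI (R.b i) - t) + (nm x - nm y) * nI (R.b i) := by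
          ring
        rw [e6]
        exact (Int.dvd_add_left e5)
      simp only [hGG]
      rw [e1, e3, if_congr (e4 _) rfl rfl, if_congr (e4 _) rfl rfl]
    · intro x hx
      have e1 : e x ≠ 0 := by
        intro h0
        apply hx
        simp only [hGG, h0, zero_mul, ite_self, mul_zero, add_zero]
      have h8 : IsCoprime x ((f : ℕ) : OO A B) := OBI.THx.cop_f hg ((hE.supp x).1 e1)
      obtain ⟨k, hk⟩ := h2f
      have h9 : (2 : OO A B) ∣ ((f : ℕ) : OO A B) := ⟨(k : OO A B), by rw [hk]; push_cast; rfl⟩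
      exact h8.of_isCoprime_of_dvd_right h9
    · intro z x hz
      have e1 : nm (z * x) = nm x := by
        rw [nm_mul hE2.toCQ, (isUnit_nm hE2 z).1 hz, one_mul]
      have e2 : e (z * x) = emb z * e x := by rw [hE.mul, hE.unit z hz]
      have e3 : dlX (R.L i) (aX p f) (ptE R (lvX p f n) i (z * x)) =
          dlX (R.L i) (aX p f) (ptE R (lvX p f n) i x) / emb z := by
        rw [NSI.TH.ptE_mul hE2.toCQ]
        exact dlX_unit hE2 (R.nl i).toIsLI hz _ _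
      have hz0 : emb z ≠ 0 := emb_ne_zero hE2.toCQ fun h0 => not_isUnit_zero (by
        haveI := isDomain hE2.toCQ
        exact (h0 ▸ hz : IsUnit (0 : OO A B)))
      have e4 : e (z * x) * dlX (R.L i) (aX p f) (ptE R (lvX p f n) i (z * x)) =
          e x * dlX (R.L i) (aX p f) (ptE R (lvX p f n) i x) := by
        rw [e2, e3]
        field_simp
      simp only [hGG]
      rw [e1, e4]
  rw [finsum_congr hind, MUXI.TH.sum_pairs, Finset.mul_sum, Finset.sum_congr rfl fun i _ => hus i]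
  unfold STXE
  rw [Finset.mul_sum, ← Finset.sum_add_distrib]
  refine Finset.sum_congr rfl fun i _ => ?_
  have hT := h1 p A B f hS g hlv ι R n e hE.toIsEI i ((1 + (p : ℤ)) ^ j)
  have hT' := h1 p A B f hS g hlv ι R n e hE.toIsEI i (-(1 + (p : ℤ)) ^ j)
  rw [MUXI.TH.comb_sum (kp i * c i * (t (nI (R.b i)))⁻¹) (s : ℂ) _ _ _
    (fun x => rfl), ← hT, ← hT']
  have hmu := THNx.muX_ne hS R i
  unfold kkTE sumMod
  field_simp

end

end Pool.Agent.OEI
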