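import Pool.Agent.OE.StI
import Pool.Agent.OB.I_XMX
import Pool.Agent.ME.X.I_HIT
import Pool.Agent.MUX.XLib

/-!
# OE, one branch: the sets `XXE` satisfy `XM_E` for the group `NC h (RB p n)` (after `OB/I_XMX.lean`)
-/

set_option autoImplicit false

namespace Pool.Agent.OEI

open _root_.MU3 Pool.Agent.MU3 Pool.Agent.MU3A Pool.Agent.MU3B Pool.Agent.RI Pool.Agent.RID
  Pool.Agent.MUX Pool.Agent.ME Pool.Agent.MUXK Pool.Agent.MUXI Pool.Agent.NS Pool.Agent.NSI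
  Pool.Agent.OB Pool.Agent.OBI Pool.Agent.OT Pool.Agent.OTI Pool.Agent.OE
open Pool.Agent.MU3I (zt)

noncomputable section


/-- (XMX) the sets `XXE` satisfy `XM_E` for the group `NC h (RB p n)` -/
def Te_XMX : Prop :=
  ∀ (p : ℕ) (A B : ℤ) (f : ℕ),
    SetQ p A B f → CaseE A B → 2 ∣ f → TorXE A B → ∀ (ι : Type) (R : RepsE A B (p * f) ι)
    (D : IntermediateField ℚ ℂ) (n : ℕ) (h : kk A B ≤ D), RB p n ≤ D →
    (∀ y ∈ D, y ∈ RFE (idl (A := A) (B := B) (lvX p f n))) → letI := algC h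
    ∀ (_ : IsGalois (kk A B) ↥D) (γ : ↥D ≃ₐ[kk A B] ↥D),
    (∀ x : ↥D, (x : ℂ) = zt (p ^ (n + 1)) + (zt (p ^ (n + 1)))⁻¹ →
        ((γ x : ↥D) : ℂ) =
          zt (p ^ (n + 1)) ^ (1 + p) + (zt (p ^ (n + 1)) ^ (1 + p))⁻¹) →
    XM_E R p f n γ (NC h (RB p n)) (fun τ => XXE R (lvX p f n) h τ)

open Pool.Agent.OBI.XMXx in
theorem te_XMX (h1 : Si_XXF_E) (h2 : Si_ARF_E) : Te_XMX := by
  intro p A B f hS hE h2f hT ι R D n h hRB hD
  let aD : Algebra (kk A B) ↥D := algC h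
  intro hG γ hγ
  have hQ := hS.cq
  have hp0 : 0 < p := hS.pp.pos
  have hq3 : 3 ≤ p := by
    have h4 := hS.pp.two_le
    have h5 := hS.p2
    omega
  have hf1 : 1 ≤ f := Nat.one_le_iff_ne_zero.2 hS.f0
  have hpn : 1 ≤ p ^ n := Nat.one_le_pow _ _ hp0
  set m : ℕ := lvX p f n with hm
  set M : ℕ := p ^ (n + 1) with hM
  have hmM : m = f * M := by rw [hm, hM, lvX_odd hS.p2]
  have hM3 : 3 ≤ M := by
    rw [hM]
    calc 3 = 1 * 3 := rfl
      _ ≤ p ^ n * p := Nat.mul_le_mul hpn hq3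
      _ = p ^ (n + 1) := (pow_succ p n).symm
  have hm3 : 3 ≤ m := by
    rw [hmM]
    calc 3 = 1 * 3 := rfl
      _ ≤ f * M := Nat.mul_le_mul hf1 hM3
  have hm2 : 2 ≤ m := by omega
  have hM0 : M ≠ 0 := by omega
  have hm0 : idl (A := A) (B := B) m ≠ ⊥ := by
    rw [Ne, Ideal.span_singleton_eq_bot]
    exact natCast_ne_zero' hQ (by omega)
  have h2n : 2 ∣ m := by
    rw [hmM]
    exact h2f.mul_right M
  have hcop : ∀ i, (nI (R.b i)).Coprime m := by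
    intro i
    have h4 := R.cop i
    have h5 : (nI (R.b i)).Coprime p := h4.coprime_mul_right_right
    have h6 : (nI (R.b i)).Coprime f := h4.coprime_mul_left_right
    rw [hmM, hM]
    exact h6.mul_right (h5.pow_right (n + 1))
  have hNL : ∃ (b : Ideal (OO A B)) (L : PeriodPair) (om : ℂ), IsNE b L om :=
    ⟨_, _, _, R.nl R.i0⟩
  obtain ⟨a1, -, a3, a4, a5, -, a7⟩ := h2 A B hQ hT hNL (idl m) hm0
    (MUXI.Hit.idl_le h2n) D h hD hG
  obtain ⟨x1, xt, x2⟩ := h1 A B hE hT (p * f) ι R m (by omega) h2n D h hD hG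
  have hcomm : ∀ σ τ : ↥D ≃ₐ[kk A B] ↥D, σ * τ = τ * σ := by
    intro σ τ
    obtain ⟨a, -, ha⟩ := a3 σ
    obtain ⟨b, -, hb⟩ := a3 τ
    have h5 := a5 σ τ a b ha hb
    have h6 := a5 τ σ b a hb ha
    refine a4 _ _ _ _ h5 h6 ⟨1, 1, ?_, ?_, ?_, ?_, ?_⟩
    · have := natCast_ne_zero' hQ (n := 1) one_ne_zero
      rwa [Nat.cast_one] at this
    · have := natCast_ne_zero' hQ (n := 1) one_ne_zero
      rwa [Nat.cast_one] at this
    · rw [sp, Ideal.span_singleton_one, ← Ideal.one_eq_top]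
      exact isCoprime_one_left
    · rw [sub_self]
      exact Ideal.zero_mem _
    · rw [mul_comm a b]
  have hcopr : ∀ τ, ∀ q ∈ XXE R m h τ,
      IsCoprime (Quotient.out q.2 : OO A B) ((m : ℕ) : OO A B) := fun τ q hq => hq.1
  refine ⟨hcomm, hcopr, xt, fun q hq hq2 => (x2 q hq).1 hq2,
    fun q τ τ' hq hq' => (x2 q (hcopr τ q hq)).2 τ τ' hq hq', ?_⟩
  intro q τ hq j
  set ζ : ℂ := zt M with hζd
  have hζ : IsPrimitiveRoot ζ M := Complex.isPrimitiveRoot_exp M hM0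
  have hζM : ζ ^ M = 1 := hζ.pow_eq_one
  have hBn : RB p n = IntermediateField.adjoin ℚ {ζ + ζ⁻¹} := rfl
  have htB : ζ + ζ⁻¹ ∈ RB p n := by
    rw [hBn]
    exact IntermediateField.mem_adjoin_simple_self ℚ _
  have htD : ζ + ζ⁻¹ ∈ D := hRB htB
  set y : ↥D := ⟨ζ + ζ⁻¹, htD⟩ with hy
  have hle : idl (A := A) (B := B) m ≤ idl M := by
    rw [Ideal.span_singleton_le_span_singleton, hmM]
    push_cast
    exact dvd_mul_left _ _
  -- the ideal of `τ`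
  set x : OO A B := Quotient.out q.2 with hx
  have hxc : IsCoprime x ((m : ℕ) : OO A B) := hcopr τ q hq
  have hqe : (q.1, Ideal.Quotient.mk (idl (A := A) (B := B) m) x) = q := by
    have h5 : Ideal.Quotient.mk (idl (A := A) (B := B) m) x = q.2 := Quotient.out_eq q.2
    rw [h5]
  have hAR : AR_E h (idl m) τ (sp x * cjI (R.b q.1)) := by
    refine ((x1 τ q.1 x hxc).1 ?_).2
    rw [hqe]
    exact hq
  have hx0 : x ≠ 0 := by
    intro h0
    rw [h0, isCoprime_zero_left] at hxc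
    obtain ⟨z, hz⟩ := hxc.exists_right_inv
    exact natCast_not_unit hm2 z hz
  have hb0 : R.b q.1 ≠ ⊥ := (R.nl q.1).b_ne
  have hspx : sp x ≠ ⊥ := by
    rwa [Ne, Ideal.span_singleton_eq_bot]
  have hN : ((nI (sp x * cjI (R.b q.1)) : ℕ) : ℤ) = nm x * nI (R.b q.1) := by
    rw [nI_mul hQ hspx (cjI_ne_bot hQ hb0), nI_sp hQ hx0, nI_cjI hQ hb0]
    push_cast
    rw [abs_of_nonneg (nm_nonneg hQ x)]
  have e1 := a7 M τ _ ζ y hM0 hle hAR hζM rfl
  -- the ideal of `γ`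
  obtain ⟨c, hcc, hc⟩ := a3 γ
  have hc0 : c ≠ ⊥ := by
    rintro rfl
    have h5 : IsUnit (idl (A := A) (B := B) m) := isCoprime_zero_left.1 hcc
    rw [Ideal.isUnit_iff, Ideal.eq_top_iff_one] at h5
    obtain ⟨z, hz⟩ := Ideal.mem_span_singleton.1 h5
    exact natCast_not_unit hm2 z hz.symm
  have hARj : ∀ j : ℕ, AR_E h (idl m) (γ ^ j) (c ^ j) := by
    intro j
    induction j with
    | zero =>
      rw [pow_zero, pow_zero, Ideal.one_eq_top]
      exact a1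
    | succ j ih =>
      rw [pow_succ, pow_succ]
      exact a5 _ _ _ _ ih hc
  have e2 := a7 M (γ ^ j) _ ζ y hM0 hle (hARj j) hζM rfl
  rw [(nI_pow hQ hc0 j).2] at e2
  have e3 := a7 M γ _ ζ y hM0 hle hc hζM rfl
  have e4 := hγ y rfl
  rw [e3] at e4
  have e5 := (pm hM0 hζ _ _).1 e4
  have e6 := pw (M : ℤ) (nI c : ℤ) ((1 + p : ℕ) : ℤ) e5 j
  -- the condition on `τ`
  have key : τ * (γ ^ j)⁻¹ ∈ NC h (RB p n) ↔
      ((τ y : ↥D) : ℂ) = (((γ ^ j) y : ↥D) : ℂ) := by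
    rw [hcomm τ (γ ^ j)⁻¹]
    constructor
    · intro hmem
      have h5 : ((γ ^ j)⁻¹ * τ) y = y := hmem y htB
      have h6 : τ y = (γ ^ j) y := by
        have h7 : (γ ^ j) (((γ ^ j)⁻¹ * τ) y) = (γ ^ j) y := by rw [h5]
        rwa [← AlgEquiv.mul_apply, mul_inv_cancel_left] at h7
      rw [h6]
    · intro he
      have h5 : ∀ z : ↥D, (z : ℂ) ∈ RB p n → τ z = (γ ^ j) z := by
        intro z hz
        let φ : ↥D →+* ℂ := (algebraMap ↥D ℂ).comp (τ : ↥D →+* ↥D)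
        let ψ : ↥D →+* ℂ :=
          (algebraMap ↥D ℂ).comp ((γ ^ j : ↥D ≃ₐ[kk A B] ↥D) :
            ↥D →+* ↥D)
        exact Subtype.ext (eqB hBn φ ψ htD he z hz)
      intro z hz
      have h6 := h5 z hz
      show (γ ^ j)⁻¹ (τ z) = z
      rw [h6, ← AlgEquiv.mul_apply, inv_mul_cancel]
      rfl
  have hqM : q0 p * p ^ n = M := by rw [q0_odd hS.p2, hM, pow_succ, mul_comm]
  rw [key, e1, e2, pm hM0 hζ]
  rw [hN, hqM, q0_odd hS.p2]
  push_cast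
  push_cast at e6
  exact pm_iff (M : ℤ) _ _ _ e6

end

end Pool.Agent.OEI
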