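import Pool.Agent.OE.StN2
import Pool.Agent.OE.N_XMX
import Pool.Agent.OE.N_TH
import Pool.Agent.OE.IAll

/-!
# OE, one branch for `k = ℚ(i)`, `ℚ(√-3)`, block I: the result from `O_HFINE` (helper79); model: `OB/I_I31.lean`, `OB/I_INP.lean`
-/

set_option autoImplicit false

namespace Pool.Agent.OEI

open _root_.MU3 Pool.Agent.MU3 Pool.Agent.MU3A Pool.Agent.MU3B Pool.Agent.RI Pool.Agent.RID
  Pool.Agent.MUX Pool.Agent.ME Pool.Agent.MUXK Pool.Agent.MUXI Pool.Agent.NS Pool.Agent.NSI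
  Pool.Agent.OB Pool.Agent.OBI Pool.Agent.OT Pool.Agent.OTI Pool.Agent.OE
open Pool.Agent.MU3I (zt)

noncomputable section

/-- (I31) one level, one even branch -/
def Te_I31 : Prop :=
  ∀ (p : ℕ) [Fact p.Prime] (A B : ℤ) (P : Ideal (OO A B)) (V : ValuationSubring ℂ) (f : ℕ),
    SetOE p A B P V f → TorXE A B →
    ∀ (ι : Type) [Fintype ι] (R : RepsE A B (p * f) ι) (u el lam : ℂ),
    GoodL V (R.L R.i0) u el lam →
    ∀ (K : IntermediateField ℚ ℂ) (Bn : ℕ → IntermediateField ℚ ℂ)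
    [FiniteDimensional ℚ K] [∀ n, FiniteDimensional ℚ ↥(K ⊔ Bn n)]
    (hB : BasX p (kk A B) K Bn)
    (_ : ¬ p ∣ Module.finrank (kk A B) (IntermediateField.extendScalars hB.hk))
    (_ : ∃ ω ∈ K, IsPrimitiveRoot ω p)
    (_ : ∀ y ∈ K, y ∈ RFE (idl (A := A) (B := B) (lvX p f 0)))
    (hk : ∀ n, kk A B ≤ K ⊔ Bn n) (hkK : kk A B ≤ K)
    (C : ∀ n, (letI := algC (hk n); ↥(K ⊔ Bn n) ≃ₐ[kk A B] ↥(K ⊔ Bn n)) → ℂ)
    (_ : ∀ n, 1 ≤ n → EInpOE p P V f R u n (hk n) (C n)) (c₀ : ℕ → ℂ)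
    (mem : ∀ n, c₀ n ∈ K ⊔ Bn n) (_ : ∀ n, 1 ≤ n → c₀ n = C n (letI := algC (hk n); 1))
    (χ om : (letI := algC hkK; (↥K ≃ₐ[kk A B] ↥K) →* (IsLocalRing.ResidueField V)ˣ))
    (_ : IsOm (IsLocalRing.ResidueField V) p hkK om) (n₀ : ℕ),
    ∃ n, n₀ ≤ n ∧ ∃ j, j < p - 1 ∧ Even j ∧
      I3At (IsLocalRing.ResidueField V) p (kk A B) K Bn hkK (brO hkK χ om j) 1 n (hk n) (c₀ n)
        (mem n)

/-- (I31) one level, one even branch -/
theorem te_I31 (hRES : Pool.Agent.MUXJ.Sj_RES) (hCHI : Oi_CHI) (hPOW : Te_POW)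
    (hEPS : Te_EPS) (hTEI : S_TEIG) (hNIM : Pool.Agent.MUXF.Sx_NIM) (hARF : Si_ARF_E)
    (hXXF : Si_XXF_E) (hSUB : Te_SUB) (hGAM : Oi_GAM) (hNCR : Oi_NCR) (hXM : Te_XMX)
    (hTH : Te_TH) (hBRA : Oi_BRA) (hGEN : Si_GEN) (hH : Pool.Agent.OEN.O_HFINE) (hGAL : S_GALX)
    (hRSX : S_RSX) (hBAS : S_BASG) : Te_I31 := by
  classical
  intro p iP A B P V f hS hTor ι iι R u el lam hG K Bn iK iKB hB hcop hmu hKT hk hkK C hE c₀
    mem hc₀ χ om hom n₀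
  let aK : Algebra (kk A B) K := algC hkK
  have hpp : p.Prime := iP.out
  have p5 := hS.p5
  have p2 : p ≠ 2 := by omega
  have hCQ : CQ A B := hS.toCQ
  have hL : SetQ p A B f := setQ_OE hS
  have h2l : 2 ∣ lvX p f 0 := by
    rw [lvX_odd p2]
    exact hS.f2.mul_right _
  have hpV : ((p : ℕ) : ℂ) ∈ V.nonunits := by
    have h1 := (hS.hV ((p : ℕ) : OO A B)).2 hS.mem
    rwa [OBI.I31.emb_nat] at h1
  obtain ⟨iF1, iF2⟩ := hRES p V hpV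
  have galK : IsGalois (kk A B) K := (isGalois_algC hkK).2 hB.gal
  have fdkK : FiniteDimensional (kk A B) K :=
    Module.Finite.of_restrictScalars_finite ℚ (kk A B) K
  have commK : ∀ a b : K ≃ₐ[kk A B] K, a * b = b * a := by
    intro a b
    have h1 := hB.ab ((extEquiv hkK).symm.autCongr a) ((extEquiv hkK).symm.autCongr b)
    rw [← map_mul, ← map_mul] at h1
    exact (extEquiv hkK).symm.autCongr.injective h1
  have hcard : Nat.card (K ≃ₐ[kk A B] K) =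
      Module.finrank (kk A B) (IntermediateField.extendScalars hB.hk) := by
    rw [IsGalois.card_aut_eq_finrank]
    exact (extEquiv hkK).toLinearEquiv.finrank_eq
  have hc3 : ¬ p ∣ Nat.card (K ≃ₐ[kk A B] K) := by
    rw [hcard]
    exact hcop
  obtain ⟨X, hXr', hXθ⟩ := hCHI p V hpV iF1 iF2 (K ≃ₐ[kk A B] K) commK hc3 χ
  obtain ⟨rr, hrr⟩ : ∃ rr, rr = Nat.card (K ≃ₐ[kk A B] K) := ⟨_, rfl⟩
  have hXr : ∀ τ, X τ ^ rr = 1 := by
    intro τ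
    rw [hrr]
    exact hXr' τ
  rw [← hrr] at hc3
  obtain ⟨e0, kp, h01, h0m, h0mul, h0per, h0supp, h0pow, h0u, hkp, h0X⟩ :=
    Pool.Agent.OE.e0E hARF hNIM p A B f hL h2l hTor ι R K hkK hKT galK X _ hXr
  obtain ⟨w, hw⟩ := hTEI p 1 A B P V hS.toCaseOE.toG
  obtain ⟨e, i, t, hei, hi4, hi7, hty, hepow, htw, hes⟩ :=
    hEPS p A B P V f hS w hw e0 rr hc3 h01 h0m h0mul h0per h0supp h0pow h0u
  obtain ⟨s, hs, ht4⟩ : ∃ s : ℤ, (s = 1 ∨ s = -1) ∧ t (-1) = s := by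
    have h1 : t (-1) * t (-1) = 1 := by
      rw [← htw.mul]
      norm_num
      exact htw.one
    rcases mul_self_eq_one_iff.1 h1 with h2 | h2
    · exact ⟨1, Or.inl rfl, by rw [h2]; simp⟩
    · exact ⟨-1, Or.inr rfl, by rw [h2]; simp⟩
  have hkk := ITEx.kkT_pow hpp R kp rr (nI P - 1) hkp t htw.pow
  obtain ⟨-, -, -, -, -, -, -, hq1, -⟩ := hBAS p 1 A B P V hS.toCaseOE.toG
  have h8 : ¬ p ∣ (nI P - 1) * rr := by
    intro h
    rcases (Nat.Prime.dvd_mul hpp).1 h with h | h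
    · exact hq1 h
    · exact hc3 h
  obtain ⟨n, hn1, hnot⟩ := hH p A B P V f hS hTor ι R u el lam hG w hw e hei ((nI P - 1) * rr)
    h8 hepow i hi4 hi7 hty s hs (kkTE R kp (fun i => muXE R i) t) hkk (n₀ + 1)
  refine ⟨n, by omega, ?_⟩
  have hn2 : 1 ≤ n := by omega
  let akL : Algebra (kk A B) ↥(K ⊔ Bn n) := algC (hk n)
  obtain ⟨ρ, hρ⟩ := Pool.Agent.MUXK.I3X19.restr hRSX p (kk A B) K Bn hB hcop hkK n (hk n)
  obtain ⟨gal, comm⟩ := hGAL p (kk A B) K Bn hB n (hk n)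
  have hNL : ∃ (b : Ideal (OO A B)) (L : PeriodPair) (om : ℂ), IsNE b L om :=
    ⟨_, _, _, R.nl R.i0⟩
  have hsub := hSUB p A B f hL hTor hNL K hKT n (Bn n) (hB.lay n)
  obtain ⟨γ₀, hγ₀, hγ₀z⟩ := hGAM p p2 (kk A B) K Bn hB hmu n (hk n)
  obtain ⟨hBR, hRD, hNC⟩ := hNCR p p2 (kk A B) K n (Bn n) (hB.lay n) hmu (hk n)
  have hXX := hXM p A B f hL hS.toCaseE hS.f2 hTor ι R (K ⊔ Bn n) n (hk n) hRD hsub gal γ₀ hγ₀z
  have fdk : FiniteDimensional (kk A B) ↥(K ⊔ Bn n) :=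
    Module.Finite.of_restrictScalars_finite ℚ (kk A B) ↥(K ⊔ Bn n)
  have iG : Finite (↥(K ⊔ Bn n) ≃ₐ[kk A B] ↥(K ⊔ Bn n)) := inferInstance
  have iN : Fintype (NC (hk n) (Bn n)) := Fintype.ofFinite _
  have iN2 : Fintype (NC (hk n) (RB p n)) := Fintype.ofFinite _
  have hNle : NC (hk n) (RB p n) ≤ NC (hk n) (Bn n) := fun δ hδ x hx => hδ x (hBR hx)
  let inc : NC (hk n) (RB p n) →* NC (hk n) (Bn n) := Subgroup.inclusion hNle
  have hinc : Function.Injective inc := Subgroup.inclusion_injective hNle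
  let jj : NC (hk n) (RB p n) →* (K ≃ₐ[kk A B] K) := ρ.toMonoidHom.comp inc
  have hjj : Function.Injective jj := ρ.injective.comp hinc
  obtain ⟨θ, hXθ1⟩ := hXθ (NC (hk n) (RB p n)) jj hjj
  let X' : NC (hk n) (RB p n) →* ℂˣ := X.comp jj
  have hX'θ : (∑ δ : NC (hk n) (RB p n),
      (((θ ((χ (jj δ))⁻¹ : (IsLocalRing.ResidueField V)ˣ)).val : ℕ) : ℂ) * (X' δ : ℂ)) ∉
        V.nonunits := hXθ1
  have hKD : K ≤ K ⊔ Bn n := le_sup_left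
  have h2n : 2 ∣ lvX p f n := by
    rw [lvX_odd p2]
    exact hS.f2.mul_right _
  have hm2 : 2 ≤ lvX p f n := by
    have h2 : 1 ≤ p ^ n := Nat.one_le_pow _ _ hpp.pos
    have h3 : 1 ≤ f := Nat.one_le_iff_ne_zero.2 hS.f0
    rw [lvX_odd p2, pow_succ]
    nlinarith [Nat.mul_le_mul h3 h2]
  have hm0 : (idl (A := A) (B := B) (lvX p f n)) ≠ ⊥ := by
    intro h
    have h1 : ((lvX p f n : ℕ) : OO A B) = 0 := Ideal.span_singleton_eq_bot.1 h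
    have h2 := congrArg emb h1
    rw [OBI.I31.emb_nat] at h2
    have h3 : emb (0 : OO A B) = 0 := by
      unfold emb
      simp
    rw [h3] at h2
    have h4 : lvX p f n = 0 := by exact_mod_cast h2
    omega
  have hlv : lvX p f 0 ∣ lvX p f n := by
    unfold lvX
    rw [pow_zero, mul_one]
    exact dvd_mul_right _ _
  have hle : idl (A := A) (B := B) (lvX p f n) ≤ idl (lvX p f 0) := by
    refine Ideal.span_singleton_le_span_singleton.2 ?_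
    exact_mod_cast Nat.cast_dvd_cast hlv
  have hchi : ∀ (δ : NC (hk n) (RB p n)) (j : ℕ),
      ∀ q ∈ XXE R (lvX p f n) (hk n) (γ₀ ^ j * (δ : ↥(K ⊔ Bn n) ≃ₐ[kk A B] ↥(K ⊔ Bn n))),
      (((X' δ)⁻¹ : ℂˣ) : ℂ) = kp q.1 * e0 (Quotient.out q.2) := by
    intro δ j q hq
    have hqc : IsCoprime (Quotient.out q.2 : OO A B) ((lvX p f n : ℕ) : OO A B) := hq.1
    have h1 := hXXF A B hS.toCaseE hTor (p * f) ι R (lvX p f n) (by omega) h2n (K ⊔ Bn n) (hk n)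
      hsub gal
    have hq2 : (q.1, Ideal.Quotient.mk (idl (A := A) (B := B) (lvX p f n))
        (Quotient.out q.2)) = q := Prod.ext rfl (Quotient.out_eq' q.2)
    have h2 := ((h1.1 (γ₀ ^ j * (δ : ↥(K ⊔ Bn n) ≃ₐ[kk A B] ↥(K ⊔ Bn n))) q.1
      (Quotient.out q.2) hqc).1 (by rw [hq2]; exact hq)).2
    obtain ⟨-, -, -, -, -, h3, -⟩ := hARF A B hCQ hTor hNL (idl (lvX p f n)) hm0
      (MUXI.Hit.idl_le h2n) (K ⊔ Bn n) (hk n) hsub gal
    have hγj : ∀ (i : ℕ) (z : ↥(K ⊔ Bn n)), (z : ℂ) ∈ K → (γ₀ ^ i) z = z := by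
      intro i z hz
      induction i with
      | zero => rfl
      | succ i ih =>
        rw [pow_succ, AlgEquiv.mul_apply, (hγ₀ z).2 hz, ih]
    have h4 := h3 K hkK (idl (lvX p f 0)) hle hKD
      (γ₀ ^ j * (δ : ↥(K ⊔ Bn n) ≃ₐ[kk A B] ↥(K ⊔ Bn n))) (jj δ)
      (sp (Quotient.out q.2) * cjI (R.b q.1)) (by
        intro x x' hx
        rw [AlgEquiv.mul_apply]
        have h5 := hρ (inc δ) x x' hx
        have h6 : (((δ : ↥(K ⊔ Bn n) ≃ₐ[kk A B] ↥(K ⊔ Bn n)) x' : ↥(K ⊔ Bn n)) : ℂ) ∈ K := by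
          have h7 : (((δ : ↥(K ⊔ Bn n) ≃ₐ[kk A B] ↥(K ⊔ Bn n)) x' : ↥(K ⊔ Bn n)) : ℂ) =
            (ρ (inc δ) x : ↥K) := h5
          rw [h7]
          exact (ρ (inc δ) x).2
        rw [hγj j _ h6]
        exact h5) h2
    have hco : IsCoprime (Quotient.out q.2 : OO A B) ((lvX p f 0 : ℕ) : OO A B) := by
      have h7 : ((lvX p f 0 : ℕ) : OO A B) ∣ ((lvX p f n : ℕ) : OO A B) := by
        exact_mod_cast Nat.cast_dvd_cast hlv
      exact hqc.of_isCoprime_of_dvd_right h7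
    exact h0X (jj δ) q.1 (Quotient.out q.2) hco h4
  -- the ideal `(p f)`
  have hg1 : idl (A := A) (B := B) (lvX p f 0) ≤ idl (p * f) := by
    refine Ideal.span_singleton_le_span_singleton.2 ?_
    have h1 : p * f ∣ lvX p f 0 := by
      rw [lvX_odd p2, zero_add, pow_one, mul_comm]
    exact_mod_cast Nat.cast_dvd_cast h1
  have hg2 : idl (A := A) (B := B) (p * f) ≤ idl f := by
    refine Ideal.span_singleton_le_span_singleton.2 ?_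
    have h1 : f ∣ p * f := dvd_mul_left f p
    exact_mod_cast Nat.cast_dvd_cast h1
  have hg3 : idl (A := A) (B := B) (lvX p f n) ≤ P := by
    rw [Ideal.span_singleton_le_iff_mem]
    have h1 : ((lvX p f n : ℕ) : OO A B) = ((f * p ^ n : ℕ) : OO A B) * ((p : ℕ) : OO A B) := by
      rw [lvX_odd p2]
      push_cast
      ring
    rw [h1]
    exact P.mul_mem_left _ hS.mem
  have hTHi := hTH p A B f hL hS.toCaseE hS.f2 (idl (p * f)) hg1 hg2 ι R n _ γ₀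
    (NC (hk n) (RB p n))
    (fun τ => XXE R (lvX p f n) (hk n) τ) hXX X' e0 kp (fun i => muXE R i) w e s t
    hei htw.mul htw.per htw.one ht4 hes hchi
  -- the statement for `γ₀` and the small group
  have hcne : c₀ n ≠ 0 := by
    rw [hc₀ n hn2]
    exact (hE n hn2).ne
  have key : ∀ y : ↥(K ⊔ Bn n), y ^ p ≠ ∏ δ : NC (hk n) (RB p n),
      ((δ : ↥(K ⊔ Bn n) ≃ₐ[kk A B] ↥(K ⊔ Bn n)) ((Tg γ₀)^[1] ⟨c₀ n, mem n⟩)) ^
        (θ ((χ (jj δ))⁻¹ : (IsLocalRing.ResidueField V)ˣ)).val := by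
    intro y hy
    have hHf := hPOW p A B P V f ι R u n (K ⊔ Bn n) (hk n) (C n) (hE n hn2) w
      hw comm (c₀ n) (mem n) (hc₀ n hn2) γ₀ (NC (hk n) (RB p n)) 1 0
      (fun δ => (θ ((χ (jj δ))⁻¹ : (IsLocalRing.ResidueField V)ˣ)).val) X' hX'θ y hy
    refine absurd hHf (not_le_of_gt ?_)
    have hS1 : (rE A B : ℂ) * ∑ j ∈ Finset.range (1 + 1),
        (((-1 : ℤ) ^ (1 - j) * (Nat.choose 1 j : ℤ) : ℤ) : ℂ) *
        ∑ δ : NC (hk n) (RB p n), (((X' δ)⁻¹ : ℂˣ) : ℂ) * TTNE R w (lvX p f n)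
          (aX p f) (hk n) (γ₀ ^ (0 + j) * (δ : ↥(K ⊔ Bn n) ≃ₐ[kk A B] ↥(K ⊔ Bn n))) =
        ∑ j ∈ Finset.range 2, (-1) ^ (1 - j) *
        (STXE R (lvX p f n) (p ^ (n + 1)) (aX p f) e (kkTE R kp (fun i => muXE R i) t)
            ((1 + p) ^ j) +
          s * STXE R (lvX p f n) (p ^ (n + 1)) (aX p f) e (kkTE R kp (fun i => muXE R i) t)
            (-((1 + p) ^ j))) := by
      rw [Finset.mul_sum]
      refine Finset.sum_congr rfl fun j hj => ?_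
      have hj1 : j ≤ 1 := by
        have := Finset.mem_range.1 hj
        omega
      have hch : Nat.choose 1 j = 1 := by
        interval_cases j <;> rfl
      have h9 := hTHi j
      have h10 : (rE A B : ℂ) * ∑ δ : NC (hk n) (RB p n), (((X' δ)⁻¹ : ℂˣ) : ℂ) *
          TTNE R w (lvX p f n)
          (aX p f) (hk n) (γ₀ ^ j * (δ : ↥(K ⊔ Bn n) ≃ₐ[kk A B] ↥(K ⊔ Bn n))) = _ := h9
      rw [Nat.zero_add, mul_left_comm, h10, hch]
      push_cast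
      ring
    have hvr := ITEx.v_rE hBAS hS.toCaseOE
    rw [← one_mul (V.valuation (_ / u)), ← hvr, ← map_mul, ← mul_div_assoc, hS1]
    exact hnot
  -- the branch
  have hexp := OMB.om_exp p hkK hmu om hom
  have hu1 : ∀ δ : NC (hk n) (Bn n), om (ρ δ) ^ (p - 1) = 1 := by
    intro δ
    obtain ⟨c, hc, hc2, -⟩ := hexp (ρ δ)
    apply Units.ext
    rw [Units.val_pow_eq_pow_val, hc2, Units.val_one]
    exact OMB.nat_pow p hc
  have hu2 : ∀ δ : NC (hk n) (Bn n), (∃ ε : NC (hk n) (RB p n), inc ε = δ) ↔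
      om (ρ δ) ^ 2 = 1 := by
    intro δ
    obtain ⟨c, hc, hc2, hcz⟩ := hexp (ρ δ)
    have h1 : (∃ ε : NC (hk n) (RB p n), inc ε = δ) ↔
        (δ : ↥(K ⊔ Bn n) ≃ₐ[kk A B] ↥(K ⊔ Bn n)) ∈ NC (hk n) (RB p n) := by
      constructor
      · rintro ⟨ε, rfl⟩
        exact ε.2
      · intro h
        exact ⟨⟨δ, h⟩, Subtype.ext rfl⟩
    have h2 : om (ρ δ) ^ 2 = 1 ↔ ((p : ℤ) ∣ (c : ℤ) - 1 ∨ (p : ℤ) ∣ (c : ℤ) + 1) := by
      rw [← OMB.nat_sq (F := IsLocalRing.ResidueField V) p c, ← hc2]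
      constructor
      · intro h
        have h3 := congrArg Units.val h
        rwa [Units.val_pow_eq_pow_val, Units.val_one] at h3
      · intro h
        apply Units.ext
        rw [Units.val_pow_eq_pow_val, Units.val_one]
        exact h
    -- the action of `δ` on the roots of unity
    have h3 : ∀ z : ↥(K ⊔ Bn n), z ^ p = 1 →
        (δ : ↥(K ⊔ Bn n) ≃ₐ[kk A B] ↥(K ⊔ Bn n)) z = z ^ c := by
      intro z hz
      obtain ⟨ω, hωK, hω1⟩ := hmu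
      have hz' : (z : ℂ) ^ p = 1 := congrArg Subtype.val hz
      have : NeZero p := ⟨hpp.ne_zero⟩
      obtain ⟨a, _, ha⟩ := hω1.eq_pow_of_pow_eq_one hz'
      have hzK : (z : ℂ) ∈ K := by
        rw [← ha]
        exact K.pow_mem hωK a
      have h4 := hρ δ ⟨z, hzK⟩ z rfl
      have h5 := hcz ⟨z, hzK⟩ (Subtype.ext hz')
      rw [h5] at h4
      exact Subtype.ext h4
    rw [h1, h2, hNC δ δ.2]
    constructor
    · intro h
      obtain ⟨ω, hωK, hω1⟩ := hmu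
      have h4 : IsPrimitiveRoot (⟨ω, hKD hωK⟩ : ↥(K ⊔ Bn n)) p := by
        refine ⟨Subtype.ext hω1.pow_eq_one, fun l hl => hω1.dvd_of_pow_eq_one l ?_⟩
        exact congrArg Subtype.val hl
      have h5 := h _ h4.pow_eq_one
      rw [map_add, map_inv₀, h3 _ h4.pow_eq_one] at h5
      exact OMB.of_fix h4 hpp.ne_zero h5
    · intro h z hz
      rw [map_add, map_inv₀, h3 z hz]
      rcases OMB.pow_one hz h with h4 | h4
      · rw [h4]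
      · rw [h4, inv_inv, add_comm]
  have hane : ∀ δ : NC (hk n) (Bn n), ((δ : ↥(K ⊔ Bn n) ≃ₐ[kk A B] ↥(K ⊔ Bn n))
      ((Tg γ₀)^[1] ⟨c₀ n, mem n⟩)) ≠ 0 := by
    intro δ h
    have h1 : ((Tg γ₀)^[1] (⟨c₀ n, mem n⟩ : ↥(K ⊔ Bn n))) = 0 :=
      (map_eq_zero (δ : ↥(K ⊔ Bn n) ≃ₐ[kk A B] ↥(K ⊔ Bn n))).1 h
    have h2 : (⟨c₀ n, mem n⟩ : ↥(K ⊔ Bn n)) ≠ 0 := fun h3 => hcne (congrArg Subtype.val h3)
    have h3 : γ₀ (⟨c₀ n, mem n⟩ : ↥(K ⊔ Bn n)) / ⟨c₀ n, mem n⟩ = 0 := h1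
    rcases div_eq_zero_iff.1 h3 with h4 | h4
    · exact h2 ((map_eq_zero γ₀).1 h4)
    · exact h2 h4
  obtain ⟨j, hj, hj2, θ', hθ'⟩ := OMB.branch hBRA (IsLocalRing.ResidueField V) p p2
    (NC (hk n) (Bn n)) (NC (hk n) (RB p n)) inc hinc (fun δ => om (ρ δ)) (fun δ => χ (ρ δ)) hu1
    hu2 (fun δ => (δ : ↥(K ⊔ Bn n) ≃ₐ[kk A B] ↥(K ⊔ Bn n)) ((Tg γ₀)^[1] ⟨c₀ n, mem n⟩)) hane θ key
  refine ⟨j, hj, hj2, ?_⟩
  intro γ hγ iN' r hr
  obtain rfl : iN' = iN := Subsingleton.elim _ _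
  have hrρ : ∀ δ, r δ = ρ δ := by
    intro δ
    refine AlgEquiv.ext fun x => Subtype.ext ?_
    have hx1 : (x : ℂ) ∈ K ⊔ Bn n := hKD x.2
    rw [← hr δ x ⟨x, hx1⟩ rfl, ← hρ δ x ⟨x, hx1⟩ rfl]
  have key2 := hGEN p (kk A B) K Bn hB n (hk n) (c₀ n) (mem n) hcne 1 γ₀ hγ₀
    (fun δ => (θ' ((χ (ρ δ) * om (ρ δ) ^ j)⁻¹ : (IsLocalRing.ResidueField V)ˣ)).val) hθ' γ hγ
  refine ⟨θ', fun y hy => key2 y (hy.trans ?_)⟩
  refine Finset.prod_congr rfl fun δ _ => ?_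
  rw [hrρ δ]
  rfl

/-- the result of block I -/
theorem te_INP (h1 : Te_I31) (h2 : Sn_LEM1) (h3 : Sn_NRX) : Pool.Agent.OEN.O_I3E := by
  intro p iP A B P V f hS hTor ι iι R u el lam hG K₀ K Bn ik iK iKB hX hKT hk hk₀ hkK S c c₀
    n₁ hW C hE hc₀ χ om hom
  have iK₀ : FiniteDimensional ℚ K₀ := NSI.INP.fd hX.le
  have iKB₀ : ∀ n, FiniteDimensional ℚ ↥(K₀ ⊔ Bn n) := fun n =>
    NSI.INP.fd (E' := K ⊔ Bn n) (sup_le_sup_right hX.le _)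
  have hNr := h3 p (kk A B) K₀ K Bn hX hk hk₀ S c c₀ n₁ hW
  obtain ⟨j, hj, hj2, hQ⟩ := OBI.INP.pigeon (fun n j =>
      I3At (IsLocalRing.ResidueField V) p (kk A B) K₀ Bn hkK (brO hkK χ om j) 1 n (hk₀ n) (c₀ n)
        (hW.mem₀ n)) (p - 1)
    (fun n₀ => h1 p A B P V f hS hTor ι R u el lam hG K₀ Bn hX.b0 hX.cop hX.om hKT hk₀ hkK C hE
      c₀ hW.mem₀ hc₀ χ om hom n₀)
  refine ⟨j, hj, hj2, ?_⟩
  exact h2 (IsLocalRing.ResidueField V) p (kk A B) K₀ Bn hX.b0 hX.cop hX.om hk₀ hkK c₀ hW.mem₀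
    (NSI.INP.c_ne hW) n₁ hNr (brO hkK χ om j) hQ

/-- THE RESULT of block I, one branch, for the exceptional fields -/
theorem oei_I3 (hH : Pool.Agent.OEN.O_HFINE) : Pool.Agent.OEN.O_I3E :=
  te_INP (te_I31 Pool.Agent.MUXJ.j_RES Pool.Agent.OBI.o_CHI
    (te_POW n_FOU Pool.Agent.MU3I.t_ITG) (te_EPS g_EPS te_TEU) g_TEI
    Pool.Agent.MUXF.xf_NIM i_ARF_E i_XXF_E (te_SUB i_IAF_E) Pool.Agent.OBI.o_GAM
    Pool.Agent.OBI.o_NCR (te_XMX i_XXF_E i_ARF_E)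
    (te_TH (te_TSH i_PTP_E Pool.Agent.MUXF.xf_ALG) i_PTP_E) Pool.Agent.OBI.o_BRA i_GEN hH k_GALX
    k_RSX o_BASG) n_LEM1 n_NRX

end

end Pool.Agent.OEI
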