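import Pool.Agent.OE.StN2
import Pool.Agent.OE.J_MAIN
import Pool.Agent.OE.J_NB
import Pool.Agent.OB.J_NIL

/-!
# OE, the one-branch theorem for `k = ℚ(i)`, `ℚ(√-3)` (helper84): the inputs of block K, nilpotency, the linear bound

After `OB/Z_INPO.lean`, `OB/J_MAIN.lean`, `OB/J_NIL.lean`, over helper19's `OE/J_*.lean`.
-/

set_option autoImplicit false

open NumberField IsDedekindDomain

namespace Pool.Agent.OEN

open _root_.MU3 Pool.Agent.MU3 Pool.Agent.MU3A Pool.Agent.MU3B Pool.Agent.RI Pool.Agent.RID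
  Pool.Agent.MUX Pool.Agent.ME Pool.Agent.MUXK Pool.Agent.MUXE Pool.Agent.MUXJ Pool.Agent.MUXZ
  Pool.Agent.NSI Pool.Agent.OB Pool.Agent.MUXW Pool.Agent.OE
open Pool.Agent.NSZ (idl_ne_bot)
open Pool.Agent.OBZ (tl_LVX)
open Pool.Agent.OEJ
open Pool.Agent.OBI (IsOm brO)

noncomputable section

/-- (INPOE) -/
theorem o_INPOE (hRF : O_RFINE) (hEF : O_EFINE) (hI : O_I3E) :
    ∀ (p : ℕ) (A B : ℤ) (P : Ideal (OO A B)) (V : ValuationSubring ℂ),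
      CaseOE p A B P V → TorXE A B → InpGOE p A B V := by
  intro p A B P V hC hT f hf0 hfp hf12 hfD K₀ K Bn _ _ _ hX hK hH hk hk₀ hkK
  have hCQ : MUX.CQ A B := hC.toCQ
  have hS : SetOE p A B P V f := { hC with f0 := hf0, fp := hfp, f12 := hf12, fD := hfD }
  have hQ := setQ_OE hS
  have : Fact (Nat.Prime p) := ⟨hC.pp⟩
  obtain ⟨R⟩ := MEZ.rexE hC.toCaseE (p * f)
  have hodd := (tl_LVX p A B _ hQ 0).2.2.2.2.2.1
  obtain ⟨H, hHalf, hθ⟩ := (tz_THN_E y_THG_E) A B hCQ hT (p * f) Unit R (aX p f) hodd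
  have hθ' : ∀ n : ℕ, ∃ θ : (RFE (idl (A := A) (B := B) (lvX p f n)) :
      IntermediateField (kk A B) ℂ),
      (θ : ℂ) = ThetaH (R.L R.i0) (H R.i0) (ptE R (lvX p f n) R.i0 1) ∧
      (θ : ℂ) = ThetaH (R.L R.i0) (H R.i0) (R.om R.i0 / emb ((lvX p f n : ℕ) : OO A B)) ∧
      θ ≠ 0 := fun n =>
    hθ (lvX p f n) (tl_LVX p A B _ hQ n).1 (tl_LVX p A B _ hQ n).2.2.2.2.1
      (tl_LVX p A B _ hQ n).2.2.2.2.2.2.1
  choose θ hθ1 hθ2 hθ3 using hθ'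
  have hth : ThN_E p f R H θ := ⟨hHalf, hθ1, hθ2, hθ3⟩
  obtain ⟨S, hW⟩ := z_INWE p A B f hQ hC.toCaseE (lv_evenO hS.f12 0) hT Unit R H θ hth K₀ K Bn hX
    hK hH hk hk₀
  obtain ⟨u, e, lam, hG, -, -, -⟩ := (hRF p A B P V hC hT).1 _ _ _ (R.nl R.i0)
  have hNL : ∃ (b : Ideal (OO A B)) (L : PeriodPair) (om : ℂ), IsNE b L om :=
    ⟨_, _, _, R.nl R.i0⟩
  have hK₀ : ∀ y ∈ K₀, y ∈ RFE (idl (A := A) (B := B) (lvX p f 0)) := fun y hy => hK y (hX.le hy)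
  have hInR : ∀ n, ∀ y ∈ K₀ ⊔ Bn n, y ∈ RFE (idl (A := A) (B := B) (lvX p f n)) := fun n =>
    t_SUBE p A B _ hQ hT hNL K₀ hK₀ n (Bn n) (hX.b0.lay n)
  refine ⟨S, fun n => cW (hk n) (θ n), fun n => cW (hk₀ n) (θ n), 0, hW, fun χ om hom => ?_⟩
  refine hI p A B P V f hS hT Unit R u e lam hG K₀ K Bn hX hK₀ hk hk₀ hkK S _ _ 0 hW
    (fun n τ => cWt (hk₀ n) (θ n) τ) (fun n hn => ?_) (fun n hn => ?_) χ om hom
  · exact eInpOE hEF hS hT R hG hth n hn (K₀ ⊔ Bn n) (hk₀ n) (hInR n)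
  · have hb : (idl (A := A) (B := B) (lvX p f n)) ≠ ⊥ := idl_ne_bot (tl_LVX p A B _ hQ n).1
    exact (y_MEM A B _ (hT.fin _ hb) (hT.gal _ hb) (hT.comm _ hb) _ (hk₀ n) (hInR n) (θ n)
      (hth.ne n)).1

/-- the field `K` and the inputs of block K -/
theorem o_mainE (hRF : O_RFINE) (hEF : O_EFINE) (hI3 : O_I3E) : O_MAINE := by
  intro p hpf h5 A B hE K₀ _ hk hG hc hcop hom Bn _ hlay hmono hk₀ χ om hIs
  have hp : p.Prime := hpf.out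
  obtain ⟨P, V, hC⟩ := t_VEXE p A B hE hp h5
  obtain ⟨hpd, hd⟩ := t_DOE hC
  have hCQ : MUX.CQ A B := hE.toCQ
  have hTor : TorXE A B := Pool.Agent.MEC.c_TORE A B hE
  have hNL : NLex_E A B := by
    obtain ⟨L, w, hL⟩ := Pool.Agent.MEC.exists_isNE hE ⊤ (by
      have := (MUXE.xe_RNG A B hCQ).ded
      exact bot_ne_top.symm)
    exact ⟨⊤, L, w, hL⟩
  have hTU : TorU_E A B K₀ := Pool.Agent.JTE.torU_E A B hE K₀ hk hG hc
  obtain ⟨M, hM, hKM⟩ := t_DIR_E A B hCQ hTor K₀ hTU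
  obtain ⟨f, hf0, hfp, hfd, hKf⟩ := t_LEVE p 24 A B hp (by norm_num) hpd (by norm_num) hTor hNL
    K₀ hk hcop M hM hKM
  have hS := hd f hf0 hfp hfd
  obtain ⟨K, hKfd, hSX, hKR, hHK⟩ := t_SETFE p A B P V hE hp h5 hC.prime hC.mem hC.hV hTor
    f hf0 K₀ hk hcop hKf hom Bn hlay hmono
  have hfk : FiniteDimensional ℚ (kk A B) :=
    Module.Finite.of_injective (IntermediateField.inclusion hk).toLinearMap
      (IntermediateField.inclusion hk).injective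
  have hfB : ∀ n, FiniteDimensional ℚ ↥(K ⊔ Bn n) := fun n => by
    obtain ⟨h1, -, -⟩ := LAY_thm p n (Bn n) (hlay n)
    exact IntermediateField.finiteDimensional_sup K (Bn n)
  have hkn : ∀ n, kk A B ≤ K ⊔ Bn n := fun n => (hk.trans hSX.le).trans le_sup_left
  obtain ⟨S, c, c₀, n₁, hW, hI⟩ := o_INPOE hRF hEF hI3 p A B P V hC hTor f hS.f0 hS.fp hS.f12
    hS.fD K₀ K Bn hSX hKR hHK hkn hk₀ hk
  obtain ⟨hchar, halg⟩ := t_RES p V (caseOE_hp hC)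
  obtain ⟨io⟩ := ex_io p (IsLocalRing.ResidueField V)
  obtain ⟨j, hj, hje, hI3'⟩ := hI (mpO io hk χ) (mpO io hk om) (isOm_mp io p hk om hIs)
  have hI3C : I3C (AlgebraicClosure (ZMod p)) p (kk A B) K₀ Bn hk₀ hk c₀ hW.mem₀
      (brO hk χ om j) := by
    intro N n₀
    obtain ⟨n, hn, h⟩ := hI3' N n₀
    refine ⟨n, hn, I3At_mp io p (kk A B) K₀ Bn hk (brO hk χ om j) N n (hk₀ n) (c₀ n)
      (hW.mem₀ n) ?_⟩
    rw [mpO_br]
    exact h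
  exact ⟨j, hj, hje,
    o_MAINO (AlgebraicClosure (ZMod p)) p (kk A B) K₀ K Bn hSX hkn hk₀ hk S c c₀ n₁ hW
      (brO hk χ om j) hI3C,
    o_BNDO (AlgebraicClosure (ZMod p)) p (kk A B) K₀ K Bn hSX hkn hk₀ hk S c c₀ n₁ hW
      (brO hk χ om j) hI3C⟩

/-- THE ONE BRANCH THEOREM for the exceptional fields -/
theorem o_nbE (hM : O_MAINE) (hOM : OBI.Oi_OME) : O_NBE := by
  intro p hpf h5 k K₀ Bn _ _ _ hB hk₀ hkK h2 hi hcase hcop hom χ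
  obtain ⟨A, B, hE, rfl⟩ : ∃ (A B : ℤ), CaseE A B ∧ k = kk A B := by
    rcases hcase with h4 | h3
    · exact ⟨_, _, case_one, kk_eq_one h2 h4⟩
    · exact ⟨_, _, case_three, kk_eq_three h2 h3⟩
  obtain ⟨om, hIs⟩ := hOM (AlgebraicClosure (ZMod p)) p (kk A B) K₀ hkK hom
  obtain ⟨j, hj, hje, hnil, hbd⟩ := hM p h5 A B hE K₀ hkK hB.gal
    hB.ab hcop hom Bn hB.lay hB.mono hk₀ χ om hIs
  refine ⟨j, brO hkK χ om j, hj, hje, ?_, hnil, hbd⟩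
  let _ := algC hkK
  intro s c hs
  obtain ⟨ω, hω, hωp⟩ := hom
  have h1 : ((om s : (AlgebraicClosure (ZMod p))ˣ) : AlgebraicClosure (ZMod p)) = c := by
    have hz : (⟨ω, hω⟩ : K₀) ^ p = 1 := Subtype.ext hωp.pow_eq_one
    refine hIs s ⟨ω, hω⟩ c hz ?_ (hs _ hz)
    intro h
    have h7 : ω = 1 := congrArg Subtype.val h
    have h8 := hωp.eq_orderOf
    rw [h7, orderOf_one] at h8
    omega
  show ((((χ * om ^ j) s : (AlgebraicClosure (ZMod p))ˣ)) : AlgebraicClosure (ZMod p)) = _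
  rw [MonoidHom.mul_apply, MonoidHom.pow_apply, Units.val_mul, Units.val_pow_eq_pow_val, h1]

theorem o_nilE (h : O_NBE) : O_NILE := by
  intro p hpf h5 k K₀ B _ _ _ hB hk₀ hkK h2 hi hcase hcop hom χ
  obtain ⟨j, χ', h6, h7, h8, h9, -⟩ := h p h5 k K₀ B hB hk₀ hkK h2 hi hcase hcop hom χ
  exact ⟨j, χ', h6, h7, h8, h9⟩

end

end Pool.Agent.OEN
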