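import Pool.Agent.OE.StN
import Pool.Agent.OB.StQ
import Pool.Agent.OB.F_TWO

/-!
# OE, one branch (helper60): the two branches for ALL imaginary quadratic fields

`O_NILA` : `OB.O_NIL` without the hypothesis on `k`; it follows from `OB.O_NIL` and `O_NILE`. `one_evenA`, `one_bothA` : after `OB/F_ONE.lean`, `OB/F_TWO.lean`.
-/

set_option autoImplicit false

open NumberField IsDedekindDomain Finset
open scoped nonZeroDivisors Pointwise

namespace Pool.Agent.OEN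

open _root_.Pool.Agent.RI _root_.Pool.Agent.RID _root_.Pool.Agent.MU3 _root_.Pool.Agent.MUXK
  _root_.Pool.Agent.MUXZ _root_.Pool.Agent.NSI _root_.Pool.Agent.OB _root_.Pool.Agent.OBF

open CHIx

/-- THE ONE BRANCH THEOREM for all imaginary quadratic fields. -/
def O_NILA : Prop := ∀ (p : ℕ) [Fact p.Prime], 5 ≤ p →
    ∀ (k K₀ : IntermediateField ℚ ℂ) (B : ℕ → IntermediateField ℚ ℂ) [FiniteDimensional ℚ k]
    [FiniteDimensional ℚ K₀] [∀ n, FiniteDimensional ℚ ↥(K₀ ⊔ B n)] (hB : BasX p k K₀ B)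
    (hk₀ : ∀ n, k ≤ K₀ ⊔ B n) (hkK : k ≤ K₀), Module.finrank ℚ k = 2 →
    (∃ z ∈ k, (starRingEnd ℂ) z ≠ z) →
    ¬ p ∣ Module.finrank k (IntermediateField.extendScalars hB.hk) →
    (∃ ω ∈ K₀, IsPrimitiveRoot ω p) →
    ∀ χ : (letI := algC hkK; (↥K₀ ≃ₐ[k] ↥K₀) →* (AlgebraicClosure (ZMod p))ˣ),
    ∃ (j : ℕ) (χ' : (letI := algC hkK; (↥K₀ ≃ₐ[k] ↥K₀) →* (AlgebraicClosure (ZMod p))ˣ)),
      j < p - 1 ∧ Even j ∧
      (letI := algC hkK
        ∀ (s : ↥K₀ ≃ₐ[k] ↥K₀) (c : ℕ), (∀ z : ↥K₀, z ^ p = 1 → s z = z ^ c) →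
        ((χ' s : (AlgebraicClosure (ZMod p))ˣ) : AlgebraicClosure (ZMod p)) =
          χ s * (c : AlgebraicClosure (ZMod p)) ^ j) ∧
      ∃ l : ℕ, NilC (AlgebraicClosure (ZMod p)) k K₀ B hk₀ hkK χ' l

theorem nilA (h : O_NIL) (h' : O_NILE) : O_NILA := by
  intro p hpf h5 k K₀ B _ _ _ hB hk₀ hkK h2 hi hcop hom χ
  by_cases h4 : ∃ z ∈ k, z ^ 2 = -1
  · exact h' p h5 k K₀ B hB hk₀ hkK h2 hi (Or.inl h4) hcop hom χ
  by_cases h3 : ∃ z ∈ k, z ^ 2 = -3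
  · exact h' p h5 k K₀ B hB hk₀ hkK h2 hi (Or.inr h3) hcop hom χ
  exact h p h5 k K₀ B hB hk₀ hkK h2 hi (fun z hz hz2 => h4 ⟨z, hz, hz2⟩)
    (fun z hz hz2 => h3 ⟨z, hz, hz2⟩) hcop hom χ

/-- The even branch. -/
theorem one_evenA (hLAY : Sf_LAY) (hBAX : Sq_BAX) (hNIL : O_NILA) (p : ℕ) [Fact p.Prime]
    (hp : 5 ≤ p) (k K : IntermediateField ℚ ℂ) [FiniteDimensional ℚ K] (h : k ≤ K)
    (hG : IsGalois k (IntermediateField.extendScalars h))
    (hc : ∀ σ τ : (IntermediateField.extendScalars h) ≃ₐ[k] (IntermediateField.extendScalars h),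
      σ * τ = τ * σ)
    (h2 : Module.finrank ℚ k = 2) (hi : ∃ z ∈ k, (starRingEnd ℂ) z ≠ z)
    (hd : ¬ p ∣ Module.finrank k (IntermediateField.extendScalars h))
    (hz : ∃ ζ ∈ K, IsPrimitiveRoot ζ p) (χ : MuCyc.Chr p h) :
    ∃ (j : ℕ) (χ' : MuCyc.Chr p h), j < p - 1 ∧ Even j ∧ MuCyc.IsTwist p h χ χ' j ∧
      MuCyc.MuZeroC p h χ' := by
  have hpp : p.Prime := Fact.out
  obtain ⟨B, hlay, hmono, hu⟩ := hLAY p (by omega)
  have hfk : FiniteDimensional ℚ k :=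
    FiniteDimensional.of_injective (IntermediateField.inclusion h).toLinearMap
      (IntermediateField.inclusion h).injective
  have hfB : ∀ n, FiniteDimensional ℚ (B n) := fun n =>
    Module.finite_of_finrank_pos (by rw [(hlay n).1]; exact pow_pos hpp.pos n)
  have hfL : ∀ n, FiniteDimensional ℚ ↥(K ⊔ B n) := fun n =>
    IntermediateField.finiteDimensional_sup K (B n)
  have hdeg : ¬ p ∣ Module.finrank ℚ K := by
    letI := algC h
    have e1 : Module.finrank ℚ k * Module.finrank k K = Module.finrank ℚ K := by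
      have : IsScalarTower ℚ k K := IsScalarTower.of_algebraMap_eq fun _ => rfl
      exact Module.finrank_mul_finrank ℚ k K
    rw [← e1, finrank_algC h, h2, hpp.dvd_mul, not_or]
    refine ⟨fun h0 => ?_, hd⟩
    have := Nat.le_of_dvd (by norm_num) h0
    omega
  have hB : BasX p k K B := hBAX p k K B h hG hc hdeg hlay hmono
  obtain ⟨j, χ', hj, hev, htw, l, hl⟩ := hNIL p hp k K B hB
    (fun n => h.trans le_sup_left) h h2 hi hd hz (toC h χ)
  refine ⟨j, ofC h χ', hj, hev, ?_, ?_⟩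
  · intro s' c hs
    letI := algC h
    let s : ↥K ≃ₐ[k] ↥K := AlgEquiv.autCongr (extEquiv h) s'
    have e1 : toC h χ s = χ s' := toC_apply h χ s s' (by
      intro x x' hx
      obtain rfl : x' = ⟨(x : ℂ), x.2⟩ := Subtype.ext hx
      rfl)
    have e2 := htw s c (by
      intro z hz'
      have h5 := hs ⟨(z : ℂ), z.2⟩ (by
        apply Subtype.ext
        exact congrArg Subtype.val hz')
      apply Subtype.ext
      exact congrArg Subtype.val h5)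
    rw [e1] at e2
    exact e2
  · apply nil_mu p k K B hB hu (fun n => h.trans le_sup_left) h (ofC h χ') l
    rw [toC_ofC]
    exact hl

/-- Both branches and the number of the good characters. -/
theorem one_bothA (hLAY : Sf_LAY) (hBAX : Sq_BAX) (hNIL : O_NILA) (p : ℕ) [Fact p.Prime]
    (hp : 5 ≤ p) (k K : IntermediateField ℚ ℂ) [FiniteDimensional ℚ K] (h : k ≤ K)
    (hG : IsGalois k (IntermediateField.extendScalars h))
    (hc : ∀ σ τ : (IntermediateField.extendScalars h) ≃ₐ[k] (IntermediateField.extendScalars h),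
      σ * τ = τ * σ)
    (h2 : Module.finrank ℚ k = 2) (hi : ∃ z ∈ k, (starRingEnd ℂ) z ≠ z)
    (hd : ¬ p ∣ Module.finrank k (IntermediateField.extendScalars h))
    (hz : ∃ ζ ∈ K, IsPrimitiveRoot ζ p) :
    (∀ χ : MuCyc.Chr p h, ∃ i j : ℕ, i < p - 1 ∧ j < p - 1 ∧ Even i ∧ Odd j ∧
      (∃ χ' : MuCyc.Chr p h, MuCyc.IsTwist p h χ χ' i ∧ MuCyc.MuZeroC p h χ') ∧
      ∃ χ' : MuCyc.Chr p h, MuCyc.IsTwist p h χ χ' j ∧ MuCyc.MuZeroC p h χ') ∧
    2 * Module.finrank k (IntermediateField.extendScalars h) ≤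
      (p - 1) * Nat.card {χ : MuCyc.Chr p h // MuCyc.MuZeroC p h χ} := by
  obtain ⟨ω, hω, -, -⟩ := exists_omega p h hz
  have hpp : p.Prime := Fact.out
  have hodd : Odd p := hpp.odd_of_ne_two (by omega)
  have key : ∀ χ : MuCyc.Chr p h, ∃ i j : ℕ, i < p - 1 ∧ j < p - 1 ∧ Even i ∧ Odd j ∧
      MuCyc.MuZeroC p h (χ * ω ^ i) ∧ MuCyc.MuZeroC p h (χ * ω ^ j) := by
    intro χ
    obtain ⟨i, χ₁, hi1, hi2, hi3, hi4⟩ :=
      one_evenA hLAY hBAX hNIL p hp k K h hG hc h2 hi hd hz χ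
    obtain ⟨j, χ₂, hj1, hj2, hj3, hj4⟩ :=
      one_evenA hLAY hBAX hNIL p hp k K h hG hc h2 hi hd hz (χ * ω)
    rw [hω] at hi3 hj3
    subst hi3 hj3
    refine ⟨i, j + 1, hi1, ?_, hi2, hj2.add_one, hi4, ?_⟩
    · obtain ⟨a, ha⟩ := hj2
      obtain ⟨b, hb⟩ := hodd
      omega
    · have e1 : χ * ω ^ (j + 1) = χ * ω * ω ^ j :=
        (congrArg (χ * ·) (pow_succ' ω j)).trans (mul_assoc χ ω (ω ^ j)).symm
      rw [e1]
      exact hj4
  refine ⟨fun χ => ?_, ?_⟩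
  · obtain ⟨i, j, h5, h6, h7, h8, h9, h10⟩ := key χ
    exact ⟨i, j, h5, h6, h7, h8, ⟨_, (hω _ _ _).2 rfl, h9⟩, ⟨_, (hω _ _ _).2 rfl, h10⟩⟩
  · rw [← card_chr p h hG hc hd]
    refine count ω {χ | MuCyc.MuZeroC p h χ} (p - 1) fun χ => ?_
    obtain ⟨i, j, h5, h6, h7, h8, h9, h10⟩ := key χ
    refine ⟨i, j, h5, h6, ?_, h9, h10⟩
    rintro rfl
    exact (Nat.not_even_iff_odd.2 h8) h7

end Pool.Agent.OEN
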