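import Pool.Agent.OE.T_TYF

/-!
# OE, block T: the result (helper96)
-/

set_option autoImplicit false

namespace Pool.Agent.OETB

open Pool.Agent.OE

/-- block T -/
theorem oe_TYF (hR : O_RFINE) : O_TYFE := tyf hR

end Pool.Agent.OETB
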