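import Pool.Agent.OE.R_RFIN
import Pool.Agent.OE.EAll
import Pool.Agent.OE.TAll
import Pool.Agent.OE.G_GPT
import Pool.Agent.OE.HBAll
import Pool.Agent.OE.IAll
import Pool.Agent.OE.J_CONV
import Pool.Agent.OE.JAll
import Pool.Agent.OE.F_ROOT0

/-!
# OE: all blocks together (helper59): the exceptional fields, and Theorem T+ for every imaginary quadratic field
-/

set_option autoImplicit false

namespace Pool.Agent.OE

/-- the result of block J for the exceptional fields -/
theorem o_TJE : OEF.O_TJE :=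
  OEJ.o_TJE OER.oe_RFIN (OEE.oe_EFIN OER.oe_RFIN)
    (OEJ.t_ITE (OEI.oei_ITE (OEHB.oe_HETAE (OETB.oe_TYF OER.oe_RFIN) OEG.oe_GPT)))

/-- Theorem T+ for every imaginary quadratic field -/
theorem finalEX : OEF.FinalEX := OEF.r_EX o_TJE

end Pool.Agent.OE
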