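import Pool.Agent.OE.N_ROOT0
import Pool.Agent.OE.N_MAIN
import Pool.Agent.OE.N_I3
import Pool.Agent.OE.N_HFE
import Pool.Agent.OE.OAll

/-!
# OE, one branch (helper60): THE ROOT of the hand-in OneBranch for ALL imaginary quadratic fields
-/

set_option autoImplicit false

open NumberField

namespace Pool.Agent.OEN

open _root_.Pool.Agent.MuCyc _root_.Pool.Agent.OBF Pool.Agent.OE
open Pool.Agent.OEF (ImQ)

/-- The one-branch theorem for the exceptional fields. -/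
theorem nilE : O_NILE :=
  o_nilE (o_nbE (o_mainE OER.oe_RFIN (OEE.oe_EFIN OER.oe_RFIN)
    (OEI.oei_I3 (o_HFINE (OETB.oe_TYF OER.oe_RFIN) OEG.oe_GPT))) OBI.o_OME)

/-- THE FINAL STATEMENT, no hypotheses. -/
theorem one_branch_all :
    (∀ (p : ℕ) [Fact p.Prime], 5 ≤ p → ∀ (k K : IntermediateField ℚ ℂ) (h : k ≤ K),
      Module.finrank ℚ k = 2 → (∃ z ∈ k, (starRingEnd ℂ) z ≠ z) → Abelian p h →
      (∃ ζ ∈ K, IsPrimitiveRoot ζ p) →
      (∀ χ : Chr p h,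
        (∃ i < p - 1, Even i ∧ ∃ χ' : Chr p h, IsTwist p h χ χ' i ∧ MuZeroC p h χ') ∧
        ∃ j < p - 1, Odd j ∧ ∃ χ' : Chr p h, IsTwist p h χ χ' j ∧ MuZeroC p h χ') ∧
      2 * Module.finrank k (IntermediateField.extendScalars h) ≤
        (p - 1) * Nat.card {χ : Chr p h // MuZeroC p h χ}) ∧
    (∀ E : IntermediateField ℚ ℂ, Module.finrank ℚ E = 4 → (∃ w ∈ E, w ^ 2 = 5) →
      (∃ φ : E →+* ℂ, ∀ x, (starRingEnd ℂ) (φ x) = φ x) →
      (∃ φ : E →+* ℂ, ∃ x, (starRingEnd ℂ) (φ x) ≠ φ x) →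
      ∀ (F F' : IntermediateField ℚ ℂ)
        (h : E ⊔ IntermediateField.adjoin ℚ {z : ℂ | z ^ 5 = 1} ≤ F'),
        FiniteDimensional ℚ F' →
        IsGalois ↥(E ⊔ IntermediateField.adjoin ℚ {z : ℂ | z ^ 5 = 1})
          (IntermediateField.extendScalars h) →
        (∃ a : ℕ, Module.finrank ↥(E ⊔ IntermediateField.adjoin ℚ {z : ℂ | z ^ 5 = 1})
          (IntermediateField.extendScalars h) = 5 ^ a) →
        F ≤ F' → MuZeroF 5 F) :=
  ⟨fun p _ hp k K h h2 hi hK hz => one_all nilE p hp k K h ⟨h2, hi⟩ hK hz, OBF.one_branch.2⟩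

end Pool.Agent.OEN
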