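import Pool.Agent.OE.StF
import Pool.Agent.OE.N_ONE
import Pool.Agent.OB.F_ROOT

/-!
# OE, one branch (helper60): the final statement for ALL imaginary quadratic fields, from `O_NILE`

After `OB/F_ROOT.lean`; the second half is that of `OBF.one_branch`.
-/

set_option autoImplicit false

open NumberField

namespace Pool.Agent.OEN

open _root_.Pool.Agent.MuCyc _root_.Pool.Agent.OBF
open Pool.Agent.OEF (ImQ)

/-- the first half -/
theorem one_all (hN : O_NILE) (p : ℕ) [Fact p.Prime] (hp : 5 ≤ p) (k K : IntermediateField ℚ ℂ)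
    (h : k ≤ K) (hk : ImQ k) (hK : Abelian p h) (hz : ∃ ζ ∈ K, IsPrimitiveRoot ζ p) :
      (∀ χ : Chr p h,
        (∃ i < p - 1, Even i ∧ ∃ χ' : Chr p h, IsTwist p h χ χ' i ∧ MuZeroC p h χ') ∧
        ∃ j < p - 1, Odd j ∧ ∃ χ' : Chr p h, IsTwist p h χ χ' j ∧ MuZeroC p h χ') ∧
      2 * Module.finrank k (IntermediateField.extendScalars h) ≤
        (p - 1) * Nat.card {χ : Chr p h // MuZeroC p h χ} := by
  have := hK.fin
  obtain ⟨h1, h2⟩ := one_bothA tf_LAY _root_.Pool.Agent.OB.q_BAX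
    (nilA _root_.Pool.Agent.OB.nil hN) p hp k K h hK.gal hK.comm hk.deg hk.imag hK.prime_to hz
  refine ⟨fun χ => ?_, h2⟩
  obtain ⟨i, j, hi, hj, ei, oj, gi, gj⟩ := h1 χ
  exact ⟨⟨i, hi, ei, gi⟩, j, hj, oj, gj⟩

/-- The final statement, from `O_NILE`. -/
theorem one_branch_all0 (hN : O_NILE) :
    (∀ (p : ℕ) [Fact p.Prime], 5 ≤ p → ∀ (k K : IntermediateField ℚ ℂ) (h : k ≤ K),
      ImQ k → Abelian p h → (∃ ζ ∈ K, IsPrimitiveRoot ζ p) →
      (∀ χ : Chr p h,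
        (∃ i < p - 1, Even i ∧ ∃ χ' : Chr p h, IsTwist p h χ χ' i ∧ MuZeroC p h χ') ∧
        ∃ j < p - 1, Odd j ∧ ∃ χ' : Chr p h, IsTwist p h χ χ' j ∧ MuZeroC p h χ') ∧
      2 * Module.finrank k (IntermediateField.extendScalars h) ≤
        (p - 1) * Nat.card {χ : Chr p h // MuZeroC p h χ}) ∧
    (∀ E : IntermediateField ℚ ℂ, Module.finrank ℚ E = 4 → (∃ w ∈ E, w ^ 2 = 5) →
      (∃ φ : E →+* ℂ, ∀ x, (starRingEnd ℂ) (φ x) = φ x) →
      (∃ φ : E →+* ℂ, ∃ x, (starRingEnd ℂ) (φ x) ≠ φ x) →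
      ∀ (F F' : IntermediateField ℚ ℂ)
        (h : E ⊔ IntermediateField.adjoin ℚ {z : ℂ | z ^ 5 = 1} ≤ F'),
        FiniteDimensional ℚ F' →
        IsGalois ↥(E ⊔ IntermediateField.adjoin ℚ {z : ℂ | z ^ 5 = 1})
          (IntermediateField.extendScalars h) →
        (∃ a : ℕ, Module.finrank ↥(E ⊔ IntermediateField.adjoin ℚ {z : ℂ | z ^ 5 = 1})
          (IntermediateField.extendScalars h) = 5 ^ a) →
        F ≤ F' → MuZeroF 5 F) :=
  ⟨fun p _ hp k K h hk hK hz => one_all hN p hp k K h hk hK hz, OBF.one_branch.2⟩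

end Pool.Agent.OEN
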