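import Pool.Agent.OE.Defs
import Pool.Agent.OB.RAll
import Pool.Agent.ME.R_RFIN

/-!
# OE, block R (helper58): the reduction of the normalised lattices at the places above `p ≥ 5`, exceptional fields

`D = -4`: `y² = x³ - x`, `u = 1`, `e = 0`, `lam = -1`. `D = -3`: `y² = x³ + 1`, `e = -1`, `u² = 1 + w`, `lam = 1 - w`, `w = exp(π i/3)`.
`σ` in the inertia group acts on `E[m]` as `mu ≡ ± 1`. Result: `oe_RFIN : O_RFINE`, without hypotheses.
Models: `ME/R_RFIN.lean`, `OB/R_INJ.lean` (helper23), `OB/GLib.lean` (helper60).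
-/

set_option autoImplicit false

open Polynomial NumberField IsDedekindDomain

namespace Pool.Agent.OER

open _root_.MU3 Pool.Agent.MU3A Pool.Agent.MU3B Pool.Agent.MUX Pool.Agent.MUXU Pool.Agent.RI
open Pool.Agent.ME Pool.Agent.MEC Pool.Agent.OE
open Pool.Agent.NS (xu yu)
open Pool.Agent.NSR (Leg WL rtor rxil)
open Pool.Agent.OB (GoodL vint vemb_le v_nat_unit)
open Pool.Agent.OBR (r_MLT r_GRL)
open Pool.Agent.MUXV (GR InK tX)

noncomputable section

section
variable {p : ℕ} {A B : ℤ} {P : Ideal (OO A B)} {V : ValuationSubring ℂ}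

lemma vemb_lt (h : CaseOE p A B P V) (x : OO A B) : V.valuation (emb x) < 1 ↔ x ∈ P := by
  rw [← ValuationSubring.mem_nonunits_iff]
  exact h.hV x

lemma vemb_one (h : CaseOE p A B P V) {x : OO A B} (hx : x ∉ P) :
    V.valuation (emb x) = 1 := by
  refine le_antisymm (vemb_le h.toCQ V x) ?_
  rw [← vemb_lt h, not_lt] at hx
  exact hx

lemma vp (h : CaseOE p A B P V) : V.valuation (p : ℂ) < 1 := by
  have h1 := (vemb_lt h _).2 h.mem
  rwa [Pool.Agent.MUX.emb_natCast h.toCQ] at h1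

lemma vnat (h : CaseOE p A B P V) {n : ℕ} (hn : ¬ p ∣ n) : V.valuation (n : ℂ) = 1 :=
  v_nat_unit h.pp (vp h) hn

lemma v2 (h : CaseOE p A B P V) : V.valuation (2 : ℂ) = 1 := by
  have h1 := vnat h (n := 2) (fun hd => by
    have := Nat.le_of_dvd two_pos hd
    have := h.p5
    omega)
  exact_mod_cast h1

lemma two (h : CaseOE p A B P V) : ((2 : ℕ) : OO A B) ∉ P := by
  intro h1
  have h2 := (vemb_lt h _).2 h1
  rw [Pool.Agent.MUX.emb_natCast h.toCQ] at h2
  have h3 := v2 h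
  rw [Nat.cast_ofNat, h3] at h2
  exact lt_irrefl _ h2

lemma nm_unit (h : CaseOE p A B P V) {x : OO A B} (hx : x ∉ P) (hx' : star x ∉ P) :
    ∃ n : ℕ, nm x = (n : ℤ) ∧ V.valuation (n : ℂ) = 1 := by
  refine ⟨(nm x).toNat, (Int.toNat_of_nonneg (nm_nonneg h.toCQ x)).symm, vnat h fun hd => ?_⟩
  obtain ⟨k, hk⟩ := hd
  have h1 : nm x = (p : ℤ) * k := by
    rw [← Int.toNat_of_nonneg (nm_nonneg h.toCQ x), hk]
    push_cast
    ring
  have h2 : x * star x ∈ P := by
    rw [mul_star, h1]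
    have h3 : (((p : ℤ) * (k : ℤ) : ℤ) : OO A B) = (k : OO A B) * ((p : ℕ) : OO A B) := by
      push_cast
      ring
    rw [h3]
    exact P.mul_mem_left _ h.mem
  rcases h.prime.mem_or_mem h2 with h3 | h3
  · exact hx h3
  · exact hx' h3

/-- (INJ) points of level prime to `P` have integral coordinates -/
theorem inj (h : CaseOE p A B P V) (b : Ideal (OO A B)) (L : PeriodPair) (om : ℂ)
    (hL : IsLI b L om) (u e lam : ℂ) (hG : GoodL V L u e lam) (m : Ideal (OO A B))
    (hm : ¬ m ≤ P) (z : ℂ) (hz : z ∉ L.lattice) (ht : Tor m L z) :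
    V.valuation (xu L u e z) ≤ 1 := by
  obtain ⟨be, hbm, hbP⟩ : ∃ be ∈ m, be ∉ P := by
    by_contra hc
    push Not at hc
    exact hm hc
  have hcq := h.toCQ
  have hcm := hL.hasCM hcq
  have hbe : emb be * z ∈ L.lattice := ht be hbm
  have hvbe : V.valuation (emb be) = 1 := vemb_one h hbP
  by_cases hs : star be ∈ P
  · -- the conjugate is in `P`
    by_contra hc
    rw [not_le] at hc
    obtain ⟨t, htz, hvt, hst, htP⟩ : ∃ t : OO A B, emb t * z ∈ L.lattice ∧
        V.valuation (emb t) = 1 ∧ star t ∈ P ∧ 1 + (t + t) ∉ P := by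
      by_cases h4 : 1 + (be + be) ∈ P
      · refine ⟨-be, ?_, ?_, ?_, fun h5 => ?_⟩
        · rw [Pool.Agent.MUX.emb_neg hcq, neg_mul]
          exact neg_mem hbe
        · rw [Pool.Agent.MUX.emb_neg hcq, Valuation.map_neg]
          exact hvbe
        · rw [star_neg]
          exact P.neg_mem hs
        · have h6 := P.add_mem h4 h5
          have h7 : (1 + (be + be)) + (1 + (-be + -be)) = ((2 : ℕ) : OO A B) := by
            push_cast
            ring
          rw [h7] at h6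
          exact two h h6
      · exact ⟨be, hbe, hvbe, hs, h4⟩
    have hst' : star (1 + (t + t)) ∉ P := by
      intro h5
      rw [star_add, star_add, star_one] at h5
      have h6 := P.sub_mem h5 (P.add_mem hst hst)
      rw [add_sub_cancel_right] at h6
      exact h.prime.ne_top ((Ideal.eq_top_iff_one _).2 h6)
    obtain ⟨n, hn, hvn⟩ := nm_unit h htP hst'
    have hodd : Odd n := by
      have h5 : (n : ℤ) = 2 * (2 * t.re + 2 * t.re ^ 2 + B * t.im * (1 + 2 * t.re) -
          2 * A * t.im ^ 2) + 1 := by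
        rw [← hn]
        simp only [nm, QuadraticAlgebra.re_add, QuadraticAlgebra.im_add,
          QuadraticAlgebra.re_one, QuadraticAlgebra.im_one]
        ring
      have h6 : Odd (n : ℤ) := ⟨_, h5⟩
      exact_mod_cast h6
    obtain ⟨-, -, h8⟩ := r_MLT A B V hcq (v2 h) b L om hL u e lam hG _ n hn hodd hvn z hz hc
    have hw : emb t * z + emb t * z ∈ L.lattice := add_mem htz htz
    have h9 : emb (1 + (t + t)) * z = z + (emb t * z + emb t * z) := by
      rw [Pool.Agent.MUX.emb_add hcq, Pool.Agent.MUX.emb_add hcq, Pool.Agent.MUX.emb_one hcq]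
      ring
    have hx9 : xu L u e (emb (1 + (t + t)) * z) = xu L u e z := by
      rw [h9]
      unfold xu
      rw [L.weierstrassP_add_coe z ⟨_, hw⟩]
    have hy9 : yu L u (emb (1 + (t + t)) * z) = yu L u z := by
      rw [h9]
      unfold yu
      rw [L.derivWeierstrassP_add_coe z ⟨_, hw⟩]
    have h10 : tX (xu L u e) (yu L u) (emb (1 + (t + t)) * z) =
        tX (xu L u e) (yu L u) z := by
      unfold tX
      rw [hx9, hy9]
    rw [h10] at h8
    have h11 : tX (xu L u e) (yu L u) z - emb (1 + (t + t)) * tX (xu L u e) (yu L u) z =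
        -(2 * emb t * tX (xu L u e) (yu L u) z) := by
      rw [Pool.Agent.MUX.emb_add hcq, Pool.Agent.MUX.emb_add hcq, Pool.Agent.MUX.emb_one hcq]
      ring
    rw [h11, Valuation.map_neg, map_mul, map_mul, v2 h, hvt, one_mul, one_mul] at h8
    exact lt_irrefl _ h8
  · obtain ⟨n, hn, hvn⟩ := nm_unit h hbP hs
    have h5 : (n : ℂ) * z ∈ L.lattice := by
      have h6 : (n : ℂ) = emb (star be) * emb be := by
        rw [← Pool.Agent.MUX.emb_mul hcq, mul_comm, mul_star, hn,
          Pool.Agent.MUX.emb_intCast hcq]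
        push_cast
        rfl
      rw [h6, mul_assoc]
      exact hcm _ _ hbe
    exact (rtor V L u e lam (v2 h) hG.vl.le hG.leg n hvn z hz h5).1

/-- `σ` in the inertia group of `RFE m` is trivial on `RFE m`, `m` even, not contained in `P` -/
theorem iner (h : CaseOE p A B P V) (T : TorXE A B) {u e lam : ℂ}
    (hu : u ^ 2 ∈ kk A B) (he : e ∈ kk A B)
    (G : ∀ L : PeriodPair, NrmE A B L → GoodL V L u e lam)
    {m : Ideal (OO A B)} (hm : m ≠ ⊥) (hm2 : m ≤ idl 2) (hmP : ¬ m ≤ P) (σ : ℂ ≃+* ℂ)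
    (hσ : FixK A B σ) (hin : ∀ y ∈ RFE m, y ∈ V → σ y - y ∈ V.nonunits) :
    ∀ y ∈ RFE m, σ y = y := by
  have hC := h.toCQ
  obtain ⟨L, om, hL⟩ := exists_isNE h.toCaseE (⊤ : Ideal (OO A B)) (by
    intro h0
    have := (Submodule.mem_bot (OO A B)).1 (h0 ▸ Submodule.mem_top : (1 : OO A B) ∈ (⊥ : Ideal _))
    have h1 := congrArg emb this
    rw [Pool.Agent.MUX.emb_one hC, Pool.Agent.MUX.emb_zero hC] at h1
    exact one_ne_zero h1)
  have hCM : HasCM A B L := hL.toIsLI.hasCM hC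
  obtain ⟨a, -, ha⟩ := T.act _ hm σ hσ
  obtain ⟨b', L', om', mu, hL', hact⟩ := ha ⊤ L om hL
  obtain ⟨c, hc, hac, -⟩ := T.two _ a σ ⊤ L L' om mu hm hm2 hσ hL hact hL'.nrm
  refine (T.triv _ a σ ⊤ L L' om mu hm (Or.inl hm2) hσ hL hact hL'.nrm).2 ?_
  obtain ⟨hlat, -, hco⟩ := c_SGQ A B L L' hL.nrm hL'.nrm
  obtain ⟨z, hz, hzm, -⟩ := Pool.Agent.MUXC.c_GEN A B hC ⊤ _ L om hL.toIsLI hm
  by_cases hzL : z ∈ L.lattice
  · have h1 : (1 : OO A B) ∈ m := (hzm 1).1 (by
      rwa [Pool.Agent.MUX.emb_one hC, one_mul])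
    exact ⟨c, by rw [(Ideal.eq_top_iff_one _).2 h1]; trivial, hac⟩
  rcases hact.act z hz with ⟨h1, -⟩ | ⟨-, hmz', hx, -⟩
  · exact absurd h1 hzL
  have hmz : mu * z ∉ L.lattice := fun h1 => hmz' ((hlat _).1 h1)
  have hfk := TRV.fix hσ
  have hxz : σ (xnE L z) = xnE L (mu * z) := by rw [hx, (hco _).1]
  have hX : σ (xu L u e z) = xu L u e (mu * z) := by
    unfold xu
    rw [map_div₀, map_sub, hfk _ hu, hfk _ he]
    have : σ (L.weierstrassP z) = L.weierstrassP (mu * z) := hxz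
    rw [this]
  have htm : Tor m L (mu * z) := by
    intro x hx
    have e1 : emb x * (mu * z) = mu * (emb x * z) := by ring
    rw [e1, hc]
    exact hCM c _ (hz x hx)
  obtain ⟨ξ, g, -⟩ := r_GRL V L u e lam (v2 h) (G L hL.nrm)
  have hK : ∀ y : ℂ, Tor m L y → InK V L (xu L u e) y → y ∈ L.lattice := by
    intro y hy hyK
    by_contra hyL
    rcases hyK with h1 | h1
    · exact hyL h1
    · exact h1 ((ValuationSubring.valuation_le_one_iff _ _).1
        (inj h ⊤ L om hL.toIsLI u e lam (G L hL.nrm) m hmP y hyL hy))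
  have hzK : ¬ InK V L (xu L u e) z := fun h1 => hzL (hK z hz h1)
  have hmK : ¬ InK V L (xu L u e) (mu * z) := fun h1 => hmz (hK _ htm h1)
  have hxV : xu L u e z ∈ V :=
    (ValuationSubring.valuation_le_one_iff _ _).1 (Pool.Agent.MUXV.int_X hzK).2
  have hxR : xu L u e z ∈ RFE m := by
    have h1 : xnE L z ∈ RFE m :=
      IntermediateField.subset_adjoin _ _ ⟨⊤, L, om, hL, Or.inr ⟨z, hz, hzL, rfl⟩⟩
    have h3 : u ^ 2 ∈ RFE m := (RFE m).algebraMap_mem ⟨u ^ 2, hu⟩
    have h4 : e ∈ RFE m := (RFE m).algebraMap_mem ⟨e, he⟩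
    exact div_mem (sub_mem h1 h4) h3
  have hlt := hin _ hxR hxV
  rw [hX, ValuationSubring.mem_nonunits_iff] at hlt
  by_cases hm1 : mu * z - z ∈ L.lattice
  · refine ⟨c, (hzm _).1 ?_, hac⟩
    rw [Pool.Agent.MUX.emb_sub hC, Pool.Agent.MUX.emb_one hC, ← hc, sub_mul, one_mul]
    exact hm1
  by_cases hp1 : mu * z + z ∈ L.lattice
  · refine ⟨-c, ?_, ?_⟩
    · have h9 : c + 1 ∈ m := by
        refine (hzm _).1 ?_
        rw [Pool.Agent.MUX.emb_add hC, Pool.Agent.MUX.emb_one hC, ← hc, add_mul, one_mul]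
        exact hp1
      have e1 : -c - 1 = -(c + 1) := by ring
      rw [e1]
      exact neg_mem h9
    · rw [hac]
      exact (Ideal.span_singleton_neg c).symm
  exfalso
  have := Pool.Agent.MUXV.v_X_sub g hmK hzK (fun h1 => hp1 (hK _ (htm.add hz) h1))
    (fun h1 => hm1 (hK _ (by
      have := htm.add hz.neg
      rwa [← sub_eq_add_neg] at this) h1))
  exact absurd this hlt.ne

end

/-- the good model, over `k` -/
lemma model {p : ℕ} {A B : ℤ} {P : Ideal (OO A B)} {V : ValuationSubring ℂ}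
    (h : CaseOE p A B P V) : ∃ u e lam : ℂ, u ^ 2 ∈ kk A B ∧ e ∈ kk A B ∧ lam ∈ kk A B ∧
      V.valuation u = 1 ∧ ∀ L : PeriodPair, NrmE A B L → GoodL V L u e lam := by
  have hE := h.toCaseE
  have hC := h.toCQ
  have hv2 := v2 h
  have hB : B = 0 ∨ B = 1 := hC.hB
  rcases hB with hB | hB
  · refine ⟨1, 0, -1, by rw [one_pow]; exact one_mem _, zero_mem _, neg_mem (one_mem _),
      map_one _, fun L hL => ⟨one_ne_zero, (Pool.Agent.MER.leg4 hB hL).eq, ?_, ?_⟩⟩
    · rw [Valuation.map_neg, map_one]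
    · rw [sub_neg_eq_add]
      norm_num
      exact hv2
  · have hw := w_sq hE
    have hwk : wC A B ∈ kk A B := wC_mem A B
    have vw : V.valuation (wC A B) ≤ 1 := by
      have h1 := vemb_le hC V (⟨0, 1⟩ : OO A B)
      rwa [Pool.Agent.MUX.emb_w] at h1
    have v1w : V.valuation (1 - wC A B) ≤ 1 := by
      have h1 := vemb_le hC V (1 - (⟨0, 1⟩ : OO A B))
      rwa [Pool.Agent.MUX.emb_sub hC, Pool.Agent.MUX.emb_one hC, Pool.Agent.MUX.emb_w] at h1
    have e : (1 - wC A B) * wC A B = 1 := by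
      have := w_inv hE
      rw [hB] at this ⊢
      exact_mod_cast this
    have h3 := congrArg V.valuation e
    rw [map_mul, map_one] at h3
    have vw1 : V.valuation (wC A B) = 1 := by
      refine le_antisymm vw ?_
      rw [← h3]
      exact mul_le_of_le_one_left' v1w
    have v1w1 : V.valuation (1 - wC A B) = 1 := by rwa [vw1, mul_one] at h3
    obtain ⟨u, hu⟩ := IsAlgClosed.exists_pow_nat_eq (1 + wC A B) (n := 2) (by norm_num)
    have e4 : u ^ 4 = 3 * wC A B := by
      have : u ^ 4 = (u ^ 2) ^ 2 := by ring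
      rw [this, hu]
      rw [hB] at hw ⊢
      push_cast at hw
      linear_combination hw
    have hw0 : wC A B ≠ 0 := w_ne hE
    have hu0 : u ≠ 0 := by
      rintro rfl
      rw [zero_pow (by norm_num)] at e4
      exact mul_ne_zero (by norm_num) hw0 e4.symm
    have hv3 : V.valuation (3 : ℂ) = 1 := by
      have h1 := vnat h (n := 3) (fun hd => by
        have := Nat.le_of_dvd (by norm_num) hd
        have := h.p5
        omega)
      exact_mod_cast h1
    have vu : V.valuation u = 1 := by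
      have h4 : V.valuation u ^ 4 = 1 := by rw [← map_pow, e4, map_mul, hv3, vw1, mul_one]
      exact (pow_eq_one_iff.1 h4).resolve_right (by norm_num)
    refine ⟨u, -1, 1 - wC A B, by rw [hu]; exact add_mem (one_mem _) hwk, neg_mem (one_mem _),
      sub_mem (one_mem _) hwk, vu,
      fun L hL => ⟨hu0, (Pool.Agent.MER.leg3 hE hB hL hu hu0).eq, v1w1, ?_⟩⟩
    rw [sub_sub_cancel]
    exact vw1

/-- **(RFINE)** -/
theorem oe_RFIN : O_RFINE := by
  intro p A B P V h T
  obtain ⟨u, e, lam, hu, he, hl, -, G⟩ := model h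
  have hk : ∀ x ∈ kk A B, x ∈ RFE (idl (A := A) (B := B) 2) := fun x hx =>
    (RFE (idl (A := A) (B := B) 2)).algebraMap_mem ⟨x, hx⟩
  refine ⟨fun b L om hL => ⟨u, e, lam, G L hL.nrm, hk _ hu, hk _ he, hk _ hl⟩, ?_⟩
  intro m hm hm2 hmP σ hσ hin
  exact iner h T hu he G hm hm2 hmP σ hσ hin

end

end Pool.Agent.OER
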