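import Pool.Agent.OE.F_ROOT0
import Pool.Agent.OE.JAll
import Pool.Agent.OE.J_CONV
import Pool.Agent.OE.IAll
import Pool.Agent.OE.HBAll
import Pool.Agent.OE.G_GPT
import Pool.Agent.OE.R_RFIN
import Pool.Agent.OE.TAll
import Pool.Agent.OE.EAll

/-!
# OE: Theorem T+ for all imaginary quadratic fields (helper96): assembly
-/

set_option autoImplicit false

namespace Pool.Agent.OE

/-- THE RESULT of the blocks H, HB -/
theorem x_HETAE : O_HETAE :=
  OEHB.oe_HETAE (OETB.oe_TYF OER.oe_RFIN) OEG.oe_GPT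

/-- THE RESULT of block J for the exceptional fields -/
theorem x_TJE : OEF.O_TJE :=
  OEJ.o_TJE OER.oe_RFIN (OEE.oe_EFIN OER.oe_RFIN) (OEJ.t_ITE (OEI.oei_ITE x_HETAE))

/-- Theorem T+ for all imaginary quadratic fields -/
theorem final_EX : OEF.FinalEX := OEF.r_EX x_TJE

end Pool.Agent.OE
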