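import Pool.Agent.OB.StE
import Pool.Agent.ME.StXEE

/-!
# OE, block E: the exceptional fields `ℚ(i)`, `ℚ(√-3)`, every prime `p ≥ 5` (helper96; twin of `OB/StE.lean`)

The statements of `Pool/Agent/OB/StE.lean` which see the frame (`NL`, `RF`, `TorX`, `GalE`, `Reps`), for the frame of `ME/DefsE.lean`, `ME/StXEE.lean` (`NLE`, `RFE`, `TorXE`, `GalEE`, `RepsE`). All levels are even, `xnE = ℘`. The other
statements of block E (`Pool.Agent.OBE.e_ALG, e_PRO, e_PUL, e_COE, e_GRN, e_LEG, e_TNC, e_GEN, e_UNT, e_RAT, e_KIS, e_NE1, e_DSM`) are used as they are. The ramification index `er` is kept, so that the ports are literal; `er = 1` is used.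
-/

set_option autoImplicit false

open Polynomial

namespace Pool.Agent.OEE

open _root_.MU3 _root_.Pool.Agent.MU3A _root_.Pool.Agent.MU3B _root_.Pool.Agent.MUX _root_.Pool.Agent.MUXU
open _root_.Pool.Agent.RI _root_.Pool.Agent.NS _root_.Pool.Agent.OB
open _root_.Pool.Agent.ME hiding ActE
open _root_.Pool.Agent.MEE
open _root_.Pool.Agent.MUXE (RingE)
open _root_.Pool.Agent.MUXV (GR InK tX)
open _root_.Pool.Agent.NSE (su ru WL IntP)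
open _root_.Pool.Agent.OBE (SP Ann Ker0 PtsO RepO Cp lv0)

noncomputable section

/-- the hypotheses on `p`, `k`, `P`, `V`; `er` is the ramification index -/
structure CaseX (p er : ℕ) (A B : ℤ) (P : Ideal (OO A B)) (V : ValuationSubring ℂ) : Prop where
  cq : CQ A B
  exc : CaseE A B
  pp : p.Prime
  p5 : 5 ≤ p
  prime : P.IsPrime
  mem : ((p : ℕ) : OO A B) ∈ P
  ram : (er = 1 ∧ ((p : ℕ) : OO A B) ∉ P ^ 2) ∨ (er = 2 ∧ ((p : ℕ) : OO A B) ∈ P ^ 2)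
  hV : OverI V P

lemma CaseX.not_le {p er : ℕ} {A B : ℤ} {P : Ideal (OO A B)} {V : ValuationSubring ℂ}
    (h : CaseX p er A B P V) {m : Ideal (OO A B)} (hm : IsCoprime m P) : ¬ m ≤ P := by
  intro h1
  have h2 := Ideal.isCoprime_iff_sup_eq.1 hm
  rw [sup_eq_right.2 h1] at h2
  exact h.prime.ne_top h2

/-- everything on `O`, `k`, `P`, `V` and the reduction which is used; `al` is a uniformiser of `P`, prime to the other primes above `p` -/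
structure CtxX (p er : ℕ) (A B : ℤ) (P : Ideal (OO A B)) (V : ValuationSubring ℂ)
    (al : OO A B) : Prop extends CaseX p er A B P V, Cp p V where
  ring : RingE A B
  ne : P ≠ ⊥
  max : P.IsMaximal
  er1 : 1 ≤ er
  fac : idl (A := A) (B := B) p = P ^ er * Pc P
  cne : Pc P ≠ ⊥
  cnl : ¬ Pc P ≤ P
  int : ∀ x : OO A B, V.valuation (emb x) ≤ 1
  unit : ∀ x : OO A B, x ∉ P → V.valuation (emb x) = 1
  nat : ∀ n : ℕ, ¬ p ∣ n → V.valuation (n : ℂ) = 1 ∧ ((n : ℕ) : OO A B) ∉ P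
  alP : al ∈ P
  al2 : al ∉ P ^ 2
  alv : V.valuation (emb al) ^ er = V.valuation (p : ℂ)
  vP : ∀ x ∈ P, V.valuation (emb x) ≤ V.valuation (emb al)
  alN : ∃ N : ℕ, ¬ p ∣ N ∧ ∀ x ∈ P, ∃ y : OO A B, ((N : ℕ) : OO A B) * x = al * y
  nP : er = 2 → nI P = p ∧ Pc P = ⊤
  n3 : 3 ≤ nI P
  good : ∀ L, NLE A B L → ∃ u e lam : ℂ, GoodL V L u e lam
  iner : ∀ m : Ideal (OO A B), m ≠ ⊥ → m ≤ idl (A := A) (B := B) 2 → ¬ m ≤ P → ∀ σ : ℂ ≃+* ℂ, FixK A B σ →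
    (∀ y ∈ RFE m, y ∈ V → σ y - y ∈ V.nonunits) → ∀ y ∈ RFE m, σ y = y
  exq : ∀ L, NLE A B L → ∃ (N : PeriodPair) (nu : ℂ), NLE A B N ∧ IsQ P L N nu

/-- (BAS) elementary facts on `P` and `V`. PORT of `Pool/Agent/OB/T_BAS.lean`. -/
def Sb_BASE : Prop :=
  ∀ (p er : ℕ) (A B : ℤ) (P : Ideal (OO A B)) (V : ValuationSubring ℂ), CaseX p er A B P V →
    V.valuation (p : ℂ) < 1 ∧ V.valuation (2 : ℂ) = 1 ∧ P.IsMaximal ∧
    (∀ x : OO A B, V.valuation (emb x) ≤ 1) ∧ (∀ x : OO A B, V.valuation (emb x) < 1 ↔ x ∈ P) ∧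
    (∀ n : ℕ, ¬ p ∣ n → V.valuation (n : ℂ) = 1) ∧
    (nI P = p ∨ nI P = p ^ 2) ∧ ¬ p ∣ nI P - 1 ∧ 4 ≤ nI P - 1 ∧
    (∃ y : OO A B, (∀ x ∈ P, ∃ z, x * y = (p : OO A B) * z) ∧ ∀ z, y ≠ (p : OO A B) * z) ∧
    IsCoprime (Pc P) P ∧ idl (A := A) (B := B) p = Pc P * P ^ er

/-- the input from block R (the result of `O_RFINE` for even levels) -/
def RFX {A B : ℤ} (P : Ideal (OO A B)) (V : ValuationSubring ℂ) : Prop :=
  (∀ (b : Ideal (OO A B)) (L : PeriodPair) (om : ℂ), IsNE b L om →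
      ∃ u e lam : ℂ, GoodL V L u e lam) ∧
    ∀ m : Ideal (OO A B), m ≠ ⊥ → m ≤ idl (A := A) (B := B) 2 → ¬ m ≤ P →
      ∀ σ : ℂ ≃+* ℂ, FixK A B σ →
      (∀ y ∈ RFE m, y ∈ V → σ y - y ∈ V.nonunits) → ∀ y ∈ RFE m, σ y = y

/-- (CFA) the ideals above `p`. PORT of `Pool/Agent/OB/E_CFA.lean`. -/
def Sb_CFAE : Prop :=
  ∀ (p er : ℕ) (A B : ℤ) (P : Ideal (OO A B)) (V : ValuationSubring ℂ), CaseX p er A B P V →
    P ≠ ⊥ ∧ P.IsMaximal ∧ idl (A := A) (B := B) p = P ^ er * Pc P ∧ Pc P ≠ ⊥ ∧ ¬ Pc P ≤ P ∧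
    (er = 2 → nI P = p ∧ Pc P = ⊤) ∧ 3 ≤ nI P ∧
    ∀ Q : Ideal (OO A B), Q.IsPrime → ((p : ℕ) : OO A B) ∈ Q → Q = P ∨ Q = Pc P

/-- (CAL) a uniformiser `al` of `P` which is prime to the other primes above `p`. PORT of `Pool/Agent/OB/E_CAL.lean`. -/
def Sb_CALE : Prop :=
  ∀ (p er : ℕ) (A B : ℤ) (P : Ideal (OO A B)) (V : ValuationSubring ℂ), CaseX p er A B P V →
    ∃ al : OO A B, al ∈ P ∧ al ∉ P ^ 2 ∧
      ∃ N : ℕ, ¬ p ∣ N ∧ ∀ x ∈ P, ∃ y : OO A B, ((N : ℕ) : OO A B) * x = al * y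

/-- (CTX) from the hypotheses to `CtxO`. PORT of `Pool/Agent/OB/E_CTX.lean`. -/
def Sb_CTXE : Prop :=
  ∀ (p er : ℕ) (A B : ℤ) (P : Ideal (OO A B)) (V : ValuationSubring ℂ), CaseX p er A B P V →
    TorXE A B → RFX P V → ∃ al : OO A B, CtxX p er A B P V al

/-- (PVL) elements of `O`: multiplication by `x ∉ P`, and the kernel of reduction as an `O`-module. PORT of `Pool/Agent/OB/E_PVL.lean`. -/
def Sb_PVLE : Prop :=
  ∀ (p er : ℕ) (A B : ℤ) (P : Ideal (OO A B)) (V : ValuationSubring ℂ) (al : OO A B),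
    CtxX p er A B P V al → ∀ (L : PeriodPair) (u e lam : ℂ), NLE A B L → GoodL V L u e lam →
    (∀ x : OO A B, x ∉ P → Ker0 V L L u e (emb x) ∧
      ∀ z, InK V L (xu L u e) z → z ∉ L.lattice →
        emb x * z ∉ L.lattice ∧ InK V L (xu L u e) (emb x * z) ∧
        V.valuation (xu L u e (emb x * z)) = V.valuation (xu L u e z)) ∧
    (∀ (x : OO A B) (z : ℂ), InK V L (xu L u e) z → InK V L (xu L u e) (emb x * z)) ∧
    ∀ m : Ideal (OO A B), ¬ m ≤ P → ∀ z, Tor m L z → InK V L (xu L u e) z → z ∈ L.lattice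

/-- (PIS) the isogeny `L → N = ν P⁻¹ L`, and the points of `E[P]`. `q = nI P`. PORT of `Pool/Agent/OB/E_PIS.lean`. -/
def Sb_PISE : Prop :=
  ∀ (p er : ℕ) (A B : ℤ) (P : Ideal (OO A B)) (V : ValuationSubring ℂ) (al : OO A B),
    CtxX p er A B P V al → ∀ (L N : PeriodPair) (nu u e lam u' e' lam' : ℂ), NLE A B L →
      NLE A B N → IsQ P L N nu → GoodL V L u e lam → GoodL V N u' e' lam' →
      V.valuation (nu * u' / u) = V.valuation (emb al) ∧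
      (∃ R : Finset ℂ, IsRpM L N nu R ∧ R.card + 1 = nI P) ∧
      ∀ z, Tor P L z → z ∉ L.lattice → InK V L (xu L u e) z ∧ xu L u e z ≠ 0 ∧
        V.valuation (su L u e z) ^ (nI P - 1) = V.valuation (emb al) ^ 2

/-- (TPR) the values of the points of exact order `P^(j+1)`. PORT of `Pool/Agent/OB/E_TPR.lean`. -/
def Sb_TPRE : Prop :=
  ∀ (p er : ℕ) (A B : ℤ) (P : Ideal (OO A B)) (V : ValuationSubring ℂ) (al : OO A B),
    CtxX p er A B P V al → ∀ (j : ℕ) (L : PeriodPair) (u e lam : ℂ), NLE A B L →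
      GoodL V L u e lam → ∀ z, Tor (P ^ (j + 1)) L z → ¬ Tor (P ^ j) L z →
        InK V L (xu L u e) z ∧ xu L u e z ≠ 0 ∧
          V.valuation (su L u e z) ^ ((nI P - 1) * nI P ^ j) = V.valuation (emb al) ^ 2

/-- (PTS) the points of `E[P^er]` satisfy `PtsO`. PORT of `Pool/Agent/OB/E_PTS.lean`. -/
def Sb_PTSE : Prop :=
  ∀ (p er : ℕ) (A B : ℤ) (P : Ideal (OO A B)) (V : ValuationSubring ℂ) (al : OO A B),
    CtxX p er A B P V al → ∀ (L : PeriodPair) (u e lam : ℂ), NLE A B L → GoodL V L u e lam →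
      PtsO p V (SP P er L) (su L u e) (ru L u e) (-(1 + lam)) lam ∧
      (∀ Y ∈ SP P er L, InK V L (xu L u e) Y ∧ xu L u e Y ≠ 0) ∧
      ∀ Y ∈ SP P er L, ∀ w ∈ L.lattice, Y + w ∈ SP P er L ∧
        su L u e (Y + w) = su L u e Y ∧ ru L u e (Y + w) = ru L u e Y

/-- (ADD) addition of a point of `SP`. PORT of `Pool/Agent/OB/E_ADD.lean`. -/
def Sb_ADDE : Prop :=
  ∀ (p er : ℕ) (A B : ℤ) (P : Ideal (OO A B)) (V : ValuationSubring ℂ) (al : OO A B),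
    CtxX p er A B P V al → ∀ (L : PeriodPair) (u e lam : ℂ), NLE A B L → GoodL V L u e lam →
      ∀ z, ¬ InK V L (xu L u e) z →
        RepO p V (SP P er L) (su L u e) (ru L u e) (fun Y => xu L u e (z + Y)) (xu L u e z)
          (2 * yu L u z)

/-- (ISO) the isogeny on the points of `SP`. PORT of `Pool/Agent/OB/E_ISO.lean`. -/
def Sb_ISOE : Prop :=
  ∀ (p er : ℕ) (A B : ℤ) (P : Ideal (OO A B)) (V : ValuationSubring ℂ) (al : OO A B),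
    CtxX p er A B P V al → ∀ (L M : PeriodPair) (u e lam u' e' lam' μ : ℂ), NLE A B L →
    NLE A B M → GoodL V L u e lam → GoodL V M u' e' lam' → μ ≠ 0 → Isg L M μ →
    Ker0 V L M u e μ →
    (∀ Y ∈ SP P er L, μ * Y ∈ SP P er M) ∧
    RepO p V (SP P er L) (su L u e) (ru L u e) (fun Y => su M u' e' (μ * Y)) 0 0 ∧
    RepO p V (SP P er L) (su L u e) (ru L u e) (fun Y => ru M u' e' (μ * Y)) 0 (μ * u' / u)

/-- (THN) the functions `Θ_a(z + μ Y)`, `Y ∈ SP P er L`, on the lattice `M`. PORT of `Pool/Agent/OB/E_THN.lean`. -/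
def Sb_THNE : Prop :=
  ∀ (p er : ℕ) (A B : ℤ) (P : Ideal (OO A B)) (V : ValuationSubring ℂ) (al : OO A B),
    CtxX p er A B P V al → ∀ (L M : PeriodPair) (u e lam u' e' lam' μ : ℂ), NLE A B L →
    NLE A B M → GoodL V L u e lam → GoodL V M u' e' lam' → μ ≠ 0 → Isg L M μ →
    Ker0 V L M u e μ →
    ∀ (a : ℕ) (H : Finset ℂ), a ≠ 0 → IsHalf M (a : ℂ) H → ∀ z, ¬ InK V M (xu M u' e') z →
      (a : ℂ) * z ∉ M.lattice →
      (∀ q ∈ H, ¬ InK V M (xu M u' e') q ∧ ¬ InK V M (xu M u' e') (z + q) ∧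
        ¬ InK V M (xu M u' e') (z - q)) →
      V.valuation (ThetaH M H z) = V.valuation (u' ^ 2) ^ H.card ∧
      V.valuation (μ * dlX M a z / u) ≤ 1 ∧
      RepO p V (SP P er L) (su L u e) (ru L u e)
        (fun Y => ThetaH M H (z + μ * Y) / ThetaH M H z) 1 (μ * dlX M a z / u)

/-- (IDL) the level `(f p^(n+1)) = P^(er (n+1)) · lv0`. PORT of `Pool/Agent/OB/E_IDL.lean`. -/
def Sb_IDLE : Prop :=
  ∀ (p er : ℕ) (A B : ℤ) (P : Ideal (OO A B)) (V : ValuationSubring ℂ) (al : OO A B),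
    CtxX p er A B P V al → ∀ (f n : ℕ), f ≠ 0 → ¬ p ∣ f →
      idl (A := A) (B := B) (p ^ (n + 1) * f) = P ^ (er * (n + 1)) * lv0 P f n ∧
      lv0 P f n ≠ ⊥ ∧ ¬ lv0 P f n ≤ P ∧ IsCoprime (P ^ (er * (n + 1))) (lv0 P f n) ∧
      (∀ y ∈ Pc P, ((p ^ n * f : ℕ) : OO A B) * y ∈ lv0 P f n) ∧
      lv0 P f n ≤ idl (A := A) (B := B) f ∧
      (∀ (a : ℕ) (y : OO A B), a ≠ 0 → 1 ≤ n →
        IsCoprime (1 + ((p ^ n * f * a : ℕ) : OO A B) * y) ((p ^ (n + 1) * f * a : ℕ) : OO A B)) ∧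
      lvX p f n = p ^ (n + 1) * f

/-- (UNR) `RF m'` is unramified over `k` at `V` if `m'` is not contained in `P`. PORT of `Pool/Agent/OB/E_UNR.lean`. -/
def Sb_UNRE : Prop :=
  ∀ (p er : ℕ) (A B : ℤ) (P : Ideal (OO A B)) (V : ValuationSubring ℂ) (al : OO A B),
    CtxX p er A B P V al → TorXE A B →
    ∀ m' : Ideal (OO A B), m' ≠ ⊥ → m' ≤ idl (A := A) (B := B) 2 → ¬ m' ≤ P → ∀ y ∈ RFE m', y ≠ 0 →
      ∃ k : ℤ, V.valuation y = V.valuation (emb al) ^ k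

/-- (DEG) the degree of `RF (P^(j+1) m')` over `RF m'`. PORT of `Pool/Agent/OB/E_DEG.lean`. -/
def Sb_DEGE : Prop :=
  ∀ (p er : ℕ) (A B : ℤ) (P : Ideal (OO A B)) (V : ValuationSubring ℂ) (al : OO A B),
    CtxX p er A B P V al → GalEE A B → ∀ (j : ℕ) (m' : Ideal (OO A B)), m' ≠ ⊥ →
      m' ≤ idl (A := A) (B := B) 2 → ¬ m' ≤ P →
      Module.finrank (kk A B) (RFE (P ^ (j + 1) * m')) ≤
        ((nI P - 1) * nI P ^ j) * Module.finrank (kk A B) (RFE m')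

/-- (UNI) a uniformiser of `RF (P^(J+1) m')` over `RF m'`, from a point `z₁` with annihilator `P^(J+1) m₁`, `m' ≤ m₁`. PORT of `Pool/Agent/OB/E_UNI.lean`. -/
def Sb_UNIE : Prop :=
  ∀ (p er : ℕ) (A B : ℤ) (P : Ideal (OO A B)) (V : ValuationSubring ℂ) (al : OO A B),
    CtxX p er A B P V al → TorXE A B → GalEE A B → ∀ (L : PeriodPair) (u e lam : ℂ), NLE A B L →
    GoodL V L u e lam → ∀ (J f : ℕ) (m₁ m' : Ideal (OO A B)), 3 ≤ f → 2 ∣ f → m' ≤ m₁ →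
    m₁ ≤ idl (A := A) (B := B) f → m' ≠ ⊥ → ¬ m' ≤ P → ∀ z₁ : ℂ, Ann (P ^ (J + 1) * m₁) L z₁ →
    ∃ P₀ : ℂ, Tor m₁ L P₀ ∧ P₀ ∉ L.lattice ∧ ¬ InK V L (xu L u e) P₀ ∧
      ¬ InK V L (xu L u e) z₁ ∧ u ^ 2 ∈ RFE m' ∧ e ∈ RFE m' ∧ xu L u e P₀ ∈ RFE m' ∧
      xu L u e z₁ - xu L u e P₀ ∈ RFE (P ^ (J + 1) * m') ∧
      ∀ w ∈ RFE (P ^ (J + 1) * m'), V.valuation w ≤ 1 →
        ∃ c : Fin ((nI P - 1) * nI P ^ J) → RFE m',
          (∀ i, V.valuation (c i : ℂ) ≤ 1) ∧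
          w = ∑ i, (c i : ℂ) * (xu L u e z₁ - xu L u e P₀) ^ (i : ℕ)

/-- (SIG) `Y ↦ σ_Y(w)` for `w` in the ray class field, `σ_Y(z₁) = z₁ + Y`. PORT of `Pool/Agent/OB/E_SIG.lean`. -/
def Sb_SIGE : Prop :=
  ∀ (p er : ℕ) (A B : ℤ) (P : Ideal (OO A B)) (V : ValuationSubring ℂ) (al : OO A B),
    CtxX p er A B P V al → TorXE A B → GalEE A B → ∀ (L : PeriodPair) (u e lam : ℂ), NLE A B L →
    GoodL V L u e lam → ∀ (J f : ℕ) (m₁ m' : Ideal (OO A B)), 3 ≤ f → 2 ∣ f → m' ≤ m₁ →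
    m₁ ≤ idl (A := A) (B := B) f → m' ≠ ⊥ → ¬ m' ≤ P → ∀ z₁ : ℂ, Ann (P ^ (J + 1) * m₁) L z₁ →
    ∀ w ∈ RFE (P ^ (J + 1) * m'), V.valuation w ≤ 1 →
    ∃ (F : ℂ → ℂ) (β : ℂ), V.valuation β ≤ 1 ∧
      RepO p V (SP P er L) (su L u e) (ru L u e) F w β ∧
      ∀ (c : OO A B), c - 1 ∈ m' →
      ∀ (σ : RFE (P ^ (J + 1) * m') ≃ₐ[kk A B] RFE (P ^ (J + 1) * m')),
      ActEE (_root_.Pool.Agent.MU3A.em σ) (P ^ (J + 1) * m') c →
      ∀ hw : w ∈ RFE (P ^ (J + 1) * m'), (σ ⟨w, hw⟩ : ℂ) = F (emb (c - 1) * z₁)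

/-- (EXO) exact orders of the points of level `m = p^(n+1) f`. PORT of `Pool/Agent/OB/E_EXO.lean`. -/
def Sb_EXOE : Prop :=
  ∀ (p er : ℕ) (A B : ℤ) (P : Ideal (OO A B)) (V : ValuationSubring ℂ) (al : OO A B),
    CtxX p er A B P V al → ∀ (n f : ℕ) (ι : Type) (R : RepsE A B (p * f) ι), f ≠ 0 → ¬ p ∣ f →
      (∀ (i : ι) (x : OO A B), IsCoprime x ((p ^ (n + 1) * f : ℕ) : OO A B) →
        Ann (idl (A := A) (B := B) (p ^ (n + 1) * f)) (R.L i) (ptE R (p ^ (n + 1) * f) i x) ∧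
        ptE R (p ^ (n + 1) * f) i x =
          muXE R i * emb x * (R.om R.i0 / (p ^ (n + 1) * f : ℕ)) ∧
        ∀ q : ℂ, (p : ℂ) * q ∈ (R.L i).lattice →
          ((p ^ (n + 1) * f : ℕ) : ℂ) * (ptE R (p ^ (n + 1) * f) i x + q) ∈ (R.L i).lattice ∧
          ∀ c : ℕ, (c : ℂ) * (ptE R (p ^ (n + 1) * f) i x + q) ∈ (R.L i).lattice → f ∣ c) ∧
      Ann (idl (A := A) (B := B) (p ^ (n + 1) * f)) (R.L R.i0)
        (R.om R.i0 / (p ^ (n + 1) * f : ℕ)) ∧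
      (∀ a : ℕ, ¬ p ∣ a →
        (∀ y ∈ Pc P, y ∉ idl (A := A) (B := B) p →
          emb y * (a * R.om R.i0 / p) ∈ SP P er (R.L R.i0)) ∧
        ∀ Y ∈ SP P er (R.L R.i0), ∃ y ∈ Pc P, y ∉ idl (A := A) (B := B) p ∧
          emb y * (a * R.om R.i0 / p) - Y ∈ (R.L R.i0).lattice)

/-- (MUL) the isogenies `μ_i x : L_(i0) → L_i` have degree prime to `p`. PORT of `Pool/Agent/OB/E_MUL.lean`. -/
def Sb_MULE : Prop :=
  ∀ (p : ℕ) (A B : ℤ), p.Prime → RingE A B → ∀ (n : ℕ) (ι : Type) (R : RepsE A B n ι),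
    n ≠ 0 → p ∣ n → ∀ (i : ι) (x : OO A B), IsCoprime x ((n : ℕ) : OO A B) →
      muXE R i * emb x ≠ 0 ∧ Isg (R.L R.i0) (R.L i) (muXE R i * emb x) ∧
      ∃ N : ℕ, ¬ p ∣ N ∧ ∀ z, muXE R i * emb x * z ∈ (R.L i).lattice →
        (N : ℂ) * z ∈ (R.L R.i0).lattice

/-- (INN) integrality of the logarithmic derivatives; `er = 2`: the sums over `E[P]`. PORT of `Pool/Agent/OB/E_INN.lean`. -/
def Sb_INNE : Prop :=
  ∀ (p er : ℕ) (A B : ℤ) (P : Ideal (OO A B)) (V : ValuationSubring ℂ) (al : OO A B),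
    CtxX p er A B P V al → ∀ (n f a : ℕ), 2 ≤ f → ¬ p ∣ f → 3 ≤ a → Odd a → ¬ p ∣ a →
    a.Coprime f →
    ∀ (ι : Type) (R : RepsE A B (p * f) ι) (u e lam : ℂ), GoodL V (R.L R.i0) u e lam →
    ∀ (i : ι) (x : OO A B), IsCoprime x ((p ^ (n + 1) * f : ℕ) : OO A B) →
      (∀ H : Finset ℂ, IsHalf (R.L i) (a : ℂ) H → ∀ ui ei lami : ℂ,
        GoodL V (R.L i) ui ei lami → V.valuation (ThetaH (R.L i) H
          (ptE R (p ^ (n + 1) * f) i x)) = V.valuation (ui ^ 2) ^ H.card) ∧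
      V.valuation (muXE R i * dlX (R.L i) a (ptE R (p ^ (n + 1) * f) i x) / u) ≤ 1 ∧
      (er = 2 → ∀ q : ℂ, Tor P (R.L i) q → q ∉ (R.L i).lattice →
        V.valuation (muXE R i * (∑ t ∈ Finset.range p,
          dlX (R.L i) a (ptE R (p ^ (n + 1) * f) i x + t * q)) / u) ≤ V.valuation (emb al))

/-- (ONE) Lemma E, for products over arbitrary finite families of points `(i, x)`, weights `emb x`. PORT of `Pool/Agent/OB/E_ONE.lean`. -/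
def Sb_ONEE : Prop :=
  ∀ (p er : ℕ) (A B : ℤ) (P : Ideal (OO A B)) (V : ValuationSubring ℂ) (al : OO A B),
    CtxX p er A B P V al → TorXE A B → GalEE A B →
    ∀ (n f a : ℕ), 1 ≤ n → 3 ≤ f → 2 ∣ f → ¬ p ∣ f → 3 ≤ a → Odd a → p ∣ a - 1 →
    a.Coprime f →
    ∀ (ι : Type) (R : RepsE A B (p * f) ι) (u e lam : ℂ), GoodL V (R.L R.i0) u e lam →
    ∀ (H : ι → Finset ℂ), (∀ i, IsHalf (R.L i) (a : ℂ) (H i)) →
    ∀ (J : Type) [Fintype J] (X : J → Finset (ι × OO A B)) (g : J → ℤ),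
      (∀ j, ∀ y ∈ X j, IsCoprime y.2 ((p ^ (n + 1) * f : ℕ) : OO A B)) →
      (∃ y ∈ RFE (idl (A := A) (B := B) (p ^ (n + 1) * f)), y ^ p =
        ∏ j, (∏ y ∈ X j, ThetaH (R.L y.1) (H y.1) (ptE R (p ^ (n + 1) * f) y.1 y.2)) ^ g j) →
      V.valuation ((∑ j, (g j : ℂ) * ∑ y ∈ X j, emb y.2 * muXE R y.1 *
        dlX (R.L y.1) a (ptE R (p ^ (n + 1) * f) y.1 y.2)) / u) ≤ V.valuation (p : ℂ)

/-- (MAIN) Lemma E for a conjugate family, weights `emb x`. PORT of `Pool/Agent/OB/E_MAIN.lean`. -/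
def Sb_MAINE : Prop :=
  ∀ (p er : ℕ) (A B : ℤ) (P : Ideal (OO A B)) (V : ValuationSubring ℂ) (al : OO A B),
    CtxX p er A B P V al → TorXE A B → GalEE A B →
    ∀ (n f : ℕ), 1 ≤ n → 3 ≤ f → 2 ∣ f → ¬ p ∣ f →
    ∀ (ι : Type) (R : RepsE A B (p * f) ι) (u e lam : ℂ), GoodL V (R.L R.i0) u e lam →
    ∀ (H : ι → Finset ℂ), (∀ i, IsHalf (R.L i) (aX p f : ℂ) (H i)) →
    ∀ (D : IntermediateField ℚ ℂ) (h : kk A B ≤ D),
      (∀ y ∈ D, y ∈ RFE (idl (A := A) (B := B) (lvX p f n))) →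
    letI := algC h
    ∀ (C : (D ≃ₐ[kk A B] D) → ℂ)
      (S : (D ≃ₐ[kk A B] D) → Finset (ι × (OO A B ⧸ idl (A := A) (B := B) (lvX p f n)))),
    (∀ τ : D ≃ₐ[kk A B] D, ∃ y : D, (y : ℂ) = C 1 ∧ ((τ y : D) : ℂ) = C τ) →
    (∀ τ, ∀ q ∈ S τ, IsCoprime (Quotient.out q.2 : OO A B) ((lvX p f n : ℕ) : OO A B)) →
    (∀ τ, C τ = ∏ q ∈ S τ, ThetaH (R.L q.1) (H q.1) (ptE R (lvX p f n) q.1 (Quotient.out q.2))) →
    ∀ g : (D ≃ₐ[kk A B] D) → ℤ,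
      (∃ y ∈ D, y ^ p = ∏ᶠ τ : D ≃ₐ[kk A B] D, C τ ^ g τ) →
      ∀ τ' : D ≃ₐ[kk A B] D,
        V.valuation ((∑ᶠ τ : D ≃ₐ[kk A B] D, (g τ : ℂ) * ∑ q ∈ S (τ * τ'),
          emb (Quotient.out q.2) * muXE R q.1 *
            dlX (R.L q.1) (aX p f) (ptE R (lvX p f n) q.1 (Quotient.out q.2))) / u) ≤
          V.valuation (p : ℂ)

/-- (FN1) the final form for `er = 1`. PORT of `Pool/Agent/OB/E_FN1.lean`. -/
def Sb_FN1E : Prop :=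
  ∀ (p : ℕ) (A B : ℤ) (P : Ideal (OO A B)) (V : ValuationSubring ℂ) (al : OO A B),
    CtxX p 1 A B P V al → TorXE A B → GalEE A B →
    ∀ (n f : ℕ), 1 ≤ n → 3 ≤ f → 2 ∣ f → ¬ p ∣ f →
    ∀ (ι : Type) [Fintype ι] (R : RepsE A B (p * f) ι) (u e lam : ℂ),
    GoodL V (R.L R.i0) u e lam → ∀ w : OO A B → ℂ, IsTeiP p 1 P V w →
    ∀ (H : ι → Finset ℂ), (∀ i, IsHalf (R.L i) (aX p f : ℂ) (H i)) →
    ∀ (D : IntermediateField ℚ ℂ) (h : kk A B ≤ D), (∀ y ∈ D, y ∈ RFE (idl (A := A) (B := B) (lvX p f n))) →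
    letI := algC h
    (∀ τ : D ≃ₐ[kk A B] D, ∃ y : D, (y : ℂ) = cXE R (lvX p f n) H h 1 ∧
      ((τ y : D) : ℂ) = cXE R (lvX p f n) H h τ) →
    ∀ g : (D ≃ₐ[kk A B] D) → ℤ,
      (∃ y ∈ D, y ^ p = ∏ᶠ τ : D ≃ₐ[kk A B] D, cXE R (lvX p f n) H h τ ^ g τ) →
      ∀ τ' : D ≃ₐ[kk A B] D,
        V.valuation ((∑ᶠ τ : D ≃ₐ[kk A B] D, (g τ : ℂ) *
          TTNE R w (lvX p f n) (aX p f) h (τ * τ')) / u) ≤ V.valuation (p : ℂ)

end

end Pool.Agent.OEE
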