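import Pool.Agent.OT.StL
import Pool.Agent.OT.StJ
import Pool.Agent.OB.StF2

/-!
# OE (Theorem T+ for ALL imaginary quadratic fields, problem MP_b78433_nt), block F (helper60): statements

`ImQ` : `k` is an imaginary quadratic field. `O_TJE` : the result of block J for `k = ℚ(i)`, `ℚ(√-3)` (twin of `OTJ.O_TJ`). `S_NEWX`, `S_NEWKX`, `FinalTX`, `FinalEX` : the twins of
`OTF.S_NEW`, `OTF.S_NEWK`, `OTF.FinalT`, `OTF.FinalE` for all imaginary quadratic fields.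
-/

set_option autoImplicit false

open NumberField

namespace Pool.Agent.OEF

open _root_.Pool.Agent.MuCyc
open Pool.Agent.TWR (Gen)
open Pool.Agent.OTJ (AbK LyL)

noncomputable section

/-- `k` is an imaginary quadratic field. -/
structure ImQ (k : IntermediateField ℚ ℂ) : Prop where
  deg : Module.finrank ℚ k = 2
  imag : ∃ z ∈ k, (starRingEnd ℂ) z ≠ z

/-- THE RESULT of block J for the exceptional fields: for all large `r`, `μ = 0` for all new characters of `Gal(K₀ Ln (r+1) / k)`. -/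
def O_TJE : Prop :=
  ∀ (p : ℕ) [Fact p.Prime], 5 ≤ p → ∀ (l g h : ℕ), Gen l g h →
    ∀ (k K₀ : IntermediateField ℚ ℂ) [FiniteDimensional ℚ K₀] (hk : k ≤ K₀),
    Module.finrank ℚ k = 2 → (∃ z ∈ k, (starRingEnd ℂ) z ≠ z) →
    ((∃ z ∈ k, z ^ 2 = -1) ∨ ∃ z ∈ k, z ^ 2 = -3) →
    AbK p hk → ∀ Ln : ℕ → IntermediateField ℚ ℂ, LyL l Ln →
    ∃ r₀ : ℕ, ∀ r, r₀ ≤ r → ∀ (h' : k ≤ K₀ ⊔ Ln (r + 1)) (χ : MuCyc.Chr p h'),
      (∃ s : MuCyc.Gal h', (∀ x : IntermediateField.extendScalars h',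
        (x : ℂ) ∈ K₀ ⊔ Ln r → s x = x) ∧ χ s ≠ 1) →
      MuCyc.MuZeroC p h' χ

/-- NEW: the new characters of the fields `K B_(r+1)`, `r` large. -/
def S_NEWX : Prop := ∀ (p : ℕ) [Fact p.Prime], 5 ≤ p → ∀ (k K : IntermediateField ℚ ℂ) (h : k ≤ K),
  ImQ k → Abelian p h → (∃ ζ ∈ K, IsPrimitiveRoot ζ p) → ∀ l : ℕ, l = 2 ∨ l = 3 →
  ∃ r₀ : ℕ, ∀ r, r₀ ≤ r → ∀ B B' : IntermediateField ℚ ℂ, IsLayer l r B → IsLayer l (r + 1) B' →
    ∀ (h' : k ≤ K ⊔ B') (χ : Chr p h'),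
      (∃ s : Gal h', (∀ x : IntermediateField.extendScalars h', (x : ℂ) ∈ K ⊔ B → s x = x) ∧
        χ s ≠ 1) → MuZeroC p h' χ

/-- NEWK: the same for all `K`. -/
def S_NEWKX : Prop := ∀ (p : ℕ) [Fact p.Prime], 5 ≤ p → ∀ (k K : IntermediateField ℚ ℂ)
  (h : k ≤ K), ImQ k → Abelian p h → ∀ l : ℕ, l = 2 ∨ l = 3 →
  ∃ r₀ : ℕ, ∀ r, r₀ ≤ r → ∀ B B' : IntermediateField ℚ ℂ, IsLayer l r B → IsLayer l (r + 1) B' →
    ∀ (h' : k ≤ K ⊔ B') (χ : Chr p h'),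
      (∃ s : Gal h', (∀ x : IntermediateField.extendScalars h', (x : ℂ) ∈ K ⊔ B → s x = x) ∧
        χ s ≠ 1) → MuZeroC p h' χ

/-- THE FINAL STATEMENT for `K/k` of degree prime to `p`. -/
def FinalTX : Prop := ∀ (p : ℕ) [Fact p.Prime], 5 ≤ p → ∀ (k K : IntermediateField ℚ ℂ)
  (h : k ≤ K), ImQ k → Abelian p h → ∀ l : ℕ, l = 2 ∨ l = 3 →
  ∃ (r₀ : ℕ) (B₀ : IntermediateField ℚ ℂ), IsLayer l r₀ B₀ ∧
    ∀ (r : ℕ) (B : IntermediateField ℚ ℂ), IsLayer l r B →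
      (∀ (hB : k ≤ K ⊔ B) (χ : Chr p hB),
        (∃ s : Gal hB, (∀ x : IntermediateField.extendScalars hB, (x : ℂ) ∈ K ⊔ B₀ → s x = x) ∧
          χ s ≠ 1) → MuZeroC p hB χ) ∧
      ∀ L : IntermediateField ℚ ℂ, k ≤ L → L ≤ K ⊔ B → MuLE p L (L ⊓ (K ⊔ B₀))

/-- THE FINAL STATEMENT (Theorem T+ for all imaginary quadratic fields). -/
def FinalEX : Prop := ∀ (p : ℕ) [Fact p.Prime], 5 ≤ p → ∀ (k K : IntermediateField ℚ ℂ)
  (h : k ≤ K), ImQ k → FiniteDimensional ℚ K →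
  IsGalois k (IntermediateField.extendScalars h) → (∀ σ τ : Gal h, σ * τ = τ * σ) →
  ∀ l : ℕ, l = 2 ∨ l = 3 →
  ∃ (r₀ : ℕ) (B₀ : IntermediateField ℚ ℂ), IsLayer l r₀ B₀ ∧
    ∀ (r : ℕ) (B : IntermediateField ℚ ℂ), IsLayer l r B →
      (∀ (L : IntermediateField ℚ ℂ) (hL : k ≤ L), L ≤ K ⊔ B →
        ¬ p ∣ Module.finrank k (IntermediateField.extendScalars hL) → ∀ χ : Chr p hL,
        (∃ s : Gal hL, (∀ x : IntermediateField.extendScalars hL, (x : ℂ) ∈ K ⊔ B₀ → s x = x) ∧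
          χ s ≠ 1) → MuZeroC p hL χ) ∧
      ∀ L : IntermediateField ℚ ℂ, k ≤ L → L ≤ K ⊔ B →
        ∀ (E : IntermediateField ℚ ℂ) (hE : k ≤ E), FiniteDimensional ℚ E →
        IsGalois k (IntermediateField.extendScalars hE) →
        (∃ a : ℕ, Module.finrank k (IntermediateField.extendScalars hE) = p ^ a) →
        ∃ C : ℕ, ∀ (m : ℕ) (Q : IntermediateField ℚ ℂ), IsLayer p m Q →
          padicValNat p (classNo (L ⊔ E ⊔ Q)) ≤
            padicValNat p (classNo ((L ⊓ (K ⊔ B₀)) ⊔ E ⊔ Q)) + C * (m + 1) ^ C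

end

end Pool.Agent.OEF
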