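import Pool.Agent.OE.Defs

/-!
# OE, block HQ (helper51): the symbols of the theta series, exceptional fields, `p ≥ 5`

Twins of the statements RAM VAL CHR QBO DEP PJ1 SAF UAL HQ1 of `OB/StHB.lean` for `SetOE`, with `er = 1`; the number `N0O p 1 A B f = |D| f²` and `HypQ` are those of OB. Every statement `Sq_X` is proved
without hypotheses except HQ1 (from `O_TYFE`, `O_GPTE`): theorems `Pool.Agent.OEHQ.oe_X` in `OE/HQ_ELM.lean` (RAM VAL CHR QBO DEP PJ1), `OE/HQ_SAF.lean` (SAF UAL), `OE/HQ_HQ1.lean` (HQ1).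
-/

set_option autoImplicit false

namespace Pool.Agent.OEHQ

open _root_.MU3 _root_.Pool.Agent.MU3A _root_.Pool.Agent.MU3B _root_.Pool.Agent.MU3F _root_.Pool.Agent.MUX
  _root_.Pool.Agent.MUXH _root_.Pool.Agent.MUXHY _root_.Pool.Agent.MuSym _root_.Pool.Agent.OB
  _root_.Pool.Agent.OBH _root_.Pool.Agent.OE OnePoint
open _root_.Pool.Agent.ME (CaseE TorXE RepsE IsNE IsEIE PhiKE)
open _root_.Pool.Agent.MUXF (qb)

noncomputable section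

/-- (RAM) the norm of `P`, and `p` does not divide the discriminant (`3` or `4`). -/
def Sq_RAM : Prop :=
  ∀ (p : ℕ) (A B : ℤ) (P : Ideal (OO A B)) (V : ValuationSubring ℂ), CaseOE p A B P V →
    (nI P = p ∨ nI P = p ^ 2) ∧ ¬ (p : ℤ) ∣ absD A B

/-- (VAL) elementary facts. -/
def Sq_VAL : Prop :=
  ∀ (p : ℕ) (A B : ℤ) (P : Ideal (OO A B)) (V : ValuationSubring ℂ) (f : ℕ),
    SetOE p A B P V f →
    V.valuation (p : ℂ) < 1 ∧ (∀ n : ℤ, V.valuation (n : ℂ) ≤ 1) ∧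
    (∀ n : ℤ, ¬ (p : ℤ) ∣ n → V.valuation (n : ℂ) = 1) ∧
    (∀ (r : ℕ) (z : ℂ), r ≠ 0 → z ^ r = 1 → V.valuation z = 1) ∧
    0 < absD A B ∧ idl (A := A) (B := B) (p * f) ≤ sp ((absD A B : ℤ) : OO A B) ∧
    idl (A := A) (B := B) (p * f) ≠ ⊥ ∧ idl (A := A) (B := B) (p * f) ≠ ⊤ ∧
    ((p * f : ℕ) : OO A B) ∈ idl (A := A) (B := B) (p * f) ∧
    ((p ^ (1 + 1) * N0O p 1 A B f : ℕ) : ℤ) = absD A B * ((p * f : ℕ) : ℤ) ^ 2 ∧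
    N0O p 1 A B f ≠ 0 ∧ Nat.Coprime p (N0O p 1 A B f) ∧
    absD A B ∣ ((p * N0O p 1 A B f : ℕ) : ℤ) ∧
    ((p * f : ℕ) : ℤ) ∣ ((p * N0O p 1 A B f : ℕ) : ℤ)

/-- (CHR) the nebentypus. -/
def Sq_CHR : Prop :=
  ∀ (p : ℕ) (A B : ℤ) (P : Ideal (OO A B)) (V : ValuationSubring ℂ) (f : ℕ),
    SetOE p A B P V f → ∀ e : OO A B → ℂ, IsEI (idl (A := A) (B := B) (p * f)) e →
    ∀ r : ℕ, r ≠ 0 → (∀ x, e x ≠ 0 → e x ^ r = 1) →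
    nuX e 1 = 1 ∧ (∀ d d', nuX e (d * d') = nuX e d * nuX e d') ∧
    (∀ d d' : ℤ, ((p * N0O p 1 A B f : ℕ) : ℤ) ∣ d - d' → nuX e d = nuX e d') ∧
    (∀ d, V.valuation (nuX e d) ≤ 1)

/-- (QBO) the exponents modulo `p`. -/
def Sq_QBO : Prop :=
  ∀ (p : ℕ) (A B : ℤ) (P : Ideal (OO A B)) (V : ValuationSubring ℂ) (f : ℕ),
    SetOE p A B P V f → ∀ e : OO A B → ℂ, IsEI (idl (A := A) (B := B) (p * f)) e →
    ∀ b : Ideal (OO A B), b ≠ ⊥ → ∀ x ∈ b, e x ≠ 0 → ¬ (p : ℤ) ∣ nm x ∧ ¬ (p : ℤ) ∣ qb b x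

/-- (DEP) depletion at `p`. -/
def Sq_DEP : Prop :=
  ∀ (p : ℕ) (A B : ℤ) (P : Ideal (OO A B)) (V : ValuationSubring ℂ) (f : ℕ),
    SetOE p A B P V f → ∀ e : OO A B → ℂ, IsEI (idl (A := A) (B := B) (p * f)) e →
    ∀ b : Ideal (OO A B), b ≠ ⊥ → ∀ x : ℚ,
    ∑ j ∈ Finset.range p, PhiI b e ∞ (((x + j) / p : ℚ) : OnePoint ℚ) = 0

/-- (PJ1) the projector. -/
def Sq_PJ1 : Prop :=
  ∀ (p : ℕ) (A B : ℤ) (P : Ideal (OO A B)) (V : ValuationSubring ℂ) (f : ℕ),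
    SetOE p A B P V f → ∀ (ι : Type) [Fintype ι] (R : RepsE A B (p * f) ι) (e : OO A B → ℂ),
    IsEI (idl (A := A) (B := B) (p * f)) e → ∀ (kk : ι → ℂ) (Z s : ℂ),
    ∃ (q : ℕ) (c : ℕ → ℂ), q ≠ 0 ∧ (∀ t, V.valuation (c t) ≤ 1) ∧ ∀ x y : OnePoint ℚ,
      ∑ t ∈ Finset.range q, c t * sgnPart s (fun x y => PhiKE R e kk x y / Z) (mob q t 0 q x)
        (mob q t 0 q y) = PhiKE R e kk x y / Z

/-- (SAF) `PhiKE/(u om_0)` is a symbol with algebraic values in a finitely generated group. -/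
def Sq_SAF : Prop :=
  ∀ (p : ℕ) (A B : ℤ) (P : Ideal (OO A B)) (V : ValuationSubring ℂ) (f : ℕ),
    SetOE p A B P V f → TorXE A B → ∀ (ι : Type) [Fintype ι] (R : RepsE A B (p * f) ι)
    (e : OO A B → ℂ), IsEI (idl (A := A) (B := B) (p * f)) e → ∀ r : ℕ, r ≠ 0 →
    (∀ x, e x ≠ 0 → e x ^ r = 1) → ∀ kk : ι → ℂ, (∀ i, kk i = 0 ∨ kk i ^ r = 1) →
    ∀ u : ℂ, u ≠ 0 → IsAlgebraic ℚ u →
    IsSym (p ^ (1 + 1) * N0O p 1 A B f) (nuX e)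
      (fun x y => PhiKE R e kk x y / (u * R.om R.i0)) ∧
    (∀ x y, IsAlgebraic ℚ (PhiKE R e kk x y / (u * R.om R.i0))) ∧
    ∃ T : Finset ℂ, ∀ x y, PhiKE R e kk x y / (u * R.om R.i0) ∈ AddSubgroup.closure (T : Set ℂ)

/-- (UAL) `u` is algebraic. -/
def Sq_UAL : Prop :=
  ∀ (A B : ℤ), CaseE A B → ∀ (n : ℕ) (ι : Type) (R : RepsE A B n ι)
    (V : ValuationSubring ℂ) (u el lam : ℂ), GoodL V (R.L R.i0) u el lam → IsAlgebraic ℚ u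

/-- (HQ1) `HypQ` for `sgnPart s (PhiKE R e kk/(u om_0))`. -/
def Sq_HQ1 : Prop :=
  ∀ (p : ℕ) (A B : ℤ) (P : Ideal (OO A B)) (V : ValuationSubring ℂ) (f : ℕ),
    SetOE p A B P V f → TorXE A B →
    ∀ (ι : Type) [Fintype ι] (R : RepsE A B (p * f) ι) (u el lam : ℂ),
    GoodL V (R.L R.i0) u el lam → ∀ w : OO A B → ℂ, IsTeiP p 1 P V w →
    ∀ e : OO A B → ℂ, IsEIE (idl (A := A) (B := B) (p * f)) e → ∀ r : ℕ, ¬ p ∣ r →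
    (∀ x, e x ≠ 0 → e x ^ r = 1) → ∀ i : ℕ, nI P - 1 ≤ i * (p - 1) → i ≤ nI P - 2 →
    (∀ x, x - 1 ∈ gO P f → x ∉ P → e x = w x ^ i) →
    ∀ s : ℤ, s = 1 ∨ s = -1 → ∀ kk : ι → ℂ, (∀ i, kk i ^ r = 1) →
    ∃ (pi : ℂ) (KI : Subfield ℂ), HypQ p V (N0O p 1 A B f) 1 (nuX e)
        (sgnPart (s : ℂ) (fun x y => PhiKE R e kk x y / (u * R.om R.i0))) pi KI ∧
      (∀ x : ℚ, ∑ j ∈ Finset.range p, sgnPart (s : ℂ) (fun x y => PhiKE R e kk x y /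
        (u * R.om R.i0)) ∞ (((x + j) / p : ℚ) : OnePoint ℚ) = 0) ∧
      (∀ w ∈ KI, V.valuation w < 1 → V.valuation w ≤ V.valuation (p : ℂ)) ∧
      V.valuation pi ^ (nI P - 1) * V.valuation (p : ℂ) ^ i = 1

end

end Pool.Agent.OEHQ
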