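import Pool.Agent.OT.StI
import Pool.Agent.ME.N.StIN

/-!
# OE (Theorem T+ for `ℚ(i)`, `ℚ(√-3)`, problem MP_b78433_nt), block I (helper79), first part: statements which do not use `OE/Defs.lean`

Twins of `OB/StI.lean`, `OT/StI.lean` for `RepsE`, `TorXE`, `XXE` (`ME/DefsE.lean`). Models of the changes for the exceptional fields: `ME/N/I_*.lean` (twins of `NS/I_*.lean`). All levels are even.
Every statement is a `def Te_X : Prop`; the module X proves `theorem te_X (h : ..) ... : Te_X` in the file `Pool/Agent/OE/I_X.lean`, namespace `Pool.Agent.OEI` (private lemmas in `Pool.Agent.OEI.Xx`).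
-/

set_option autoImplicit false

open NumberField

namespace Pool.Agent.OEI

open _root_.MU3 Pool.Agent.MU3 Pool.Agent.MU3A Pool.Agent.MU3B Pool.Agent.RI Pool.Agent.RID
  Pool.Agent.MUX Pool.Agent.ME Pool.Agent.MUXK Pool.Agent.MUXI Pool.Agent.NS Pool.Agent.NSI
  Pool.Agent.OB Pool.Agent.OBI Pool.Agent.OT Pool.Agent.OTI
open Pool.Agent.MU3I (zt)
open Pool.Agent.TWR (Gen)

noncomputable section

/-- the weights `kk_i = kp_i c_i / mu_i / t (N b_i)` -/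
def kkTE {A B : ℤ} {n₀ : ℕ} {ι : Type} (R : RepsE A B n₀ ι) (kp c : ι → ℂ) (t : ℤ → ℂ) (i : ι) :
    ℂ :=
  kp i * c i / muXE R i * (t (nI (R.b i)))⁻¹

/-- the sets `XXE`, as `XMF` (`OT/StI.lean`); the pairs `(i, x)` have `x ≡ 1` modulo `2` -/
structure XMFE {A B : ℤ} {n₀ : ℕ} {ι : Type} (R : RepsE A B n₀ ι) (p f n : ℕ) (z₀ : ℤ) {G : Type}
    [Group G] (γ : G) (Δ : Subgroup G)
    (X : G → Set (ι × (OO A B ⧸ idl (A := A) (B := B) (lvX p f n)))) : Prop where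
  comm : ∀ σ τ : G, σ * τ = τ * σ
  cop : ∀ τ, ∀ q ∈ X τ, IsCoprime (Quotient.out q.2 : OO A B) ((lvX p f n : ℕ) : OO A B)
  two : ∀ τ, ∀ q ∈ X τ, (Quotient.out q.2 : OO A B) - 1 ∈ idl (A := A) (B := B) 2
  ex : ∀ q : ι × (OO A B ⧸ idl (A := A) (B := B) (lvX p f n)),
    IsCoprime (Quotient.out q.2 : OO A B) ((lvX p f n : ℕ) : OO A B) →
    (Quotient.out q.2 : OO A B) - 1 ∈ idl (A := A) (B := B) 2 → ∃ τ, q ∈ X τ
  uniq : ∀ q τ τ', q ∈ X τ → q ∈ X τ' → τ = τ'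
  nrm : ∀ q τ, q ∈ X τ → ∀ j : ℕ, (τ * (γ ^ j)⁻¹ ∈ Δ ↔ ∃ k < p - 1,
    ((p ^ (n + 1) : ℕ) : ℤ) ∣ nm (Quotient.out q.2) * nI (R.b q.1) - z₀ ^ k * (1 + (p : ℤ)) ^ j)

/-- (TSH) the sums of the logarithmic derivatives. MODEL: `OB/I_TSH.lean`, `ME/N/I_TSH.lean`. -/
def Te_TSH : Prop :=
  ∀ (p : ℕ) (A B : ℤ) (f : ℕ),
    SetQ p A B f → ∀ g : Ideal (OO A B), idl (A := A) (B := B) (lvX p f 0) ≤ g →
    ∀ (ι : Type) (R : RepsE A B (p * f) ι) (n : ℕ) (e : OO A B → ℂ),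
    IsEI g e → ∀ (i : ι) (t : ℤ),
    muXE R i * sumMod ((lvX p f n : ℕ) : OO A B) (fun x =>
      if ((p ^ (n + 1) : ℕ) : ℤ) ∣ nm x * nI (R.b i) - t then
        e x * dlX (R.L i) (aX p f) (ptE R (lvX p f n) i x) else 0) =
      (aX p f : ℂ) * SnXE R (lvX p f n) (p ^ (n + 1)) e i ((aX p f : ℤ) ^ 2 * t) -
        (aX p f : ℂ) ^ 2 * SnXE R (lvX p f n) (p ^ (n + 1)) e i t

/-- (XMF) the sets `XXE` satisfy `XMFE` for the group `NC h Bn`. MODEL: `OT/I_XMF.lean`, `ME/N/I_XMX.lean`.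

USES Si_XXF_E, Si_ARF_E, Ti_NCB, Ti_ZAR. -/
def Te_XMF : Prop :=
  ∀ (p : ℕ) [Fact p.Prime] (A B : ℤ) (f : ℕ),
    SetQ p A B f → CaseE A B → 2 ∣ f → TorXE A B → ∀ (ι : Type) (R : RepsE A B (p * f) ι)
    (D : IntermediateField ℚ ℂ) (n : ℕ) (h : kk A B ≤ D) (Bn : IntermediateField ℚ ℂ),
    IsLayer p n Bn → Bn ≤ RB p n → RB p n ≤ D →
    (∀ y ∈ D, y ∈ RFE (idl (A := A) (B := B) (lvX p f n))) → letI := algC h
    ∀ (_ : IsGalois (kk A B) ↥D) (γ : ↥D ≃ₐ[kk A B] ↥D),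
    (∀ x : ↥D, (x : ℂ) = zt (p ^ (n + 1)) + (zt (p ^ (n + 1)))⁻¹ →
        ((γ x : ↥D) : ℂ) =
          zt (p ^ (n + 1)) ^ (1 + p) + (zt (p ^ (n + 1)) ^ (1 + p))⁻¹) →
    ∀ z₀ : ℤ, IsZ0 p n z₀ →
    XMFE R p f n z₀ γ (NC h Bn) (fun τ => XXE R (lvX p f n) h τ)

/-- (SUB) `K B_n ≤ RFE (lvX p f n)`. MODEL: `ME/N/I_SUB.lean`, `OB/I_SUB.lean` (first half).

USES Si_IAF_E, t_CYCO. -/
def Te_SUB : Prop :=
  ∀ (p : ℕ) (A B : ℤ) (f : ℕ), SetQ p A B f → TorXE A B →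
    (∃ (b : Ideal (OO A B)) (L : PeriodPair) (om : ℂ), IsNE b L om) →
    ∀ (K : IntermediateField ℚ ℂ), (∀ y ∈ K, y ∈ RFE (idl (A := A) (B := B) (lvX p f 0))) →
    ∀ (n : ℕ) (Bn : IntermediateField ℚ ℂ), IsLayer p n Bn →
    ∀ y ∈ K ⊔ Bn, y ∈ RFE (idl (A := A) (B := B) (lvX p f n))

/-- (EIX) the character `e ψ(N x)`. MODEL: `OT/I_EIX.lean` (`ti_EIX` gives `IsEI`; the units have norm `1`: `ME.isUnit_nm`). -/
def Te_EIX : Prop :=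
  ∀ (p : ℕ) (A B : ℤ) (f : ℕ), SetQ p A B f → CaseE A B → ∀ (l r : ℕ), l.Prime → l ∣ f →
    ∀ e : OO A B → ℂ, IsEIE (idl (A := A) (B := B) (p * f)) e →
    ∀ ψ : DirichletCharacter ℂ (l ^ r),
    IsEIE (idl (A := A) (B := B) (p * (f * l ^ r))) (fun x => e x * ψ (nm x))

end

end Pool.Agent.OEI
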