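import Pool.Agent.OE.Defs
import Pool.Agent.OE.StF
import Pool.Agent.OT.StJ

/-!
# OE, block J (helper19): Theorem T+ for `k = ℚ(i)`, `ℚ(√-3)`, from the input (I3) of block I to `μ = 0` for all new characters of `K B_r`

The twin of `OT/StJ.lean`; `AbK`, `LyL`, `NewC` are those of `OT/StJ.lean`. `O_ITE` is the result of the block I in the form which is used here (the twin of `OTJ.O_IT`; `OTI.O_IT` of `OT/StI.lean` is as good, see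
`OT/J_CONV.lean`). The result of this block is `Pool.Agent.OEF.O_TJE` (`OE/StF.lean`): `OE/JAll.lean`, `o_TJE (hR : O_RFINE) (hE : O_EFINE) (hI : O_ITE) : OEF.O_TJE`.
-/

set_option autoImplicit false

open NumberField IsDedekindDomain

namespace Pool.Agent.OEJ

open _root_.MU3 Pool.Agent.MU3 Pool.Agent.MU3A Pool.Agent.MU3B Pool.Agent.RI Pool.Agent.RID
  Pool.Agent.MUX Pool.Agent.ME Pool.Agent.MUXK Pool.Agent.MUXE Pool.Agent.MUXJ Pool.Agent.MUXZ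
  Pool.Agent.NSI Pool.Agent.OB Pool.Agent.OE
open Pool.Agent.OTJ (AbK LyL NewC)
open _root_.Pool.Agent.TWR (Gen)

noncomputable section

/-- THE RESULT of block I (helper79) for the exceptional fields: for all large `r`, for every new character `χ` of `Gal(K'/k)`, `K' = K₀ ⊔ Ln (r + 1)`, the element `C 1` of
`K' ⊔ Bn 5` is not a `p`-th power in the sense of (I3): `I3At .. χ 1 5`. The number `r₀` depends on everything which is fixed before it. -/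
def O_ITE : Prop :=
  ∀ (p : ℕ) [Fact p.Prime] (A B : ℤ) (P : Ideal (OO A B)) (V : ValuationSubring ℂ) (f : ℕ),
    SetOE p A B P V f → TorXE A B →
    ∀ (ι : Type) [Fintype ι] (R : RepsE A B (p * f) ι) (u el lam : ℂ),
    GoodL V (R.L R.i0) u el lam →
    ∀ (l g h : ℕ), Gen l g h → ∀ (hl : l ∣ f) (K₀ : IntermediateField ℚ ℂ)
    [FiniteDimensional ℚ K₀] (hk : kk A B ≤ K₀), AbK p hk →
    (∀ y ∈ K₀, y ∈ RFE (idl (A := A) (B := B) (lvX p f 0))) →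
    ∀ Ln : ℕ → IntermediateField ℚ ℂ, LyL l Ln →
    ∃ r₀ : ℕ, ∀ r, r₀ ≤ r → ∀ (K' : IntermediateField ℚ ℂ), K' = K₀ ⊔ Ln (r + 1) →
    ∀ (Bn : ℕ → IntermediateField ℚ ℂ) [FiniteDimensional ℚ K']
    [∀ n, FiniteDimensional ℚ ↥(K' ⊔ Bn n)] (_ : BasX p (kk A B) K' Bn)
    (hkn : kk A B ≤ K' ⊔ Bn 5) (hkK : kk A B ≤ K') (_ : AbK p hkK)
    (_ : ∀ y ∈ K', y ∈ RFE (idl (A := A) (B := B) (lvX p (f * l ^ (r + 1 + h)) 0)))
    (C : (letI := algC hkn; ↥(K' ⊔ Bn 5) ≃ₐ[kk A B] ↥(K' ⊔ Bn 5)) → ℂ),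
    EInpOE p P V (f * l ^ (r + 1 + h)) (RLE R l (r + 1 + h) hl) u 5 hkn C →
    ∀ (c₀ : ℂ) (mem : c₀ ∈ K' ⊔ Bn 5), c₀ = C (letI := algC hkn; 1) →
    ∀ χ : (letI := algC hkK; (↥K' ≃ₐ[kk A B] ↥K') →* (IsLocalRing.ResidueField V)ˣ),
      NewC hkK (K₀ ⊔ Ln r) χ →
      I3At (IsLocalRing.ResidueField V) p (kk A B) K' Bn hkK χ 1 5 hkn c₀ mem

/-- the inputs of block K for the fields `K₀ ⊔ Ln (r + 1)`, for one prime `P` -/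
def InpGTE (p : ℕ) (A B : ℤ) (V : ValuationSubring ℂ) : Prop :=
  ∀ (l g h : ℕ), Gen l g h → ∀ f : ℕ, f ≠ 0 → ¬ p ∣ f → 12 ∣ f →
  2 * absD A B ∣ ((p * f : ℕ) : ℤ) →
  ∀ (K₀ : IntermediateField ℚ ℂ) [FiniteDimensional ℚ K₀] (hk : kk A B ≤ K₀), AbK p hk →
  (∀ y ∈ K₀, y ∈ RFE (idl (A := A) (B := B) (lvX p f 0))) →
  ∀ Ln : ℕ → IntermediateField ℚ ℂ, LyL l Ln →
  ∃ r₀ : ℕ, ∀ r, r₀ ≤ r → ∀ (K' K : IntermediateField ℚ ℂ) (Bn : ℕ → IntermediateField ℚ ℂ)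
    [FiniteDimensional ℚ (kk A B)] [FiniteDimensional ℚ K'] [FiniteDimensional ℚ K]
    [∀ n, FiniteDimensional ℚ ↥(K ⊔ Bn n)] [∀ n, FiniteDimensional ℚ ↥(K' ⊔ Bn n)],
    K' = K₀ ⊔ Ln (r + 1) → SetX p (kk A B) K' K Bn →
    (∀ y ∈ K, y ∈ RFE (idl (A := A) (B := B) (lvX p (f * l ^ (r + 1 + h)) 0))) →
    (∀ y ∈ RFE (⊤ : Ideal (OO A B)), y ∈ K) →
    ∀ (hk : ∀ n, kk A B ≤ K ⊔ Bn n) (hk₀ : ∀ n, kk A B ≤ K' ⊔ Bn n) (hkK : kk A B ≤ K'),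
    ∃ (S : Finset ℕ) (c c₀ : ℕ → ℂ) (n₁ : ℕ)
      (hW : InpW p (kk A B) K' K Bn hk hk₀ S c c₀ n₁),
      ∀ χ : (letI := algC hkK; (↥K' ≃ₐ[kk A B] ↥K') →* (IsLocalRing.ResidueField V)ˣ),
        NewC hkK (K₀ ⊔ Ln r) χ → ∃ m, n₁ ≤ m ∧
          I3At (IsLocalRing.ResidueField V) p (kk A B) K' Bn hkK χ 1 m (hk₀ m) (c₀ m) (hW.mem₀ m)

end

end Pool.Agent.OEJ
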