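import Pool.Agent.OE.Defs
import Pool.Agent.OB.StK

/-!
# OE, the one-branch theorem for `k = ℚ(i)`, `ℚ(√-3)` (helper60): statements

`O_HFINE` : twin of `OB.O_HFIN` for `SetOE` (`er = 1`). `O_NBE`, `O_NILE` : twins of `OB.O_NB`, `OB.O_NIL` for the exceptional fields.
-/

set_option autoImplicit false

open NumberField IsDedekindDomain

namespace Pool.Agent.OEN

open _root_.MU3 _root_.Pool.Agent.MU3 _root_.Pool.Agent.MU3A _root_.Pool.Agent.MU3B _root_.Pool.Agent.RI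
  _root_.Pool.Agent.RID _root_.Pool.Agent.MUX _root_.Pool.Agent.MUXK _root_.Pool.Agent.MUXZ
  _root_.Pool.Agent.ME _root_.Pool.Agent.NSI _root_.Pool.Agent.OB _root_.Pool.Agent.OE

noncomputable section

/-- (HFINE) the character sums, one branch, for the types `i` with `NP - 1 ≤ i (p - 1)`, `i ≤ NP - 2`; the sums are over ALL `x` modulo `m`. Module HFE of helper60. -/
def O_HFINE : Prop :=
  ∀ (p : ℕ) (A B : ℤ) (P : Ideal (OO A B)) (V : ValuationSubring ℂ) (f : ℕ),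
    SetOE p A B P V f → TorXE A B →
    ∀ (ι : Type) [Fintype ι] (R : RepsE A B (p * f) ι) (u el lam : ℂ),
    GoodL V (R.L R.i0) u el lam → ∀ w : OO A B → ℂ, IsTeiP p 1 P V w →
    ∀ e : OO A B → ℂ, IsEIE (idl (A := A) (B := B) (p * f)) e → ∀ r : ℕ, ¬ p ∣ r →
    (∀ x, e x ≠ 0 → e x ^ r = 1) → ∀ i : ℕ, nI P - 1 ≤ i * (p - 1) → i ≤ nI P - 2 →
    (∀ x, x - 1 ∈ gO P f → x ∉ P → e x = w x ^ i) →
    ∀ s : ℤ, s = 1 ∨ s = -1 → ∀ kk : ι → ℂ, (∀ i, kk i ^ r = 1) →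
    ∀ n₀ : ℕ, ∃ n, n₀ ≤ n ∧
      V.valuation (p : ℂ) < V.valuation ((∑ j ∈ Finset.range 2, (-1) ^ (1 - j) *
        (STXE R (lvX p f n) (p ^ (n + 1)) (aX p f) e kk ((1 + p) ^ j) +
          s * STXE R (lvX p f n) (p ^ (n + 1)) (aX p f) e kk (-((1 + p) ^ j)))) / u)

/-- (NBE) the one-branch theorem for the exceptional fields: nilpotency and the linear bound. -/
def O_NBE : Prop := ∀ (p : ℕ) [Fact p.Prime], 5 ≤ p →
    ∀ (k K₀ : IntermediateField ℚ ℂ) (B : ℕ → IntermediateField ℚ ℂ) [FiniteDimensional ℚ k]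
    [FiniteDimensional ℚ K₀] [∀ n, FiniteDimensional ℚ ↥(K₀ ⊔ B n)] (hB : BasX p k K₀ B)
    (hk₀ : ∀ n, k ≤ K₀ ⊔ B n) (hkK : k ≤ K₀), Module.finrank ℚ k = 2 →
    (∃ z ∈ k, (starRingEnd ℂ) z ≠ z) → ((∃ z ∈ k, z ^ 2 = -1) ∨ ∃ z ∈ k, z ^ 2 = -3) →
    ¬ p ∣ Module.finrank k (IntermediateField.extendScalars hB.hk) →
    (∃ ω ∈ K₀, IsPrimitiveRoot ω p) →
    ∀ χ : (letI := algC hkK; (↥K₀ ≃ₐ[k] ↥K₀) →* (AlgebraicClosure (ZMod p))ˣ),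
    ∃ (j : ℕ) (χ' : (letI := algC hkK; (↥K₀ ≃ₐ[k] ↥K₀) →* (AlgebraicClosure (ZMod p))ˣ)),
      j < p - 1 ∧ Even j ∧
      (letI := algC hkK
        ∀ (s : ↥K₀ ≃ₐ[k] ↥K₀) (c : ℕ), (∀ z : ↥K₀, z ^ p = 1 → s z = z ^ c) →
        ((χ' s : (AlgebraicClosure (ZMod p))ˣ) : AlgebraicClosure (ZMod p)) =
          χ s * (c : AlgebraicClosure (ZMod p)) ^ j) ∧
      (∃ l : ℕ, NilC (AlgebraicClosure (ZMod p)) k K₀ B hk₀ hkK χ' l) ∧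
      ∃ C : ℕ, ∀ n : ℕ,
        Module.Finite (AlgebraicClosure (ZMod p))
          (EigS (AlgebraicClosure (ZMod p)) k K₀ B n (hk₀ n) hkK χ') ∧
        Module.finrank (AlgebraicClosure (ZMod p))
          (EigS (AlgebraicClosure (ZMod p)) k K₀ B n (hk₀ n) hkK χ') ≤ C * (n + 1)

/-- (NILE) twin of `OB.O_NIL`. -/
def O_NILE : Prop := ∀ (p : ℕ) [Fact p.Prime], 5 ≤ p →
    ∀ (k K₀ : IntermediateField ℚ ℂ) (B : ℕ → IntermediateField ℚ ℂ) [FiniteDimensional ℚ k]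
    [FiniteDimensional ℚ K₀] [∀ n, FiniteDimensional ℚ ↥(K₀ ⊔ B n)] (hB : BasX p k K₀ B)
    (hk₀ : ∀ n, k ≤ K₀ ⊔ B n) (hkK : k ≤ K₀), Module.finrank ℚ k = 2 →
    (∃ z ∈ k, (starRingEnd ℂ) z ≠ z) → ((∃ z ∈ k, z ^ 2 = -1) ∨ ∃ z ∈ k, z ^ 2 = -3) →
    ¬ p ∣ Module.finrank k (IntermediateField.extendScalars hB.hk) →
    (∃ ω ∈ K₀, IsPrimitiveRoot ω p) →
    ∀ χ : (letI := algC hkK; (↥K₀ ≃ₐ[k] ↥K₀) →* (AlgebraicClosure (ZMod p))ˣ),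
    ∃ (j : ℕ) (χ' : (letI := algC hkK; (↥K₀ ≃ₐ[k] ↥K₀) →* (AlgebraicClosure (ZMod p))ˣ)),
      j < p - 1 ∧ Even j ∧
      (letI := algC hkK
        ∀ (s : ↥K₀ ≃ₐ[k] ↥K₀) (c : ℕ), (∀ z : ↥K₀, z ^ p = 1 → s z = z ^ c) →
        ((χ' s : (AlgebraicClosure (ZMod p))ˣ) : AlgebraicClosure (ZMod p)) =
          χ s * (c : AlgebraicClosure (ZMod p)) ^ j) ∧
      ∃ l : ℕ, NilC (AlgebraicClosure (ZMod p)) k K₀ B hk₀ hkK χ' l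

end

end Pool.Agent.OEN
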