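import Pool.Agent.OE.StN
import Pool.Agent.OB.StI
import Pool.Agent.MUX.StZX

/-!
# OE, the one-branch theorem for `k = ℚ(i)`, `ℚ(√-3)` (helper84): statements of the blocks I, J

`O_I3E` : twin of `OBI.O_I3`, from `O_HFINE`. `InpGOE` : twin of `OBZ.InpGO`. `O_MAINE` : twin of `OB.O_MAIN` for `kk A B`, `CaseE A B`.
-/

set_option autoImplicit false

open NumberField IsDedekindDomain

namespace Pool.Agent.OEN

open _root_.MU3 Pool.Agent.MU3 Pool.Agent.MU3A Pool.Agent.MU3B Pool.Agent.RI Pool.Agent.RID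
  Pool.Agent.MUX Pool.Agent.ME Pool.Agent.MUXK Pool.Agent.MUXE Pool.Agent.MUXJ Pool.Agent.MUXZ
  Pool.Agent.NSI Pool.Agent.OB Pool.Agent.OE
open Pool.Agent.OBI (IsOm brO)

noncomputable section

/-- THE RESULT of block I, one branch: for every `χ` there is an even branch `χ om^j` with the input (I3) of block K. From `O_HFINE`. Module of helper79. MODEL: `OB/I_I31.lean`, `OB/I_INP.lean`. -/
def O_I3E : Prop :=
  ∀ (p : ℕ) [Fact p.Prime] (A B : ℤ) (P : Ideal (OO A B)) (V : ValuationSubring ℂ) (f : ℕ),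
    SetOE p A B P V f → TorXE A B →
    ∀ (ι : Type) [Fintype ι] (R : RepsE A B (p * f) ι) (u el lam : ℂ),
    GoodL V (R.L R.i0) u el lam →
    ∀ (K₀ K : IntermediateField ℚ ℂ) (Bn : ℕ → IntermediateField ℚ ℂ)
    [FiniteDimensional ℚ (kk A B)] [FiniteDimensional ℚ K] [∀ n, FiniteDimensional ℚ ↥(K ⊔ Bn n)]
    (_ : SetX p (kk A B) K₀ K Bn)
    (_ : ∀ y ∈ K₀, y ∈ RFE (idl (A := A) (B := B) (lvX p f 0)))
    (hk : ∀ n, kk A B ≤ K ⊔ Bn n) (hk₀ : ∀ n, kk A B ≤ K₀ ⊔ Bn n) (hkK : kk A B ≤ K₀)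
    (S : Finset ℕ) (c c₀ : ℕ → ℂ) (n₁ : ℕ)
    (hW : Pool.Agent.MUXZ.InpW p (kk A B) K₀ K Bn hk hk₀ S c c₀ n₁)
    (C : ∀ n, (letI := algC (hk₀ n); ↥(K₀ ⊔ Bn n) ≃ₐ[kk A B] ↥(K₀ ⊔ Bn n)) → ℂ)
    (_ : ∀ n, 1 ≤ n → EInpOE p P V f R u n (hk₀ n) (C n))
    (_ : ∀ n, 1 ≤ n → c₀ n = C n (letI := algC (hk₀ n); 1))
    (χ om : (letI := algC hkK; (↥K₀ ≃ₐ[kk A B] ↥K₀) →* (IsLocalRing.ResidueField V)ˣ))
    (_ : IsOm (IsLocalRing.ResidueField V) p hkK om),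
    ∃ j, j < p - 1 ∧ Even j ∧ ∀ N n₀ : ℕ, ∃ n, n₀ ≤ n ∧
      I3At (IsLocalRing.ResidueField V) p (kk A B) K₀ Bn hkK (brO hkK χ om j) N n (hk₀ n) (c₀ n)
        (hW.mem₀ n)

/-- the inputs of block K -/
def InpGOE (p : ℕ) (A B : ℤ) (V : ValuationSubring ℂ) : Prop :=
  ∀ (f : ℕ), f ≠ 0 → ¬ p ∣ f → 12 ∣ f → 2 * absD A B ∣ ((p * f : ℕ) : ℤ) →
  ∀ (K₀ K : IntermediateField ℚ ℂ) (Bn : ℕ → IntermediateField ℚ ℂ)
    [FiniteDimensional ℚ (kk A B)] [FiniteDimensional ℚ K] [∀ n, FiniteDimensional ℚ ↥(K ⊔ Bn n)],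
    SetX p (kk A B) K₀ K Bn → (∀ y ∈ K, y ∈ RFE (idl (A := A) (B := B) (lvX p f 0))) →
    (∀ y ∈ RFE (⊤ : Ideal (OO A B)), y ∈ K) →
    ∀ (hk : ∀ n, kk A B ≤ K ⊔ Bn n) (hk₀ : ∀ n, kk A B ≤ K₀ ⊔ Bn n) (hkK : kk A B ≤ K₀),
    ∃ (S : Finset ℕ) (c c₀ : ℕ → ℂ) (n₁ : ℕ)
      (hW : InpW p (kk A B) K₀ K Bn hk hk₀ S c c₀ n₁),
      ∀ (χ om : (letI := algC hkK;
          (↥K₀ ≃ₐ[kk A B] ↥K₀) →* (IsLocalRing.ResidueField V)ˣ)),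
        IsOm (IsLocalRing.ResidueField V) p hkK om →
        ∃ j, j < p - 1 ∧ Even j ∧ ∀ N n₀ : ℕ, ∃ n, n₀ ≤ n ∧
          I3At (IsLocalRing.ResidueField V) p (kk A B) K₀ Bn hkK (brO hkK χ om j) N n (hk₀ n)
            (c₀ n) (hW.mem₀ n)

/-- the one-branch theorem for the abelian extension `K₀` of `k = kk A B`, of degree prime to `p`, with the `p`-th roots of
unity, and the layers `Bn` -/
def O_MAINE : Prop :=
  ∀ (p : ℕ) [Fact p.Prime], 5 ≤ p → ∀ (A B : ℤ), CaseE A B →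
    ∀ (K₀ : IntermediateField ℚ ℂ) [FiniteDimensional ℚ K₀] (hk : kk A B ≤ K₀),
    IsGalois (kk A B) (IntermediateField.extendScalars hk) →
    (∀ σ τ : (IntermediateField.extendScalars hk) ≃ₐ[kk A B]
      (IntermediateField.extendScalars hk), σ * τ = τ * σ) →
    ¬ p ∣ Module.finrank (kk A B) (IntermediateField.extendScalars hk) →
    (∃ ω ∈ K₀, IsPrimitiveRoot ω p) →
    ∀ (Bn : ℕ → IntermediateField ℚ ℂ) [∀ n, FiniteDimensional ℚ ↥(K₀ ⊔ Bn n)],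
    (∀ n, IsLayer p n (Bn n)) → Monotone Bn → ∀ (hk₀ : ∀ n, kk A B ≤ K₀ ⊔ Bn n)
    (χ om : (letI := algC hk; (↥K₀ ≃ₐ[kk A B] ↥K₀) →* (AlgebraicClosure (ZMod p))ˣ)),
    IsOm (AlgebraicClosure (ZMod p)) p hk om →
    ∃ j, j < p - 1 ∧ Even j ∧
      (∃ l : ℕ, NilC (AlgebraicClosure (ZMod p)) (kk A B) K₀ Bn hk₀ hk (brO hk χ om j) l) ∧
      ∃ C : ℕ, ∀ n : ℕ,
        Module.Finite (AlgebraicClosure (ZMod p))
          (EigS (AlgebraicClosure (ZMod p)) (kk A B) K₀ Bn n (hk₀ n) hk (brO hk χ om j)) ∧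
        Module.finrank (AlgebraicClosure (ZMod p))
          (EigS (AlgebraicClosure (ZMod p)) (kk A B) K₀ Bn n (hk₀ n) hk (brO hk χ om j)) ≤
          C * (n + 1)

end

end Pool.Agent.OEN
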