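import Pool.Agent.OE.Defs
import Pool.Agent.OB.StT
import Pool.Agent.ME.T_TYF4

/-!
# OE, block T: TYPES for the exceptional fields, every prime `p ≥ 5` (helper59)

Twin of `OB/StT.lean` (`er = 1`) in the frame of `ME`; `ME/T_TYF4.lean` (helper4, `p = 3`, `D = -4`) has the lemmas for the frame: `MET.coordE`, `tcj`, `sgu`, `tauE`, `tyf4` and (imported there) `wp_mem`, `alg_RFE`, `fgE`, `algE`, `actE`, `cong_pm`,
`valE`, `one_elt`. Every statement is a `def S_X : Prop`; the module OET_X proves `theorem oe_X (h : ..) .. : S_X` in `Pool/Agent/OE/T_X.lean`, namespace `Pool.Agent.OET` (private lemmas in `Pool.Agent.OET.X`), with the statements named under USES as hypotheses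
(fewer is fine). Files import originals, never `MVF`, `OBM`, `OTM`, `OUM`.
-/

set_option autoImplicit false

namespace Pool.Agent.OET

open _root_.MU3 Pool.Agent.MU3A Pool.Agent.MU3B Pool.Agent.RI Pool.Agent.MUX Pool.Agent.MUXU
open OnePoint Pool.Agent.NS Pool.Agent.OB Pool.Agent.OE
open Pool.Agent.ME hiding ActE
open Pool.Agent.MUXV (GR InK)
open Pool.Agent.NSE (su ru)
open Pool.Agent.MUXY (ActN Dn)
open Pool.Agent.OBT (EP)

noncomputable section

/-- (BAS) elementary facts on `P` and `V`. MODEL: `OB/T_BAS.lean` (`er = 1`); only `cq`, `pp`, `p5`, `prime`, `mem`, `unr`, `hV` are used there. -/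
def S_BAS : Prop :=
  ∀ (p : ℕ) (A B : ℤ) (P : Ideal (OO A B)) (V : ValuationSubring ℂ), CaseOE p A B P V →
    V.valuation (p : ℂ) < 1 ∧ V.valuation (2 : ℂ) = 1 ∧ P.IsMaximal ∧
    (∀ x : OO A B, V.valuation (emb x) ≤ 1) ∧ (∀ x : OO A B, V.valuation (emb x) < 1 ↔ x ∈ P) ∧
    (∀ n : ℕ, ¬ p ∣ n → V.valuation (n : ℂ) = 1) ∧
    (nI P = p ∨ nI P = p ^ 2) ∧ ¬ p ∣ nI P - 1 ∧ 4 ≤ nI P - 1 ∧
    (∃ y : OO A B, (∀ x ∈ P, ∃ z, x * y = (p : OO A B) * z) ∧ ∀ z, y ≠ (p : OO A B) * z) ∧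
    IsCoprime (Pc P) P ∧ idl (A := A) (B := B) p = Pc P * P

/-- (ALT) algebraicity. MODELS: `MET.ueE`, `MET.coordE` (`ME/T_TYF4.lean`) and `OB/T_ALT.lean` (for `GoodL` instead of `GoodN`; `V` is not used: `GoodL` gives the Legendre equation; `OBG.LEG.good_top` of `OB/G_LEG.lean` turns `GoodL V` into
`GoodN ⊤`, or `MEG.cubE` of `ME/G_GPN.lean`: `e`, `e + u²`, `e + lam u²` are the values of `℘` at the half periods; `wp_mem` with `n = 2`). -/
def S_ALT : Prop :=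
  ∀ (A B : ℤ), CaseE A B → TorXE A B → ∀ (V : ValuationSubring ℂ)
    (b : Ideal (OO A B)) (L : PeriodPair) (om : ℂ), IsNE b L om →
    ∀ u e lam : ℂ, GoodL V L u e lam →
      u ^ 2 ∈ RFE (idl (A := A) (B := B) 2) ∧ e ∈ RFE (idl (A := A) (B := B) 2) ∧
      lam ∈ RFE (idl (A := A) (B := B) 2) ∧ IsAlgebraic ℚ u ∧ IsAlgebraic ℚ e ∧
      ∀ N : ℕ, N ≠ 0 → ∀ z, z ∉ L.lattice → (N : ℂ) * z ∈ L.lattice →
        IsAlgebraic ℚ (xu L u e z) ∧ IsAlgebraic ℚ (yu L u z) ∧ IsAlgebraic ℚ (ru L u e z)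

/-- (SGU) the sign `d`. MODELS: `MET.sgu` (`ME/T_TYF4.lean`) and, for `GoodL` (the good reduction `ξ`, `GR`), `OB/T_SGU.lean`.

USES BAS. -/
def S_SGU : Prop :=
  ∀ (p : ℕ) (A B : ℤ) (P : Ideal (OO A B)) (V : ValuationSubring ℂ), CaseOE p A B P V →
    ∀ (L : PeriodPair) (om : ℂ), IsLI (⊤ : Ideal (OO A B)) L om → ∀ (u e lam : ℂ),
    GoodL V L u e lam → ∀ (m m' : ℕ), 3 ≤ m' → ¬ p ∣ m' → m' ∣ m →
    ∀ (a : Ideal (OO A B)) (σ : ℂ ≃+* ℂ) (c : OO A B) (d : ℤ),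
    c - 1 ∈ idl (A := A) (B := B) m' → (d = 1 ∨ d = -1) → ActN σ m a L L (d * emb c) →
    σ (u ^ 2) = u ^ 2 →
    (V.valuation (yu L u (om / m')) ≤ 1 →
      V.valuation (σ (yu L u (om / m')) - yu L u (om / m')) < 1) → σ u = d * u

/-- (TRC) the points of order `P`: `v(ru Y)^(q-1) = v p` and `ru(x Y) ≡ x ru(Y)`. MODEL: `OB/T_TRC.lean` with the context of block E (`OE/StE.lean`, helper96): USES the twins of `Sb_CTX`, `Sb_ALG`, `Sb_PVL`, `Sb_PIS`, `Sb_PTS`, `Sb_ISO`, and O_RFINE if needed. -/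
def S_TRC : Prop :=
  ∀ (p : ℕ) (A B : ℤ) (P : Ideal (OO A B)) (V : ValuationSubring ℂ), CaseOE p A B P V →
    TorXE A B → ∀ (b : Ideal (OO A B)) (L : PeriodPair) (om u e lam : ℂ), IsNE b L om →
    GoodL V L u e lam →
    (∀ Y ∈ EP P L, V.valuation (ru L u e Y) ^ (nI P - 1) = V.valuation (p : ℂ)) ∧
    ∀ x : OO A B, x ∉ P → ∀ Y ∈ EP P L,
      emb x * Y ∈ EP P L ∧
      V.valuation (ru L u e (emb x * Y) - emb x * ru L u e Y) < V.valuation (ru L u e Y)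

/-- (TAU) the number `tau`. MODELS: `OB/T_TAU.lean` (`er = 1`) with `ActN σ m a L L (d emb c)` instead of `ActT`, as in `MET.tauE` (`ME/T_TYF4.lean`; `tcj` there is general: conjugation of the coordinates).

USES BAS, TRC, ALT. -/
def S_TAU : Prop :=
  ∀ (p : ℕ) (A B : ℤ) (P : Ideal (OO A B)) (V : ValuationSubring ℂ), CaseOE p A B P V →
    TorXE A B → ∀ (L : PeriodPair) (om : ℂ), IsNE (⊤ : Ideal (OO A B)) L om →
    ∀ (u e lam : ℂ), GoodL V L u e lam → ∀ w : OO A B → ℂ, IsTeiP p 1 P V w →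
    ∃ tau : ℂ, V.valuation tau ^ (nI P - 1) = V.valuation (p : ℂ) ∧ IsAlgebraic ℚ tau ∧
      ∀ (m : ℕ), p ∣ m → ∀ (a : Ideal (OO A B)) (σ : ℂ ≃+* ℂ) (c : OO A B) (d : ℤ),
        (d = 1 ∨ d = -1) → ActN σ m a L L (d * emb c) →
        c ∉ P → σ u = d * u → σ e = e → (∀ x, σ (w x) = w x) → σ tau = w c * tau

/-- (TYF) THE RESULT of block T. MODELS: `MET.tyf4` (`ME/T_TYF4.lean`) with `r (q - 1)`, `q = nI P`, instead of `8 r`, and `OB/T_TYF.lean` for the ideal `g = idl m' * (Pc P)^J` (`m = p^J m'`, `J = j + 1`): `g` is even (`12 ∣ f ∣ m'`) and not contained in `P`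
(BAS: `IsCoprime (Pc P) P`, `¬ p ∣ m'`), `idl m ≤ g ≤ gO P f ≤ idl f`. The unramified field: `Pool.Agent.N2T.unfP` (`N2/T3_UNF.lean`) is general.

A difference to `tyf4`: `σ` is trivial on `RFE g`, not on `RFE (m')`, and acts on the points of level `m` as `c0`; `cong_pm` must give `c0 = d c`, `c - 1 ∈ g`: apply the argument of `cong_pm` (or of `OB/T_ACG.lean`) to the points of `L_0[g]`: `z = om emb t/m`, `t` in the ideal with `t g ≤ idl m`
(`Tor g L z`): `x(c0 z) = x(z)`, so `c0 z = ± z` modulo the lattice for all `z ∈ L_0[g]`; there is a generator of `L_0[g] ≅ O/g` (in the case `Pc P = ⊤` it is `om/m'`; in general use that `O` is a principal ideal ring, `g = (γ)`, `z = om/γ`), so `c0 ≡ ± 1` modulo `g`.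

USES O_RFINE, BAS, ALT, SGU, TAU, and `So_RTU` (`OB/T_RTU.lean`), `So_FGP`. -/
def S_TYF : Prop := O_TYFE

end

end Pool.Agent.OET
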