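import Pool.Agent.OE.Defs
import Pool.Agent.ME2.T_Lib
import Pool.Agent.OB.T_SGU
import Pool.Agent.NS.T_TYF
import Pool.Agent.NS.RN_LGF
import Pool.Agent.ME.Lib

/-!
# OE, block T (helper96): library, after helper4's `ME/T_TYF4.lean`, `ME2/T_TYF3.lean`
-/

set_option autoImplicit false

namespace Pool.Agent.OETB

open _root_.MU3 Pool.Agent.MU3A Pool.Agent.MU3B Pool.Agent.RI Pool.Agent.MUX Pool.Agent.MUXU
open OnePoint Pool.Agent.NS Pool.Agent.ME2 Pool.Agent.OB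
open Pool.Agent.ME hiding ActE
open Pool.Agent.MUXV (GR InK)
open Pool.Agent.NSE (su ru)
open Pool.Agent.MUXY (ActN Dn)
open Pool.Agent.NST (KIn nt_GLC)
open Pool.Agent.NST.TYF (dn_mono idl_ne_bot)

noncomputable section

variable {A B : ℤ} {L : PeriodPair} {om : ℂ} {b : Ideal (OO A B)} {V : ValuationSubring ℂ}

/-- points killed by `n` are killed by the ideal `(n)` -/
lemma tor_of_mul (hC : CQ A B) (hL : IsLI b L om) {n : ℕ} {z : ℂ}
    (hz : (n : ℂ) * z ∈ L.lattice) : Tor (idl (A := A) (B := B) n) L z := by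
  intro x hx
  obtain ⟨y, rfl⟩ := Ideal.mem_span_singleton'.1 hx
  rw [MUX.emb_mul hC, MUX.emb_natCast hC, mul_assoc]
  exact hL.hasCM hC y _ hz

lemma wp_mem (hC : CQ A B) (hL : IsNE b L om) {n : ℕ} {z : ℂ} (hz : z ∉ L.lattice)
    (hz' : (n : ℂ) * z ∈ L.lattice) :
    L.weierstrassP z ∈ RFE (idl (A := A) (B := B) n) :=
  IntermediateField.subset_adjoin _ _
    ⟨b, L, om, hL, Or.inr ⟨z, tor_of_mul hC hL.toIsLI hz', hz, rfl⟩⟩

lemma alg_RFE (hC : CQ A B) (T : TorXE A B) {n : ℕ} (hn : n ≠ 0) {y : ℂ}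
    (hy : y ∈ RFE (idl (A := A) (B := B) n)) : IsAlgebraic ℚ y := by
  have hkk := Pool.Agent.MUXC.FGL.isAlgebraic_kk hC
  have hfd := T.fin _ (idl_ne_bot hC hn)
  have h1 : IsAlgebraic (kk A B) (⟨y, hy⟩ : RFE (idl (A := A) (B := B) n)) :=
    Algebra.IsAlgebraic.isAlgebraic _
  have h2 : IsAlgebraic (kk A B) y := h1.algebraMap (A := ℂ)
  exact h2.restrictScalars ℚ

/-- `u²`, `e`, `lam` are in `RFE (2)` -/
theorem ueE (hC : CQ A B) (hL : IsNE b L om) {u e lam : ℂ} (hG : GoodL V L u e lam) :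
    u ^ 2 ∈ RFE (idl (A := A) (B := B) 2) ∧ e ∈ RFE (idl (A := A) (B := B) 2) := by
  have hu0 := hG.u0
  have hu2' : u ^ 2 ≠ 0 := pow_ne_zero _ hu0
  obtain ⟨e1, -, -, -, -, ⟨w₁, hw1, hw1', he⟩, -⟩ :=
    Pool.Agent.NSR.tr_LGF L u e lam ⟨hG.u0, hG.eq⟩
  obtain ⟨w₂, hw2, hew⟩ := b_SUR L (e + u ^ 2)
  have hw2' : 2 * w₂ ∈ L.lattice := by
    apply (b_ZER L w₂ hw2).1
    have h1 := hG.eq w₂ hw2
    have h4 : (L.weierstrassP w₂ - e) / u ^ 2 = 1 := by
      rw [hew, add_sub_cancel_left, div_self hu2']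
    rw [h4, sub_self, mul_zero, zero_mul] at h1
    have h5 := (pow_eq_zero_iff two_ne_zero).1 h1
    rcases div_eq_zero_iff.1 h5 with h6 | h6
    · exact h6
    · exact absurd h6 (mul_ne_zero two_ne_zero (pow_ne_zero _ hu0))
  have hu : L.weierstrassP w₂ - L.weierstrassP w₁ = u ^ 2 := by
    rw [hew, he]
    ring
  have m1 := wp_mem (n := 2) hC hL hw1 (by push_cast; exact hw1')
  have m2 := wp_mem (n := 2) hC hL hw2 (by push_cast; exact hw2')
  refine ⟨?_, ?_⟩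
  · rw [← hu]; exact sub_mem m2 m1
  · rw [← he]; exact m1

/-- the coordinates of torsion points are algebraic -/
theorem coordE (hC : CQ A B) (T : TorXE A B) (hL : IsNE b L om) {u e : ℂ}
    (hua : IsAlgebraic ℚ (u ^ 2)) (hea : IsAlgebraic ℚ e) :
    ∀ N : ℕ, N ≠ 0 → ∀ z, z ∉ L.lattice → (N : ℂ) * z ∈ L.lattice →
      IsAlgebraic ℚ (xu L u e z) ∧ IsAlgebraic ℚ (yu L u z) ∧ IsAlgebraic ℚ (ru L u e z) := by
  intro N hN z hz hz'
  have hu1 : IsAlgebraic ℚ u := IsAlgebraic.of_pow two_pos hua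
  have hP : IsAlgebraic ℚ (L.weierstrassP z) := alg_RFE hC T hN (wp_mem hC hL hz hz')
  have h4 : IsAlgebraic ℚ (4 : ℂ) := by simpa using NST.ALT.alg_num 4
  have h0 : IsAlgebraic ℚ (0 : ℂ) := isAlgebraic_zero
  have hg2 : IsAlgebraic ℚ L.g₂ := by
    rw [hL.nrm.g2]
    unfold g2E
    split_ifs
    · exact h4
    · exact h0
  have hg3 : IsAlgebraic ℚ L.g₃ := by
    rw [hL.nrm.g3]
    unfold g3E
    split_ifs
    · exact h0
    · exact h4.neg
  have hD : IsAlgebraic ℚ (L.derivWeierstrassP z) := by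
    apply IsAlgebraic.of_pow two_pos
    rw [L.derivWeierstrassP_sq z hz]
    exact ((h4.mul (hP.pow 3)).sub (hg2.mul hP)).sub hg3
  have hx : IsAlgebraic ℚ (xu L u e z) := by
    unfold xu
    rw [div_eq_mul_inv]
    exact (hP.sub hea).mul hua.inv
  have hy : IsAlgebraic ℚ (yu L u z) := by
    unfold yu
    rw [div_eq_mul_inv]
    have h2 : IsAlgebraic ℚ (2 : ℂ) := by simpa using NST.ALT.alg_num 2
    exact hD.mul (h2.mul (hu1.pow 3)).inv
  refine ⟨hx, hy, ?_⟩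
  unfold ru
  rw [div_eq_mul_inv]
  exact hy.neg.mul (hx.pow 2).inv

/-! ### The action of an automorphism -/

/-- conjugation of the coordinates -/
theorem tcj {m : ℕ} {a : Ideal (OO A B)} {σ : ℂ ≃+* ℂ} {c : OO A B} {d : ℤ}
    (hd : d = 1 ∨ d = -1) (hA : ActN σ m a L L (d * emb c)) {u e : ℂ}
    (hu : σ u = d * u) (he : σ e = e) {z : ℂ} (hmz : (m : ℂ) * z ∈ L.lattice)
    (hz : z ∉ L.lattice) :
    emb c * z ∉ L.lattice ∧ σ (xu L u e z) = xu L u e (emb c * z) ∧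
      σ (yu L u z) = yu L u (emb c * z) ∧ σ (ru L u e z) = ru L u e (emb c * z) := by
  obtain ⟨h1, h2, h3⟩ := hA.act z hmz hz
  have key : emb c * z ∉ L.lattice ∧ L.weierstrassP (emb c * z) = σ (L.weierstrassP z) ∧
      L.derivWeierstrassP (emb c * z) = d * σ (L.derivWeierstrassP z) := by
    rcases hd with hd | hd
    · rw [hd] at h1 h2 h3 ⊢
      rw [Int.cast_one, one_mul] at h1 h2 h3
      refine ⟨h1, h2, ?_⟩
      rw [h3, Int.cast_one, one_mul]
    · rw [hd] at h1 h2 h3 ⊢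
      have e1 : (((-1 : ℤ) : ℂ) * emb c) * z = -(emb c * z) := by push_cast; ring
      rw [e1] at h1 h2 h3
      rw [L.weierstrassP_neg] at h2
      rw [L.derivWeierstrassP_neg] at h3
      refine ⟨fun h => h1 (neg_mem h), h2, ?_⟩
      rw [← h3]
      push_cast
      ring
  obtain ⟨k1, k2, k3⟩ := key
  have hdd : ((d : ℤ) : ℂ) ^ 2 = 1 := by
    rcases hd with hd | hd <;> rw [hd] <;> norm_num
  have hd0 : ((d : ℤ) : ℂ) ≠ 0 := by
    intro h
    rw [h] at hdd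
    norm_num at hdd
  have hx : σ (xu L u e z) = xu L u e (emb c * z) := by
    unfold xu
    rw [k2, map_div₀, map_sub, map_pow, hu, he, mul_pow, hdd, one_mul]
  have hy : σ (yu L u z) = yu L u (emb c * z) := by
    unfold yu
    rw [k3, map_div₀, map_mul, map_pow, hu, map_ofNat]
    have e2 : 2 * ((d : ℂ) * u) ^ 3 = (d : ℂ) ^ 2 * (d * (2 * u ^ 3)) := by ring
    have e3 : (d : ℂ) * σ (L.derivWeierstrassP z) / (2 * u ^ 3) =
        (d : ℂ) ^ 2 * σ (L.derivWeierstrassP z) / (d * (2 * u ^ 3)) := by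
      field_simp
    rw [e2, e3, hdd, one_mul, one_mul]
  refine ⟨k1, hx, hy, ?_⟩
  unfold ru
  rw [map_div₀, map_neg, map_pow, hx, hy]

/-- the sign `d` -/
theorem sgu (hC : CQ A B) (hv2 : V.valuation (2 : ℂ) = 1)
    (hL : IsLI (⊤ : Ideal (OO A B)) L om) {u e lam : ℂ} (hGd : GoodL V L u e lam) {m m' : ℕ}
    (hm3' : 3 ≤ m') (hvm : V.valuation (m' : ℂ) = 1) (hmm : m' ∣ m) {a : Ideal (OO A B)} {σ : ℂ ≃+* ℂ}
    {c : OO A B} {d : ℤ} (hcm : c - 1 ∈ idl (A := A) (B := B) m') (hd : d = 1 ∨ d = -1)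
    (hAct : ActN σ m a L L (d * emb c)) (hσu : σ (u ^ 2) = u ^ 2)
    (hlast : V.valuation (yu L u (om / m')) ≤ 1 →
      V.valuation (σ (yu L u (om / m')) - yu L u (om / m')) < 1) : σ u = d * u := by
  have hmem : ∀ z : ℂ, z ∈ L.lattice ↔ ∃ x : OO A B, z = om * emb x := by
    intro z
    rw [hL.mem]
    exact ⟨fun ⟨x, _, hx⟩ => ⟨x, hx⟩, fun ⟨x, hx⟩ => ⟨x, trivial, hx⟩⟩
  have hm0 : m' ≠ 0 := by omega
  have hom0 : om ≠ 0 := hL.om_ne
  have hmC : (m' : ℂ) ≠ 0 := Nat.cast_ne_zero.2 hm0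
  obtain ⟨ξ, G⟩ := Pool.Agent.OBT.SGU.grl V L u e lam hv2 hGd
  have hT2 : ∀ z : ℂ, (m' : ℂ) * z ∈ L.lattice → InK V L (xu L u e) z → z ∈ L.lattice :=
    fun z hz hK => Pool.Agent.MUXV.mem_of_nat_mul G hK hvm hz
  set z : ℂ := om / m' with hz
  have hmz : (m' : ℂ) * z = om := by rw [hz]; field_simp
  have homL : om ∈ L.lattice := (hmem om).2 ⟨1, by rw [Pool.Agent.MUX.emb_one hC, mul_one]⟩
  have hzz : z + z ∉ L.lattice := by
    intro h
    obtain ⟨x, hx⟩ := (hmem _).1 h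
    have h1 : (m' : ℂ) * emb x = 2 := by
      have h2 : om * ((m' : ℂ) * emb x) = om * 2 := by
        linear_combination (-(m' : ℂ)) * hx + 2 * hmz
      exact mul_left_cancel₀ hom0 h2
    have h2 : ((m' : ℕ) : OO A B) * x = ((2 : ℕ) : OO A B) := by
      apply Pool.Agent.MUX.emb_inj hC
      rw [Pool.Agent.MUX.emb_mul hC, Pool.Agent.MUX.emb_natCast hC,
        Pool.Agent.MUX.emb_natCast hC, h1]
      norm_num
    have h4 := congrArg nm h2
    rw [Pool.Agent.MUX.nm_mul hC] at h4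
    have h5 := Pool.Agent.MUX.nm_intCast (A := A) (B := B) (m' : ℤ)
    have h6 := Pool.Agent.MUX.nm_intCast (A := A) (B := B) (2 : ℤ)
    rw [Int.cast_natCast] at h5
    have h7 : ((2 : ℤ) : OO A B) = ((2 : ℕ) : OO A B) := by push_cast; rfl
    rw [h7] at h6
    rw [h5, h6] at h4
    have h8 : ((m' : ℤ) ^ 2) ∣ 2 ^ 2 := ⟨_, h4.symm⟩
    have h9 := Int.le_of_dvd (by norm_num) h8
    have h10 : (3 : ℤ) ≤ m' := by exact_mod_cast hm3'
    nlinarith
  have hzL : z ∉ L.lattice := fun h => hzz (add_mem h h)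
  have hzK : ¬ InK V L (xu L u e) z := fun h => hzL (hT2 z (by rw [hmz]; exact homL) h)
  have hzzK : ¬ InK V L (xu L u e) (z + z) := fun h => hzz (hT2 (z + z) (by
    rw [mul_add, hmz]
    exact add_mem homL homL) h)
  -- `v (yu z) = 1`
  have hy1 : V.valuation (yu L u z) = 1 := by
    obtain ⟨hns, hxi⟩ := G.some z hzL
    have e1 := (Pool.Agent.MUXV.inE_iff G z).not.2 hzK
    have e2 := (Pool.Agent.MUXV.inE_iff G (z + z)).not.2 hzzK
    rw [map_add, hxi] at e2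
    rw [hxi] at e1
    exact Pool.Agent.MU3.Val.v_y_unit G.int G.two G.disc hns e1 e2
  -- the action
  have hmzL : (m : ℂ) * z ∈ L.lattice := by
    obtain ⟨k, rfl⟩ := hmm
    have h1 : ((m' * k : ℕ) : ℂ) * z = (k : ℕ) * om := by
      rw [← hmz]; push_cast; ring
    rw [h1, ← nsmul_eq_mul]
    exact nsmul_mem homL _
  obtain ⟨-, -, hP'⟩ := hAct.act z hmzL hzL
  have hcz : emb c * z - z ∈ L.lattice := by
    obtain ⟨y, hy⟩ := Ideal.mem_span_singleton'.1 hcm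
    refine (hmem _).2 ⟨y, ?_⟩
    have h1 : emb c - 1 = emb y * m' := by
      have h2 := congrArg emb hy
      rw [Pool.Agent.MUX.emb_mul hC, Pool.Agent.MUX.emb_natCast hC, Pool.Agent.MUX.emb_sub hC,
        Pool.Agent.MUX.emb_one hC] at h2
      exact h2.symm
    have h2 : emb c * z - z = (emb c - 1) * z := by ring
    rw [h2, h1, mul_assoc, hmz, mul_comm]
  have hder : σ (L.derivWeierstrassP z) = d * L.derivWeierstrassP z := by
    rw [← hP']
    rcases hd with hd | hd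
    · rw [hd]
      push_cast
      rw [one_mul, one_mul]
      exact Pool.Agent.OBT.SGU.der_congr L hcz
    · rw [hd]
      push_cast
      have h1 : -1 * emb c * z = -(emb c * z) := by ring
      rw [h1, L.derivWeierstrassP_neg, Pool.Agent.OBT.SGU.der_congr L hcz]
      ring
  have hu0 := hGd.u0
  have hd2 : (d : ℂ) * d = 1 := by
    rcases hd with hd | hd <;> rw [hd] <;> norm_num
  have hs : σ u = d * u ∨ σ u = -(d * u) := by
    have h1 : (σ u) ^ 2 = (d * u) ^ 2 := by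
      rw [← map_pow, hσu]
      linear_combination (-(u ^ 2)) * hd2
    exact sq_eq_sq_iff_eq_or_eq_neg.1 h1
  rcases hs with hs | hs
  · exact hs
  · exfalso
    have hσy : σ (yu L u z) = -yu L u z := by
      unfold yu
      rw [map_div₀, map_mul, map_pow, hs, hder, map_ofNat]
      have hd0 : (d : ℂ) ≠ 0 := fun h0 => by
        rw [h0, zero_mul] at hd2
        exact zero_ne_one hd2
      rw [div_eq_iff (by
        refine mul_ne_zero two_ne_zero (pow_ne_zero _ ?_)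
        exact neg_ne_zero.2 (mul_ne_zero hd0 hu0))]
      have h5 : (d : ℂ) ^ 3 = d := by linear_combination (d : ℂ) * hd2
      have h6 : (2 : ℂ) * (-(d * u)) ^ 3 = -(d * (2 * u ^ 3)) := by
        linear_combination (-2 * u ^ 3) * h5
      rw [h6]
      field_simp
    have h1 := hlast hy1.le
    rw [hσy] at h1
    have h2 : -yu L u z - yu L u z = -(2 * yu L u z) := by ring
    rw [h2, Valuation.map_neg, map_mul, hy1, G.two, one_mul] at h1
    exact lt_irrefl _ h1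

/-- the action of an automorphism which is trivial on `RFE g`, `g` an even ideal -/
theorem actG (h : CaseE A B) (T : TorXE A B) {m : ℕ} (hm : m ≠ 0) {g : Ideal (OO A B)}
    (hmg : idl (A := A) (B := B) m ≤ g) (hg2 : g ≤ idl (A := A) (B := B) 2) {σ : ℂ ≃+* ℂ}
    (hσ : FixK A B σ) (hfix : ∀ y ∈ RFE g, σ y = y) :
    ∃ (c0 c : OO A B) (d : ℤ), (d = 1 ∨ d = -1) ∧ c0 = (d : OO A B) * c ∧ c - 1 ∈ g ∧
      IsCoprime (sp c0) (idl (A := A) (B := B) m) ∧
      (∀ (b : Ideal (OO A B)) (L : PeriodPair) (om : ℂ), IsNE b L om →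
        ActN σ m (sp c0) L L (emb c0)) ∧
      ∀ z : ℂ, z ^ m = 1 → σ z = z ^ nI (sp c0) := by
  have hC := h.toCQ
  have hI : idl (A := A) (B := B) m ≠ ⊥ := by
    rw [Ne, Ideal.span_singleton_eq_bot]
    exact natCast_ne_zero' hC hm
  have htop : (⊤ : Ideal (OO A B)) ≠ ⊥ := by
    intro h0
    have h3 : (1 : OO A B) ∈ (⊥ : Ideal (OO A B)) := h0 ▸ trivial
    rw [Ideal.mem_bot] at h3
    have h4 : (1 : ℤ) = 0 := congrArg QuadraticAlgebra.re h3
    exact one_ne_zero h4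
  obtain ⟨L₀, om₀, hL₀⟩ := MEC.exists_isNE h (⊤ : Ideal (OO A B)) htop
  obtain ⟨a, hcop, ha⟩ := T.act (idl m) hI σ hσ
  obtain ⟨b', L', om', mu, hL', hA⟩ := ha _ _ _ hL₀
  obtain ⟨c, hmu, hac, hc1⟩ := T.two (idl m) a σ _ L₀ L' om₀ mu hI (hmg.trans hg2) hσ hL₀ hA
    hL'.nrm
  obtain ⟨hlat, -, hpt⟩ := MEC.c_SGQ A B L₀ L' hL₀.nrm hL'.nrm
  subst hac
  subst hmu
  have hN : ActN σ m (sp c) L₀ L₀ (emb c) := by
    refine ⟨cj_self hL₀.nrm σ, hcop, hA.isq.1, fun z => ?_, fun z hz hz0 => ?_⟩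
    · rw [hlat]
      exact hA.isq.2 z
    · have hT : Tor (idl (A := A) (B := B) m) L₀ z := by
        intro x hx
        obtain ⟨y, rfl⟩ := Ideal.mem_span_singleton'.1 hx
        rw [MUX.emb_mul hC, MUX.emb_natCast hC, mul_assoc]
        exact hL₀.toIsLI.hasCM hC y _ hz
      rcases hA.act z hT with h3 | h3
      · exact absurd h3.1 hz0
      · refine ⟨fun h4 => h3.2.1 ((hlat _).1 h4), ?_, ?_⟩
        · have h5 := h3.2.2.1
          rw [← (hpt _).1] at h5
          exact h5.symm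
        · have h5 := h3.2.2.2
          rw [← (hpt _).2] at h5
          unfold yy at h5
          rw [map_div₀, map_ofNat] at h5
          linear_combination -2 * h5
  -- the ideal `g`
  have hgb : g ≠ ⊥ := by
    rintro rfl
    exact hI (le_bot_iff.1 hmg)
  have hA' : Pool.Agent.ME.ActE σ g (sp c) L₀ L' (emb c) := by
    refine ⟨hA.kapE, ?_, hA.isq, fun z hz => hA.act z fun x hx => hz x (hmg hx)⟩
    rw [Ideal.isCoprime_iff_sup_eq] at hcop ⊢
    rw [eq_top_iff, ← hcop]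
    exact sup_le_sup_left hmg _
  obtain ⟨c1, hc1g, hcc⟩ := (T.triv g (sp c) σ _ _ _ _ (emb c) hgb (Or.inl hg2) hσ hL₀ hA'
    hL'.nrm).1 hfix
  have hded := (Pool.Agent.MUXE.te_RNG A B hC).ded
  have : IsDomain (OO A B) := hded.toIsDomain
  obtain ⟨v, hv⟩ := Ideal.span_singleton_eq_span_singleton.1 hcc
  have hv2 : (v : OO A B) - 1 ∈ idl (A := A) (B := B) 2 := by
    have h3 : (v : OO A B) - 1 = (c1 - 1) - (c - 1) * (v : OO A B) := by
      rw [← hv]
      ring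
    rw [h3]
    exact sub_mem (hg2 hc1g) (Ideal.mul_mem_right _ _ hc1)
  refine ⟨c, c1, if (v : OO A B) = 1 then 1 else -1, ?_, ?_, hc1g, hcop,
    fun b L om hL => actN_congr hL₀.nrm hL.nrm hN, fun z hz => ?_⟩
  · split_ifs
    · exact Or.inl rfl
    · exact Or.inr rfl
  · split_ifs with h5
    · rw [← hv, h5]
      simp
    · rcases unit_two h v.isUnit hv2 with h6 | h6
      · exact absurd h6 h5
      · rw [← hv, h6]
        simp
  exact (T.zeta m (idl m) (sp c) σ _ _ _ _ (emb c) hI hσ hm le_rfl hL₀ hA z hz).2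

end

end Pool.Agent.OETB
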