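import Pool.Agent.OE.T_Lib
import Pool.Agent.OE.EAll
import Pool.Agent.OB.T_TRC

/-!
# OE, block T (helper96): the points of `L[P]` and the number `tau` (after `OB/T_TRC.lean`, `OB/T_TAU.lean`)
-/

set_option autoImplicit false

open Polynomial

namespace Pool.Agent.OETB

open _root_.MU3 Pool.Agent.MU3A Pool.Agent.MU3B Pool.Agent.RI Pool.Agent.MUX Pool.Agent.MUXU
open Pool.Agent.NS Pool.Agent.OB Pool.Agent.OE
open Pool.Agent.ME hiding ActE
open Pool.Agent.MEE
open Pool.Agent.MUXV (GR InK)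
open Pool.Agent.NSE (su ru IntP)
open Pool.Agent.MUXY (ActN Dn)
open Pool.Agent.OBT (EP)
open Pool.Agent.OBT.TRC (eval_near)
open Pool.Agent.OBE (SP)

noncomputable section

variable {A B : ℤ} {L : PeriodPair} {om : ℂ} {b : Ideal (OO A B)} {V : ValuationSubring ℂ}

theorem trcY {p er : ℕ} {P : Ideal (OO A B)} {al : OO A B} (hx : OEE.CtxX p er A B P V al)
    (hL : IsNE b L om) {u e lam : ℂ} (hg : GoodL V L u e lam) :
    (∀ Y ∈ EP P L, V.valuation (ru L u e Y) ^ (er * (nI P - 1)) = V.valuation (p : ℂ)) ∧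
    ∀ x : OO A B, x ∉ P → ∀ Y ∈ EP P L,
      emb x * Y ∈ EP P L ∧
      V.valuation (ru L u e (emb x * Y) - emb x * ru L u e Y) < V.valuation (ru L u e Y) := by
  have hNL : NLE A B L := ⟨b, om, hL⟩
  obtain ⟨t1, t2, t3, -, -, -, -, -, -⟩ := tm_TRA A B hx.ring L hNL
  obtain ⟨N, nu, hN, hq⟩ := hx.exq L hNL
  obtain ⟨u', e', lam', hg'⟩ := hx.good N hN
  obtain ⟨-, -, hpis⟩ := OEE.ee_PIS p er A B P V al hx L N nu u e lam u' e' lam' hNL hN hq hg hg'
  obtain ⟨hpt, hpts, hper⟩ := OEE.ee_PTS p er A B P V al hx L u e lam hNL hg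
  have hsub : ∀ Y ∈ EP P L, Y ∈ SP P er L := by
    intro Y hY
    refine ⟨fun x hxP => hY.1 x ?_, hY.2⟩
    exact Ideal.pow_le_self (by have := hx.er1; omega) hxP
  have hq2 : 2 ≤ nI P - 1 := by have := hx.n3; omega
  have hsr : ∀ Y ∈ EP P L, V.valuation (ru L u e Y) ^ 2 = V.valuation (su L u e Y) := by
    intro Y hY
    obtain ⟨hs0, hs1⟩ := hpt.vs Y (hsub Y hY)
    have h5 := hpt.eq Y (hsub Y hY)
    rw [← map_pow, h5, map_mul]
    have h6 : V.valuation (1 + -(1 + lam) * su L u e Y + lam * su L u e Y ^ 2) = 1 := by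
      have h7 : 1 + -(1 + lam) * su L u e Y + lam * su L u e Y ^ 2 =
          1 + su L u e Y * (-(1 + lam) + lam * su L u e Y) := by ring
      rw [h7]
      apply Valuation.map_one_add_of_lt
      rw [map_mul]
      have h8 : V.valuation (-(1 + lam) + lam * su L u e Y) ≤ 1 := by
        refine Valuation.map_add_le _ hpt.i2 ?_
        rw [map_mul]
        exact mul_le_one' hpt.i4 hs1.le
      calc V.valuation (su L u e Y) * V.valuation (-(1 + lam) + lam * su L u e Y)
          ≤ V.valuation (su L u e Y) * 1 := by gcongr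
        _ = V.valuation (su L u e Y) := mul_one _
        _ < 1 := hs1
    rw [h6, mul_one]
  have hval : ∀ Y ∈ EP P L, V.valuation (ru L u e Y) ^ (er * (nI P - 1)) =
      V.valuation (p : ℂ) := by
    intro Y hY
    obtain ⟨-, -, h5⟩ := hpis Y hY.1 hY.2
    rw [← hsr Y hY, ← pow_mul, mul_comm 2, pow_mul] at h5
    have h6 : V.valuation (ru L u e Y) ^ (nI P - 1) = V.valuation (emb al) :=
        (pow_left_inj₀ zero_le zero_le two_ne_zero).1 h5
    rw [mul_comm, pow_mul, h6, hx.alv]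
  refine ⟨hval, fun x hxP Y hY => ?_⟩
  obtain ⟨p1, p2, -⟩ := OEE.ee_PVL p er A B P V al hx L u e lam hNL hg
  obtain ⟨hk, hk'⟩ := p1 x hxP
  obtain ⟨hInK, hx0⟩ := hpts Y (hsub Y hY)
  have hEP : emb x * Y ∈ EP P L := ⟨t3 P x Y hY.1, (hk' Y hInK hY.2).1⟩
  refine ⟨hEP, ?_⟩
  have hv := hval Y hY
  have hvp : V.valuation (p : ℂ) < 1 := hx.vp
  have hvp0 : V.valuation (p : ℂ) ≠ 0 := by
    rw [Ne, map_eq_zero]
    exact_mod_cast hx.pp.ne_zero
  set ρ := V.valuation (ru L u e Y) with hρ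
  have hn2 : 2 ≤ er * (nI P - 1) := by
    calc 2 ≤ 1 * (nI P - 1) := by omega
      _ ≤ er * (nI P - 1) := Nat.mul_le_mul_right _ hx.er1
  have hρ0 : ρ ≠ 0 := by
    intro h0
    rw [h0, zero_pow (by omega)] at hv
    exact hvp0 hv.symm
  have hρpos : 0 < ρ := zero_lt_iff.2 hρ0
  have hρ1 : ρ < 1 := by
    by_contra hc
    rw [not_lt] at hc
    exact absurd (one_le_pow₀ hc (n := er * (nI P - 1))) (by rw [hv]; exact not_le.2 hvp)
  have hpρ : V.valuation (p : ℂ) < ρ := by
    rw [← hv]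
    exact pow_lt_self_of_lt_one₀ hρpos hρ1 (by omega)
  have hsρ : V.valuation (su L u e Y) < ρ := by
    rw [← hsr Y hY]
    exact pow_lt_self_of_lt_one₀ hρpos hρ1 (by omega)
  -- the representation of the difference
  have hemb0 : emb x ≠ 0 := by
    intro h0
    have h5 := hx.unit x hxP
    rw [h0, map_zero] at h5
    exact zero_ne_one h5
  obtain ⟨-, -, hiso⟩ := OEE.ee_ISO p er A B P V al hx L L u e lam u e lam (emb x) hNL hNL hg hg hemb0
    (fun w hw => t1 x w hw) hk
  obtain ⟨a1, -, a3, a4, a5, a6, -, -, -⟩ := Pool.Agent.OBE.e_ALG p V _ _ _ _ _ hpt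
  have hc := a1 (-emb x) (by rw [Valuation.map_neg]; exact hx.int x)
  have hd := a6 _ _ _ _ _ _ hc a3
  have hf := a5 _ _ _ _ _ _ hiso hd
  obtain ⟨Pl, Q, hPl, hQ, hFY, hP0, hQ0⟩ := hf
  have hF := hFY Y (hsub Y hY)
  have hmu : emb x * u / u = emb x := by
    field_simp [hg.u0]
  have e1 : ru L u e (emb x * Y) - emb x * ru L u e Y =
      Pl.eval (su L u e Y) + ru L u e Y * Q.eval (su L u e Y) := by
    rw [← hF]
    ring
  have hs1 := (hpt.vs Y (hsub Y hY)).2
  have n1 := eval_near hPl hs1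
  have n2 := eval_near hQ hs1
  have hP0' : V.valuation (Pl.coeff 0) ≤ V.valuation (p : ℂ) := by
    have : Pl.coeff 0 = Pl.coeff 0 - (0 + -emb x * 0) := by ring
    rw [this]
    exact hP0
  have hQ0' : V.valuation (Q.coeff 0) ≤ V.valuation (p : ℂ) := by
    have : Q.coeff 0 = Q.coeff 0 - (emb x * u / u + (-emb x * 1 + 0 * 0)) := by
      rw [hmu]
      ring
    rw [this]
    exact hQ0
  rw [e1]
  apply Valuation.map_add_lt
  · have : Pl.eval (su L u e Y) = (Pl.eval (su L u e Y) - Pl.coeff 0) + Pl.coeff 0 := by ring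
    rw [this]
    exact Valuation.map_add_lt _ (lt_of_le_of_lt n1 hsρ) (lt_of_le_of_lt hP0' hpρ)
  · have h9 : V.valuation (Q.eval (su L u e Y)) < 1 := by
      have : Q.eval (su L u e Y) = (Q.eval (su L u e Y) - Q.coeff 0) + Q.coeff 0 := by ring
      rw [this]
      exact Valuation.map_add_lt _ (lt_of_le_of_lt n2 hs1) (lt_of_le_of_lt hQ0' hvp)
    rw [map_mul]
    calc V.valuation (ru L u e Y) * V.valuation (Q.eval (su L u e Y)) < ρ * 1 :=
          mul_lt_mul_of_pos_left h9 hρpos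
      _ = ρ := mul_one _

/-- (TRC) -/
theorem trcX (hR : O_RFINE) {p : ℕ} {P : Ideal (OO A B)} (hS : CaseOE p A B P V)
    (hT : TorXE A B) (hL : IsNE b L om) {u e lam : ℂ} (hg : GoodL V L u e lam) :
    (∀ Y ∈ EP P L, V.valuation (ru L u e Y) ^ (1 * (nI P - 1)) = V.valuation (p : ℂ)) ∧
    ∀ x : OO A B, x ∉ P → ∀ Y ∈ EP P L,
      emb x * Y ∈ EP P L ∧
      V.valuation (ru L u e (emb x * Y) - emb x * ru L u e Y) < V.valuation (ru L u e Y) := by
  obtain ⟨al, hx⟩ := OEE.ee_CTX p 1 A B P V (OEE.toX hS) hT (OEE.toRFX hR hS hT)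
  exact trcY hx hL hg

namespace TAU

variable {A B : ℤ}

/-- the term of the sum -/
def T (w : OO A B → ℂ) (L : PeriodPair) (u e Y : ℂ) (x : OO A B) : ℂ :=
  (w x)⁻¹ * ru L u e (emb x * Y)

lemma ru_per (L : PeriodPair) (u e z v : ℂ) (hv : v ∈ L.lattice) :
    ru L u e (z + v) = ru L u e z := by
  have h1 := L.weierstrassP_add_coe z ⟨v, hv⟩
  have h2 := L.derivWeierstrassP_add_coe z ⟨v, hv⟩
  simp only at h1 h2
  unfold ru xu yu
  rw [h1, h2]

end TAU


theorem tauE (hR : O_RFINE) {p : ℕ} {P : Ideal (OO A B)} (hcase : CaseOE p A B P V)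
    (hTor : TorXE A B) (hNL : IsNE (⊤ : Ideal (OO A B)) L om) {u e lam : ℂ}
    (hg : GoodL V L u e lam) {w : OO A B → ℂ} (hw : IsTeiP p 1 P V w) :
    ∃ tau : ℂ, V.valuation tau ^ (1 * (nI P - 1)) = V.valuation (p : ℂ) ∧ IsAlgebraic ℚ tau ∧
      ∀ (m : ℕ), p ∣ m → ∀ (a : Ideal (OO A B)) (σ : ℂ ≃+* ℂ) (c : OO A B) (d : ℤ),
        (d = 1 ∨ d = -1) → ActN σ m a L L (d * emb c) →
        c ∉ P → σ u = d * u → σ e = e → (∀ x, σ (w x) = w x) → σ tau = w c * tau := by
  classical
  have hcq := hcase.toCQ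
  obtain ⟨hvp, -, hmax, -, -, hnat, -, hnq, hq4, ⟨y, hy1, hy2⟩, -, -⟩ :=
    OEE.ee_BAS p 1 A B P V (OEE.toX hcase)
  have hli : IsLI (⊤ : Ideal (OO A B)) L om := hNL.toIsLI
  have hmem : ∀ z : ℂ, z ∈ L.lattice ↔ ∃ x : OO A B, z = om * emb x := by
    intro z
    rw [hli.mem z]
    simp
  have hom0 : om ≠ 0 := hli.om_ne
  have hp0 : p ≠ 0 := hcase.pp.ne_zero
  have hpC : (p : ℂ) ≠ 0 := Nat.cast_ne_zero.2 hp0
  have hpO : ((p : ℕ) : OO A B) ≠ 0 := natCast_ne_zero' hcq hp0
  have hq0' : nI P - 1 ≠ 0 := by omega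
  have hqe0 : 1 * (nI P - 1) ≠ 0 := by omega
  -- facts on the points of order `P`
  obtain ⟨hr8, hrx⟩ := trcX hR hcase hTor hNL hg
  have hep : emb ((p : ℕ) : OO A B) = (p : ℂ) := emb_natCast hcq p
  have hmulY : ∀ x z : OO A B, x * y = (p : OO A B) * z → emb x * (om * emb y / p) = om * emb z := by
    intro x z hxz
    have h5 : emb x * emb y = p * emb z := by
      rw [← emb_mul hcq, hxz, emb_mul hcq, hep]
    rw [mul_div_assoc', div_eq_iff hpC]
    linear_combination om * h5
  have hY0 : om * emb y / p ∈ EP P L := by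
    refine ⟨?_, ?_⟩
    · intro x hx
      obtain ⟨z, hz⟩ := hy1 x hx
      rw [hmem]
      exact ⟨z, hmulY x z hz⟩
    · intro hc
      obtain ⟨x, hx⟩ := (hmem _).1 hc
      apply hy2 x
      apply emb_inj hcq
      rw [emb_mul hcq, hep]
      rw [div_eq_iff hpC] at hx
      apply mul_left_cancel₀ hom0
      linear_combination hx
  set Y := om * emb y / p with hY
  set ρ := ru L u e Y with hρ
  have hvp0 : V.valuation (p : ℂ) ≠ 0 := by
    rw [Ne, map_eq_zero]
    exact hpC
  have hρ8 : V.valuation ρ ^ (1 * (nI P - 1)) = V.valuation (p : ℂ) := hr8 Y hY0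
  have hρ0 : V.valuation ρ ≠ 0 := by
    intro h0
    rw [h0, zero_pow hqe0] at hρ8
    exact hvp0 hρ8.symm
  have hρpos : 0 < V.valuation ρ := zero_lt_iff.2 hρ0
  have hw0 : ∀ x, x ∉ P → w x ≠ 0 := by
    intro x hx h0
    have h5 := hw.pow x hx
    rw [h0, zero_pow hq0'] at h5
    exact zero_ne_one h5
  have hwv : ∀ x, x ∉ P → V.valuation (w x) = 1 := by
    intro x hx
    have h5 := congrArg V.valuation (hw.pow x hx)
    rw [map_pow, map_one] at h5
    exact (pow_eq_one_iff.1 h5).resolve_right hq0'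
  have hwc : ∀ x, V.valuation (w x - emb x) < 1 := by
    intro x
    by_contra hc
    rw [not_lt] at hc
    exact absurd ((one_le_pow₀ hc).trans (hw.cong x)) (not_le.2 hvp)
  -- the terms are periodic
  have hTper : ∀ x x' : OO A B, x - x' ∈ P → TAU.T w L u e Y x = TAU.T w L u e Y x' := by
    intro x x' hxy
    have hwxy := hw.per x x' hxy
    unfold TAU.T
    rw [hwxy]
    congr 1
    have h5 : emb x * Y = emb x' * Y + emb (x - x') * Y := by
      rw [emb_sub hcq]
      ring
    rw [h5]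
    exact TAU.ru_per L u e _ _ (hY0.1 _ hxy)
  -- the quotient
  have hne : P ≠ ⊥ := by
    intro h0
    have h5 := hcase.mem
    rw [h0, Ideal.mem_bot] at h5
    exact hpO h5
  have hfin : Finite (OO A B ⧸ P) := MUX.finite_quot hcq hne
  have hfq : Fintype (OO A B ⧸ P) := Fintype.ofFinite _
  have hcard : Fintype.card (OO A B ⧸ P) = nI P := by
    rw [← Nat.card_eq_fintype_card]
    rfl
  have hout : ∀ q : OO A B ⧸ P, Ideal.Quotient.mk P (Quotient.out q) = q := fun q =>
    Ideal.Quotient.mk_out q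
  have hq0 : ∀ q : OO A B ⧸ P, q ≠ 0 → (Quotient.out q : OO A B) ∉ P := by
    intro q hq h0
    apply hq
    rw [← hout q]
    exact Ideal.Quotient.eq_zero_iff_mem.2 h0
  have hT0 : TAU.T w L u e Y (Quotient.out (0 : OO A B ⧸ P)) = 0 := by
    have h0 : (Quotient.out (0 : OO A B ⧸ P) : OO A B) ∈ P := by
      rw [← Ideal.Quotient.eq_zero_iff_mem, hout]
    unfold TAU.T
    rw [hw.zero _ h0]
    simp
  refine ⟨∑ q : OO A B ⧸ P, TAU.T w L u e Y (Quotient.out q), ?_, ?_, ?_⟩
  · -- the valuation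
    have h8 : V.valuation ((nI P - 1 : ℕ) : ℂ) = 1 := hnat (nI P - 1) hnq
    have hsum : ∑ q : OO A B ⧸ P, TAU.T w L u e Y (Quotient.out q) =
        ((nI P - 1 : ℕ) : ℂ) * ρ + ∑ q ∈ Finset.univ.erase (0 : OO A B ⧸ P),
          (TAU.T w L u e Y (Quotient.out q) - ρ) := by
      rw [Finset.sum_sub_distrib, Finset.sum_const, Finset.card_erase_of_mem (Finset.mem_univ _),
        Finset.card_univ, hcard, ← Finset.add_sum_erase _ _ (Finset.mem_univ 0), hT0, nsmul_eq_mul]
      ring
    have hlt : V.valuation (∑ q ∈ Finset.univ.erase (0 : OO A B ⧸ P),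
        (TAU.T w L u e Y (Quotient.out q) - ρ)) < V.valuation ρ := by
      apply Valuation.map_sum_lt _ hρ0
      intro q hq
      have hq' : (Quotient.out q : OO A B) ∉ P := hq0 q (Finset.ne_of_mem_erase hq)
      generalize (Quotient.out q : OO A B) = x at hq'
      have h5 : TAU.T w L u e Y x - ρ = (w x)⁻¹ * (ru L u e (emb x * Y) - emb x * ρ) +
          (w x)⁻¹ * (-(w x - emb x)) * ρ := by
        unfold TAU.T
        have := hw0 x hq'
        field_simp
        ring
      rw [h5]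
      apply Valuation.map_add_lt
      · rw [map_mul, map_inv₀, hwv x hq', inv_one, one_mul]
        exact (hrx x hq' Y hY0).2
      · rw [map_mul, map_mul, map_inv₀, hwv x hq', inv_one, one_mul, Valuation.map_neg]
        calc V.valuation (w x - emb x) * V.valuation ρ
            < 1 * V.valuation ρ := mul_lt_mul_of_pos_right (hwc x) hρpos
          _ = V.valuation ρ := one_mul _
    have h9 : V.valuation (((nI P - 1 : ℕ) : ℂ) * ρ) = V.valuation ρ := by
      rw [map_mul, h8, one_mul]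
    rw [hsum, Valuation.map_add_eq_of_lt_left _ (by rw [h9]; exact hlt), h9, hρ8]
  · -- algebraic
    obtain ⟨hua, hea⟩ := ueE hcq hNL hg
    have halg := coordE hcq hTor hNL (u := u) (e := e) (alg_RFE hcq hTor two_ne_zero hua)
      (alg_RFE hcq hTor two_ne_zero hea)
    rw [isAlgebraic_iff_isIntegral]
    apply IsIntegral.sum
    intro q _
    rw [← isAlgebraic_iff_isIntegral]
    by_cases hq : q = 0
    · rw [hq, hT0]
      exact isAlgebraic_zero
    · have hx := hq0 q hq
      generalize (Quotient.out q : OO A B) = x at hx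
      unfold TAU.T
      have hE := (hrx x hx Y hY0).1
      apply IsAlgebraic.mul
      · apply IsAlgebraic.inv
        rw [isAlgebraic_iff_isIntegral]
        apply IsIntegral.of_pow (n := nI P - 1) (Nat.pos_of_ne_zero hq0')
        rw [hw.pow x hx]
        exact isIntegral_one
      · refine (halg p hp0 _ hE.2 ?_).2.2
        rw [← hep]
        exact hE.1 _ hcase.mem
  · -- conjugation
    intro m hm a σ c d hd hact hc hσu hσe hσw
    obtain ⟨k, rfl⟩ := hm
    have hc0 := hw0 c hc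
    have hterm : ∀ x : OO A B, σ (TAU.T w L u e Y x) = w c * TAU.T w L u e Y (c * x) := by
      intro x
      by_cases hx : x ∈ P
      · unfold TAU.T
        rw [hw.zero x hx, hw.zero (c * x) (Ideal.mul_mem_left _ c hx)]
        simp
      · have hE := (hrx x hx Y hY0).1
        have h5 := (tcj hd hact hσu hσe (z := emb x * Y) (by
          have h6 : ((p * k : ℕ) : ℂ) * (emb x * Y) =
              (k : ℕ) • (emb ((p : ℕ) : OO A B) * (emb x * Y)) := by
            rw [nsmul_eq_mul, hep]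
            push_cast
            ring
          rw [h6]
          exact nsmul_mem (hE.1 _ hcase.mem) k) hE.2).2.2.2
        unfold TAU.T
        rw [map_mul, map_inv₀, hσw, h5, hw.mul, emb_mul hcq]
        have := hw0 x hx
        have e6 : emb c * (emb x * Y) = emb c * emb x * Y := by ring
        rw [e6]
        field_simp
    rw [map_sum]
    simp_rw [hterm]
    rw [← Finset.mul_sum]
    congr 1
    have hprime : P.IsPrime := hcase.prime
    have hdom : IsDomain (OO A B ⧸ P) := Ideal.Quotient.isDomain _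
    set cb := Ideal.Quotient.mk P c with hcb
    have hcb0 : cb ≠ 0 := fun h => hc (Ideal.Quotient.eq_zero_iff_mem.1 h)
    have hbij : Function.Bijective (fun q : OO A B ⧸ P => cb * q) := by
      rw [← Finite.injective_iff_bijective]
      intro a b hab
      exact mul_left_cancel₀ hcb0 hab
    rw [← Function.Bijective.sum_comp hbij (fun q => TAU.T w L u e Y (Quotient.out q))]
    apply Finset.sum_congr rfl
    intro q _
    apply hTper
    rw [← Ideal.Quotient.eq, map_mul, hout, hout]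

end

end Pool.Agent.OETB
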