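import Pool.Agent.OE.T_TAU
import Pool.Agent.OB.T_RTU
import Pool.Agent.OB.T_TYF
import Pool.Agent.N2.T3_UNF

/-!
# OE, block T (helper96): TYPE, every prime `p ≥ 5` (after helper4's `ME/T_TYF4.lean`)

`σ` in the inertia group at `V` of a large Galois extension `F / k` is trivial on `RFE g`, `g = (m') Pc(P)^(j+1)` (`O_RFINE`), so it acts on the points of level `m = p^(j+1) m'` of `L_0` as `d c`, `d = ± 1`, `c ≡ 1`
modulo `g` (`actG`). `σ u = d u` (`sgu`), `σ tau = w(c) tau`, `v(tau)^(q-1) = v p` (`tauE`), `e(d c) σ(P/om) = P/om` (`valE`), so `e(c) σ(P/(u om)) = P/(u om)` and `tau^i P/(u om)` is fixed by the inertia group.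
-/

set_option autoImplicit false

namespace Pool.Agent.OETB

open _root_.MU3 Pool.Agent.MU3A Pool.Agent.MU3B Pool.Agent.RI Pool.Agent.MUX Pool.Agent.MUXU
open OnePoint Pool.Agent.NS Pool.Agent.ME2 Pool.Agent.OB Pool.Agent.OE
open Pool.Agent.ME hiding ActE
open Pool.Agent.MUXV (GR InK)
open Pool.Agent.NSE (su ru)
open Pool.Agent.MUXY (ActN Dn)
open Pool.Agent.NST (KIn nt_GLC)
open Pool.Agent.NST.TYF (dn_mono idl_ne_bot)

noncomputable section

/-- (TYFE) -/
theorem tyf (hR : O_RFINE) : O_TYFE := by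
  intro p A B P V f hS hT ι _ R u el lam hG w hw e he r hr her i hi ka hka
  have hE := hS.toCaseE
  have hQ : CQ A B := hE.toCQ
  have hp : p.Prime := hS.pp
  obtain ⟨hvp, hv2, -, -, hemP, hnu, -, hq1, hq4, -, hcopP, hidp⟩ :=
    OEE.ee_BAS p 1 A B P V (OEE.toX hS.toCaseOE)
  rw [pow_one] at hidp
  have hu0 : u ≠ 0 := hG.u0
  have hr0 : r ≠ 0 := by
    rintro rfl
    exact hr (dvd_zero p)
  have hf2 : 2 ∣ f := hS.f2
  have hf3 : 3 ≤ f := by
    have := hS.f6.2
    omega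
  have h3f : p * f ≠ 0 := mul_ne_zero hp.ne_zero hS.f0
  have h1f : 1 * f ≤ p * f := Nat.mul_le_mul_right _ hp.one_lt.le
  have hL := R.nl R.i0
  have hL0 : IsNE (⊤ : Ideal (OO A B)) (R.L R.i0) (R.om R.i0) := by
    have h1 := hL
    rw [R.b0] at h1
    exact h1
  have hom0 : R.om R.i0 ≠ 0 := hL.om_ne
  have hgt : idl (A := A) (B := B) (p * f) ≠ ⊤ := NST.VAL.idl_ne_top (by omega)
  have hgb : idl (A := A) (B := B) (p * f) ≠ ⊥ := idl_ne_bot hQ h3f
  have hcopb : IsCoprime (sp ((nI (R.b R.i0) : ℕ) : OO A B))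
      (idl (A := A) (B := B) (p * f)) := NST.VAL.coprime_idl (R.cop R.i0)
  obtain ⟨hu2, hel⟩ := ueE hQ hL hG
  have hua2 := alg_RFE hQ hT two_ne_zero hu2
  have hua : IsAlgebraic ℚ u := IsAlgebraic.of_pow two_pos hua2
  have hea := alg_RFE hQ hT two_ne_zero hel
  -- the values
  obtain ⟨Q, hQdef⟩ : ∃ Q : OnePoint ℚ × OnePoint ℚ → ℂ,
    Q = fun q => PhiI (R.b R.i0) e q.1 q.2 / (u * R.om R.i0) := ⟨_, rfl⟩
  obtain ⟨S, N00, hN00, hSD0, hgen⟩ := fgE hQ hL.b_ne hgb he.toIsEI (u * R.om R.i0)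
  have hgen' : ∀ x y, Q (x, y) ∈ AddSubgroup.closure
      (Q '' (S : Set (OnePoint ℚ × OnePoint ℚ))) := by
    rw [hQdef]
    exact hgen
  obtain ⟨j, N, hN3, hjN⟩ := Nat.exists_eq_pow_mul_and_not_dvd hN00 p hp.ne_one
  rw [hjN] at hSD0
  have hN0 : N ≠ 0 := by
    rintro rfl
    exact hN3 (dvd_zero p)
  obtain ⟨tau, htau8, htaua, htau⟩ := tauE hR hS.toCaseOE hT hL0 hG hw
  obtain ⟨m', hm'⟩ : ∃ m', m' = f * N := ⟨_, rfl⟩
  have hm'0 : m' ≠ 0 := by rw [hm']; exact mul_ne_zero hS.f0 hN0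
  have hm'3 : ¬ p ∣ m' := by
    intro h
    rw [hm'] at h
    rcases (Nat.Prime.dvd_mul hp).1 h with h | h
    · exact hS.fp h
    · exact hN3 h
  have hm'C : (m' : ℂ) ≠ 0 := by exact_mod_cast hm'0
  have hfm : f ∣ m' := by rw [hm']; exact Dvd.intro _ rfl
  have h3m' : 3 ≤ m' := hf3.trans (Nat.le_of_dvd (Nat.pos_of_ne_zero hm'0) hfm)
  obtain ⟨m, hm⟩ : ∃ m, m = p ^ (j + 1) * m' := ⟨_, rfl⟩
  have hm0 : m ≠ 0 := by rw [hm]; exact mul_ne_zero (pow_ne_zero _ hp.ne_zero) hm'0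
  have h3m : p ∣ m := by
    rw [hm]
    exact (dvd_pow_self p (Nat.succ_ne_zero j)).mul_right _
  have hmm : m' ∣ m := by rw [hm]; exact dvd_mul_left _ _
  have hpm : p * f ∣ m := by
    rw [hm, pow_succ, mul_assoc]
    exact (mul_dvd_mul_left p hfm).mul_left _
  have hdvd : p ^ j * N ∣ m := by
    rw [hm, hm']
    exact mul_dvd_mul (pow_dvd_pow p (Nat.le_succ j)) (Dvd.intro_left _ rfl)
  -- the ideal `g`
  obtain ⟨g, hg⟩ : ∃ g : Ideal (OO A B), g = idl m' * Pc P ^ (j + 1) := ⟨_, rfl⟩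
  have hidpP : idl (A := A) (B := B) p ≤ Pc P := by
    rw [hidp]
    exact Ideal.mul_le_left
  have hmg : idl (A := A) (B := B) m ≤ g := by
    rw [hm, mul_comm, Pool.Agent.OBT.TYF.idl_mul, Pool.Agent.OBT.TYF.idl_pow, hg]
    exact Ideal.mul_mono le_rfl (Ideal.pow_right_mono hidpP _)
  have hgm : g ≤ idl (A := A) (B := B) m' := by
    rw [hg]
    exact Ideal.mul_le_left
  have hgO : g ≤ gO P f := by
    rw [hg, gO]
    exact Ideal.mul_mono (idl_mono hfm) (Ideal.pow_le_self (Nat.succ_ne_zero _))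
  have hg2 : g ≤ idl (A := A) (B := B) 2 := hgm.trans (idl_mono (hf2.trans hfm))
  have hgbot : g ≠ ⊥ := by
    intro h
    rw [h, le_bot_iff] at hmg
    exact idl_ne_bot hQ hm0 hmg
  have hgP : ¬ g ≤ P := by
    intro h
    have hPp : P.IsPrime := hS.prime
    rw [hg] at h
    rcases hPp.mul_le.1 h with h1 | h1
    · have h2 : ((m' : ℕ) : OO A B) ∈ P := h1 (Ideal.mem_span_singleton_self _)
      have h3 := (hemP _).2 h2
      rw [MUX.emb_natCast hQ, hnu m' hm'3] at h3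
      exact lt_irrefl _ h3
    · exact hS.toCaseOE.not_le hcopP (hPp.le_of_pow_le h1)
  -- the point of level `m'`
  have hm'1 : m' ≠ 1 := by omega
  have hz1 : R.om R.i0 / m' ∉ (R.L R.i0).lattice := by
    intro h
    obtain ⟨x, -, hx⟩ := (hL.mem _).1 h
    apply NST.TYF.nat_mul_ne_one hQ hm'1 x
    apply MUX.emb_inj hQ
    rw [MUX.emb_mul hQ, MUX.emb_natCast hQ, MUX.emb_one hQ]
    field_simp at hx
    rw [← hx]
  have hz2 : (m' : ℂ) * (R.om R.i0 / m') ∈ (R.L R.i0).lattice := by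
    rw [mul_div_cancel₀ _ hm'C]
    exact (hL0.mem _).2 ⟨1, trivial, by rw [MUX.emb_one hQ, mul_one]⟩
  have hYa := (coordE hQ hT hL hua2 hea m' hm'0 _ hz1 hz2).2.1
  have hQalg : ∀ q, IsAlgebraic ℚ (Q q) := by
    intro q
    have h1 := algE hE hT hL he.toIsEI hgt h3f (natCast_mem_idl (p * f)) hcopb hr0 her q.1 q.2
    have h3 : Q q = PhiI (R.b R.i0) e q.1 q.2 / R.om R.i0 * u⁻¹ := by
      rw [hQdef]
      field_simp
    rw [h3]
    exact h1.mul hua.inv
  -- the field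
  have h8r : (nI P - 1) * r ≠ 0 := mul_ne_zero (by omega) hr0
  set Ts : Set ℂ := (Q '' (S : Set (OnePoint ℚ × OnePoint ℚ))) ∪
    ({tau, yu (R.L R.i0) u (R.om R.i0 / m')} ∪
      ((Polynomial.nthRootsFinset ((nI P - 1) * r) (1 : ℂ) : Finset ℂ) : Set ℂ)) with hTs
  have hTfin : Ts.Finite := by
    refine Set.Finite.union ?_ (Set.Finite.union ?_ ?_)
    · exact (Finset.finite_toSet S).image _
    · exact Set.toFinite _
    · exact Finset.finite_toSet _
  have hTalg : ∀ t ∈ Ts, IsAlgebraic ℚ t := by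
    rintro t (⟨q, -, rfl⟩ | (ht | ht))
    · exact hQalg q
    · rcases ht with rfl | ht
      · exact htaua
      · rw [Set.mem_singleton_iff] at ht
        rw [ht]
        exact hYa
    · rw [Finset.mem_coe, Polynomial.mem_nthRootsFinset (Nat.pos_of_ne_zero h8r)] at ht
      refine ⟨Polynomial.X ^ ((nI P - 1) * r) - 1, Polynomial.X_pow_sub_C_ne_zero
        (Nat.pos_of_ne_zero h8r) (1 : ℚ), ?_⟩
      simp [ht]
  obtain ⟨F, hFf, hFg, hEF, hTF⟩ := nt_GLC A B hQ (RFE g)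
    (hT.fin _ hgbot) Ts hTfin hTalg
  have htau0 : tau ≠ 0 := by
    rintro rfl
    rw [map_zero, zero_pow (by omega)] at htau8
    exact (V.valuation.ne_zero_iff.2 (Nat.cast_ne_zero.2 hp.ne_zero)) htau8.symm
  have htauF : tau ∈ F := hTF (Or.inr (Or.inl (Or.inl rfl)))
  have hyF : yu (R.L R.i0) u (R.om R.i0 / m') ∈ F := hTF (Or.inr (Or.inl (Or.inr rfl)))
  have hrF : ∀ z : ℂ, z ^ ((nI P - 1) * r) = 1 → z ∈ F := fun z hz => hTF (Or.inr (Or.inr (by
    rw [Finset.mem_coe, Polynomial.mem_nthRootsFinset (Nat.pos_of_ne_zero h8r)]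
    exact hz)))
  have h38r : ¬ p ∣ (nI P - 1) * r := by
    intro h
    rcases (Nat.Prime.dvd_mul hp).1 h with h | h
    · exact hq1 h
    · exact hr h
  have hunf : ∀ w' ∈ KIn A B V F, V.valuation w' < 1 →
      V.valuation w' ≤ V.valuation (p : ℂ) := by
    intro w' hw' hw1
    have h2 := Pool.Agent.N2T.unfP hQ hS.hV hS.mem hS.unr F w' hw' hw1
    rwa [MUX.emb_natCast hQ] at h2
  -- the key point
  have hkey : ∀ σ : ℂ ≃+* ℂ, InI A B V (F : Set ℂ) σ → ∀ q ∈ S,
      σ (Q q * tau ^ i) = Q q * tau ^ i := by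
    intro σ hσ q hq
    have hRF : ∀ y ∈ RFE g, σ y = y :=
      (hR p A B P V hS.toCaseOE hT).2 g hgbot hg2 hgP σ hσ.fix
        (fun y hy hyV => hσ.iner y (hEF hy) hyV)
    have hle : (RFE (idl (A := A) (B := B) 2) : IntermediateField (kk A B) ℂ) ≤
        RFE g := hT.mono _ _ hg2
    have hsu2 : σ (u ^ 2) = u ^ 2 := hRF _ (hle hu2)
    have hsel : σ el = el := hRF _ (hle hel)
    obtain ⟨c0, c, d, hd, hc0, hcg, hcop, hact, hz⟩ := actG hE hT hm0 hmg hg2 hσ.fix hRF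
    have hA := hact _ _ _ hL
    have hcm : c - 1 ∈ idl (A := A) (B := B) m' := hgm hcg
    have hembc : emb c0 = (d : ℂ) * emb c := by
      rw [hc0, MUX.emb_mul hQ, MUX.emb_intCast hQ]
    have hec0 : e c0 = (d : ℂ) * e c := by
      rw [hc0, he.mul]
      congr 1
      rcases hd with rfl | rfl
      · rw [Int.cast_one, Int.cast_one, he.one]
      · rw [Int.cast_neg, Int.cast_one, Int.cast_neg, Int.cast_one, he.neg]
    have hc3 : c ∉ P := by
      intro h
      have h6 : c0 ∈ P := by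
        rw [hc0]
        exact Ideal.mul_mem_left _ _ h
      exact Pool.Agent.OBT.TYF.not_mem hS.prime hS.mem h3m hcop h6
    have hA' : ActN σ m (sp c0) (R.L R.i0) (R.L R.i0) ((d : ℂ) * emb c) := by
      rw [← hembc]
      exact hA
    have hsu : σ u = d * u := by
      refine sgu hQ hv2 hL0.toIsLI hG h3m' (hnu m' hm'3) hmm hcm hd hA' hsu2 ?_
      intro h
      have h1 := hσ.iner _ hyF ((V.valuation_le_one_iff _).1 h)
      rwa [ValuationSubring.mem_nonunits_iff] at h1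
    have hroot : ∀ z : ℂ, (z = 0 ∨ z ^ ((nI P - 1) * r) = 1) → σ z = z := by
      refine (Pool.Agent.OBT.o_RTU p hp V hvp ((nI P - 1) * r) h38r).2 σ ?_
      intro z hz
      have hz1 : V.valuation z = 1 := by
        have h1 : (V.valuation z) ^ ((nI P - 1) * r) = 1 := by rw [← map_pow, hz, map_one]
        exact (pow_eq_one_iff.1 h1).resolve_right h8r
      have h1 := hσ.iner z (hrF z hz) ((V.valuation_le_one_iff _).1 hz1.le)
      rwa [ValuationSubring.mem_nonunits_iff] at h1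
    have hse : ∀ x, σ (e x) = e x := by
      intro x
      apply hroot
      by_cases hx : e x = 0
      · exact Or.inl hx
      · right
        rw [mul_comm, pow_mul, her x hx, one_pow]
    have hsw : ∀ x, σ (w x) = w x := by
      intro x
      apply hroot
      by_cases hx : x ∈ P
      · exact Or.inl (hw.zero x hx)
      · right
        rw [pow_mul, hw.pow x hx, one_pow]
    have h1 := valE hQ hL.toIsLI hm0 hA hz he.toIsEI hgt
      (idl_mono hpm (natCast_mem_idl m)) hcopb hse q.1 q.2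
      (dn_mono hdvd (hSD0 q hq).1) (dn_mono hdvd (hSD0 q hq).2)
    have h2 : σ tau = w c * tau := htau m h3m _ σ c d hd hA' hc3 hsu hsel hsw
    have h3 : e c = w c ^ i := hi c (hgO hcg) hc3
    have hdd : (d : ℂ) * d = 1 := by
      rcases hd with rfl | rfl <;> norm_num
    have hd0 : (d : ℂ) ≠ 0 := left_ne_zero_of_mul_eq_one hdd
    have h6 : e c * σ (Q q) = Q q := by
      have h7 : ∀ q, Q q = PhiI (R.b R.i0) e q.1 q.2 / R.om R.i0 / u := by
        intro q
        rw [hQdef]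
        field_simp
      rw [h7, map_div₀, hsu]
      nth_rewrite 2 [← h1]
      rw [hec0]
      field_simp
      linear_combination (-(e c * σ (PhiI (R.b R.i0) e q.1 q.2 / R.om R.i0))) * hdd
    rw [map_mul, map_pow, h2, mul_pow, ← h3]
    calc σ (Q q) * (e c * tau ^ i) = (e c * σ (Q q)) * tau ^ i := by ring
      _ = Q q * tau ^ i := by rw [h6]
  have hi0 : ∀ i, i = R.i0 := one_elt hE R
  have hQU : ∀ x y, PhiKE R e ka x y / (u * R.om R.i0) = ka R.i0 * Q (x, y) := by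
    intro x y
    unfold PhiKE
    rw [Finset.sum_eq_single R.i0 (fun i _ hi => absurd (hi0 i) hi)
      (fun h => absurd (Finset.mem_univ _) h), hQdef]
    field_simp
  have hvk : V.valuation (ka R.i0) = 1 := NST.RTU.v_root hr0 (hka R.i0)
  refine ⟨ka R.i0 * (tau ^ i)⁻¹, KIn A B V F, ?_, hunf, ?_⟩
  · have hle : AddSubgroup.closure (Q '' (S : Set (OnePoint ℚ × OnePoint ℚ))) ≤
        ((KIn A B V F).toAddSubgroup).map (AddMonoidHom.mulLeft ((tau ^ i)⁻¹)) := by
      rw [AddSubgroup.closure_le]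
      rintro _ ⟨q, hq, rfl⟩
      refine ⟨Q q * tau ^ i, ⟨?_, fun σ hσ => hkey σ hσ q hq⟩, ?_⟩
      · exact F.mul_mem (hTF (Or.inl ⟨q, hq, rfl⟩)) (F.pow_mem htauF i)
      · rw [AddMonoidHom.coe_mulLeft]
        field_simp
    intro x y
    obtain ⟨w', hw', hw2⟩ := hle (hgen' x y)
    refine ⟨w', hw', ?_⟩
    rw [hQU, ← hw2, AddMonoidHom.coe_mulLeft]
    ring
  · rw [map_mul, hvk, one_mul, map_inv₀, map_pow, inv_pow, ← pow_mul,
      mul_comm i (nI P - 1), pow_mul, ← one_mul (nI P - 1), htau8]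
    exact inv_mul_cancel₀ (pow_ne_zero _ (V.valuation.ne_zero_iff.2
      (Nat.cast_ne_zero.2 hp.ne_zero)))

end

end Pool.Agent.OETB
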